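import Mathlib

attribute [-instance] SubfieldClass.toSubringClass instNoNatZeroDivisorsOfIsAddTorsionFree
  SeminormedAddCommGroup.toAddCommGroup NormedAddCommGroup.toAddCommGroup
  NonUnitalAlgSemiHomClass.toDistribMulActionSemiHomClass AddCommMonoidWithOne.toAddMonoidWithOne
  NonUnitalNonAssocRing.toAddCommGroup NonUnitalSubringClass.addSubgroupClass CommRing.toRing
  ContinuousMonoidHom.instCoeOutOfMonoidHomClassOfContinuousMapClass Submodule.IsLattice.finite
  SubringClass.toRing SemilatticeInf.toPartialOrder IdemSemiring.toSemiring RCLike.charZero_rclike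
  NumberField.instFiniteDimensional SubringClass.addSubgroupClass CompletePartialOrder.toPartialOrder
  instCoeOTCOfCoeTC instCharZeroOfIsSemireal littleWedderburn LieRing.toAddCommGroup
  List.instDecidableMemOfLawfulBEq

/-!
Oriented triangulated surfaces with six darts per vertex, the invariant `J`, edge contractions,
and barycentric descriptions of a triangulated space.
-/

namespace Pool.Agent.MP_6209da_co

open Finset

/-- An oriented triangulated closed connected surface with Euler characteristic zero on the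
vertex set `vs`; `nx u w` is the apex of the triangle to the left of the dart from `u` to `w`. -/
structure Surf (V : Type) [Fintype V] where
  vs : Finset V
  adj : V → V → Prop
  nx : V → V → V
  symm : ∀ {u w}, adj u w → adj w u
  irr : ∀ u, ¬ adj u u
  mem : ∀ {u w}, adj u w → u ∈ vs
  adj_nx : ∀ {u w}, adj u w → adj w (nx u w)
  nx_nx : ∀ {u w}, adj u w → nx w (nx u w) = u
  ne : ∀ {u w}, adj u w → nx u w ≠ nx w u
  link : ∀ (v : V) (P : V → Prop) (a : V), adj v a → P a →
    (∀ x, adj v x → P x → P (nx v x)) → ∀ b, adj v b → P b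
  conn : ∀ (P : V → Prop) (a : V), a ∈ vs → P a → (∀ x y, adj x y → P x → P y) → ∀ b ∈ vs, P b
  nonempty : vs.Nonempty
  cnt : {p : V × V | adj p.1 p.2}.ncard = 6 * vs.card

namespace Surf

variable {V : Type} [Fintype V] (T : Surf V) {u w : V}

theorem adj_nx' (h : T.adj u w) : T.adj u (T.nx u w) := by
  have := T.adj_nx (T.adj_nx h)
  rw [T.nx_nx h] at this
  exact T.symm this

theorem nx_nx' (h : T.adj u w) : T.nx (T.nx u w) u = w := by
  have := T.nx_nx (T.adj_nx h)
  rwa [T.nx_nx h] at this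

theorem ne_of_adj (h : T.adj u w) : u ≠ w := fun e => T.irr u (by rwa [← e] at h)

theorem nx_ne_left (h : T.adj u w) : T.nx u w ≠ u := (T.ne_of_adj (T.adj_nx' h)).symm

theorem nx_ne_right (h : T.adj u w) : T.nx u w ≠ w := (T.ne_of_adj (T.adj_nx h)).symm

theorem nx_inj {x : V} (h : T.adj u w) (h' : T.adj u x) (e : T.nx u w = T.nx u x) : w = x := by
  rw [← T.nx_nx' h, e, T.nx_nx' h']

/-- `nx w u` is the predecessor of `w` in the rotation at `u`. -/
theorem nx_prev (h : T.adj u w) : T.nx u (T.nx w u) = w := T.nx_nx (T.symm h)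

theorem exists_adj (hu : u ∈ T.vs) : ∃ x, T.adj u x := by
  have hne : {p : V × V | T.adj p.1 p.2}.Nonempty := by
    rw [← Set.ncard_pos, T.cnt]
    have := T.nonempty.card_pos
    omega
  obtain ⟨p, hp⟩ := hne
  exact T.conn (fun b => ∃ x, T.adj b x) p.1 (T.mem hp) ⟨_, hp⟩
    (fun x y h _ => ⟨x, T.symm h⟩) u hu

/-- Every edge has a third common neighbour. -/
def Irr : Prop :=
  ∀ u w, T.adj u w → ∃ y, T.adj u y ∧ T.adj w y ∧ y ≠ T.nx u w ∧ y ≠ T.nx w u

end Surf

abbrev W : Type := Fin 5 → ℝ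

/-- The determinant of three vectors. -/
def tp (a b c : Fin 3 → ℝ) : ℝ :=
  a 0 * (b 1 * c 2 - b 2 * c 1) - a 1 * (b 0 * c 2 - b 2 * c 0) + a 2 * (b 0 * c 1 - b 1 * c 0)

def om (P : Fin 3 → W) (a b c : W) : ℝ :=
  tp (fun i => P i ⬝ᵥ a) (fun i => P i ⬝ᵥ b) (fun i => P i ⬝ᵥ c)

/-- Points `X`, supporting functionals `F` of the triangles, projections `P` that make the
functionals around each vertex a strictly convex polygon. -/
structure JD {V : Type} [Fintype V] (T : Surf V) (X : V → W) (F : V → V → W)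
    (P : V → Fin 3 → W) : Prop where
  inv : ∀ u w, T.adj u w → F w (T.nx u w) = F u w
  zero : ∀ u w, T.adj u w → X u ⬝ᵥ F u w = 0
  pos : ∀ u w z, T.adj u w → z ∈ T.vs → z ≠ u → z ≠ w → z ≠ T.nx u w → 0 < X z ⬝ᵥ F u w
  low : ∀ u w, T.adj u w → 0 < F u w 4
  one : ∀ z ∈ T.vs, 0 < X z 0
  cvx : ∀ v a d, T.adj v a → T.adj v d → d ≠ a → d ≠ T.nx v a →
    0 < om (P v) (F v a) (F v (T.nx v a)) (F v d)

def J {V : Type} [Fintype V] (T : Surf V) : Prop := ∃ X F P, JD T X F P

/-- The collapse of `v₁` onto `v₂`. -/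
def col {V : Type} [DecidableEq V] (v₁ v₂ z : V) : V := if z = v₁ then v₂ else z

/-- The triangle left of the dart contains both `v₁` and `v₂`. -/
def Surf.Flat {V : Type} [Fintype V] (T : Surf V) (v₁ v₂ u w : V) : Prop :=
  (v₁ = u ∨ v₁ = w ∨ v₁ = T.nx u w) ∧ (v₂ = u ∨ v₂ = w ∨ v₂ = T.nx u w)

/-- `T` arises from `T'` by contracting the edge `v₁ v₂` onto `v₂`. -/
structure Contr {V : Type} [Fintype V] [DecidableEq V] (T' T : Surf V) (v₁ v₂ : V) : Prop where
  adj : T'.adj v₁ v₂
  common : ∀ y, T'.adj v₁ y → T'.adj v₂ y → y = T'.nx v₁ v₂ ∨ y = T'.nx v₂ v₁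
  vs : T.vs = T'.vs.erase v₁
  map : ∀ u w, T'.adj u w → ¬ T'.Flat v₁ v₂ u w →
    T.adj (col v₁ v₂ u) (col v₁ v₂ w) ∧
      T.nx (col v₁ v₂ u) (col v₁ v₂ w) = col v₁ v₂ (T'.nx u w)

/-- Barycentric coordinates on a space `M` triangulated by the faces `Fc`. -/
structure Bary (M : Type) [TopologicalSpace M] {V : Type} [Fintype V] [DecidableEq V]
    (Fc : Finset V → Prop) (lam : M → V → ℝ) : Prop where
  nonempty : ∀ s, Fc s → s.Nonempty
  down : ∀ s t, Fc s → t ⊆ s → t.Nonempty → Fc t
  single : ∀ v, Fc {v}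
  cont : Continuous lam
  inj : Function.Injective lam
  range : ∀ y : V → ℝ, (∃ x, lam x = y) ↔
    (∀ v, 0 ≤ y v) ∧ ∑ v, y v = 1 ∧ ∃ s, Fc s ∧ ∀ v, v ∉ s → y v = 0

/-- The local combinatorics of a triangulated closed connected surface. -/
structure Loc {V : Type} [DecidableEq V] (Fc : Finset V → Prop) : Prop where
  card : ∀ s, Fc s → s.card ≤ 3
  two : ∀ u w, u ≠ w → Fc {u, w} →
    ∃ a b, a ≠ b ∧ ∀ y, (y ≠ u ∧ y ≠ w ∧ Fc {u, w, y}) ↔ (y = a ∨ y = b)
  nb : ∀ v, ∃ w, w ≠ v ∧ Fc {v, w}
  link : ∀ (v : V) (P : V → Prop),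
    (∀ x y, x ≠ v → y ≠ v → Fc {v, x, y} → P x → P y) →
      ∀ a b, a ≠ v → b ≠ v → Fc {v, a} → Fc {v, b} → P a → P b
  conn : ∀ P : V → Prop, (∀ x y, Fc {x, y} → P x → P y) → ∀ a b, P a → P b

/-- A one-cocycle (the vertices need not be distinct). -/
def Coc {V A : Type} [DecidableEq V] [AddCommGroup A] (Fc : Finset V → Prop) (φ : V → V → A) :
    Prop :=
  ∀ u w y, Fc {u, w, y} → φ u w + φ w y = φ u y

/-- First Betti number at most two modulo two, at least two over the reals. -/
structure Glob {V : Type} [DecidableEq V] (Fc : Finset V → Prop) : Prop where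
  up : ∀ φ : Fin 3 → V → V → ZMod 2, (∀ i, Coc Fc (φ i)) → ∃ ε : Fin 3 → ZMod 2, ε ≠ 0 ∧
    ∃ ψ : V → ZMod 2, ∀ u w, Fc {u, w} → ∑ i, ε i * φ i u w = ψ w - ψ u
  lo : ∃ c : Fin 2 → V → V → ℝ, (∀ i, Coc Fc (c i)) ∧ ∀ (l : Fin 2 → ℝ) (ψ : V → ℝ),
    (∀ u w, Fc {u, w} → ∑ i, l i * c i u w = ψ w - ψ u) → l = 0

abbrev Tor : Type := AddCircle (1 : ℝ) × AddCircle (1 : ℝ)

end Pool.Agent.MP_6209da_co

/-! Corners of a subgraph, functions on triangles modulo two. -/

namespace Pool.Agent.MP_6209da_co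

open Finset Relation

namespace Surf

variable {V : Type} [Fintype V] (T : Surf V)

/-- One step of the rotation at `w` that lands outside `M`. -/
def Stp (M : V → Prop) (w a b : V) : Prop := T.adj w a ∧ b = T.nx w a ∧ ¬ M b

/-- Rotating at `w` from `z`, one reaches `u` through vertices outside `M`. -/
def Gap (M : V → Prop) (w z u : V) : Prop :=
  ∃ y, ReflTransGen (T.Stp M w) z y ∧ T.adj w y ∧ T.nx w y = u

noncomputable def deg (v : V) : ℕ := {w | T.adj v w}.ncard

/-- Functions on triangles, read on the darts that have the triangle on their left. -/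
def Tri (s : V → V → ZMod 2) : Prop :=
  (∀ u w, ¬ T.adj u w → s u w = 0) ∧ ∀ u w, T.adj u w → s w (T.nx u w) = s u w

/-- Cycles modulo two. -/
def Cyc (z : V → V → ZMod 2) : Prop :=
  (∀ u w, ¬ T.adj u w → z u w = 0) ∧ (∀ u w, z u w = z w u) ∧ ∀ u, ∑ w, z u w = 0

/-- Functions on triangles that are constant on the regions of `G`. -/
def Reg (G : Finset (Sym2 V)) : Submodule (ZMod 2) (V → V → ZMod 2) where
  carrier := {s | T.Tri s ∧ ∀ u w, s(u, w) ∉ G → s u w = s w u}
  add_mem' := by
    rintro a b ⟨⟨a1, a2⟩, a3⟩ ⟨⟨b1, b2⟩, b3⟩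
    exact ⟨⟨fun u w h => by simp [a1 u w h, b1 u w h], fun u w h => by simp [a2 u w h, b2 u w h]⟩,
      fun u w h => by simp [a3 u w h, b3 u w h]⟩
  zero_mem' := ⟨⟨fun _ _ _ => rfl, fun _ _ _ => rfl⟩, fun _ _ _ => rfl⟩
  smul_mem' := by
    rintro c a ⟨⟨a1, a2⟩, a3⟩
    exact ⟨⟨fun u w h => by simp [a1 u w h], fun u w h => by simp [a2 u w h]⟩,
      fun u w h => by simp [a3 u w h]⟩

/-- Functions on the darts of `G` that are constant along the faces of `G`. -/
def Inv (G : Finset (Sym2 V)) : Submodule (ZMod 2) (V → V → ZMod 2) where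
  carrier := {f | (∀ u w, s(u, w) ∉ G → f u w = 0) ∧ ∀ w z u, s(w, z) ∈ G → s(w, u) ∈ G →
    T.Gap (fun x => s(w, x) ∈ G) w z u → f u w = f w z}
  add_mem' := by
    rintro a b ⟨a1, a2⟩ ⟨b1, b2⟩
    exact ⟨fun u w h => by simp [a1 u w h, b1 u w h],
      fun w z u h h' g => by simp [a2 w z u h h' g, b2 w z u h h' g]⟩
  zero_mem' := ⟨fun _ _ _ => rfl, fun _ _ _ _ _ _ => rfl⟩
  smul_mem' := by
    rintro c a ⟨a1, a2⟩
    exact ⟨fun u w h => by simp [a1 u w h], fun w z u h h' g => by simp [a2 w z u h h' g]⟩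

variable {T} {M M' : V → Prop} {w z u x : V}

theorem stp_adj (h : ReflTransGen (T.Stp M w) z x) (hz : T.adj w z) : T.adj w x := by
  induction h with
  | refl => exact hz
  | tail _ h _ => rw [h.2.1]; exact T.adj_nx' h.1

theorem Gap.adj_left (h : T.Gap M w z u) : T.adj w z := by
  obtain ⟨y, h1, h2, -⟩ := h
  rcases h1.cases_head with rfl | ⟨c, h, -⟩
  · exact h2
  · exact h.1

theorem Gap.adj_right (h : T.Gap M w z u) : T.adj w u := by
  obtain ⟨y, -, h2, rfl⟩ := h
  exact T.adj_nx' h2

theorem gap_nx (h : T.adj w z) : T.Gap M w z (T.nx w z) := ⟨z, .refl, h, rfl⟩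

theorem Gap.mono (h : T.Gap M w z u) (hM : ∀ x, M' x → M x) : T.Gap M' w z u := by
  obtain ⟨y, h1, h2⟩ := h
  have : T.Stp M w ≤ T.Stp M' w := fun a b h => ⟨h.1, h.2.1, fun e => h.2.2 (hM _ e)⟩
  exact ⟨y, ReflTransGen.mono this _ _ h1, h2⟩

theorem Gap.trans (h : T.Gap M w z x) (hx : ¬ M x) (h' : T.Gap M w x u) : T.Gap M w z u := by
  obtain ⟨y, h1, h2, rfl⟩ := h
  obtain ⟨y', h3, h4⟩ := h'
  exact ⟨y', (h1.tail ⟨h2, rfl, hx⟩).trans h3, h4⟩

/-- A triangle function that does not jump outside `M` is constant along a gap. -/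
theorem Gap.tri {s : V → V → ZMod 2} (hs : T.Tri s) (h : T.Gap M w z u)
    (hM : ∀ x, T.adj w x → ¬ M x → s w x = s x w) : s u w = s w z := by
  obtain ⟨y, h1, h2, rfl⟩ := h
  have key : ∀ a, T.adj w a → s (T.nx w a) w = s w a := fun a ha => by
    have h3 := hs.2 _ _ (T.adj_nx ha)
    rw [T.nx_nx ha] at h3
    rw [h3, hs.2 _ _ ha]
  rw [key y h2]
  induction h1 with
  | refl => rfl
  | tail _ h ih =>
    obtain ⟨ha, rfl, hn⟩ := h
    rw [hM _ h2 hn, key _ ha, ih ha]

theorem Gap.fwd {u' : V} (h : T.Gap M w z u) (h' : T.Gap M w z u') (hu : M u) (hu' : M u') :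
    u = u' := by
  obtain ⟨y, h1, -, rfl⟩ := h
  obtain ⟨y', h2, -, rfl⟩ := h'
  have ru : Relator.RightUnique (T.Stp M w) := fun a b c p q => p.2.1.trans q.2.1.symm
  rcases ReflTransGen.total_of_right_unique ru h1 h2 with h | h
  · rcases h.cases_head with rfl | ⟨c, h, -⟩
    · rfl
    · exact absurd (h.2.1 ▸ hu) h.2.2
  · rcases h.cases_head with rfl | ⟨c, h, -⟩
    · rfl
    · exact absurd (h.2.1 ▸ hu') h.2.2

theorem Gap.total {z' : V} (h : T.Gap M w z u) (h' : T.Gap M w z' u) :
    ReflTransGen (T.Stp M w) z z' ∨ ReflTransGen (T.Stp M w) z' z := by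
  obtain ⟨y, h1, h3, e⟩ := h
  obtain ⟨y', h2, h4, e'⟩ := h'
  obtain rfl := T.nx_inj h3 h4 (e.trans e'.symm)
  have ru : Relator.RightUnique (Function.swap (T.Stp M w)) := fun a b c p q =>
    T.nx_inj p.1 q.1 (p.2.1.symm.trans q.2.1)
  rcases ReflTransGen.total_of_right_unique ru h1.swap h2.swap with h | h
  · exact Or.inr (reflTransGen_swap.1 h)
  · exact Or.inl (reflTransGen_swap.1 h)

theorem stp_eq (h : ReflTransGen (T.Stp M w) z x) (hx : M x) : z = x := by
  rcases h.cases_tail with rfl | ⟨c, -, h⟩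
  · rfl
  · exact absurd hx h.2.2

theorem Gap.bwd {z' : V} (h : T.Gap M w z u) (h' : T.Gap M w z' u) (hz : M z) (hz' : M z') :
    z = z' := by
  rcases h.total h' with h | h
  · exact stp_eq h hz'
  · exact (stp_eq h hz).symm

/-- The first vertex of `M` after `z`. -/
theorem exists_gap (hz : T.adj w z) (hx : T.adj w x) (hM : M x) : ∃ u, M u ∧ T.Gap M w z u := by
  by_contra hc
  push Not at hc
  have := T.link w (fun b => T.Gap M w z b) _ (T.adj_nx' hz) (gap_nx hz)
    (fun b hb h => h.trans (fun e => hc b e h) (gap_nx hb)) x hx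
  exact hc x hM this

theorem stp_split (h : ReflTransGen (T.Stp M w) z u) :
    ReflTransGen (T.Stp (fun y => M y ∨ y = x) w) z u ∨
      (T.Gap (fun y => M y ∨ y = x) w z x ∧ ReflTransGen (T.Stp M w) x u) := by
  induction h with
  | refl => exact Or.inl .refl
  | @tail b c _ h ih =>
    rcases ih with ih | ih
    · by_cases e : c = x
      · exact Or.inr ⟨⟨b, ih, h.1, h.2.1.symm.trans e⟩, e ▸ .refl⟩
      · exact Or.inl (ih.tail ⟨h.1, h.2.1, fun o => o.elim h.2.2 e⟩)
    · exact Or.inr ⟨ih.1, ih.2.tail h⟩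

theorem Gap.split (h : T.Gap M w z u) (x : V) : T.Gap (fun y => M y ∨ y = x) w z u ∨
    (T.Gap (fun y => M y ∨ y = x) w z x ∧ T.Gap M w x u) := by
  obtain ⟨y, h1, h2⟩ := h
  rcases stp_split (x := x) h1 with h | h
  · exact Or.inl ⟨y, h, h2⟩
  · exact Or.inr ⟨h.1, y, h.2, h2⟩

/-- A gap from `x` to itself sees all neighbours. -/
theorem Gap.self {M : V → Prop} (h : T.Gap M w x x) (hx : M x) (hu : T.adj w u) (hM : M u) :
    u = x := by
  have := T.link w (fun b => b = x ∨ (¬ M b ∧ T.Gap M w x b)) x h.adj_left (Or.inl rfl)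
    (fun b hb hP => by
      have g : T.Gap M w x (T.nx w b) := by
        rcases hP with rfl | hP
        · exact gap_nx hb
        · exact hP.2.trans hP.1 (gap_nx hb)
      by_cases e : M (T.nx w b)
      · exact Or.inl (g.fwd h e hx)
      · exact Or.inr ⟨e, g⟩) u hu
  exact this.resolve_right fun o => o.1 hM

/-- Inserting `x` in the corner that ends at `u`: the part after `x`. -/
theorem Gap.ins_right (h : T.Gap M w x u) (hx : ¬ M x) (hu : M u) :
    T.Gap (fun y => M y ∨ y = x) w x u := by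
  rcases h.split x with g | g
  · exact g
  · have := g.1.self (Or.inr rfl) h.adj_right (Or.inl hu)
    exact absurd (this ▸ hu) hx

/-- Inserting `x` in the corner from `z` to `u`: the part before `x`. -/
theorem Gap.ins_left (h : T.Gap M w x u) (hx : ¬ M x) (hu : M u) (g : T.Gap M w z u) (hz : M z) :
    T.Gap (fun y => M y ∨ y = x) w z x := by
  rcases g.split x with g' | g'
  · have := g'.bwd (h.ins_right hx hu) (Or.inl hz) (Or.inr rfl)
    exact absurd (this ▸ hz) hx
  · exact g'.1

/-- The other corners are unchanged. -/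
theorem Gap.ins_other {u' : V} (h : T.Gap M w x u) (hu : M u) (g : T.Gap M w z u') (hu' : M u')
    (hne : u' ≠ u) : T.Gap (fun y => M y ∨ y = x) w z u' := by
  rcases g.split x with g' | g'
  · exact g'
  · exact absurd (g'.2.fwd h hu' hu) hne

end Surf

end Pool.Agent.MP_6209da_co

namespace Pool.Agent.MP_6209da_co

open Finset

variable {V : Type} [Fintype V] [DecidableEq V]

open Classical in
/-- The darts. -/
noncomputable def hom_D (T : Surf V) : Finset (V × V) := univ.filter fun p => T.adj p.1 p.2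

omit [DecidableEq V] in
theorem hom_mem_D (T : Surf V) {p : V × V} : p ∈ hom_D T ↔ T.adj p.1 p.2 := by
  simp only [hom_D, mem_filter, mem_univ, true_and]

omit [DecidableEq V] in
theorem hom_card_D (T : Surf V) : (hom_D T).card = 6 * T.vs.card := by
  rw [← T.cnt, ← Set.ncard_coe_finset]
  congr 1
  ext p
  simp [hom_mem_D]

/-- The edges. -/
noncomputable def hom_TE (T : Surf V) : Finset (Sym2 V) := (hom_D T).image fun p => s(p.1, p.2)

theorem hom_mem_TE (T : Surf V) {u w : V} (h : T.adj u w) : s(u, w) ∈ hom_TE T :=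
  mem_image.2 ⟨(u, w), (hom_mem_D T).2 h, rfl⟩

theorem hom_card_TE (T : Surf V) : (hom_TE T).card ≤ 3 * T.vs.card := by
  have h : 2 * (hom_TE T).card ≤ (hom_D T).card := by
    refine Finset.mul_card_image_le_card _ _ fun e he => ?_
    obtain ⟨⟨u, w⟩, hp, rfl⟩ := mem_image.1 he
    have ha : T.adj u w := (hom_mem_D T).1 hp
    have hne : (u, w) ≠ (w, u) := fun e => T.ne_of_adj ha (congrArg Prod.fst e)
    rw [← card_pair hne]
    refine card_le_card fun q hq => ?_
    rcases mem_insert.1 hq with rfl | hq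
    · exact mem_filter.2 ⟨hp, rfl⟩
    · rw [mem_singleton.1 hq]
      exact mem_filter.2 ⟨(hom_mem_D T).2 (T.symm ha), Sym2.eq_swap⟩
  rw [hom_card_D] at h
  omega

/-- The triangle on the left of a dart. -/
def hom_f (T : Surf V) (p : V × V) : Finset V := {p.1, p.2, T.nx p.1 p.2}

theorem hom_f_nx (T : Surf V) {u w : V} (h : T.adj u w) :
    hom_f T (w, T.nx u w) = hom_f T (u, w) := by
  ext x
  simp only [hom_f, T.nx_nx h, mem_insert, mem_singleton]
  tauto

theorem hom_fibre (T : Surf V) {u w a b : V} (h : T.adj u w) (h' : T.adj a b)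
    (e : hom_f T (a, b) = hom_f T (u, w)) :
    (a, b) = (u, w) ∨ (a, b) = (w, T.nx u w) ∨ (a, b) = (T.nx u w, u) := by
  have ha : a ∈ hom_f T (u, w) := e ▸ by simp [hom_f]
  have hb : b ∈ hom_f T (u, w) := e ▸ by simp [hom_f]
  have hc : T.nx a b ∈ hom_f T (u, w) := e ▸ by simp [hom_f]
  simp only [hom_f, mem_insert, mem_singleton] at ha hb hc
  have n1 := T.ne_of_adj h'
  have n2 := T.nx_ne_left h'
  have n3 := T.nx_ne_right h'
  have n4 := T.ne h'
  have e1 := T.nx_nx h
  have e2 := T.nx_nx' h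
  rcases ha with rfl | rfl | rfl
  · rcases hb with rfl | rfl | rfl
    · exact absurd rfl n1
    · exact Or.inl rfl
    · rw [e2] at n4
      exact absurd hc (by simp only [not_or]; exact ⟨n2, n4, n3⟩)
  · rcases hb with rfl | rfl | rfl
    · exact absurd hc (by simp only [not_or]; exact ⟨n3, n2, n4⟩)
    · exact absurd rfl n1
    · exact Or.inr (Or.inl rfl)
  · rcases hb with rfl | rfl | rfl
    · exact Or.inr (Or.inr rfl)
    · rw [e1] at n4
      exact absurd hc (by simp only [not_or]; exact ⟨n4, n3, n2⟩)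
    · exact absurd rfl n1

theorem hom_card_F (T : Surf V) : 2 * T.vs.card ≤ ((hom_D T).image (hom_f T)).card := by
  have h : (hom_D T).card ≤ 3 * ((hom_D T).image (hom_f T)).card := by
    refine Finset.card_le_mul_card_image _ _ fun t ht => ?_
    obtain ⟨⟨u, w⟩, hp, rfl⟩ := mem_image.1 ht
    refine le_trans (card_le_card (t := {(u, w), (w, T.nx u w), (T.nx u w, u)}) ?_) card_le_three
    rintro ⟨a, b⟩ hq
    have := mem_filter.1 hq
    simpa using hom_fibre T ((hom_mem_D T).1 hp) ((hom_mem_D T).1 this.1) this.2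
  rw [hom_card_D] at h
  omega

/-- Functions on triangles as a submodule. -/
def hom_Tri (T : Surf V) : Submodule (ZMod 2) (V → V → ZMod 2) where
  carrier := {s | T.Tri s}
  add_mem' := by
    rintro a b ⟨a1, a2⟩ ⟨b1, b2⟩
    exact ⟨fun u w h => by simp [a1 u w h, b1 u w h], fun u w h => by simp [a2 u w h, b2 u w h]⟩
  zero_mem' := ⟨fun _ _ _ => rfl, fun _ _ _ => rfl⟩
  smul_mem' := by
    rintro c a ⟨a1, a2⟩
    exact ⟨fun u w h => by simp [a1 u w h], fun u w h => by simp [a2 u w h]⟩

theorem hom_rank_Tri (T : Surf V) : 2 * T.vs.card ≤ Module.finrank (ZMod 2) (hom_Tri T) := by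
  classical
  refine (hom_card_F T).trans ?_
  have hm : ∀ {u w : V}, T.adj u w → hom_f T (u, w) ∈ (hom_D T).image (hom_f T) :=
    fun h => mem_image_of_mem _ ((hom_mem_D T).2 h)
  let L : (((hom_D T).image (hom_f T) : Finset (Finset V)) → ZMod 2) →ₗ[ZMod 2] hom_Tri T :=
    { toFun := fun g => ⟨fun u w => if h : T.adj u w then g ⟨_, hm h⟩ else 0,
        fun u w h => dif_neg h, fun u w h => by
          beta_reduce
          rw [dif_pos h, dif_pos (T.adj_nx h)]
          exact congrArg g (Subtype.ext (hom_f_nx T h))⟩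
      map_add' := fun a b => by
        ext u w
        by_cases h : T.adj u w <;> simp [h]
      map_smul' := fun c a => by
        ext u w
        by_cases h : T.adj u w <;> simp [h] }
  have hL : Function.Injective L := by
    rw [← LinearMap.ker_eq_bot, LinearMap.ker_eq_bot']
    intro g hg
    ext ⟨t, ht⟩
    obtain ⟨⟨u, w⟩, hp, rfl⟩ := mem_image.1 ht
    have ha : T.adj u w := (hom_mem_D T).1 hp
    have := congrFun (congrFun (congrArg Subtype.val hg) u) w
    simpa only [Pi.zero_apply, L, LinearMap.coe_mk, AddHom.coe_mk, ha, ↓ reduceDIte, ZeroMemClass.coe_zero] using this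
  have h1 := LinearMap.finrank_le_finrank_of_injective hL
  rwa [Module.finrank_fintype_fun_eq_card, Fintype.card_coe] at h1

/-- Functions on the edges outside `G`. -/
def hom_C (T : Surf V) (G : Finset (Sym2 V)) : Submodule (ZMod 2) (V → V → ZMod 2) where
  carrier := {y | (∀ u w, ¬ T.adj u w → y u w = 0) ∧ (∀ u w, y u w = y w u) ∧
    ∀ u w, s(u, w) ∈ G → y u w = 0}
  add_mem' := by
    rintro a b ⟨a1, a2, a3⟩ ⟨b1, b2, b3⟩
    exact ⟨fun u w h => by simp [a1 u w h, b1 u w h], fun u w => by simp [a2 u w, b2 u w],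
      fun u w h => by simp [a3 u w h, b3 u w h]⟩
  zero_mem' := ⟨fun _ _ _ => rfl, fun _ _ => rfl, fun _ _ _ => rfl⟩
  smul_mem' := by
    rintro c a ⟨a1, a2, a3⟩
    exact ⟨fun u w h => by simp [a1 u w h], fun u w => by simp [a2 u w],
      fun u w h => by simp [a3 u w h]⟩

theorem hom_rank_C (T : Surf V) (G : Finset (Sym2 V)) (hG : ∀ u w, s(u, w) ∈ G → T.adj u w) :
    Module.finrank (ZMod 2) (hom_C T G) + G.card ≤ 3 * T.vs.card := by
  have hsub : G ⊆ hom_TE T := fun e => Sym2.ind (fun u w h => hom_mem_TE T (hG u w h)) e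
  let L : hom_C T G →ₗ[ZMod 2] ((hom_TE T \ G : Finset (Sym2 V)) → ZMod 2) :=
    { toFun := fun y e => y.1 (Quot.out e.1).1 (Quot.out e.1).2
      map_add' := fun _ _ => rfl
      map_smul' := fun _ _ => rfl }
  have hL : Function.Injective L := by
    rw [← LinearMap.ker_eq_bot, LinearMap.ker_eq_bot']
    rintro ⟨y, y1, y2, y3⟩ hy
    ext u w
    by_cases ha : T.adj u w
    · by_cases hg : s(u, w) ∈ G
      · exact y3 u w hg
      · have h0 : y (Quot.out s(u, w)).1 (Quot.out s(u, w)).2 = 0 :=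
          congrFun hy ⟨s(u, w), mem_sdiff.2 ⟨hom_mem_TE T ha, hg⟩⟩
        have h1 : s((Quot.out s(u, w)).1, (Quot.out s(u, w)).2) = s(u, w) := Quot.out_eq _
        rcases Sym2.eq_iff.1 h1 with ⟨e1, e2⟩ | ⟨e1, e2⟩
        · rw [e1, e2] at h0
          exact h0
        · rw [e1, e2] at h0
          exact (y2 u w).trans h0
    · exact y1 u w ha
  have h1 := LinearMap.finrank_le_finrank_of_injective hL
  simp only [Module.finrank_fintype_fun_eq_card, Fintype.card_coe] at h1
  have h2 := card_sdiff_add_card_eq_card hsub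
  have h3 := hom_card_TE T
  omega

/-- The boundary, read outside `V₀`. -/
def hom_B (T : Surf V) (G : Finset (Sym2 V)) (V₀ : Finset V) :
    hom_C T G →ₗ[ZMod 2] ((T.vs \ V₀ : Finset V) → ZMod 2) where
  toFun y v := ∑ w, y.1 v.1 w
  map_add' a b := by
    ext v
    simp only [Submodule.coe_add, Pi.add_apply, sum_add_distrib]
  map_smul' c a := by
    ext v
    simp only [SetLike.val_smul, Pi.smul_apply, smul_eq_mul, RingHom.id_apply, mul_sum]

theorem hom_B_onto (T : Surf V) (G : Finset (Sym2 V)) (V₀ : Finset V) (hne : V₀.Nonempty)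
    (hV : V₀ ⊆ T.vs) (hG : ∀ u w, s(u, w) ∈ G → u ∈ V₀) :
    LinearMap.range (hom_B T G V₀) = ⊤ := by
  let δ : V → (T.vs \ V₀ : Finset V) → ZMod 2 := fun x v => if v.1 = x then 1 else 0
  have h0 : ∀ x ∈ V₀, δ x ∈ LinearMap.range (hom_B T G V₀) := fun x hx => by
    have : δ x = 0 := by
      ext v
      exact if_neg fun e : v.1 = x => (mem_sdiff.1 v.2).2 (e ▸ hx)
    rw [this]
    exact zero_mem _
  obtain ⟨a, ha⟩ := hne
  have key := T.conn (fun x => δ x ∈ LinearMap.range (hom_B T G V₀)) a (hV ha) (h0 a ha)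
    (fun x y hxy hx => by
      by_cases hy : y ∈ V₀
      · exact h0 y hy
      have hne := T.ne_of_adj hxy
      let e : hom_C T G := ⟨fun u w => if s(u, w) = s(x, y) then 1 else 0,
        fun u w h => if_neg fun e => by
          rcases Sym2.eq_iff.1 e with ⟨rfl, rfl⟩ | ⟨rfl, rfl⟩
          · exact h hxy
          · exact h (T.symm hxy),
        fun u w => by beta_reduce; rw [Sym2.eq_swap (a := u)],
        fun u w h => if_neg fun e => hy (hG y x (by rwa [Sym2.eq_swap, ← e]))⟩
      have he : δ y = hom_B T G V₀ e - δ x := by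
        ext v
        simp only [hom_B, e, δ, LinearMap.coe_mk, AddHom.coe_mk, Pi.sub_apply, Sym2.eq_iff]
        by_cases h1 : v.1 = x
        · simp only [h1, hne, ↓ reduceIte, true_and, false_and, or_false, sum_ite_eq', mem_univ, sub_self]
        · by_cases h2 : v.1 = y
          · simp only [h2, ↓ reduceIte, hne.symm, false_and, true_and, false_or, sum_ite_eq', mem_univ, sub_zero]
          · simp only [h2, ↓ reduceIte, h1, false_and, or_self, sum_const_zero, sub_self]
      rw [he]
      exact sub_mem (LinearMap.mem_range_self _ _) hx)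
  rw [eq_top_iff]
  intro f _
  have : f = ∑ i, f i • δ i.1 := by
    ext v
    simp only [univ_eq_attach, δ, SetLike.coe_eq_coe, Finset.sum_apply, Pi.smul_apply, smul_eq_mul, mul_ite, mul_one, mul_zero, sum_ite_eq, mem_attach, ↓ reduceIte]
  rw [this]
  exact Submodule.sum_mem _ fun i _ => Submodule.smul_mem _ _ (key _ (mem_sdiff.1 i.2).1)

theorem hom_rank_ker (T : Surf V) (G : Finset (Sym2 V)) (V₀ : Finset V) (hne : V₀.Nonempty)
    (hV : V₀ ⊆ T.vs) (hG : ∀ u w, s(u, w) ∈ G → T.adj u w ∧ u ∈ V₀) :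
    Module.finrank (ZMod 2) (LinearMap.ker (hom_B T G V₀)) + G.card ≤
      2 * T.vs.card + V₀.card := by
  have h1 := LinearMap.finrank_range_add_finrank_ker (hom_B T G V₀)
  rw [hom_B_onto T G V₀ hne hV fun u w h => (hG u w h).2] at h1
  simp only [finrank_top, Module.finrank_fintype_fun_eq_card, Fintype.card_coe] at h1
  have h2 := hom_rank_C T G fun u w h => (hG u w h).1
  have h3 := card_sdiff_add_card_eq_card hV
  omega

omit [DecidableEq V] in
theorem hom_sum (T : Surf V) {s : V → V → ZMod 2} (hs : T.Tri s) (v : V) :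
    ∑ w, (s v w + s w v) = 0 := by
  classical
  have h1 : ∑ w, s v w = ∑ w with T.adj v w, s v w :=
    (sum_filter_of_ne fun w _ h => by_contra fun e => h (hs.1 _ _ e)).symm
  have h2 : ∑ w, s w v = ∑ w with T.adj v w, s w v :=
    (sum_filter_of_ne fun w _ h => by_contra fun e => h (hs.1 _ _ fun e' => e (T.symm e'))).symm
  have h3 : ∑ w with T.adj v w, s w v = ∑ w with T.adj v w, s v w := by
    refine sum_nbij' (fun w => T.nx w v) (fun x => T.nx v x) ?_ ?_ ?_ ?_ ?_
    · intro w hw
      exact mem_filter.2 ⟨mem_univ _, T.adj_nx (T.symm (mem_filter.1 hw).2)⟩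
    · intro w hw
      exact mem_filter.2 ⟨mem_univ _, T.adj_nx' (mem_filter.1 hw).2⟩
    · intro w hw
      exact T.nx_prev (mem_filter.1 hw).2
    · intro w hw
      exact T.nx_nx' (mem_filter.1 hw).2
    · intro w hw
      exact (hs.2 _ _ (T.symm (mem_filter.1 hw).2)).symm
  rw [sum_add_distrib, h1, h2, h3, CharTwo.add_self_eq_zero]

/-- The jump of a triangle function across the edges outside `G`. -/
def hom_A (T : Surf V) (G : Finset (Sym2 V)) (V₀ : Finset V)
    (hG : ∀ u w, s(u, w) ∈ G → u ∈ V₀) :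
    hom_Tri T →ₗ[ZMod 2] LinearMap.ker (hom_B T G V₀) where
  toFun s := ⟨⟨fun u w => if s(u, w) ∈ G then 0 else s.1 u w + s.1 w u,
      fun u w h => by simp [s.2.1 u w h, s.2.1 w u fun e => h (T.symm e)],
      fun u w => by beta_reduce; rw [Sym2.eq_swap (a := u), add_comm], fun u w h => if_pos h⟩, by
    ext v
    have : ∀ w, s(v.1, w) ∉ G := fun w h => (mem_sdiff.1 v.2).2 (hG _ _ h)
    simpa only [hom_B, LinearMap.coe_mk, AddHom.coe_mk, this, ↓ reduceIte, Pi.zero_apply] using hom_sum T s.2 v.1⟩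
  map_add' a b := by
    ext u w
    by_cases h : s(u, w) ∈ G
    · simp only [h, ↓ reduceIte, Submodule.coe_add, Pi.add_apply, add_zero]
    · simp only [h, Submodule.coe_add, Pi.add_apply, if_false]
      ring
  map_smul' c a := by
    ext u w
    by_cases h : s(u, w) ∈ G
    · simp only [h, ↓ reduceIte, RingHom.id_apply, SetLike.val_smul, Pi.smul_apply, smul_eq_mul, mul_zero]
    · simp only [h, ↓ reduceIte, SetLike.val_smul, Pi.smul_apply, smul_eq_mul, RingHom.id_apply, mul_add]

/-- Block Hom (1). -/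
theorem hom_reg (T : Surf V) (G : Finset (Sym2 V)) (V₀ : Finset V) (hne : V₀.Nonempty)
    (hV : V₀ ⊆ T.vs) (hG : ∀ u w, s(u, w) ∈ G → T.adj u w ∧ u ∈ V₀) :
    G.card ≤ Module.finrank (ZMod 2) (T.Reg G) + V₀.card := by
  have hG' : ∀ u w, s(u, w) ∈ G → u ∈ V₀ := fun u w h => (hG u w h).2
  have h1 := LinearMap.finrank_range_add_finrank_ker (hom_A T G V₀ hG')
  have h2 := Submodule.finrank_le (LinearMap.range (hom_A T G V₀ hG'))
  have h3 := hom_rank_ker T G V₀ hne hV hG
  have h4 := hom_rank_Tri T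
  let L : LinearMap.ker (hom_A T G V₀ hG') →ₗ[ZMod 2] T.Reg G :=
    { toFun := fun s => ⟨s.1.1, s.1.2, fun u w h => by
        have : (if s(u, w) ∈ G then 0 else s.1.1 u w + s.1.1 w u) = 0 :=
          congrFun (congrFun (congrArg (fun y => y.1.1) (LinearMap.mem_ker.1 s.2)) u) w
        rw [if_neg h] at this
        exact CharTwo.add_eq_zero.1 this⟩
      map_add' := fun _ _ => rfl
      map_smul' := fun _ _ => rfl }
  have hL : Function.Injective L := fun a b h =>
    Subtype.ext (Subtype.ext (congrArg (fun x : T.Reg G => x.1) h))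
  have h5 := LinearMap.finrank_le_finrank_of_injective hL
  omega

omit [DecidableEq V] in
/-- A triangle function without jumps that vanishes on one dart vanishes. -/
theorem hom_const (T : Surf V) {s : V → V → ZMod 2} (hs : T.Tri s) (hj : ∀ u w, s u w = s w u)
    {a b : V} (hab : T.adj a b) (h0 : s a b = 0) : s = 0 := by
  have hl : ∀ v x, T.adj v x → s v x = 0 → ∀ y, T.adj v y → s v y = 0 := fun v x hx h =>
    T.link v (fun y => s v y = 0) x hx h fun y hy h => by
      have h3 := hs.2 _ _ (T.adj_nx hy)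
      rw [T.nx_nx hy] at h3
      rw [hj, h3, hs.2 _ _ hy, h]
  have hc := T.conn (fun v => ∀ y, T.adj v y → s v y = 0) a (T.mem hab) (hl a b hab h0)
    fun x y hxy h => hl y x (T.symm hxy) ((hj _ _).trans (h y hxy))
  ext u w
  by_cases h : T.adj u w
  · exact hc u (T.mem h) w h
  · exact hs.1 u w h

/-- Block Hom (2). -/
theorem hom_three (T : Surf V) (z : Fin 3 → V → V → ZMod 2) (hz : ∀ i, T.Cyc (z i)) :
    ∃ ε : Fin 3 → ZMod 2, ε ≠ 0 ∧ ∃ s, T.Tri s ∧ ∀ u w, ∑ i, ε i * z i u w = s u w + s w u := by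
  obtain ⟨a, ha⟩ := T.nonempty
  obtain ⟨b, hab⟩ := T.exists_adj ha
  have hG' : ∀ u w, s(u, w) ∈ (∅ : Finset (Sym2 V)) → u ∈ ({a} : Finset V) := by simp
  have h3 := hom_rank_ker T ∅ {a} (singleton_nonempty a) (singleton_subset_iff.2 ha) (by simp)
  have h4 := hom_rank_Tri T
  let z' : Fin 3 → LinearMap.ker (hom_B T ∅ {a}) := fun i =>
    ⟨⟨z i, (hz i).1, (hz i).2.1, by simp⟩, by
      ext v
      exact (hz i).2.2 v.1⟩
  let Φ := (Fintype.linearCombination (ZMod 2) z').coprod (hom_A T ∅ {a} hG')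
  have hΦ : ∀ p ∈ LinearMap.ker Φ, ∀ u w, ∑ i, p.1 i * z i u w = p.2.1 u w + p.2.1 w u := by
    intro p hp u w
    have := congrFun (congrFun (congrArg (fun y => y.1.1) (LinearMap.mem_ker.1 hp)) u) w
    refine CharTwo.add_eq_zero.1 ?_
    simpa only [Φ, z', hom_A, notMem_empty, ↓ reduceIte, LinearMap.coprod_apply, Fintype.linearCombination_apply, LinearMap.coe_mk, AddHom.coe_mk, Submodule.coe_add, AddSubmonoidClass.coe_finsetSum, SetLike.val_smul, Pi.add_apply, Finset.sum_apply, Pi.smul_apply, smul_eq_mul, ZeroMemClass.coe_zero, Pi.zero_apply] using this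
  by_contra hc
  have hε : ∀ p ∈ LinearMap.ker Φ, p.1 = 0 := fun p hp =>
    by_contra fun e => hc ⟨p.1, e, p.2.1, p.2.2, hΦ p hp⟩
  let L : LinearMap.ker Φ →ₗ[ZMod 2] ZMod 2 :=
    { toFun := fun p => p.1.2.1 a b
      map_add' := fun _ _ => rfl
      map_smul' := fun _ _ => rfl }
  have hL : Function.Injective L := by
    rw [← LinearMap.ker_eq_bot, LinearMap.ker_eq_bot']
    rintro ⟨p, hp⟩ h
    have h1 := hε p hp
    refine Subtype.ext (Prod.ext h1 (Subtype.ext (hom_const T p.2.2 (fun u w => ?_) hab h)))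
    have := hΦ p hp u w
    rw [h1] at this
    exact CharTwo.add_eq_zero.1 (by simpa only [Pi.zero_apply, zero_mul, sum_const_zero] using this.symm)
  have h5 := LinearMap.finrank_le_finrank_of_injective hL
  have h1 := LinearMap.finrank_range_add_finrank_ker Φ
  have h2 := Submodule.finrank_le (LinearMap.range Φ)
  simp only [Module.finrank_prod, Module.finrank_fintype_fun_eq_card, Fintype.card_fin,
    Module.finrank_self, card_empty, card_singleton] at h1 h3 h5
  omega

/-- Block Hom (3). -/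
theorem hom_deg (T : Surf V) : ∃ v ∈ T.vs, T.deg v ≤ 6 ∧ ∀ w ∈ T.vs, T.deg v ≤ T.deg w := by
  obtain ⟨v, hv, hm⟩ := exists_min_image T.vs T.deg T.nonempty
  refine ⟨v, hv, ?_, hm⟩
  have h1 : (hom_D T).card = ∑ u ∈ T.vs, ((hom_D T).filter fun p => p.1 = u).card :=
    card_eq_sum_card_fiberwise fun p hp => T.mem ((hom_mem_D T).1 hp)
  have h2 : ∀ u ∈ T.vs, T.deg v ≤ ((hom_D T).filter fun p => p.1 = u).card := fun u hu => by
    refine (hm u hu).trans ?_
    rw [← Set.ncard_coe_finset]
    refine Set.ncard_le_ncard_of_injOn (fun w => (u, w)) (fun w hw => ?_)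
      (fun _ _ _ _ e => congrArg Prod.snd e)
    exact mem_coe.2 (mem_filter.2 ⟨(hom_mem_D T).2 hw, rfl⟩)
  have h3 := card_nsmul_le_sum T.vs _ _ h2
  rw [← h1, hom_card_D, smul_eq_mul, mul_comm] at h3
  exact Nat.le_of_mul_le_mul_right h3 T.nonempty.card_pos

end Pool.Agent.MP_6209da_co

namespace Pool.Agent.MP_6209da_co

open Finset

variable {V : Type} [Fintype V] [DecidableEq V]

theorem cho_third (T : Surf V) (h : T.Irr) {u x : V} (hx : T.adj u x) :
    ∃ y, T.adj u y ∧ T.adj x y ∧ y ≠ T.nx u x ∧ x ≠ T.nx u y ∧ y ≠ T.nx x u := by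
  obtain ⟨y, h1, h2, h3, h4⟩ := h u x hx
  exact ⟨y, h1, h2, h3, fun e => h4 (by rw [e, T.nx_nx' h1]), h4⟩

theorem cho_iter (T : Surf V) {u x y : V} (hx : T.adj u x) (hy : T.adj u y) :
    ∃ j, (T.nx u)^[j] x = y :=
  T.link u (fun b => ∃ j, (T.nx u)^[j] x = b) x hx ⟨0, rfl⟩
    (fun _ _ ⟨j, e⟩ => ⟨j + 1, by rw [Function.iterate_succ_apply', e]⟩) y hy

theorem cho_gap (T : Surf V) (M : V → Prop) {u x : V} (hx : T.adj u x) (k : ℕ)
    (hM : ∀ i, 0 < i → i ≤ k → ¬ M ((T.nx u)^[i] x)) : T.Gap M u x ((T.nx u)^[k + 1] x) := by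
  induction k with
  | zero => exact Surf.gap_nx hx
  | succ k ih =>
    have g := ih fun i h1 h2 => hM i h1 (h2.trans (Nat.le_succ k))
    rw [Function.iterate_succ_apply' (T.nx u) (k + 1)]
    exact g.trans (hM (k + 1) (Nat.succ_pos k) le_rfl) (Surf.gap_nx g.adj_right)

/-- Block Cho: two interlaced chords in the link of every vertex. -/
theorem chords (T : Surf V) (h : T.Irr) {u : V} (hu : u ∈ T.vs) :
    ∃ a b c d, T.adj u a ∧ T.adj u b ∧ T.adj u c ∧ T.adj u d ∧ T.adj a c ∧ T.adj b d ∧
      b = T.nx u a ∧ a ≠ b ∧ a ≠ d ∧ b ≠ c ∧ c ≠ d ∧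
      T.Gap (fun x => x = a ∨ x = b ∨ x = c ∨ x = d) u b c ∧
      T.Gap (fun x => x = a ∨ x = b ∨ x = c ∨ x = d) u c d ∧
      T.Gap (fun x => x = a ∨ x = b ∨ x = c ∨ x = d) u d a := by
  classical
  have hex : ∃ j, ∃ x y, T.adj u x ∧ T.adj u y ∧ T.adj x y ∧ y ≠ T.nx u x ∧ x ≠ T.nx u y ∧
      (T.nx u)^[j] x = y := by
    obtain ⟨x, hx⟩ := T.exists_adj hu
    obtain ⟨y, h1, h2, h3, h4, -⟩ := cho_third T h hx
    obtain ⟨j, e⟩ := cho_iter T hx h1
    exact ⟨j, x, y, hx, h1, h2, h3, h4, e⟩
  obtain ⟨a, c, ha, hc, hac, h1, h2, hj⟩ := Nat.find_spec hex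
  have hmin := fun i (hi : i < Nat.find hex) => Nat.find_min hex hi
  generalize Nat.find hex = j at hj hmin
  have hb := T.adj_nx' ha
  obtain ⟨d, hd, hbd, h3, h4, h5⟩ := cho_third T h hb
  rw [T.nx_nx' ha] at h5
  have mc : ∀ i < j, (T.nx u)^[i] a ≠ c := fun i hi e =>
    hmin i hi ⟨a, c, ha, hc, hac, h1, h2, e⟩
  have md : ∀ i < j, (T.nx u)^[i] (T.nx u a) ≠ d := fun i hi e =>
    hmin i hi ⟨_, d, hb, hd, hbd, h3, h4, e⟩
  have hane : a ≠ c := T.ne_of_adj hac
  have hbne : T.nx u a ≠ d := T.ne_of_adj hbd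
  have hab : a ≠ T.nx u a := (T.nx_ne_right ha).symm
  obtain ⟨k, rfl⟩ : ∃ k, j = k + 2 := by
    rcases j with _ | _ | k
    · exact absurd hj hane
    · exact absurd hj.symm h1
    · exact ⟨k, rfl⟩
  have hj' : (T.nx u)^[k + 1] (T.nx u a) = c := hj
  have hcd : c ≠ d := hj' ▸ md (k + 1) (by omega)
  have g1 : T.Gap (fun x => x = a ∨ x = T.nx u a ∨ x = c ∨ x = d) u a (T.nx u a) :=
    Surf.gap_nx ha
  have g2 : T.Gap (fun x => x = a ∨ x = T.nx u a ∨ x = c ∨ x = d) u (T.nx u a) c := by
    have := cho_gap T (fun x => x = a ∨ x = T.nx u a ∨ x = c ∨ x = d) hb k ?_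
    · rwa [hj'] at this
    rintro i hi hk (e | e | e | e)
    · refine mc (k + 1 - i) (by omega) ?_
      rw [← hj', ← e, ← Function.iterate_add_apply, e, Nat.sub_add_cancel (by omega)]
    · refine mc (k + 1 - i + 1) (by omega) ?_
      rw [Function.iterate_succ_apply, ← hj', ← e, ← Function.iterate_add_apply, e,
        Nat.sub_add_cancel (by omega)]
    · exact mc (i + 1) (by omega) e
    · exact md i (by omega) e
  have Ma : a = a ∨ a = T.nx u a ∨ a = c ∨ a = d := Or.inl rfl
  have Mb : T.nx u a = a ∨ T.nx u a = T.nx u a ∨ T.nx u a = c ∨ T.nx u a = d :=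
    Or.inr (Or.inl rfl)
  have Mc : c = a ∨ c = T.nx u a ∨ c = c ∨ c = d := Or.inr (Or.inr (Or.inl rfl))
  have Md : d = a ∨ d = T.nx u a ∨ d = c ∨ d = d := Or.inr (Or.inr (Or.inr rfl))
  have g4 : T.Gap (fun x => x = a ∨ x = T.nx u a ∨ x = c ∨ x = d) u d a := by
    obtain ⟨v, hv, g⟩ := Surf.exists_gap (M := fun x => x = a ∨ x = T.nx u a ∨ x = c ∨ x = d)
      hd ha Ma
    rcases hv with e | e | e | e <;> rw [e] at g
    · exact g
    · exact absurd (g.bwd g1 Md Ma) h5
    · exact absurd (g.bwd g2 Md Mb).symm hbne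
    · exact absurd (g.self Md ha Ma).symm h5
  have g3 : T.Gap (fun x => x = a ∨ x = T.nx u a ∨ x = c ∨ x = d) u c d := by
    obtain ⟨v, hv, g⟩ := Surf.exists_gap (M := fun x => x = a ∨ x = T.nx u a ∨ x = c ∨ x = d)
      hc ha Ma
    rcases hv with e | e | e | e <;> rw [e] at g
    · exact absurd (g.bwd g4 Mc Md) hcd
    · exact absurd (g.bwd g1 Mc Ma).symm hane
    · exact absurd (g.bwd g2 Mc Mb) h1
    · exact g
  exact ⟨a, _, c, d, ha, hb, hc, hd, hac, hbd, rfl, hab, h5.symm, h1.symm, hcd, g2, g3, g4⟩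

end Pool.Agent.MP_6209da_co

namespace Pool.Agent.MP_6209da_co

open Finset

variable {V : Type} [Fintype V] [DecidableEq V]

/-- `c` is the indicator of the three edges on `x, y, z`. -/
def nul_Ind (T : Surf V) (x y z : V) (c : V → V → ZMod 2) : Prop :=
  T.Cyc c ∧
    (∀ u w, T.adj u w → (u = x ∨ u = y ∨ u = z) → (w = x ∨ w = y ∨ w = z) → c u w = 1) ∧
    ∀ u w, ¬ ((u = x ∨ u = y ∨ u = z) ∧ (w = x ∨ w = y ∨ w = z)) → c u w = 0

theorem nul_eq {x y : ZMod 2} (h : x + y = 0) : x = y := by
  revert x y; decide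

theorem nul_eq' {x y : ZMod 2} (h : x + y ≠ 1) : x = y := by
  revert x y; decide

theorem nul_sum (T : Surf V) {f : V → V → ZMod 2} {x y z : V} (hyz : T.adj y z)
    (h0 : ∀ w, ¬ T.adj x w → f x w = 0) (h1 : ∀ w, w ≠ x → w ≠ y → w ≠ z → f x w = 0) :
    ∑ w, f x w = f x y + f x z := by
  refine Fintype.sum_eq_add y z (T.ne_of_adj hyz) fun w hw => ?_
  by_cases e : w = x
  · exact h0 w (e ▸ T.irr w)
  · exact h1 w e hw.1 hw.2

theorem nul_ind (T : Surf V) {x y z : V} (hxy : T.adj x y) (hyz : T.adj y z) (hzx : T.adj z x) :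
    ∃ c, nul_Ind T x y z c := by
  classical
  let c : V → V → ZMod 2 := fun u w =>
    if T.adj u w ∧ (u = x ∨ u = y ∨ u = z) ∧ (w = x ∨ w = y ∨ w = z) then 1 else 0
  have c0 : ∀ u w, ¬ T.adj u w → c u w = 0 := fun u w h => if_neg fun e => h e.1
  have c1 : ∀ u w, T.adj u w → (u = x ∨ u = y ∨ u = z) → (w = x ∨ w = y ∨ w = z) → c u w = 1 :=
    fun u w h hu hw => if_pos ⟨h, hu, hw⟩
  have c2 : ∀ u w, ¬ ((u = x ∨ u = y ∨ u = z) ∧ (w = x ∨ w = y ∨ w = z)) → c u w = 0 :=
    fun u w h => if_neg fun e => h e.2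
  have h11 : (1 : ZMod 2) + 1 = 0 := by decide
  refine ⟨c, ⟨c0, fun u w => ?_, fun u => ?_⟩, c1, c2⟩
  · exact if_congr ⟨fun e => ⟨T.symm e.1, e.2.2, e.2.1⟩, fun e => ⟨T.symm e.1, e.2.2, e.2.1⟩⟩
      rfl rfl
  · by_cases hu : u = x ∨ u = y ∨ u = z
    · rcases hu with e | e | e
      · rw [e, nul_sum T hyz (c0 x) fun w a b d => c2 _ _ (by tauto),
          c1 _ _ hxy (by simp) (by simp), c1 _ _ (T.symm hzx) (by simp) (by simp), h11]
      · rw [e, nul_sum T hzx (c0 y) fun w a b d => c2 _ _ (by tauto),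
          c1 _ _ hyz (by simp) (by simp), c1 _ _ (T.symm hxy) (by simp) (by simp), h11]
      · rw [e, nul_sum T hxy (c0 z) fun w a b d => c2 _ _ (by tauto),
          c1 _ _ hzx (by simp) (by simp), c1 _ _ (T.symm hyz) (by simp) (by simp), h11]
    · exact Finset.sum_eq_zero fun w _ => c2 _ _ fun e => hu e.1

omit [DecidableEq V] in
theorem nul_key (T : Surf V) {s : V → V → ZMod 2} (hs : T.Tri s) {w a : V} (ha : T.adj w a) :
    s (T.nx w a) w = s w a := by
  have h3 := hs.2 _ _ (T.adj_nx ha)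
  rw [T.nx_nx ha] at h3
  rw [h3, hs.2 _ _ ha]

omit [DecidableEq V] in
/-- Boundaries are cycles. -/
theorem nul_bd (T : Surf V) {s : V → V → ZMod 2} (hs : T.Tri s) (u : V) :
    ∑ w, (s u w + s w u) = 0 := by
  classical
  have e1 : ∑ w, s u w = ∑ w ∈ univ.filter (fun w => T.adj u w), s u w :=
    (Finset.sum_filter_of_ne fun w _ h => by
      by_contra hc; exact h (hs.1 _ _ hc)).symm
  have e2 : ∑ w, s w u = ∑ w ∈ univ.filter (fun w => T.adj u w), s w u :=
    (Finset.sum_filter_of_ne fun w _ h => by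
      by_contra hc; exact h (hs.1 _ _ fun e => hc (T.symm e))).symm
  have e3 : ∑ w ∈ univ.filter (fun w => T.adj u w), s u w =
      ∑ w ∈ univ.filter (fun w => T.adj u w), s w u := by
    refine Finset.sum_nbij' (fun w => T.nx u w) (fun w => T.nx w u) ?_ ?_ ?_ ?_ ?_
    · intro w hw
      simp only [Finset.mem_filter, Finset.mem_univ, true_and] at hw ⊢
      exact T.adj_nx' hw
    · intro w hw
      simp only [Finset.mem_filter, Finset.mem_univ, true_and] at hw ⊢
      exact T.adj_nx (T.symm hw)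
    · intro w hw
      simp only [Finset.mem_filter, Finset.mem_univ, true_and] at hw
      exact T.nx_nx' hw
    · intro w hw
      simp only [Finset.mem_filter, Finset.mem_univ, true_and] at hw
      exact T.nx_prev hw
    · intro w hw
      simp only [Finset.mem_filter, Finset.mem_univ, true_and] at hw
      exact (nul_key T hs hw).symm
  rw [Finset.sum_add_distrib, e1, e2, e3]
  exact CharTwo.add_self_eq_zero _

omit [DecidableEq V] in
/-- At a vertex with only two jumping edges. -/
theorem nul_turn (T : Surf V) {r : V → V → ZMod 2} (hr : T.Tri r) {u b d : V} (hbu : T.adj b u)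
    (hbd : T.adj b d) (hud : u ≠ d)
    (h : ∀ x, T.adj b x → ¬ (x = u ∨ x = d) → r b x = r x b) : r d b = r b u := by
  obtain ⟨v, hv, g⟩ := Surf.exists_gap (M := fun x => x = u ∨ x = d) hbu hbd (Or.inr rfl)
  rcases hv with e | e
  · rw [e] at g
    exact absurd (g.self (Or.inl rfl) hbd (Or.inr rfl)).symm hud
  · rw [e] at g
    exact g.tri hr h

omit [DecidableEq V] in
/-- Two interlaced chord triangles are independent modulo boundaries. -/
theorem nul_indep (T : Surf V) {r c₁ c₂ : V → V → ZMod 2} (hr : T.Tri r) {u a b c d : V}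
    (ha : T.adj u a) (hb : T.adj u b) (hc : T.adj u c) (hd : T.adj u d) (hac : T.adj a c)
    (hbd : T.adj b d) (e : b = T.nx u a) (nab : a ≠ b) (nad : a ≠ d) (nbc : b ≠ c) (ncd : c ≠ d)
    (g₁ : T.Gap (fun x => x = a ∨ x = b ∨ x = c ∨ x = d) u b c)
    (g₂ : T.Gap (fun x => x = a ∨ x = b ∨ x = c ∨ x = d) u c d)
    (g₃ : T.Gap (fun x => x = a ∨ x = b ∨ x = c ∨ x = d) u d a)
    (h₁ : nul_Ind T u a c c₁) (h₂ : nul_Ind T u b d c₂) {e₁ e₂ : ZMod 2}
    (h : ∀ x w, T.adj x w → r x w + r w x = e₁ * c₁ x w + e₂ * c₂ x w) : e₁ = 0 ∧ e₂ = 0 := by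
  have nua := T.ne_of_adj ha
  have nub := T.ne_of_adj hb
  have nuc := T.ne_of_adj hc
  have nud := T.ne_of_adj hd
  have nac := T.ne_of_adj hac
  have nbd := T.ne_of_adj hbd
  have z : ∀ x w, T.adj x w → ¬ ((x = u ∨ x = a ∨ x = c) ∧ (w = u ∨ w = a ∨ w = c)) →
      ¬ ((x = u ∨ x = b ∨ x = d) ∧ (w = u ∨ w = b ∨ w = d)) → r x w = r w x := by
    intro x w hxw k₁ k₂
    apply nul_eq
    rw [h x w hxw, h₁.2.2 _ _ k₁, h₂.2.2 _ _ k₂]; simp
  have o₁ : ∀ x w, T.adj x w → (x = u ∨ x = a ∨ x = c) → (w = a ∨ w = c) →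
      r x w + r w x = e₁ := by
    intro x w hxw k₁ k₂
    rw [h x w hxw, h₁.2.1 _ _ hxw k₁ (Or.inr k₂), h₂.2.2 _ _ (by grind)]; simp
  have o₂ : ∀ x w, T.adj x w → (x = u ∨ x = b ∨ x = d) → (w = b ∨ w = d) →
      r x w + r w x = e₂ := by
    intro x w hxw k₁ k₂
    rw [h x w hxw, h₂.2.1 _ _ hxw k₁ (Or.inr k₂), h₁.2.2 _ _ (by grind)]; simp
  have zu : ∀ x, T.adj u x → ¬ (x = a ∨ x = b ∨ x = c ∨ x = d) → r u x = r x u := by
    intro x hx k
    have := (T.ne_of_adj hx).symm
    exact z _ _ hx (by grind) (by grind)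
  have q₀ : r b u = r u a := e ▸ nul_key T hr ha
  have q₁ := g₁.tri hr zu
  have q₂ := g₂.tri hr zu
  have q₃ := g₃.tri hr zu
  have ta : r c a = r a u := nul_turn T hr (T.symm ha) hac nuc fun x hx k => by
    have := (T.ne_of_adj hx).symm
    exact z _ _ hx (by grind) (by grind)
  have tc : r a c = r c u := nul_turn T hr (T.symm hc) (T.symm hac) nua fun x hx k => by
    have := (T.ne_of_adj hx).symm
    exact z _ _ hx (by grind) (by grind)
  have tb : r d b = r b u := nul_turn T hr (T.symm hb) hbd nud fun x hx k => by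
    have := (T.ne_of_adj hx).symm
    exact z _ _ hx (by grind) (by grind)
  have td : r b d = r d u := nul_turn T hr (T.symm hd) (T.symm hbd) nub fun x hx k => by
    have := (T.ne_of_adj hx).symm
    exact z _ _ hx (by grind) (by grind)
  have pa := o₁ u a ha (by simp) (by simp)
  have pc := o₁ u c hc (by simp) (by simp)
  have pac := o₁ a c hac (by simp) (by simp)
  have pb := o₂ u b hb (by simp) (by simp)
  have pd := o₂ u d hd (by simp) (by simp)
  have pbd := o₂ b d hbd (by simp) (by simp)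
  rw [ta, tc] at pac
  rw [tb, td] at pbd
  rw [← q₀] at pa
  rw [← q₁] at pb
  rw [← q₂] at pc
  rw [← q₃] at pd
  revert pa pb pc pd pac pbd
  generalize r a u = A
  generalize r b u = B
  generalize r c u = C
  generalize r d u = D
  generalize e₁ = E₁
  generalize e₂ = E₂
  revert A B C D E₁ E₂
  decide

/-- Block Nul: a null-homologous three-cycle is a face (uses `hom_three` and `chords`). -/
theorem nul_face (T : Surf V) (h : T.Irr) {s : V → V → ZMod 2} (hs : T.Tri s) {p q r : V}
    (hpq : T.adj p q) (hqr : T.adj q r) (hrp : T.adj r p)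
    (hb : ∀ u w, T.adj u w →
      (s u w + s w u = 1 ↔ (u = p ∨ u = q ∨ u = r) ∧ (w = p ∨ w = q ∨ w = r))) :
    r = T.nx p q ∨ r = T.nx q p := by
  classical
  by_contra hc
  rw [not_or] at hc
  let C : V → Prop := fun u => u = p ∨ u = q ∨ u = r
  have h0 : ∀ u w, T.adj u w → ¬ (C u ∧ C w) → s u w = s w u := fun u w huw k =>
    nul_eq' fun e => k ((hb u w huw).1 e)
  have h1 : ∀ v, ¬ C v → ∀ x x', T.adj v x → T.adj v x' → s v x' = s v x := by
    intro v hv x x' hx hx'
    refine T.link v (fun b => s v b = s v x) x hx rfl (fun b hb' k => ?_) x' hx'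
    rw [h0 _ _ (T.adj_nx' hb') fun e => hv e.1, nul_key T hs hb', k]
  have h2 : ∀ v a, ¬ C v → T.adj v a → ∀ u w, T.adj u w → (u = v ∨ T.adj v u) → ¬ C u →
      s u w = s v a := by
    intro v a hv ha u w huw hu cu
    rcases hu with e | e
    · rw [e] at huw ⊢
      exact h1 v hv _ _ ha huw
    · rw [h1 u cu _ _ (T.symm e) huw, ← h0 _ _ e fun k => hv k.1, h1 v hv _ _ ha e]
  have h3 : ∀ v a x z c, ¬ C v → T.adj v a → T.adj v x → T.adj v z → nul_Ind T v x z c →
      ∀ u w, T.adj u w → ¬ (C u ∧ C w) → s u w ≠ s v a → c u w = 0 := by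
    intro v a x z c hv ha hx hz hc' u w huw k hne
    refine hc'.2.2 _ _ fun e => hne ?_
    have f : ∀ t, (t = v ∨ t = x ∨ t = z) → t = v ∨ T.adj v t := by
      rintro t (rfl | rfl | rfl)
      · exact Or.inl rfl
      · exact Or.inr hx
      · exact Or.inr hz
    by_cases cu : C u
    · rw [h0 _ _ huw k]
      exact h2 v a hv ha w u (T.symm huw) (f _ e.2) fun cw => k ⟨cu, cw⟩
    · exact h2 v a hv ha u w huw (f _ e.1) cu
  have hy : ¬ C (T.nx p q) := by
    rintro (e | e | e)
    · exact T.nx_ne_left hpq e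
    · exact T.nx_ne_right hpq e
    · exact hc.1 e.symm
  have hy' : ¬ C (T.nx q p) := by
    rintro (e | e | e)
    · exact T.nx_ne_right (T.symm hpq) e
    · exact T.nx_ne_left (T.symm hpq) e
    · exact hc.2 e.symm
  have ay : T.adj (T.nx p q) p := T.symm (T.adj_nx' hpq)
  have ay' : T.adj (T.nx q p) q := T.symm (T.adj_nx' (T.symm hpq))
  have vy : s (T.nx p q) p = s p q := nul_key T hs hpq
  have vy' : s (T.nx q p) q = s q p := nul_key T hs (T.symm hpq)
  have hne : s p q + s q p = 1 := (hb p q hpq).2 ⟨by simp, by simp⟩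
  obtain ⟨a, b, c, d, ha, hb₁, hc₁, hd, hac, hbd, e, nab, nad, nbc, ncd, g₁, g₂, g₃⟩ :=
    chords T h (T.mem ay)
  obtain ⟨a', b', c', d', ha', hb', hc', hd', hac', hbd', e', nab', nad', nbc', ncd', g₁', g₂',
    g₃'⟩ := chords T h (T.mem ay')
  obtain ⟨c₁, k₁⟩ := nul_ind T ha hac (T.symm hc₁)
  obtain ⟨c₂, k₂⟩ := nul_ind T hb₁ hbd (T.symm hd)
  obtain ⟨c₃, k₃⟩ := nul_ind T ha' hac' (T.symm hc')
  obtain ⟨c₄, k₄⟩ := nul_ind T hb' hbd' (T.symm hd')
  obtain ⟨ε, hε, r₀, hr₀, E⟩ := hom_three T ![c₁, c₂, c₃] (by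
    intro i
    fin_cases i
    · exact k₁.1
    · exact k₂.1
    · exact k₃.1)
  have E' : ∀ u w, r₀ u w + r₀ w u = ε 0 * c₁ u w + ε 1 * c₂ u w + ε 2 * c₃ u w := by
    intro u w
    rw [← E u w, Fin.sum_univ_three]
    rfl
  let r₁ : V → V → ZMod 2 := fun u w => if s u w = s p q then r₀ u w else 0
  have hr₁ : T.Tri r₁ := by
    refine ⟨fun u w k => ?_, fun u w k => ?_⟩
    · simp only [r₁, hr₀.1 u w k, ite_self]
    · simp only [r₁, hr₀.2 u w k, hs.2 u w k]
  let z : V → V → ZMod 2 := fun u w => r₁ u w + r₁ w u + (ε 0 * c₁ u w + ε 1 * c₂ u w)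
  have z0 : ∀ u w, ¬ T.adj u w → z u w = 0 := by
    intro u w k
    simp only [z, hr₁.1 u w k, hr₁.1 w u fun t => k (T.symm t), k₁.1.1 u w k, k₂.1.1 u w k]
    simp
  have z1 : ∀ u w, ¬ (C u ∧ C w) → z u w = 0 := by
    intro u w k
    by_cases huw : T.adj u w
    swap
    · exact z0 u w huw
    have t := h0 u w huw k
    by_cases t' : s u w = s p q
    · have : c₃ u w = 0 := h3 _ q _ _ _ hy' ay' ha' hc' k₃ u w huw k (by
        rw [vy', t']
        intro t''
        rw [t'', CharTwo.add_self_eq_zero] at hne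
        exact absurd hne (by decide))
      simp only [z, r₁, if_pos t', if_pos (t ▸ t'), E' u w, this, mul_zero, add_zero]
      exact CharTwo.add_self_eq_zero _
    · have s₁ : c₁ u w = 0 := h3 _ p _ _ _ hy ay ha hc₁ k₁ u w huw k (by rw [vy]; exact t')
      have s₂ : c₂ u w = 0 := h3 _ p _ _ _ hy ay hb₁ hd k₂ u w huw k (by rw [vy]; exact t')
      simp only [z, r₁, if_neg t', if_neg (t ▸ t'), s₁, s₂, mul_zero, add_zero]
  have zs : ∀ u w, z u w = z w u := by
    intro u w
    simp only [z, k₁.1.2.1 u w, k₂.1.2.1 u w, add_comm (r₁ u w)]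
  have zc : ∀ u, ∑ w, z u w = 0 := by
    intro u
    simp only [z]
    rw [Finset.sum_add_distrib, nul_bd T hr₁, Finset.sum_add_distrib, ← Finset.mul_sum,
      ← Finset.mul_sum, k₁.1.2.2, k₂.1.2.2]
    simp
  have zp : z p q = z p r := nul_eq (by
    rw [← nul_sum T hqr (z0 p) fun w a b d => z1 _ _ (by simp only [C]; tauto), zc])
  have zq : z q r = z q p := nul_eq (by
    rw [← nul_sum T hrp (z0 q) fun w a b d => z1 _ _ (by simp only [C]; tauto), zc])
  have zk : ∀ u w, T.adj u w → C u → C w → z u w = z p q := by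
    intro u w huw cu cw
    have n := T.ne_of_adj huw
    have t₁ := zs p q
    have t₂ := zs q r
    have t₃ := zs p r
    simp only [C] at cu cw
    grind
  have hr₂ : T.Tri fun u w => r₁ u w + z p q * s u w := by
    refine ⟨fun u w k => ?_, fun u w k => ?_⟩
    · simp only [hr₁.1 u w k, hs.1 u w k, mul_zero, add_zero]
    · simp only [hr₁.2 u w k, hs.2 u w k]
  have two : (2 : ZMod 2) = 0 := by decide
  have I₁ : ε 0 = 0 ∧ ε 1 = 0 := by
    refine nul_indep T hr₂ ha hb₁ hc₁ hd hac hbd e nab nad nbc ncd g₁ g₂ g₃ k₁ k₂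
      fun u w huw => ?_
    have dz : z u w = r₁ u w + r₁ w u + (ε 0 * c₁ u w + ε 1 * c₂ u w) := rfl
    by_cases k : C u ∧ C w
    · have t₁ := (hb u w huw).2 k
      have t₂ := zk u w huw k.1 k.2
      linear_combination z p q * t₁ - dz + t₂ +
        (z p q - (ε 0 * c₁ u w + ε 1 * c₂ u w)) * two
    · have t₁ := h0 u w huw k
      have t₂ := z1 u w k
      linear_combination z p q * t₁ - dz + t₂ +
        (z p q * s w u - (ε 0 * c₁ u w + ε 1 * c₂ u w)) * two
  have I₂ : ε 2 = 0 ∧ (0 : ZMod 2) = 0 := by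
    refine nul_indep T hr₀ ha' hb' hc' hd' hac' hbd' e' nab' nad' nbc' ncd' g₁' g₂' g₃' k₃ k₄
      fun u w _ => ?_
    rw [E' u w, I₁.1, I₁.2]
    simp
  apply hε
  funext i
  fin_cases i
  · exact I₁.1
  · exact I₁.2
  · exact I₂.1

end Pool.Agent.MP_6209da_co

namespace Pool.Agent.MP_6209da_co

open Finset

variable {V : Type} [Fintype V] [DecidableEq V]

/-- Restriction of a function on darts to the darts of `G`. -/
def inv_res (G : Finset (Sym2 V)) : (V → V → ZMod 2) →ₗ[ZMod 2] (V → V → ZMod 2) where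
  toFun f := fun u w => if s(u, w) ∈ G then f u w else 0
  map_add' f g := by
    funext u w
    by_cases h : s(u, w) ∈ G <;> simp [h]
  map_smul' c f := by
    funext u w
    by_cases h : s(u, w) ∈ G <;> simp [h]

omit [Fintype V] in
theorem inv_res_mem {G : Finset (Sym2 V)} (f : V → V → ZMod 2) {u w : V} (h : s(u, w) ∈ G) :
    inv_res G f u w = f u w := if_pos h

omit [Fintype V] in
theorem inv_res_not {G : Finset (Sym2 V)} (f : V → V → ZMod 2) {u w : V} (h : s(u, w) ∉ G) :
    inv_res G f u w = 0 := if_neg h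

omit [DecidableEq V] in
/-- A symmetric triangle function that vanishes on one dart vanishes. -/
theorem inv_zero (T : Surf V) {s : V → V → ZMod 2} (hs : T.Tri s) (hsy : ∀ u w, s u w = s w u)
    {a b : V} (hab : T.adj a b) (h0 : s a b = 0) : s = 0 := by
  have key : ∀ v x, T.adj v x → s v x = 0 → ∀ y, T.adj v y → s v y = 0 := fun v x hx h =>
    T.link v (fun y => s v y = 0) x hx h fun y hy e => by
      have h3 := hs.2 _ _ (T.adj_nx hy)
      rw [T.nx_nx hy] at h3
      rw [hsy, h3, hs.2 _ _ hy, e]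
  have := T.conn (fun v => ∀ y, T.adj v y → s v y = 0) a (T.mem hab) (key a b hab h0)
    (fun x y h hx => key y x (T.symm h) (by rw [hsy, hx y h]))
  funext u w
  by_cases h : T.adj u w
  · exact this u (T.mem h) w h
  · exact hs.1 u w h

/-- Block Inv (1) (uses `hom_reg`). -/
theorem inv_ext (T : Surf V) (G : Finset (Sym2 V)) (V₀ : Finset V) (hne : G.Nonempty)
    (hV : V₀ ⊆ T.vs) (hG : ∀ u w, s(u, w) ∈ G → T.adj u w ∧ u ∈ V₀)
    (ht : Module.finrank (ZMod 2) (T.Inv G) + V₀.card ≤ G.card) {f : V → V → ZMod 2}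
    (hf : f ∈ T.Inv G) : ∃ s ∈ T.Reg G, ∀ u w, s(u, w) ∈ G → s u w = f u w := by
  obtain ⟨e, he⟩ := hne
  induction e using Sym2.ind with
  | _ a b =>
  have hmap : ∀ s ∈ T.Reg G, inv_res G s ∈ T.Inv G := fun s hs =>
    ⟨fun u w h => inv_res_not s h, fun w z u hz hu g => by
      rw [inv_res_mem s hz, inv_res_mem s (Sym2.eq_swap ▸ hu)]
      exact g.tri hs.1 fun x _ hx => hs.2 w x hx⟩
  have hinj : Function.Injective ((inv_res G).restrict hmap) := by
    rw [injective_iff_map_eq_zero]
    rintro ⟨s, hs⟩ h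
    have h0 : ∀ u w, s(u, w) ∈ G → s u w = 0 := fun u w huw => by
      have := congrFun (congrFun (congrArg Subtype.val h) u) w
      rw [← inv_res_mem s huw]
      exact this
    refine Subtype.ext (inv_zero T hs.1 (fun u w => ?_) (hG a b he).1 (h0 a b he))
    by_cases huw : s(u, w) ∈ G
    · exact (h0 u w huw).trans (h0 w u (Sym2.eq_swap ▸ huw)).symm
    · exact hs.2 u w huw
  have h1 := hom_reg T G V₀ ⟨a, (hG a b he).2⟩ hV hG
  have h2 := LinearMap.finrank_le_finrank_of_injective hinj
  have hsur := (LinearMap.injective_iff_surjective_of_finrank_eq_finrank (by omega)).1 hinj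
  obtain ⟨⟨s, hs⟩, e⟩ := hsur ⟨f, hf⟩
  refine ⟨s, hs, fun u w h => ?_⟩
  have := congrFun (congrFun (congrArg Subtype.val e) u) w
  rw [← inv_res_mem s h]
  exact this

omit [DecidableEq V] in
/-- Along a gap of `G` at a vertex `w` where `G'` has one more edge. -/
theorem inv_one (T : Surf V) {G G' : Finset (Sym2 V)} {f : V → V → ZMod 2} (hf : f ∈ T.Inv G')
    {w x a u : V} (hM : ∀ t, s(w, t) ∈ G' ↔ s(w, t) ∈ G ∨ t = x) (hx : s(w, x) ∉ G)
    (hs : f w x = f x w) (ha : s(w, a) ∈ G) (hu : s(w, u) ∈ G)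
    (g : T.Gap (fun t => s(w, t) ∈ G) w a u) : f u w = f w a := by
  have ha' := (hM a).2 (Or.inl ha)
  have hu' := (hM u).2 (Or.inl hu)
  have hx' := (hM x).2 (Or.inr rfl)
  rcases g.split x with g' | ⟨g1, g2⟩
  · exact hf.2 w a u ha' hu' (g'.mono fun t => (hM t).1)
  · rw [hf.2 w x u hx' hu' ((g2.ins_right hx hu).mono fun t => (hM t).1), hs]
    exact hf.2 w a x ha' hx' (g1.mono fun t => (hM t).1)

omit [Fintype V] in
theorem inv_mem_left (G : Finset (Sym2 V)) {y z : V} (h : y ≠ z) (t : V) :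
    s(y, t) ∈ insert s(y, z) G ↔ s(y, t) ∈ G ∨ t = z := by
  rw [mem_insert, Sym2.eq_iff, or_comm]
  exact or_congr_right ⟨fun o => o.elim (fun o => o.2) fun o => absurd o.1 h,
    fun e => Or.inl ⟨rfl, e⟩⟩

omit [Fintype V] in
theorem inv_mem_right (G : Finset (Sym2 V)) {y z : V} (h : y ≠ z) (t : V) :
    s(z, t) ∈ insert s(y, z) G ↔ s(z, t) ∈ G ∨ t = y := by
  rw [Sym2.eq_swap (a := y)]
  exact inv_mem_left G h.symm t

/-- Functions with the same value on the two new darts restrict injectively. -/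
theorem inv_le (T : Surf V) (G : Finset (Sym2 V)) (hG : ∀ u w, s(u, w) ∈ G → T.adj u w)
    {y z : V} (h : T.adj y z) (hn : s(y, z) ∉ G) (hy : ∃ u, s(y, u) ∈ G)
    (K : Submodule (ZMod 2) (T.Inv (insert s(y, z) G))) (hK : ∀ f ∈ K, f.1 y z = f.1 z y) :
    Module.finrank (ZMod 2) K ≤ Module.finrank (ZMod 2) (T.Inv G) := by
  have hne := T.ne_of_adj h
  have hn' : s(z, y) ∉ G := Sym2.eq_swap ▸ hn
  have hmap : ∀ f : K, ((inv_res G).comp ((T.Inv (insert s(y, z) G)).subtype.comp K.subtype)) f ∈
      T.Inv G := by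
    rintro ⟨⟨f, hf⟩, hfK⟩
    have hs : f y z = f z y := hK _ hfK
    refine ⟨fun u w h => inv_res_not f h, fun w a u ha hu g => ?_⟩
    change inv_res G f u w = inv_res G f w a
    rw [inv_res_mem f ha, inv_res_mem f (Sym2.eq_swap ▸ hu)]
    by_cases e1 : w = y
    · subst e1
      exact inv_one T hf (inv_mem_left G hne) hn hs ha hu g
    by_cases e2 : w = z
    · subst e2
      exact inv_one T hf (inv_mem_right G hne) hn' hs.symm ha hu g
    refine hf.2 w a u (mem_insert_of_mem ha) (mem_insert_of_mem hu) (g.mono fun t ht => ?_)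
    rcases mem_insert.1 ht with e | e
    · rcases Sym2.eq_iff.1 e with e | e
      · exact absurd e.1 e1
      · exact absurd e.1 e2
    · exact e
  refine LinearMap.finrank_le_finrank_of_injective (f := LinearMap.codRestrict _ _ hmap) ?_
  rw [injective_iff_map_eq_zero]
  rintro ⟨⟨f, hf⟩, hfK⟩ e
  have hs : f y z = f z y := hK _ hfK
  have h0 : ∀ u w, s(u, w) ∈ G → f u w = 0 := fun u w huw => by
    have := congrFun (congrFun (congrArg Subtype.val e) u) w
    rw [← inv_res_mem f huw]
    exact this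
  have hyz : f y z = 0 := by
    obtain ⟨x, hx⟩ := hy
    obtain ⟨u, hu, g⟩ := Surf.exists_gap (M := fun t => s(y, t) ∈ G) h (hG y x hx) hx
    rw [← hf.2 y z u (mem_insert_self _ _) (mem_insert_of_mem hu)
      ((g.ins_right hn hu).mono fun t => (inv_mem_left G hne t).1)]
    exact h0 u y (Sym2.eq_swap ▸ hu)
  refine Subtype.ext (Subtype.ext ?_)
  funext u w
  change f u w = 0
  by_cases huw : s(u, w) ∈ insert s(y, z) G
  · rcases mem_insert.1 huw with e | e
    · rcases Sym2.eq_iff.1 e with ⟨rfl, rfl⟩ | ⟨rfl, rfl⟩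
      · exact hyz
      · rw [← hs, hyz]
    · exact h0 u w e
  · exact hf.1 u w huw

/-- Block Inv (2): a chord raises the dimension by at most one. -/
theorem inv_chord (T : Surf V) (G : Finset (Sym2 V)) (hG : ∀ u w, s(u, w) ∈ G → T.adj u w)
    {y z : V} (h : T.adj y z) (hn : s(y, z) ∉ G) (hy : ∃ u, s(y, u) ∈ G) (hz : ∃ p, s(z, p) ∈ G) :
    Module.finrank (ZMod 2) (T.Inv (insert s(y, z) G)) ≤
      Module.finrank (ZMod 2) (T.Inv G) + 1 := by
  obtain ⟨l, hl⟩ : ∃ l : T.Inv (insert s(y, z) G) →ₗ[ZMod 2] ZMod 2,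
      ∀ f, l f = f.1 y z - f.1 z y :=
    ⟨{ toFun := fun f => f.1 y z - f.1 z y
       map_add' := fun f g => by simp only [Submodule.coe_add, Pi.add_apply]; ring
       map_smul' := fun c f => by
        simp only [Submodule.coe_smul, Pi.smul_apply, smul_eq_mul, RingHom.id_apply]; ring },
      fun _ => rfl⟩
  have h1 := l.finrank_range_add_finrank_ker
  have h2 : Module.finrank (ZMod 2) (LinearMap.range l) ≤ 1 :=
    (Submodule.finrank_le _).trans (Module.finrank_self _).le
  have h3 := inv_le T G hG h hn hy (LinearMap.ker l) fun f hf =>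
    sub_eq_zero.1 ((hl f).symm.trans hf)
  obtain ⟨-, -⟩ := hz
  omega

/-- Block Inv (3): a pendant edge does not raise the dimension. -/
theorem inv_pend (T : Surf V) (G : Finset (Sym2 V)) (hG : ∀ u w, s(u, w) ∈ G → T.adj u w)
    {y z : V} (h : T.adj y z) (hy : ∃ u, s(y, u) ∈ G) (hz : ∀ p, s(z, p) ∉ G) :
    Module.finrank (ZMod 2) (T.Inv (insert s(y, z) G)) ≤ Module.finrank (ZMod 2) (T.Inv G) := by
  have hm := inv_mem_right G (T.ne_of_adj h)
  have hzy := (hm y).2 (Or.inr rfl)
  obtain ⟨u, hu, g⟩ := Surf.exists_gap (M := fun t => s(z, t) ∈ insert s(y, z) G) (T.symm h)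
    (T.symm h) hzy
  obtain rfl : u = y := ((hm u).1 hu).resolve_left (hz u)
  have := inv_le T G hG h (Sym2.eq_swap ▸ hz u) hy ⊤ fun f _ => f.2.2 z u u hzy hzy g
  rwa [finrank_top] at this

end Pool.Agent.MP_6209da_co

/-! The search program (Boolean, written for kernel evaluation). -/

namespace Pool.Agent.MP_6209da_co.Chk

noncomputable section

def frc (n : ℕ) (k : ℕ → Bool) : Bool :=
  Nat.rec (motive := fun _ => Bool) (k (nat_lit 0)) (fun p _ => k (Nat.succ p)) n

def frn (n : ℕ) (k : ℕ → ℕ) : ℕ :=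
  Nat.rec (motive := fun _ => ℕ) (k (nat_lit 0)) (fun p _ => k (Nat.succ p)) n

def cd (b x y : Bool) : Bool := Bool.rec (motive := fun _ => Bool) y x b

def cn (b : Bool) (x y : ℕ) : ℕ := Bool.rec (motive := fun _ => ℕ) y x b

def ix (w u : ℕ) : ℕ := Nat.add (Nat.mul (nat_lit 64) w) (Nat.mul (nat_lit 4) u)

def gt (t w u : ℕ) : ℕ := Nat.land (Nat.shiftRight t (ix w u)) (nat_lit 15)

def xr (t w u v : ℕ) : ℕ := Nat.xor t (Nat.shiftLeft v (ix w u))

def hs (t w u : ℕ) : Bool := Nat.ble (nat_lit 1) (gt t w u)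

def pr (t w u : ℕ) : ℕ := Nat.sub (gt t w u) (nat_lit 1)

def allN (n : ℕ) (f : ℕ → Bool) : Bool :=
  Nat.rec (motive := fun _ => Bool) true (fun i ih => cd (f i) ih false) n

def cls1 (t u w z : ℕ) : Bool := cd (Nat.beq (pr t z w) u) (Nat.beq (pr t u z) w) false

def cls (t u w : ℕ) : Bool := frc (pr t w u) (cls1 t u w)

def fc2 (u₀ w₀ : ℕ) (ih : ℕ → ℕ → Bool) (w z : ℕ) : Bool :=
  cd (cd (Nat.beq w u₀) (Nat.beq z w₀) false) true (ih w z)

def fc (t u₀ w₀ : ℕ) (f : ℕ → ℕ → Bool) (k : ℕ) : ℕ → ℕ → Bool :=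
  Nat.rec (motive := fun _ => ℕ → ℕ → Bool) (fun _ _ => false)
    (fun _ ih u w => cd (f u w) (frc (pr t w u) (fc2 u₀ w₀ ih w)) false) k

def ins2 (t y u z p a b : ℕ) : ℕ :=
  xr (xr (xr (xr t y z a) y u (Nat.xor a (Nat.succ z))) z y b) z p (Nat.xor b (Nat.succ y))

def ins1 (t y u z p a : ℕ) : ℕ := frn (gt t z p) (ins2 t y u z p a)

def ins (t y u z p : ℕ) : ℕ := frn (gt t y u) (ins1 t y u z p)

def pen1 (t y u z a : ℕ) : ℕ :=
  xr (xr (xr t y z a) y u (Nat.xor a (Nat.succ z))) z y (Nat.succ y)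

def pen (t y u z : ℕ) : ℕ := frn (gt t y u) (pen1 t y u z)

def nb4 (n t w u : ℕ) (k : ℕ → ℕ → ℕ → Bool) (p y : ℕ) : Bool :=
  frc (ins t w u y p) (k n y)

def nb3 (n t w u : ℕ) (k : ℕ → ℕ → ℕ → Bool) (p y : ℕ) : Bool :=
  cd (Nat.beq y w) true (cd (hs t w y) true (nb4 n t w u k p y))

def nb2 (n t w : ℕ) (k : ℕ → ℕ → ℕ → Bool) (u : ℕ) : Bool :=
  cd (cls t u w) true
    (cd (cd (Nat.ble n (nat_lit 13)) (frc (pen t w u n) (k (Nat.succ n) n)) false)
      (fc t u w (nb3 n t w u k) (nat_lit 60) u w) false)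

def nb1 (n t w : ℕ) (k : ℕ → ℕ → ℕ → Bool) (u : ℕ) : Bool :=
  cd (k n u t) (nb2 n t w k u) false

def nbr (n t w : ℕ) (k : ℕ → ℕ → ℕ → Bool) : Bool :=
  allN n fun u => cd (hs t w u) (nb1 n t w k u) true

def en2 (t u y p : ℕ) (k : ℕ → Bool) (q x : ℕ) : Bool :=
  cd (Nat.beq x u) (frc (ins t y p u q) k) true

def en1 (t u y : ℕ) (k : ℕ → Bool) (p : ℕ) : Bool :=
  cd (cls t p y) true (fc t p y (en2 t u y p k) (nat_lit 60) p y)

def ens (n t u y : ℕ) (k : ℕ → Bool) : Bool :=
  cd (hs t y u) (k t) (allN n fun p => cd (hs t y p) (en1 t u y k p) true)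

/-- Look up the record of a child (not verified). -/
def sub (key : ℕ) (k : ℕ) : ℕ → ℕ :=
  Nat.rec (motive := fun _ => ℕ → ℕ) (fun _ => (nat_lit 0))
    (fun _ ih c => cn (Nat.beq c (nat_lit 0)) (nat_lit 0)
      (frn (Nat.land (Nat.shiftRight c (nat_lit 12)) (nat_lit 1048575)) fun l =>
        cn (Nat.beq (Nat.land c (nat_lit 4095)) key)
          (Nat.land (Nat.shiftRight c (nat_lit 32)) (Nat.sub (Nat.shiftLeft (nat_lit 1) l) (nat_lit 1)))
          (frn (Nat.shiftRight c (Nat.add (nat_lit 32) l)) ih))) k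

def nxt (c : ℕ) (go : ℕ → ℕ → ℕ → Bool) (n t : ℕ) : Bool :=
  frc (sub (Nat.mod t (nat_lit 4093)) (nat_lit 99) c) (go n t)

def th2 (u w c : ℕ) (go : ℕ → ℕ → ℕ → Bool) (n y t : ℕ) : Bool :=
  cd (cd (Nat.beq (pr t w u) y) (cls t u w) false) true
    (cd (cd (Nat.beq (pr t u w) y) (cls t w u) false) true (nxt c go n t))

def th1 (u w c : ℕ) (go : ℕ → ℕ → ℕ → Bool) (n y t : ℕ) : Bool :=
  cd (Nat.beq y u) true (ens n t u y (th2 u w c go n y))

def third (n t u w c : ℕ) (go : ℕ → ℕ → ℕ → Bool) : Bool :=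
  nbr n t w (th1 u w c go)

def pe2 (u w : ℕ) (k : ℕ → ℕ → ℕ → Bool) (n y t : ℕ) : Bool :=
  cd (Nat.beq (pr t u y) w) (cd (Nat.beq (pr t y w) u) (k n y t) true) true

def pe1 (u w : ℕ) (k : ℕ → ℕ → ℕ → Bool) (n y t : ℕ) : Bool :=
  cd (Nat.beq y u) true (cd (Nat.beq (pr t w u) y)
    (cd (hs t y u) (pe2 u w k n y t) (en1 t u y (pe2 u w k n y) w)) true)

def peel (n t u w : ℕ) (k : ℕ → ℕ → ℕ → Bool) : Bool :=
  cd (frc (pr t w u) fun y => pe1 u w k n y t) (nb2 n t w (pe1 u w k) u) false

def dg (n t w : ℕ) : ℕ :=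
  Nat.rec (motive := fun _ => ℕ) (nat_lit 0) (fun i ih => cn (hs t w i) (Nat.succ ih) ih) n

def full (n t w : ℕ) : Bool := allN n fun u => cd (hs t w u) (cls t u w) true

def dig (r i : ℕ) : ℕ := Nat.land (Nat.shiftRight r (Nat.mul (nat_lit 4) i)) (nat_lit 15)

/-- The state is a closed surface, mapped by the digits of `r` into the table `tb`. -/
def leaf (n t nb tb r s : ℕ) : Bool :=
  allN n fun w => frc (dig r w) fun w' =>
    cd (Nat.beq (dig s w') w) (cd (Nat.ble (Nat.succ w') nb)
      (allN n fun u => cd (hs t w u)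
        (cd (cls t u w) (Nat.beq (gt tb w' (dig r u)) (Nat.succ (dig r (pr t w u)))) false)
        true) false) false

def go (bn bt : ℕ → ℕ) (k : ℕ) : ℕ → ℕ → ℕ → Bool :=
  Nat.rec (motive := fun _ => ℕ → ℕ → ℕ → Bool) (fun _ _ _ => false)
    (fun _ ih n t c => frc (Nat.land c (nat_lit 7)) fun o =>
      frc (Nat.land (Nat.shiftRight c (nat_lit 3)) (nat_lit 15)) fun u => frc (Nat.land (Nat.shiftRight c (nat_lit 7)) (nat_lit 15)) fun w =>
        frc (Nat.shiftRight c (nat_lit 11)) fun c' =>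
          cd (Nat.beq o (nat_lit 1)) (Nat.ble (nat_lit 7) (dg n t (nat_lit 0)))
            (cd (Nat.beq o (nat_lit 2))
              (cd (Nat.ble (Nat.succ w) n)
                (cd (full n t w) (Nat.ble (Nat.succ (dg n t w)) (dg n t (nat_lit 0))) false) false)
              (cd (Nat.beq o (nat_lit 3))
                (frc (Nat.add (Nat.mul (nat_lit 16) u) w) fun j => frc (bn j) fun nb => frc (bt j) fun tb =>
                  frc (Nat.land c' (nat_lit 281474976710655)) fun r => frc (Nat.shiftRight c' (nat_lit 48)) fun s =>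
                    leaf n t nb tb r s)
                (cd (cd (Nat.ble (Nat.succ w) n) (cd (Nat.ble (Nat.succ u) n) (hs t w u) false)
                    false)
                  (cd (Nat.beq o (nat_lit 4)) (third n t u w c' ih)
                    (peel n t u w fun n _ t => nxt c' ih n t))
                  false)))) k

end

end Pool.Agent.MP_6209da_co.Chk

/-! The invariant `J` read on a table: `hs tb w u` says that `u`, `w` are adjacent and
`pr tb w u` is the apex of the triangle left of the dart from `u` to `w`. -/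

namespace Pool.Agent.MP_6209da_co

open Chk

structure CertD (nb tb : ℕ) (X : ℕ → W) (F : ℕ → ℕ → W) (P : ℕ → Fin 3 → W) : Prop where
  inv : ∀ u w, u < nb → w < nb → hs tb w u = true → F w (pr tb w u) = F u w
  zero : ∀ u w, u < nb → w < nb → hs tb w u = true → X u ⬝ᵥ F u w = 0
  pos : ∀ u w z, u < nb → w < nb → z < nb → hs tb w u = true → z ≠ u → z ≠ w → z ≠ pr tb w u →
    0 < X z ⬝ᵥ F u w
  low : ∀ u w, u < nb → w < nb → hs tb w u = true → 0 < F u w 4
  one : ∀ z, z < nb → 0 < X z 0
  cvx : ∀ v a d, v < nb → a < nb → d < nb → hs tb a v = true → hs tb d v = true → d ≠ a →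
    d ≠ pr tb a v → 0 < om (P v) (F v a) (F v (pr tb a v)) (F v d)

def Cert (nb tb : ℕ) : Prop := ∃ X F P, CertD nb tb X F P

/-- A surface that maps injectively onto a certified table satisfies `J`. -/
theorem J_of_cert {V : Type} [Fintype V] (T : Surf V) {nb tb : ℕ} (h : Cert nb tb) (ρ : V → ℕ)
    (hlt : ∀ v ∈ T.vs, ρ v < nb) (hinj : ∀ v ∈ T.vs, ∀ w ∈ T.vs, ρ v = ρ w → v = w)
    (hnx : ∀ u w, T.adj u w → gt tb (ρ w) (ρ u) = ρ (T.nx u w) + 1) : J T := by
  obtain ⟨X, F, P, h⟩ := h
  have h1 : ∀ u w, T.adj u w → hs tb (ρ w) (ρ u) = true := fun u w a => by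
    simp [hs, hnx u w a]
  have h2 : ∀ u w, T.adj u w → pr tb (ρ w) (ρ u) = ρ (T.nx u w) := fun u w a => by
    simp [pr, hnx u w a]
  have l : ∀ u w, T.adj u w → ρ u < nb := fun u w a => hlt u (T.mem a)
  have r : ∀ u w, T.adj u w → ρ w < nb := fun u w a => hlt w (T.mem (T.symm a))
  have m : ∀ u w, T.adj u w → T.nx u w ∈ T.vs := fun u w a => T.mem (T.symm (T.adj_nx a))
  refine ⟨fun v => X (ρ v), fun u w => F (ρ u) (ρ w), fun v => P (ρ v),
    fun u w a => ?_, fun u w a => h.zero _ _ (l _ _ a) (r _ _ a) (h1 _ _ a),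
    fun u w z a hz n1 n2 n3 => ?_, fun u w a => h.low _ _ (l _ _ a) (r _ _ a) (h1 _ _ a),
    fun z hz => h.one _ (hlt z hz), fun v a d ha hd n1 n2 => ?_⟩
  · rw [← h2 u w a]
    exact h.inv _ _ (l _ _ a) (r _ _ a) (h1 _ _ a)
  · refine h.pos _ _ _ (l _ _ a) (r _ _ a) (hlt z hz) (h1 _ _ a)
      (fun e => n1 (hinj _ hz _ (T.mem a) e)) (fun e => n2 (hinj _ hz _ (T.mem (T.symm a)) e)) ?_
    rw [h2 u w a]
    exact fun e => n3 (hinj _ hz _ (m _ _ a) e)
  · have := h.cvx _ _ _ (l _ _ ha) (r _ _ ha) (r _ _ hd) (h1 _ _ ha) (h1 _ _ hd)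
      (fun e => n1 (hinj _ (T.mem (T.symm hd)) _ (T.mem (T.symm ha)) e))
      (by rw [h2 _ _ ha]; exact fun e => n2 (hinj _ (T.mem (T.symm hd)) _ (m _ _ ha) e))
    rwa [h2 _ _ ha] at this

end Pool.Agent.MP_6209da_co

namespace Pool.Agent.MP_6209da_co.Chk

noncomputable section

def bnL : ℕ := 14090141273854423866393302759965825143

def btL : ℕ := 118936482021752828308537475161648783882005432881852820539475531616499454492346111467487131871082061120999869261500411797376465431775476364449912034298877819230203312784643799578915489007410843152147287500616226417416978437629829761716016469857110384370501419531363874892529751665046833051426479507967180440738683430193076457897775082663989095372121284212051161563613148416700872404567511622806572300245425481937149328917583479090848457563187647674187369520356770054490739984315993943080552543531909400074147157022597300195966772058657985240469754810323424882556736798298600000734847557731530877562973705851025041256481523853794412892519731706611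18578160327807395188032675547853448594392415325440388933414167900522605779780541102667923702983829306503105649901534750700427767331606375527171771285585358500692989781386286887216123953064553696551193482055457166637313521327500787206331496772941533404911549162624095215442242073404832624214981197513143107039450667746030111426723064122338074520762932238131727853165440457769348264454736553674703428796241033520156365919953790381984569850018540597175167261798530991329581894455449207961176393677607281122683797424474925760839426205670715317024734120041390008227848859320196937488504371432184522980425236125818668804706981734255954413088083036203249377882811798076770555439657627328021944090716413672398653013799844809419147740939581532919746884082247893822930323872491868462606238526785962295345972334859835171541494056304850103144165502022259620501328602684216132545717476979143442791480140689562874040942177170248157592360984338767833901866386876513482589759834919229423980409703249446890586699227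23211309824039797382798836933684259878428806114076623914875238296829908271053855093235330022507088450467091021359970838413452115921041635658379401162930773938099896970718449685446405719148692101381023552083951818796078627020104046606966389948501300678291934261013196050799512645981828129185159602407923456168658006413641405604702877404174609210699354487521753538620242252713125045140902776181812515267628768745480961489177708855025494685653228866335781456986789395551652238550910322391406091453667654124579254577274752690398487535214359333376920874016856817662112316046576047021232783855334448937224903906803886043476599688320351436084793571452270012415066931188381921575508107977982162351940442626560399491097397986199953013592577050752019047211393530912041950222266923885216746314071323872692536002860353709986249801453410545258684859774940015981923411514405349793918391130524014180560140781211308506802705839882236986646856772977251878199770775715250481950591073871500003144857636602594112018336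54998955075992089748575446588759978585075661502409110234457132535796678243401230690121771381853876807836708884613360705438568248783170195069764645612696087214209724093229777562356465260350588687229298317950833822573464370881794682363592659039924468188449685065353622415583443540952058395716967611376553000641433355097211467730294711842144828768943233948256964404949845819251924311340434822017558359304162347673918300658135487979079610701393231243077358510353494109310970886416830923821151410790351939538020251774910179908867583447135136703994754221982504863462487950668595556786514372843918443220525600324765196753832997086725806469675099228227746415690529730851038746563867789210241027113613674881351748366121170660700836420922597797760473287649298199607214763222769139994563888863384297481891762467230873764265740366098615601871526722907715400897505763537521968061788332897167177105574203854458236627910092150360847833102464918188037237009388341731746825356504559818289060105610728137379211475564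04616301460937858196735585842238260557249784633687369508774853184777754991939230827994725684597236977430363175834154405677091211582969584694175499541979959514380994658410465427952124222877270922412310321084831811719402599610637036240861717218863591301155056270420419494262336232025917645301771509341903608497556996592293962480897196423489748342524007987092799545113161960588592640485075361313614256213049592689248358372164498482771659331004523102110545661206381773068284070946814656763698012034044977640739889868653409245176470264853658880954832904220514241874348017005494354327877894674895175520550190683590362145090103383063905932482819371154209649476495612606460081403362782246750516904411430767064963857724445619201029965644238632380697116395691207164066039126983826646855912500986569643326961454631559603152258733675426772539589677483582652699928598199816678111984414252933272025505856558485665026834828137940299095555490397985509356982055800083216923534891201749419992346563266953511364094811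208951724043959155931288237023886164916791888838290899370428239808834084440017109079668484735326563467046119737630085229247069157769939364838701309460287275083318595304248040888426952439847769197528089049693004701207768555155909507120695118376270087678350086053450916278539861292090426660629080228664794205256917290294355809522540317319761990891588877266618877226521943006745721518156579667122989738750993414900968989362305672492232799131603365922426930402233415486408002137100778492330436310035103502795884671691336495258999262454496619498742468210801020575635448964436228805902596187323182619001492669280891752270156995826985583437684675592267852535338226714868926720833027572186463463555641006950570589298880415251259727757369550851003822663978183068444192897312422339854554753315729131969220224428152830447846069160707180028647239796873610357706987449111573030150323355505696231712720703438131422852602818268936534571383593688715649461044424201093205631364557110987783799128796913263189371703007631448354188844576060696200105293337774533440876817780243118005422939346601559997314458644721722563426145625561500731693757076981767711918615887273300075620813667527659638660106517744321357496860776910079376804461136477840667988374719005222942507480436628131227753716846510843600383961819245626435712641181300413243599755826224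

def bn (j : ℕ) : ℕ := dig bnL j

def bt (j : ℕ) : ℕ := Nat.land (Nat.shiftRight btL (Nat.mul 640 j)) (Nat.sub (Nat.shiftLeft 1 640) 1)

end

end Pool.Agent.MP_6209da_co.Chk

/-! A table that describes a subgraph of the surface with its corners. -/

namespace Pool.Agent.MP_6209da_co

open Finset Chk

def Chk.t0 : ℕ := 29990151112464894614817872948487128410048416848383871915638023452437582706913872

variable {V : Type} [Fintype V] [DecidableEq V]

/-- The table `t` on the labels `0, …, n - 1` describes the subgraph `G`: `hs t w u` is adjacency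
in `G`, and `pr t w u` is the neighbour in `G` that precedes `u` in the rotation at `w`. -/
structure Rep (T : Surf V) (n t : ℕ) (lb : ℕ → V) (G : Finset (Sym2 V)) : Prop where
  lo : 5 ≤ n
  hi : n ≤ 14
  inj : ∀ i j, i < n → j < n → lb i = lb j → i = j
  mem : ∀ a b, s(a, b) ∈ G → T.adj a b ∧ ∃ i, i < n ∧ lb i = a
  tab : ∀ w u, w < 16 → u < 16 → (hs t w u = true ↔ w < n ∧ u < n ∧ s(lb w, lb u) ∈ G)
  gap : ∀ w u, w < n → u < n → hs t w u = true → pr t w u < n ∧ hs t w (pr t w u) = true ∧
    T.Gap (fun x => s(lb w, x) ∈ G) (lb w) (lb (pr t w u)) (lb u)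
  nb : ∀ w, w < n → ∃ x, s(lb w, x) ∈ G
  con : ∀ P : V → Prop, (∀ a b, s(a, b) ∈ G → P a → P b) →
    ∀ i j, i < n → j < n → P (lb i) → P (lb j)
  tight : Module.finrank (ZMod 2) (T.Inv G) + n ≤ G.card
  deg : T.deg (lb 0) ≤ 6 ∧ ∀ v ∈ T.vs, T.deg (lb 0) ≤ T.deg v

theorem frc_eq (n : ℕ) (k : ℕ → Bool) : frc n k = k n := by cases n <;> rfl

theorem frn_eq (n : ℕ) (k : ℕ → ℕ) : frn n k = k n := by cases n <;> rfl

theorem cd_eq (b x y : Bool) : cd b x y = true ↔ (b = true ∧ x = true) ∨ (b = false ∧ y = true) := by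
  cases b <;> simp [cd]

theorem allN_iff (n : ℕ) (f : ℕ → Bool) : allN n f = true ↔ ∀ i, i < n → f i = true := by
  induction n with
  | zero => simp [allN]
  | succ n ih =>
    have : allN (n + 1) f = cd (f n) (allN n f) false := rfl
    rw [this, cd_eq, ih]
    constructor
    · rintro (⟨a, b⟩ | ⟨-, b⟩) i hi
      · rcases Nat.lt_succ_iff_lt_or_eq.1 hi with h | rfl
        · exact b i h
        · exact a
      · simp at b
    · exact fun h => Or.inl ⟨h n (by omega), fun i hi => h i (by omega)⟩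

variable {T : Surf V} {n t : ℕ} {lb : ℕ → V} {G : Finset (Sym2 V)}

theorem Rep.hs_iff (h : Rep T n t lb G) {w u : ℕ} (hw : w < n) (hu : u < n) :
    hs t w u = true ↔ s(lb w, lb u) ∈ G := by
  have := h.hi
  rw [h.tab w u (by omega) (by omega)]
  simp [hw, hu]

theorem Rep.hs_symm (h : Rep T n t lb G) {w u : ℕ} (hw : w < n) (hu : u < n)
    (e : hs t w u = true) : hs t u w = true := by
  rw [h.hs_iff hu hw, Sym2.eq_swap]
  exact (h.hs_iff hw hu).1 e

theorem Rep.lab (h : Rep T n t lb G) {a b : V} (e : s(a, b) ∈ G) : ∃ i, i < n ∧ lb i = b :=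
  (h.mem b a (by rwa [Sym2.eq_swap])).2

end Pool.Agent.MP_6209da_co
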