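import Pool.Agent.MP_6209da_co.Basic

/-!
Contraction of an edge whose ends have only the two obvious common neighbours.
-/

namespace Pool.Agent.MP_6209da_co

open Finset

section
variable {V : Type} [Fintype V] (S : Surf V) {p q : V}

theorem con_flat_iff (h : S.adj p q) {u w : V} (hu : S.adj u w) :
    S.Flat p q u w ↔ (u = p ∧ w = q) ∨ (u = q ∧ w = S.nx p q) ∨ (u = S.nx p q ∧ w = p) ∨
      (u = q ∧ w = p) ∨ (u = p ∧ w = S.nx q p) ∨ (u = S.nx q p ∧ w = q) := by
  have hpq := S.ne_of_adj h
  have h' := S.symm h
  constructor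
  · rintro ⟨h1 | h1 | h1, h2 | h2 | h2⟩
    · exact absurd (h1.trans h2.symm) hpq
    · exact Or.inl ⟨h1.symm, h2.symm⟩
    · subst h1
      refine Or.inr (Or.inr (Or.inr (Or.inr (Or.inl ⟨rfl, ?_⟩))))
      exact S.nx_inj hu (S.adj_nx h') (by rw [← h2, S.nx_nx h'])
    · exact Or.inr (Or.inr (Or.inr (Or.inl ⟨h2.symm, h1.symm⟩)))
    · exact absurd (h1.trans h2.symm) hpq
    · subst h1
      refine Or.inr (Or.inr (Or.inl ⟨?_, rfl⟩))
      rw [h2, S.nx_nx hu]
    · subst h2
      refine Or.inr (Or.inl ⟨rfl, ?_⟩)
      exact S.nx_inj hu (S.adj_nx h) (by rw [← h1, S.nx_nx h])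
    · subst h2
      refine Or.inr (Or.inr (Or.inr (Or.inr (Or.inr ⟨?_, rfl⟩))))
      rw [h1, S.nx_nx hu]
    · exact absurd (h1.trans h2.symm) hpq
  · rintro (⟨rfl, rfl⟩ | ⟨rfl, rfl⟩ | ⟨rfl, rfl⟩ | ⟨rfl, rfl⟩ | ⟨rfl, rfl⟩ | ⟨rfl, rfl⟩)
    · exact ⟨Or.inl rfl, Or.inr (Or.inl rfl)⟩
    · exact ⟨Or.inr (Or.inr (S.nx_nx h).symm), Or.inl rfl⟩
    · exact ⟨Or.inr (Or.inl rfl), Or.inr (Or.inr (S.nx_nx' h).symm)⟩
    · exact ⟨Or.inr (Or.inl rfl), Or.inl rfl⟩
    · exact ⟨Or.inl rfl, Or.inr (Or.inr (S.nx_nx h').symm)⟩
    · exact ⟨Or.inr (Or.inr (S.nx_nx' h').symm), Or.inr (Or.inl rfl)⟩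

theorem con_flat_rot {u w : V} (hu : S.adj u w) :
    S.Flat p q w (S.nx u w) ↔ S.Flat p q u w := by
  unfold Surf.Flat
  rw [S.nx_nx hu]
  exact and_congr or_rotate.symm or_rotate.symm

/-- A vertex whose rotation closes up after three steps has only these three neighbours. -/
theorem con_three {v x y z : V} (hx : S.adj v x) (h1 : S.nx v x = y) (h2 : S.nx v y = z)
    (h3 : S.nx v z = x) {t : V} (ht : S.adj v t) : t = x ∨ t = y ∨ t = z := by
  refine S.link v (fun t => t = x ∨ t = y ∨ t = z) x hx (Or.inl rfl) ?_ t ht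
  rintro s - (rfl | rfl | rfl)
  · exact Or.inr (Or.inl h1)
  · exact Or.inr (Or.inr h2)
  · exact Or.inl h3

/-- The surface is not a tetrahedron. -/
theorem con_notet (h : S.adj p q) (h1 : S.nx p (S.nx p q) = S.nx q p)
    (h2 : S.nx q (S.nx q p) = S.nx p q) : False := by
  classical
  have h' := S.symm h
  have hpa := S.adj_nx' h
  have hqb := S.adj_nx' h'
  have hall : ∀ x ∈ S.vs, x = p ∨ x = q ∨ x = S.nx p q ∨ x = S.nx q p := by
    refine S.conn _ p (S.mem h) (Or.inl rfl) ?_
    rintro x y hxy (rfl | rfl | rfl | rfl)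
    · rcases con_three S h rfl h1 (S.nx_nx h') hxy with e | e | e <;> simp [e]
    · rcases con_three S h' rfl h2 (S.nx_nx h) hxy with e | e | e <;> simp [e]
    · have e2 : S.nx (S.nx p q) q = S.nx q p := by
        have := S.nx_nx' hqb
        rwa [h2] at this
      have e3 : S.nx (S.nx p q) (S.nx q p) = p := by
        have := S.nx_nx hpa
        rwa [h1] at this
      rcases con_three S (S.symm hpa) (S.nx_nx' h) e2 e3 hxy with e | e | e <;> simp [e]
    · have e2 : S.nx (S.nx q p) p = S.nx p q := by
        have := S.nx_nx' hpa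
        rwa [h1] at this
      have e3 : S.nx (S.nx q p) (S.nx p q) = q := by
        have := S.nx_nx hqb
        rwa [h2] at this
      rcases con_three S (S.symm hqb) (S.nx_nx' h') e2 e3 hxy with e | e | e <;> simp [e]
  have hc : S.vs.card ≤ 4 := by
    refine le_trans (card_le_card (t := {p, q, S.nx p q, S.nx q p}) ?_) card_le_four
    intro x hx
    simpa using hall x hx
  have hs : {d : V × V | S.adj d.1 d.2} ⊆ ((S.vs ×ˢ S.vs : Finset (V × V)) : Set (V × V)) := by
    intro d hd
    simpa using ⟨S.mem hd, S.mem (S.symm hd)⟩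
  have hle := Set.ncard_le_ncard hs (Finset.finite_toSet _)
  rw [S.cnt, Set.ncard_coe_finset, card_product] at hle
  have := S.nonempty.card_pos
  nlinarith

/-- Propagation along the arc of the link of `p` that avoids `q`. -/
theorem con_arc (h : S.adj p q) (P : V → Prop)
    (hP : ∀ x, S.adj p x → x ≠ q → x ≠ S.nx q p → P x → P (S.nx p x)) :
    (∀ x, S.adj p x → x ≠ q → P x → P (S.nx q p)) ∧
      (P (S.nx p q) → ∀ y, S.adj p y → y ≠ q → P y) := by
  have h' := S.symm h
  constructor
  · intro x hx hxq hPx
    have := S.link p (fun y => P (S.nx q p) ∨ (y ≠ q ∧ P y)) x hx (Or.inr ⟨hxq, hPx⟩) ?_ q h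
    · rcases this with e | e
      · exact e
      · exact absurd rfl e.1
    · rintro y hy (e | ⟨e1, e2⟩)
      · exact Or.inl e
      · by_cases hb : y = S.nx q p
        · exact Or.inl (hb ▸ e2)
        · refine Or.inr ⟨fun e => hb ?_, hP y hy e1 hb e2⟩
          exact S.nx_inj hy (S.adj_nx h') (by rw [e, S.nx_nx h'])
  · intro ha y hy hyq
    have := S.link p (fun y => y = q ∨ P y) q h (Or.inl rfl) ?_ y hy
    · exact this.resolve_left hyq
    · intro x hx hx'
      by_cases e : x = q
      · exact Or.inr (e ▸ ha)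
      · by_cases hb : x = S.nx q p
        · exact Or.inl (by rw [hb, S.nx_nx h'])
        · exact Or.inr (hP x hx e hb (hx'.resolve_left e))

variable [DecidableEq V]

theorem con_col_ne {x : V} (hx : x ≠ p) : col p q x = x := if_neg hx

theorem con_col_left : col p q p = q := if_pos rfl

theorem con_col_eq {x y : V} (e : col p q x = col p q y) :
    x = y ∨ (x = p ∧ y = q) ∨ (x = q ∧ y = p) := by
  unfold col at e
  split_ifs at e with h1 h2 h2
  · exact Or.inl (h1.trans h2.symm)
  · exact Or.inr (Or.inl ⟨h1, e.symm⟩)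
  · exact Or.inr (Or.inr ⟨e, h2⟩)
  · exact Or.inl e

/-- The darts of the contracted surface. -/
def conAdj (p q u w : V) : Prop :=
  ∃ d : V × V, (S.adj d.1 d.2 ∧ ¬ S.Flat p q d.1 d.2) ∧ col p q d.1 = u ∧ col p q d.2 = w

open Classical in
/-- The apex map of the contracted surface. -/
noncomputable def conNx (p q u w : V) : V :=
  if h : conAdj S p q u w then col p q (S.nx h.choose.1 h.choose.2) else u

theorem con_mk {u w : V} (hu : S.adj u w) (hf : ¬ S.Flat p q u w) :
    conAdj S p q (col p q u) (col p q w) := ⟨(u, w), ⟨hu, hf⟩, rfl, rfl⟩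

theorem con_irr (h : S.adj p q) {u w : V} (hu : S.adj u w) (hf : ¬ S.Flat p q u w) :
    col p q u ≠ col p q w := by
  intro e
  rw [con_flat_iff S h hu] at hf
  rcases con_col_eq e with e | e | e
  · exact S.ne_of_adj hu e
  · exact hf (Or.inl e)
  · exact hf (Or.inr (Or.inr (Or.inr (Or.inl e))))

theorem con_inj (h : S.adj p q)
    (hc : ∀ y, S.adj p y → S.adj q y → y = S.nx p q ∨ y = S.nx q p) {u w u' w' : V}
    (hu : S.adj u w) (hf : ¬ S.Flat p q u w) (hu' : S.adj u' w') (hf' : ¬ S.Flat p q u' w')
    (e1 : col p q u = col p q u') (e2 : col p q w = col p q w') : u = u' ∧ w = w' := by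
  have h' := S.symm h
  have n1 := S.ne_of_adj hu
  have A : ∀ x, S.adj p x → S.adj q x → S.Flat p q p x ∨ S.Flat p q q x := by
    intro x h1 h2
    rcases hc x h1 h2 with rfl | rfl
    · exact Or.inr ⟨Or.inr (Or.inr (S.nx_nx h).symm), Or.inl rfl⟩
    · exact Or.inl ⟨Or.inl rfl, Or.inr (Or.inr (S.nx_nx h').symm)⟩
  have B : ∀ x, S.adj x p → S.adj x q → S.Flat p q x p ∨ S.Flat p q x q := by
    intro x h1 h2
    rcases hc x (S.symm h1) (S.symm h2) with rfl | rfl
    · exact Or.inl ⟨Or.inr (Or.inl rfl), Or.inr (Or.inr (S.nx_nx' h).symm)⟩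
    · exact Or.inr ⟨Or.inr (Or.inr (S.nx_nx' h').symm), Or.inr (Or.inl rfl)⟩
  rcases con_col_eq e1 with rfl | ⟨rfl, rfl⟩ | ⟨rfl, rfl⟩
  · rcases con_col_eq e2 with rfl | ⟨rfl, rfl⟩ | ⟨rfl, rfl⟩
    · exact ⟨rfl, rfl⟩
    · exact ((B u hu hu').elim hf hf').elim
    · exact ((B u hu' hu).elim hf' hf).elim
  · rcases con_col_eq e2 with rfl | ⟨rfl, rfl⟩ | ⟨rfl, rfl⟩
    · exact ((A w hu hu').elim hf hf').elim
    · exact absurd rfl n1
    · exact absurd ⟨Or.inl rfl, Or.inr (Or.inl rfl)⟩ hf
  · rcases con_col_eq e2 with rfl | ⟨rfl, rfl⟩ | ⟨rfl, rfl⟩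
    · exact ((A w hu' hu).elim hf' hf).elim
    · exact absurd ⟨Or.inr (Or.inl rfl), Or.inl rfl⟩ hf
    · exact absurd rfl n1

theorem con_nx (h : S.adj p q)
    (hc : ∀ y, S.adj p y → S.adj q y → y = S.nx p q ∨ y = S.nx q p) {u w : V}
    (hu : S.adj u w) (hf : ¬ S.Flat p q u w) :
    conNx S p q (col p q u) (col p q w) = col p q (S.nx u w) := by
  have hm := con_mk S hu hf
  unfold conNx
  rw [dif_pos hm]
  obtain ⟨⟨h1, h2⟩, h3, h4⟩ := hm.choose_spec
  obtain ⟨e1, e2⟩ := con_inj S h hc h1 h2 hu hf h3 h4
  rw [e1, e2]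

/-- The four darts that replace the reverses of flat darts. -/
theorem con_four (h : S.adj p q) :
    ¬ S.Flat p q p (S.nx p q) ∧ ¬ S.Flat p q (S.nx p q) q ∧ ¬ S.Flat p q q (S.nx q p) ∧
      ¬ S.Flat p q (S.nx q p) p := by
  have h' := S.symm h
  have n0 := S.ne_of_adj h
  have n1 := S.nx_ne_left h
  have n2 := S.nx_ne_right h
  have n3 := S.nx_ne_left h'
  have n4 := S.nx_ne_right h'
  have n5 := S.ne h
  rw [con_flat_iff S h (S.adj_nx' h), con_flat_iff S h (S.symm (S.adj_nx h)),
    con_flat_iff S h (S.adj_nx' h'), con_flat_iff S h (S.symm (S.adj_nx h'))]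
  simp [n0, n1, n2, n3, n4, n5, n0.symm, n1.symm, n2.symm, n3.symm, n4.symm, n5.symm]

theorem con_step (h : S.adj p q) {x y : V} (hxy : S.adj x y) :
    col p q x = col p q y ∨ conAdj S p q (col p q x) (col p q y) := by
  by_cases hf : S.Flat p q x y
  · have h' := S.symm h
    have cq : col p q q = col p q p := by
      rw [con_col_left, con_col_ne (S.ne_of_adj h')]
    obtain ⟨f1, f2, f3, f4⟩ := con_four S h
    rcases (con_flat_iff S h hxy).1 hf with
      ⟨rfl, rfl⟩ | ⟨rfl, rfl⟩ | ⟨rfl, rfl⟩ | ⟨rfl, rfl⟩ | ⟨rfl, rfl⟩ | ⟨rfl, rfl⟩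
    · exact Or.inl cq.symm
    · exact Or.inr (cq ▸ con_mk S (S.adj_nx' h) f1)
    · exact Or.inr (cq ▸ con_mk S (S.symm (S.adj_nx h)) f2)
    · exact Or.inl cq
    · exact Or.inr (cq ▸ con_mk S (S.adj_nx' h') f3)
    · exact Or.inr (cq ▸ con_mk S (S.symm (S.adj_nx h')) f4)
  · exact Or.inr (con_mk S hxy hf)

/-- The two sides of the merged edge at `nx p q` have different apexes. -/
theorem con_side (h : S.adj p q)
    (hc : ∀ y, S.adj p y → S.adj q y → y = S.nx p q ∨ y = S.nx q p)
    (e : S.nx (S.nx p q) q = S.nx p (S.nx p q)) : False := by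
  have hpa := S.adj_nx' h
  have haq := S.symm (S.adj_nx h)
  rcases hc _ (S.adj_nx' hpa) (e ▸ S.adj_nx haq) with e' | e'
  · exact S.nx_ne_right hpa e'
  · refine con_notet S h e' ?_
    have := S.nx_nx haq
    rwa [e, e'] at this

theorem con_side' (h : S.adj p q)
    (hc : ∀ y, S.adj p y → S.adj q y → y = S.nx p q ∨ y = S.nx q p) :
    col p q (S.nx (S.nx p q) q) ≠ col p q (S.nx p (S.nx p q)) ∧
      col p q (S.nx (S.nx q p) p) ≠ col p q (S.nx q (S.nx q p)) := by
  have h' := S.symm h
  have hpa := S.adj_nx' h
  have haq := S.symm (S.adj_nx h)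
  have hqb := S.adj_nx' h'
  have hbp := S.symm (S.adj_nx h')
  obtain ⟨f1, f2, f3, f4⟩ := con_four S h
  constructor
  · intro e
    rcases con_col_eq e with e | ⟨e, -⟩ | ⟨e, -⟩
    · exact con_side S h hc e
    · exact f2 ⟨Or.inr (Or.inr e.symm), Or.inr (Or.inl rfl)⟩
    · exact S.nx_ne_right haq e
  · intro e
    rcases con_col_eq e with e | ⟨e, -⟩ | ⟨e, -⟩
    · exact con_side S h' (fun y h1 h2 => (hc y h2 h1).symm) e
    · exact S.nx_ne_right hbp e
    · exact f4 ⟨Or.inr (Or.inl rfl), Or.inr (Or.inr e.symm)⟩

theorem con_gen (h : S.adj p q)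
    (hc : ∀ y, S.adj p y → S.adj q y → y = S.nx p q ∨ y = S.nx q p) {u w : V}
    (hu : S.adj u w) (e1 : S.nx u w = p) (e2 : S.nx w u = q) : False := by
  have h' := S.symm h
  have hw := S.symm hu
  have up : S.adj p u := S.symm (e1 ▸ S.adj_nx' hu)
  have wp : S.adj p w := S.symm (e1 ▸ S.adj_nx hu)
  have uq : S.adj q u := S.symm (e2 ▸ S.adj_nx hw)
  have wq : S.adj q w := S.symm (e2 ▸ S.adj_nx' hw)
  have k1 : S.nx p u = w := e1 ▸ S.nx_nx' hu
  have k2 : S.nx q w = u := e2 ▸ S.nx_nx' hw
  rcases hc u up uq with a1 | a1 <;> rcases hc w wp wq with a2 | a2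
  · exact S.ne_of_adj hu (a1.trans a2.symm)
  · exact con_notet S h (by rw [← a1, ← a2, k1]) (by rw [← a1, ← a2, k2])
  · rw [a1, S.nx_nx h'] at k1
    exact S.irr q (k1 ▸ wq)
  · exact S.ne_of_adj hu (a1.trans a2.symm)

theorem con_ne (h : S.adj p q)
    (hc : ∀ y, S.adj p y → S.adj q y → y = S.nx p q ∨ y = S.nx q p) {u w : V}
    (hu : S.adj u w) (hf : ¬ S.Flat p q u w) :
    conNx S p q (col p q u) (col p q w) ≠ conNx S p q (col p q w) (col p q u) := by
  have h' := S.symm h
  have hw := S.symm hu
  rw [con_nx S h hc hu hf]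
  by_cases hg : S.Flat p q w u
  · have cq : col p q q = col p q p := by
      rw [con_col_left, con_col_ne (S.ne_of_adj h')]
    obtain ⟨f1, f2, f3, f4⟩ := con_four S h
    obtain ⟨s1, s2⟩ := con_side' S h hc
    rcases (con_flat_iff S h hw).1 hg with
      ⟨rfl, rfl⟩ | ⟨rfl, rfl⟩ | ⟨rfl, rfl⟩ | ⟨rfl, rfl⟩ | ⟨rfl, rfl⟩ | ⟨rfl, rfl⟩
    · exact absurd ⟨Or.inr (Or.inl rfl), Or.inl rfl⟩ hf
    · rw [cq, con_nx S h hc (S.adj_nx' h) f1]
      exact s1
    · rw [← cq, con_nx S h hc (S.symm (S.adj_nx h)) f2]
      exact s1.symm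
    · exact absurd ⟨Or.inl rfl, Or.inr (Or.inl rfl)⟩ hf
    · rw [← cq, con_nx S h hc (S.adj_nx' h') f3]
      exact s2
    · rw [cq, con_nx S h hc (S.symm (S.adj_nx h')) f4]
      exact s2.symm
  · rw [con_nx S h hc hw hg]
    intro e
    rcases con_col_eq e with e | ⟨e1, e2⟩ | ⟨e1, e2⟩
    · exact S.ne hu e
    · exact con_gen S h hc hu e1 e2
    · exact con_gen S h hc hw e2 e1

theorem con_link (h : S.adj p q)
    (hc : ∀ y, S.adj p y → S.adj q y → y = S.nx p q ∨ y = S.nx q p) (v : V) (P : V → Prop)
    (a : V) (ha : conAdj S p q v a) (hPa : P a)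
    (hP : ∀ x, conAdj S p q v x → P x → P (conNx S p q v x)) (b : V) (hb : conAdj S p q v b) :
    P b := by
  have h' := S.symm h
  have npq := S.ne_of_adj h
  have cq : col p q q = q := con_col_ne npq.symm
  have key : ∀ u x, S.adj u x → ¬ S.Flat p q u x → col p q u = v → P (col p q x) →
      P (col p q (S.nx u x)) := by
    intro u x h1 h2 h3 h4
    rw [← con_nx S h hc h1 h2, h3]
    exact hP _ (h3 ▸ con_mk S h1 h2) h4
  obtain ⟨⟨u, x⟩, ⟨hu, hf⟩, e1, rfl⟩ := ha
  obtain ⟨⟨u', y⟩, ⟨hu', hf'⟩, e1', rfl⟩ := hb
  dsimp only at *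
  by_cases hv : v = q
  · obtain ⟨A1, A2⟩ := con_arc S h (fun x => P (col p q x)) (fun x h1 h2 h3 h4 =>
      key p x h1 (by rw [con_flat_iff S h h1]; simp [h2, h3, npq, (S.ne_of_adj h1).symm])
        (con_col_left.trans hv.symm) h4)
    obtain ⟨B1, B2⟩ := con_arc S h' (fun x => P (col p q x)) (fun x h1 h2 h3 h4 =>
      key q x h1 (by rw [con_flat_iff S h h1]; simp [h2, h3, npq.symm, (S.ne_of_adj h1).symm])
        (cq.trans hv.symm) h4)
    have src : ∀ u x, S.adj u x → ¬ S.Flat p q u x → col p q u = v →
        (S.adj p x ∧ x ≠ q) ∨ (S.adj q x ∧ x ≠ p) := by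
      intro u x h1 h2 h3
      rcases con_col_eq (h3.trans (hv.trans cq.symm)) with rfl | ⟨rfl, -⟩ | ⟨rfl, -⟩
      · exact Or.inr ⟨h1, fun e => h2 ⟨Or.inr (Or.inl e.symm), Or.inl rfl⟩⟩
      · exact Or.inl ⟨h1, fun e => h2 ⟨Or.inl rfl, Or.inr (Or.inl e.symm)⟩⟩
      · exact Or.inr ⟨h1, fun e => h2 ⟨Or.inr (Or.inl e.symm), Or.inl rfl⟩⟩
    have hab : P (col p q (S.nx p q)) ∧ P (col p q (S.nx q p)) := by
      rcases src u x hu hf e1 with ⟨k1, k2⟩ | ⟨k1, k2⟩
      · have := A1 x k1 k2 hPa
        exact ⟨B2 this _ (S.adj_nx h) (S.nx_ne_left h), this⟩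
      · have := B1 x k1 k2 hPa
        exact ⟨this, A2 this _ (S.adj_nx h') (S.nx_ne_left h')⟩
    rcases src u' y hu' hf' e1' with ⟨k1, k2⟩ | ⟨k1, k2⟩
    · exact A2 hab.1 y k1 k2
    · exact B2 hab.2 y k1 k2
  · have src : ∀ u, col p q u = v → u = v := by
      intro u e
      by_cases hp : u = p
      · exact absurd (by rw [← e, hp, con_col_left]) hv
      · rwa [con_col_ne hp] at e
    have hvv : col p q v = v := by
      have k := src u e1
      rw [k] at e1
      exact e1
    obtain rfl := src u e1
    obtain rfl := src u' e1'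
    refine S.link u' (fun x => P (col p q x)) x hu hPa ?_ y hu'
    intro z hz hPz
    by_cases hg : S.Flat p q u' z
    · rcases (con_flat_iff S h hz).1 hg with
        ⟨k1, k2⟩ | ⟨k1, k2⟩ | ⟨k1, k2⟩ | ⟨k1, k2⟩ | ⟨k1, k2⟩ | ⟨k1, k2⟩
      · exact absurd (by rw [← hvv, k1, con_col_left]) hv
      · exact absurd k1 hv
      · rw [k2, con_col_left] at hPz
        rw [k1, k2, S.nx_nx' h, cq]
        exact hPz
      · exact absurd k1 hv
      · exact absurd (by rw [← hvv, k1, con_col_left]) hv
      · rw [k2, cq] at hPz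
        rw [k1, k2, S.nx_nx' h', con_col_left]
        exact hPz
    · exact key u' z hz hg hvv hPz

theorem con_cnt (h : S.adj p q)
    (hc : ∀ y, S.adj p y → S.adj q y → y = S.nx p q ∨ y = S.nx q p) :
    {d : V × V | conAdj S p q d.1 d.2}.ncard = 6 * (S.vs.erase p).card := by
  have h' := S.symm h
  have n0 := S.ne_of_adj h
  have n1 := S.nx_ne_left h
  have n2 := S.nx_ne_right h
  have n3 := S.nx_ne_left h'
  have n4 := S.nx_ne_right h'
  have n5 := S.ne h
  let six : Finset (V × V) :=
    {(p, q), (q, S.nx p q), (S.nx p q, p), (q, p), (p, S.nx q p), (S.nx q p, q)}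
  have c6 : six.card = 6 := by
    simp only [six]
    rw [card_insert_of_notMem, card_insert_of_notMem, card_insert_of_notMem,
      card_insert_of_notMem, card_insert_of_notMem, card_singleton] <;>
    simp only [mem_singleton, Prod.mk.injEq, n4.symm, n3, and_self, not_false_eq_true, mem_insert, n0.symm, n3.symm, n0, or_self, n2, and_true, n1, n5, n2.symm, and_false, n1.symm]
  have hsub : (six : Set (V × V)) ⊆ {d : V × V | S.adj d.1 d.2} := by
    intro d hd
    simp only [six, coe_insert, coe_singleton, Set.mem_insert_iff, Set.mem_singleton_iff] at hd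
    rcases hd with rfl | rfl | rfl | rfl | rfl | rfl
    exacts [h, S.adj_nx h, S.symm (S.adj_nx' h), h', S.adj_nx h', S.symm (S.adj_nx' h')]
  have e0 : {d : V × V | S.adj d.1 d.2 ∧ ¬ S.Flat p q d.1 d.2} =
      {d : V × V | S.adj d.1 d.2} \ (six : Set (V × V)) := by
    ext ⟨u, w⟩
    simp only [Set.mem_ofPred_eq, Set.mem_sdiff]
    refine and_congr_right fun hu => ?_
    rw [con_flat_iff S h hu]
    simp only [not_or, not_and, six, coe_insert, coe_singleton, Set.mem_insert_iff, Prod.mk.injEq, Set.mem_singleton_iff]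
  have e1 : {d : V × V | conAdj S p q d.1 d.2} =
      Prod.map (col p q) (col p q) '' {d : V × V | S.adj d.1 d.2 ∧ ¬ S.Flat p q d.1 d.2} := by
    ext ⟨u, w⟩
    simp only [conAdj, Set.mem_ofPred_eq, Set.mem_image, Prod.map, Prod.mk.injEq]
  rw [e1, Set.InjOn.ncard_image, e0, Set.ncard_sdiff hsub, S.cnt, Set.ncard_coe_finset, c6,
    card_erase_of_mem (S.mem h)]
  · omega
  · intro d hd d' hd' e
    simp only [Prod.map, Prod.mk.injEq] at e
    obtain ⟨k1, k2⟩ := con_inj S h hc hd.1 hd.2 hd'.1 hd'.2 e.1 e.2
    exact Prod.ext k1 k2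

end

/-- Block Con. -/
theorem contract {V : Type} [Fintype V] [DecidableEq V] (T' : Surf V) {v₁ v₂ : V}
    (h : T'.adj v₁ v₂)
    (hc : ∀ y, T'.adj v₁ y → T'.adj v₂ y → y = T'.nx v₁ v₂ ∨ y = T'.nx v₂ v₁) :
    ∃ T : Surf V, Contr T' T v₁ v₂ := by
  have h2 : v₂ ∈ T'.vs.erase v₁ := mem_erase.2 ⟨(T'.ne_of_adj h).symm, T'.mem (T'.symm h)⟩
  refine ⟨{ vs := T'.vs.erase v₁
            adj := conAdj T' v₁ v₂
            nx := conNx T' v₁ v₂
            symm := ?_, irr := ?_, mem := ?_, adj_nx := ?_, nx_nx := ?_, ne := ?_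
            link := con_link T' h hc
            conn := ?_
            nonempty := ⟨v₂, h2⟩
            cnt := con_cnt T' h hc },
    ⟨h, hc, rfl, fun u w hu hf => ⟨con_mk T' hu hf, con_nx T' h hc hu hf⟩⟩⟩
  · rintro _ _ ⟨d, ⟨hu, hf⟩, rfl, rfl⟩
    exact (con_step T' h (T'.symm hu)).resolve_left (con_irr T' h hu hf).symm
  · rintro u ⟨d, ⟨hu, hf⟩, e1, e2⟩
    exact con_irr T' h hu hf (e1.trans e2.symm)
  · rintro _ _ ⟨d, ⟨hu, -⟩, rfl, rfl⟩
    by_cases e : d.1 = v₁
    · rw [e, con_col_left]
      exact h2
    · rw [con_col_ne e]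
      exact mem_erase.2 ⟨e, T'.mem hu⟩
  · rintro _ _ ⟨d, ⟨hu, hf⟩, rfl, rfl⟩
    rw [con_nx T' h hc hu hf]
    exact con_mk T' (T'.adj_nx hu) (fun k => hf ((con_flat_rot T' hu).1 k))
  · rintro _ _ ⟨d, ⟨hu, hf⟩, rfl, rfl⟩
    rw [con_nx T' h hc hu hf,
      con_nx T' h hc (T'.adj_nx hu) (fun k => hf ((con_flat_rot T' hu).1 k)), T'.nx_nx hu]
  · rintro _ _ ⟨d, ⟨hu, hf⟩, rfl, rfl⟩
    exact con_ne T' h hc hu hf
  · intro P a ha hPa hP b hb
    have := T'.conn (fun x => P (col v₁ v₂ x)) a (mem_of_mem_erase ha)
      (by rw [con_col_ne (ne_of_mem_erase ha)]; exact hPa) ?_ b (mem_of_mem_erase hb)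
    · rwa [con_col_ne (ne_of_mem_erase hb)] at this
    · intro x y hxy hx
      rcases con_step T' h hxy with e | e
      · exact e ▸ hx
      · exact hP _ _ e hx

end Pool.Agent.MP_6209da_co

/-!
The invariant `J` survives a vertex split.
-/

namespace Pool.Agent.MP_6209da_co

open Finset Filter Topology

variable {V : Type} [Fintype V]

def split_Tri (T : Surf V) (u w z : V) : Prop := z = u ∨ z = w ∨ z = T.nx u w

theorem split_rot (T : Surf V) {u w z : V} (h : T.adj u w) (hz : split_Tri T u w z) :
    ∃ x, T.adj z x ∧ (∀ y, split_Tri T u w y ↔ split_Tri T z x y) ∧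
      ∀ F : V → V → W, (∀ u w, T.adj u w → F w (T.nx u w) = F u w) → F z x = F u w := by
  rcases hz with rfl | rfl | rfl
  · exact ⟨w, h, fun _ => Iff.rfl, fun _ _ => rfl⟩
  · refine ⟨_, T.adj_nx h, fun y => ?_, fun F hF => hF _ _ h⟩
    rw [split_Tri, split_Tri, T.nx_nx h]
    tauto
  · refine ⟨u, T.symm (T.adj_nx' h), fun y => ?_, fun F hF => ?_⟩
    · rw [split_Tri, split_Tri, T.nx_nx' h]
      tauto
    · have := hF _ _ (T.adj_nx h)
      rw [T.nx_nx h] at this
      rw [this, hF _ _ h]

theorem split_zero {T : Surf V} {X : V → W} {F : V → V → W}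
    (inv : ∀ u w, T.adj u w → F w (T.nx u w) = F u w)
    (zero : ∀ u w, T.adj u w → X u ⬝ᵥ F u w = 0) {u w z : V} (h : T.adj u w)
    (hz : split_Tri T u w z) : X z ⬝ᵥ F u w = 0 := by
  obtain ⟨x, h1, -, h2⟩ := split_rot T h hz
  rw [← h2 F inv, zero _ _ h1]

section Om

variable (P : Fin 3 → W) (a b c d : W)

theorem split_cyc : om P a b c = om P b c a := by
  simp only [om, tp]
  ring

theorem split_swap : om P a b c = - om P b a c := by
  simp only [om, tp]
  ring

theorem split_add : om P a b (c + d) = om P a b c + om P a b d := by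
  simp only [om, tp, dotProduct_add]
  ring

theorem split_left : om P a b a = 0 := by
  simp only [om, tp]
  ring

theorem split_right : om P a b b = 0 := by
  simp only [om, tp]
  ring

theorem split_l : om P (b + a) b c = om P a b c := by
  simp only [om, tp, dotProduct_add]
  ring

theorem split_r : om P a (b + a) c = om P a b c := by
  simp only [om, tp, dotProduct_add]
  ring

theorem split_mid (e : ℝ) : om P a (b + a + e • c) b = e * om P a c b := by
  simp only [om, tp, dotProduct_add, dotProduct_smul, smul_eq_mul]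
  ring

theorem split_id (h : W) : om P (b + a) h d * om P a b c =
    om P (b + a) h c * om P a b d + om P c d (b + a) * om P a b h := by
  simp only [om, tp, dotProduct_add]
  ring

theorem split_vec : ∃ U : W, ∀ y, U ⬝ᵥ y = om P a b y :=
  ⟨((P 1 ⬝ᵥ a) * (P 2 ⬝ᵥ b) - (P 2 ⬝ᵥ a) * (P 1 ⬝ᵥ b)) • P 0 +
    ((P 2 ⬝ᵥ a) * (P 0 ⬝ᵥ b) - (P 0 ⬝ᵥ a) * (P 2 ⬝ᵥ b)) • P 1 +
    ((P 0 ⬝ᵥ a) * (P 1 ⬝ᵥ b) - (P 1 ⬝ᵥ a) * (P 0 ⬝ᵥ b)) • P 2, fun y => by
    simp only [om, tp, add_dotProduct, smul_dotProduct, smul_eq_mul]
    ring⟩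

end Om

theorem split_pert (P : Fin 3 → W) {t₁ t₂ t₃ : W} (X₁ X₂ : W) {U Z : W} (h1 : U ⬝ᵥ t₁ ≠ 0)
    (h2 : Z ⬝ᵥ t₁ = 0) (h3 : Z ⬝ᵥ t₂ ≠ 0) (h4 : 0 < om P t₁ t₂ t₃) :
    ∃ (M : W) (R : Fin 3 → W), X₁ ⬝ᵥ M = 0 ∧ X₂ ⬝ᵥ M = 0 ∧ U ⬝ᵥ M = 0 ∧
      ∀ s : ℝ, 0 < s → 0 < om (P + s • R) t₁ M t₂ := by
  obtain ⟨M, m0, m1, m2, m3, m4, m5⟩ : ∃ M : W, M ≠ 0 ∧ X₁ ⬝ᵥ M = 0 ∧ X₂ ⬝ᵥ M = 0 ∧ U ⬝ᵥ M = 0 ∧
      Z ⬝ᵥ M = 0 ∧ 0 ≤ om P t₁ M t₂ := by
    obtain ⟨M, hM, m0⟩ := Submodule.exists_mem_ne_zero_of_ne_bot
      (LinearMap.ker_ne_bot_of_finrank_lt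
        (f := Matrix.mulVecLin (Matrix.of ![X₁, X₂, U, Z] : Matrix (Fin 4) (Fin 5) ℝ)) (by simp))
    have e : ∀ i, ![X₁, X₂, U, Z] i ⬝ᵥ M = 0 := fun i => congrFun (LinearMap.mem_ker.1 hM) i
    rcases le_total 0 (om P t₁ M t₂) with h | h
    · exact ⟨M, m0, e 0, e 1, e 2, e 3, h⟩
    · refine ⟨-M, neg_ne_zero.2 m0, ?_, ?_, ?_, ?_, ?_⟩
      · rw [dotProduct_neg, show X₁ ⬝ᵥ M = 0 from e 0, neg_zero]
      · rw [dotProduct_neg, show X₂ ⬝ᵥ M = 0 from e 1, neg_zero]
      · rw [dotProduct_neg, show U ⬝ᵥ M = 0 from e 2, neg_zero]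
      · rw [dotProduct_neg, show Z ⬝ᵥ M = 0 from e 3, neg_zero]
      · simp only [om, tp, dotProduct_neg] at h ⊢
        linarith
  have hM : 0 < M ⬝ᵥ M := lt_of_le_of_ne (Finset.sum_nonneg fun i _ => mul_self_nonneg _)
    fun e => m0 (dotProduct_self_eq_zero.1 e.symm)
  obtain ⟨μ, n1, n2, n3⟩ : ∃ μ : W, μ ⬝ᵥ t₁ = 0 ∧ μ ⬝ᵥ t₂ = 0 ∧ μ ⬝ᵥ M = M ⬝ᵥ M := by
    refine ⟨M - (M ⬝ᵥ t₁ / U ⬝ᵥ t₁) • U -
      ((M ⬝ᵥ t₂ - M ⬝ᵥ t₁ / U ⬝ᵥ t₁ * U ⬝ᵥ t₂) / Z ⬝ᵥ t₂) • Z, ?_, ?_, ?_⟩ <;>
      simp only [sub_dotProduct, smul_dotProduct, smul_eq_mul]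
    · rw [h2, div_mul_cancel₀ _ h1, mul_zero, sub_zero, sub_self]
    · rw [div_mul_cancel₀ _ h3, sub_self]
    · rw [m3, m4, mul_zero, mul_zero, sub_zero, sub_zero]
  refine ⟨M, fun i => (-(P i ⬝ᵥ t₃)) • μ, m1, m2, m3, fun s hs => ?_⟩
  have e : om (P + s • fun i => (-(P i ⬝ᵥ t₃)) • μ) t₁ M t₂ =
      om P t₁ M t₂ + s * (M ⬝ᵥ M) * om P t₁ t₂ t₃ := by
    simp only [om, tp, Pi.add_apply, Pi.smul_apply, add_dotProduct, smul_dotProduct, smul_eq_mul,
      n1, n2, n3]
    ring
  rw [e]
  positivity

theorem split_dot {ι : Type} {l : Filter ι} {x y : ι → W} {a b : W} (hx : Tendsto x l (𝓝 a))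
    (hy : Tendsto y l (𝓝 b)) : Tendsto (fun e => x e ⬝ᵥ y e) l (𝓝 (a ⬝ᵥ b)) :=
  tendsto_finsetSum _ fun i _ => (tendsto_pi_nhds.1 hx i).mul (tendsto_pi_nhds.1 hy i)

theorem split_open {ι : Type} {l : Filter ι} {X : ι → V → W} {F : ι → V → V → W}
    {P : ι → V → Fin 3 → W} {X₀ : V → W} {F₀ : V → V → W} {P₀ : V → Fin 3 → W}
    (hX : ∀ z, Tendsto (fun e => X e z) l (𝓝 (X₀ z)))
    (hF : ∀ u w, Tendsto (fun e => F e u w) l (𝓝 (F₀ u w)))
    (hP : ∀ z, Tendsto (fun e => P e z) l (𝓝 (P₀ z))) :
    ∀ᶠ e in l, (∀ u w z, 0 < X₀ z ⬝ᵥ F₀ u w → 0 < X e z ⬝ᵥ F e u w) ∧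
      (∀ u w, 0 < F₀ u w 4 → 0 < F e u w 4) ∧ (∀ z, 0 < X₀ z 0 → 0 < X e z 0) ∧
      ∀ v a b d, 0 < om (P₀ v) (F₀ v a) (F₀ v b) (F₀ v d) →
        0 < om (P e v) (F e v a) (F e v b) (F e v d) := by
  have key : ∀ {f : ι → ℝ} {c : ℝ}, Tendsto f l (𝓝 c) → 0 < c → ∀ᶠ e in l, 0 < f e :=
    fun {f c} hf h => hf.eventually (lt_mem_nhds h)
  simp only [eventually_and, eventually_all]
  refine ⟨fun u w z => key (split_dot (hX z) (hF u w)), fun u w => key (tendsto_pi_nhds.1 (hF u w) 4),
    fun z => key (tendsto_pi_nhds.1 (hX z) 0), fun v a b d => key ?_⟩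
  have t := fun i x => split_dot (tendsto_pi_nhds.1 (hP v) i) (hF v x)
  exact (((t 0 a).mul (((t 1 b).mul (t 2 d)).sub ((t 2 b).mul (t 1 d)))).sub
    ((t 1 a).mul (((t 0 b).mul (t 2 d)).sub ((t 2 b).mul (t 0 d))))).add
    ((t 2 a).mul (((t 0 b).mul (t 1 d)).sub ((t 1 b).mul (t 0 d))))

theorem split_two [DecidableEq V] (T : Surf V) {v₁ v₂ : V} {X : V → W} {F : V → V → W}
    {P : V → Fin 3 → W} {U : W} (inv : ∀ u w, T.adj u w → F w (T.nx u w) = F u w)
    (zero : ∀ u w, T.adj u w → X u ⬝ᵥ F u w = 0) (low : ∀ u w, T.adj u w → 0 < F u w 4)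
    (one : ∀ z ∈ T.vs, 0 < X z 0)
    (cvx : ∀ v a d, T.adj v a → T.adj v d → d ≠ a → d ≠ T.nx v a →
      0 < om (P v) (F v a) (F v (T.nx v a)) (F v d))
    (pos : ∀ u w z, T.adj u w → z ∈ T.vs → ¬ split_Tri T u w z →
      ¬ (z = v₁ ∧ split_Tri T u w v₂) → ¬ (z = v₂ ∧ split_Tri T u w v₁) → 0 < X z ⬝ᵥ F u w)
    (h12 : T.adj v₁ v₂) (hX : X v₂ = X v₁)
    (h1 : ∀ x, T.adj v₁ x → split_Tri T v₁ x v₂ → U ⬝ᵥ F v₁ x = 0)
    (h2 : ∀ x, T.adj v₁ x → ¬ split_Tri T v₁ x v₂ →
      U ⬝ᵥ F v₁ x < 0 ∧ T.nx (T.nx v₁ x) x ≠ v₂)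
    (h3 : ∀ y, T.adj v₂ y → ¬ split_Tri T v₂ y v₁ → 0 < U ⬝ᵥ F v₂ y) : J T := by
  classical
  let Y : ℝ → V → W := fun e z => if z = v₁ then X v₁ + e • U else X z
  let c : ℝ → V → ℝ := fun e x => -(e * U ⬝ᵥ F v₁ x) / (X v₁ + e • U) ⬝ᵥ F (T.nx v₁ x) x
  let H : ℝ → V → W := fun e x => c e x • F (T.nx v₁ x) x
  let G : ℝ → V → V → W := fun e u w => F u w + if T.adj u w then
    (if u = v₁ then H e w else if w = v₁ then H e (T.nx u w) else if T.nx u w = v₁ then H e u else 0)
    else 0
  have hg : ∀ x, T.adj v₁ x → ¬ split_Tri T v₁ x v₂ → 0 < X v₁ ⬝ᵥ F (T.nx v₁ x) x := fun x hx hn => by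
    refine pos _ _ _ (T.symm (T.adj_nx hx)) (T.mem hx) ?_ ?_ fun e => T.ne_of_adj h12 e.1
    · rintro (e | e | e)
      · exact T.nx_ne_left hx e.symm
      · exact T.ne_of_adj hx e
      · exact T.ne (T.adj_nx hx) ((T.nx_nx hx).trans e)
    · rintro ⟨-, e | e | e⟩
      · exact hn (Or.inr (Or.inr e))
      · exact hn (Or.inr (Or.inl e))
      · exact (h2 x hx hn).2 e.symm
  have t0 : Tendsto (fun e : ℝ => e) (𝓝[>] 0) (𝓝 0) := nhdsWithin_le_nhds
  have tX : Tendsto (fun e : ℝ => X v₁ + e • U) (𝓝[>] 0) (𝓝 (X v₁)) := by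
    simpa using (t0.smul_const U).const_add (X v₁)
  have tH : ∀ x, T.adj v₁ x → Tendsto (fun e => H e x) (𝓝[>] 0) (𝓝 0) := fun x hx => by
    by_cases hn : split_Tri T v₁ x v₂
    · simp only [H, c, h1 x hx hn, mul_zero, neg_zero, zero_div, zero_smul]
      exact tendsto_const_nhds
    · have := ((t0.mul_const (U ⬝ᵥ F v₁ x)).neg.div (split_dot tX tendsto_const_nhds)
        (hg x hx hn).ne').smul_const (F (T.nx v₁ x) x)
      rwa [zero_mul, neg_zero, zero_div, zero_smul] at this
  have tY : ∀ z, Tendsto (fun e => Y e z) (𝓝[>] 0) (𝓝 (X z)) := fun z => by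
    by_cases h : z = v₁
    · simp only [Y, h, if_true]
      exact tX
    · simp only [Y, h, if_false]
      exact tendsto_const_nhds
  have tG : ∀ u w, Tendsto (fun e => G e u w) (𝓝[>] 0) (𝓝 (F u w)) := fun u w => by
    rw [← add_zero (F u w)]
    refine Tendsto.const_add _ ?_
    split_ifs with h e1 e2 e3
    · exact tH _ (e1 ▸ h)
    · exact tH _ (e2 ▸ T.adj_nx h)
    · exact tH _ (e3 ▸ T.symm (T.adj_nx' h))
    · exact tendsto_const_nhds
    · exact tendsto_const_nhds
  have hD : ∀ᶠ e : ℝ in 𝓝[>] 0, ∀ x, 0 < X v₁ ⬝ᵥ F (T.nx v₁ x) x →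
      0 < (X v₁ + e • U) ⬝ᵥ F (T.nx v₁ x) x :=
    (split_open (X := fun e _ => X v₁ + e • U) (F := fun _ => F) (P := fun _ => P) (fun _ => tX)
      (fun _ _ => tendsto_const_nhds) fun _ => tendsto_const_nhds).mono fun e h x => h.1 _ _ v₁
  obtain ⟨e, ⟨⟨o1, o2, o3, o4⟩, hd⟩, he⟩ := (((split_open tY tG
    (P := fun _ => P) fun _ => tendsto_const_nhds).and hD).and self_mem_nhdsWithin).exists
  have he : 0 < e := he
  have ginv : ∀ u w, T.adj u w → G e w (T.nx u w) = G e u w := fun u w h => by
    simp only [G, inv u w h, h, T.adj_nx h, T.nx_nx h, if_true]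
    by_cases e1 : u = v₁
    · rw [if_neg (e1 ▸ (T.ne_of_adj h).symm), if_neg (e1 ▸ T.nx_ne_left h), if_pos e1, if_pos e1]
    · rw [if_neg e1, if_neg e1]
  have g1 : ∀ x, T.adj v₁ x → G e v₁ x = F v₁ x + c e x • F (T.nx v₁ x) x := fun x hx => by
    simp only [G, hx, if_true, H]
  have g2 : ∀ u w, ¬ split_Tri T u w v₁ → G e u w = F u w := fun u w hn => by
    simp only [G]
    rw [if_neg fun e : u = v₁ => hn (Or.inl e.symm),
      if_neg fun e : w = v₁ => hn (Or.inr (Or.inl e.symm)),
      if_neg fun e : T.nx u w = v₁ => hn (Or.inr (Or.inr e.symm)), ite_self, add_zero]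
  have y1 : Y e v₁ = X v₁ + e • U := if_pos rfl
  have y2 : ∀ z, z ≠ v₁ → Y e z = X z := fun z hz => if_neg hz
  refine ⟨Y e, G e, P, ginv, fun u w h => ?_, fun u w z h hz n1 n2 n3 => ?_,
    fun u w h => o2 u w (low u w h), fun z hz => o3 z (one z hz),
    fun v a d k1 k2 k3 k4 => o4 _ _ _ _ (cvx v a d k1 k2 k3 k4)⟩
  · by_cases ht : split_Tri T u w v₁
    · obtain ⟨x, hx, r1, r2⟩ := split_rot T h ht
      have hu := (r1 u).1 (Or.inl rfl)
      rw [← r2 _ ginv, g1 x hx, dotProduct_add, dotProduct_smul, smul_eq_mul]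
      by_cases e1 : u = v₁
      · rw [e1, y1, add_dotProduct, zero _ _ hx, zero_add, smul_dotProduct, smul_eq_mul]
        by_cases hn : split_Tri T v₁ x v₂
        · simp only [c, h1 x hx hn, mul_zero, neg_zero, zero_div, zero_mul, add_zero]
        · simp only [c]
          rw [div_mul_cancel₀ _ (hd x (hg x hx hn)).ne', add_neg_cancel]
      · rw [y2 u e1, split_zero inv zero hx hu, split_zero inv zero (T.symm (T.adj_nx hx))
          ((hu.resolve_left e1).elim (fun e => Or.inr (Or.inl e)) Or.inl), mul_zero, add_zero]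
    · rw [g2 u w ht, y2 u fun e => ht (Or.inl e.symm), zero u w h]
  · have hn : ¬ split_Tri T u w z := fun e => e.elim n1 fun e => e.elim n2 n3
    by_cases k1 : z = v₁ ∧ split_Tri T u w v₂
    · obtain ⟨rfl, k1⟩ := k1
      obtain ⟨y, hy, r1, r2⟩ := split_rot T h k1
      rw [g2 u w hn, y1, ← r2 F inv, add_dotProduct, ← hX, zero _ _ hy, zero_add, smul_dotProduct]
      exact mul_pos he (h3 y hy fun e => hn ((r1 _).2 e))
    by_cases k2 : z = v₂ ∧ split_Tri T u w v₁
    · obtain ⟨rfl, k2⟩ := k2
      obtain ⟨x, hx, r1, r2⟩ := split_rot T h k2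
      have hn' : ¬ split_Tri T v₁ x z := fun e => hn ((r1 _).2 e)
      rw [← r2 _ ginv, g1 x hx, y2 z (T.ne_of_adj h12).symm, hX, dotProduct_add, zero _ _ hx,
        zero_add, dotProduct_smul]
      exact mul_pos (div_pos (neg_pos.2 (mul_neg_of_pos_of_neg he (h2 x hx hn').1))
        (hd x (hg x hx hn'))) (hg x hx hn')
    exact o1 u w z (pos u w z h hz hn k1 k2)

structure split_SC (T' T : Surf V) (φ : V → V) (v₁ v₂ : V) : Prop where
  adj : T'.adj v₁ v₂
  common : ∀ y, T'.adj v₁ y → T'.adj v₂ y → y = T'.nx v₁ v₂ ∨ y = T'.nx v₂ v₁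
  vs : ∀ z ∈ T'.vs, φ z ∈ T.vs
  map : ∀ u w, T'.adj u w → ¬ (split_Tri T' u w v₁ ∧ split_Tri T' u w v₂) →
    T.adj (φ u) (φ w) ∧ T.nx (φ u) (φ w) = φ (T'.nx u w)
  fix : ∀ z, z ≠ v₁ → z ≠ v₂ → φ z = z
  eq : φ v₂ = φ v₁
  mem : φ v₁ = v₁ ∨ φ v₁ = v₂

structure split_G (T' : Surf V) (φ : V → V) (v₁ v₂ : V) (F G : V → V → W) (A B : W) : Prop where
  n : ∀ u w, T'.adj u w → ¬ (split_Tri T' u w v₁ ∧ split_Tri T' u w v₂) → G u w = F (φ u) (φ w)
  inv : ∀ u w, T'.adj u w → G w (T'.nx u w) = G u w
  s1 : G v₁ v₂ = F (φ v₁) (T'.nx v₁ v₂) + F (φ v₁) (T'.nx (T'.nx v₁ v₂) v₂) + A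
  s2 : G v₂ v₁ = F (φ v₂) (T'.nx v₂ v₁) + F (φ v₂) (T'.nx (T'.nx v₂ v₁) v₁) + B

variable {T' T : Surf V} {φ : V → V} {v₁ v₂ x y z c d u w : V} {X : V → W} {F G : V → V → W}
  {P : V → Fin 3 → W} {A B : W}

theorem split_G.symm (g : split_G T' φ v₁ v₂ F G A B) : split_G T' φ v₂ v₁ F G B A :=
  ⟨fun u w h hn => g.n u w h fun e => hn e.symm, g.inv, g.s2, g.s1⟩

theorem split_cv (D : JD T X F P) (hc : T.adj z c) (hd : T.adj z d) :
    0 ≤ om (P z) (F z c) (F z (T.nx z c)) (F z d) := by
  by_cases e1 : d = c
  · rw [e1, split_left]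
  by_cases e2 : d = T.nx z c
  · rw [e2, split_right]
  exact (D.cvx z c d hc hd e1 e2).le

theorem split_ps (D : JD T X F P) (h : T.adj u w) (hz : z ∈ T.vs) : 0 ≤ X z ⬝ᵥ F u w := by
  by_cases e : split_Tri T u w z
  · exact (split_zero D.inv D.zero h e).ge
  · exact (D.pos u w z h hz (fun k => e (Or.inl k)) (fun k => e (Or.inr (Or.inl k)))
      fun k => e (Or.inr (Or.inr k))).le

theorem split_deg (h : T.adj z c) (e : T.nx z (T.nx z c) = c) : False := by
  have h1 := T.nx_nx' (T.adj_nx' h)
  rw [e] at h1
  exact T.ne h h1.symm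

theorem split_tri_iff (h : T'.adj v₁ v₂) (hx : T'.adj v₁ x) :
    split_Tri T' v₁ x v₂ ↔ x = v₂ ∨ x = T'.nx v₂ v₁ := by
  refine ⟨?_, ?_⟩
  · rintro (e | e | e)
    · exact absurd e.symm (T'.ne_of_adj h)
    · exact Or.inl e.symm
    · exact Or.inr (by rw [e, T'.nx_nx' hx])
  · rintro (e | e)
    · exact Or.inr (Or.inl e.symm)
    · exact Or.inr (Or.inr (by rw [e, T'.nx_prev h]))

theorem split_flat (h : T'.adj v₁ v₂) (inv : ∀ u w, T'.adj u w → G w (T'.nx u w) = G u w)
    (hu : T'.adj u w) (hf : split_Tri T' u w v₁ ∧ split_Tri T' u w v₂) :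
    ((∀ z, split_Tri T' u w z ↔ split_Tri T' v₁ v₂ z) ∧ G u w = G v₁ v₂) ∨
      ((∀ z, split_Tri T' u w z ↔ split_Tri T' v₂ v₁ z) ∧ G u w = G v₂ v₁) := by
  obtain ⟨x, hx, r1, r2⟩ := split_rot T' hu hf.1
  rcases (split_tri_iff h hx).1 ((r1 _).1 hf.2) with rfl | rfl
  · exact Or.inl ⟨r1, (r2 G inv).symm⟩
  · refine Or.inr ⟨fun z => (r1 z).trans ?_, (r2 G inv).symm.trans (inv _ _ (T'.symm h))⟩
    rw [split_Tri, split_Tri, T'.nx_prev h]
    tauto

namespace split_SC

theorem symm (h : split_SC T' T φ v₁ v₂) : split_SC T' T φ v₂ v₁ :=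
  ⟨T'.symm h.adj, fun y h1 h2 => (h.common y h2 h1).symm, h.vs,
    fun u w k hn => h.map u w k fun e => hn e.symm, fun z h1 h2 => h.fix z h2 h1, h.eq.symm,
    h.eq ▸ h.mem.symm⟩

theorem inj (h : split_SC T' T φ v₁ v₂) (e : φ x = φ y) (n1 : ¬ (x = v₁ ∧ y = v₂))
    (n2 : ¬ (x = v₂ ∧ y = v₁)) : x = y := by
  have k : ∀ z, φ z = φ v₁ → z = v₁ ∨ z = v₂ := fun z hz => by
    by_contra hn
    rw [h.fix z (not_or.1 hn).1 (not_or.1 hn).2] at hz
    exact hn (hz ▸ h.mem)
  by_cases x1 : x = v₁
  · exact (k y (x1 ▸ e.symm)).elim (fun e => x1.trans e.symm) fun e => absurd ⟨x1, e⟩ n1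
  by_cases x2 : x = v₂
  · exact (k y (h.eq ▸ x2 ▸ e.symm)).elim (fun e => absurd ⟨x2, e⟩ n2) fun e => x2.trans e.symm
  by_cases y1 : φ y = φ v₁
  · exact absurd (k x (e.trans y1)) (not_or.2 ⟨x1, x2⟩)
  · rwa [h.fix x x1 x2, h.fix y (fun e => y1 (e ▸ rfl)) fun e => y1 (e ▸ h.eq)] at e

theorem xs (h : split_SC T' T φ v₁ v₂) (hx : T'.adj v₁ x) (hn : ¬ split_Tri T' v₁ x v₂) :
    φ x = x ∧ T.adj (φ v₁) x ∧ T.nx (φ v₁) x = T'.nx v₁ x := by
  have e := h.fix x (T'.ne_of_adj hx).symm fun e => hn (Or.inr (Or.inl e.symm))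
  have k := h.map _ _ hx fun k => hn k.2
  rw [e, h.fix _ (T'.nx_ne_left hx) fun e => hn (Or.inr (Or.inr e.symm))] at k
  exact ⟨e, k⟩

theorem xa (h : split_SC T' T φ v₁ v₂) : ¬ split_Tri T' v₁ (T'.nx v₁ v₂) v₂ := fun e =>
  ((split_tri_iff h.adj (T'.adj_nx' h.adj)).1 e).elim (T'.nx_ne_right h.adj) (T'.ne h.adj)

theorem xk (h : split_SC T' T φ v₁ v₂) : T'.adj v₁ (T'.nx (T'.nx v₂ v₁) v₁) ∧
    ¬ split_Tri T' v₁ (T'.nx (T'.nx v₂ v₁) v₁) v₂ ∧
      T'.nx v₁ (T'.nx (T'.nx v₂ v₁) v₁) = T'.nx v₂ v₁ := by
  have hb := T'.adj_nx (T'.symm h.adj)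
  have k := T'.adj_nx (T'.symm hb)
  refine ⟨k, fun e => ((split_tri_iff h.adj k).1 e).elim (fun e => T'.ne hb ?_)
    (T'.nx_ne_left (T'.symm hb)), T'.nx_prev hb⟩
  rw [e, T'.nx_prev h.adj]

theorem disj (h : split_SC T' T φ v₁ v₂) (hx : T'.adj v₁ x) (hn : ¬ split_Tri T' v₁ x v₂)
    (hy : T'.adj v₂ y) (hn' : ¬ split_Tri T' v₂ y v₁) : x ≠ y := by
  rintro rfl
  exact (h.common x hx hy).elim (fun e => hn' ((split_tri_iff h.symm.adj hy).2 (Or.inr e)))
    fun e => hn ((split_tri_iff h.adj hx).2 (Or.inr e))

theorem ta (h : split_SC T' T φ v₁ v₂) : T.adj (φ v₁) (T'.nx v₁ v₂) :=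
  (h.xs (T'.adj_nx' h.adj) h.xa).2.1

theorem tb (h : split_SC T' T φ v₁ v₂) : T.adj (φ v₁) (T'.nx v₂ v₁) := h.eq ▸ h.symm.ta

theorem tk (h : split_SC T' T φ v₁ v₂) : T.adj (φ v₁) (T'.nx (T'.nx v₂ v₁) v₁) ∧
    T.nx (φ v₁) (T'.nx (T'.nx v₂ v₁) v₁) = T'.nx v₂ v₁ :=
  ⟨(h.xs h.xk.1 h.xk.2.1).2.1, (h.xs h.xk.1 h.xk.2.1).2.2.trans h.xk.2.2⟩

theorem tl (h : split_SC T' T φ v₁ v₂) : T.adj (φ v₁) (T'.nx (T'.nx v₁ v₂) v₂) ∧
    T.nx (φ v₁) (T'.nx (T'.nx v₁ v₂) v₂) = T'.nx v₁ v₂ := h.eq ▸ h.symm.tk

theorem key (h : split_SC T' T φ v₁ v₂) (D : JD T X F P) :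
    0 < om (P (φ v₁)) (F (φ v₁) (T'.nx (T'.nx v₁ v₂) v₂)) (F (φ v₁) (T'.nx v₁ v₂))
      (F (φ v₁) (T'.nx v₂ v₁) + F (φ v₁) (T'.nx (T'.nx v₂ v₁) v₁)) := by
  have c1 := split_cv D h.tl.1 h.tb
  have c2 := split_cv D h.tl.1 h.tk.1
  have c3 := D.cvx _ _ _ h.tl.1 h.tb
  have c4 := D.cvx _ _ _ h.tl.1 h.tk.1
    (h.disj h.xk.1 h.xk.2.1 h.symm.xk.1 h.symm.xk.2.1)
  rw [h.tl.2] at c1 c2 c3 c4
  rw [split_add]
  by_cases e : T'.nx v₂ v₁ = T'.nx (T'.nx v₁ v₂) v₂
  · refine add_pos_of_nonneg_of_pos c1 (c4 fun e' => split_deg h.tk.1 ?_)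
    rw [h.tk.2, e, h.tl.2, ← e, e']
  · exact add_pos_of_pos_of_nonneg (c3 e (T'.ne h.adj).symm) c2

theorem out (h : split_SC T' T φ v₁ v₂) (D : JD T X F P) (hx : T'.adj v₁ x)
    (hn : ¬ split_Tri T' v₁ x v₂) (hn' : ¬ split_Tri T' v₁ (T'.nx v₁ x) v₂) (hy : T'.adj v₂ y)
    (hm : ¬ split_Tri T' v₂ y v₁) :
    0 < om (P (φ v₁)) (F (φ v₁) x) (F (φ v₁) (T'.nx v₁ x)) (F (φ v₁) y) := by
  have k := D.cvx _ _ _ (h.xs hx hn).2.1 (h.eq ▸ (h.symm.xs hy hm).2.1) (h.disj hx hn hy hm).symm
  rw [(h.xs hx hn).2.2] at k
  exact k (h.disj (T'.adj_nx' hx) hn' hy hm).symm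

theorem outb (h : split_SC T' T φ v₁ v₂) (D : JD T X F P) (hx : T'.adj v₁ x)
    (hn : ¬ split_Tri T' v₁ x v₂) (hn' : ¬ split_Tri T' v₁ (T'.nx v₁ x) v₂) :
    0 < om (P (φ v₁)) (F (φ v₁) x) (F (φ v₁) (T'.nx v₁ x))
      (F (φ v₁) (T'.nx v₂ v₁) + F (φ v₁) (T'.nx (T'.nx v₂ v₁) v₁)) := by
  have k := split_cv D (h.xs hx hn).2.1 h.tk.1
  rw [(h.xs hx hn).2.2] at k
  rw [split_add]
  exact add_pos_of_pos_of_nonneg (h.out D hx hn hn' (T'.adj_nx' h.symm.adj) h.symm.xa) k

theorem sign (h : split_SC T' T φ v₁ v₂) (D : JD T X F P) (hx : T'.adj v₁ x)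
    (hn : ¬ split_Tri T' v₁ x v₂) :
    0 < om (P (φ v₁)) (F (φ v₁) (T'.nx v₂ v₁) + F (φ v₁) (T'.nx (T'.nx v₂ v₁) v₁))
      (F (φ v₁) (T'.nx v₁ v₂) + F (φ v₁) (T'.nx (T'.nx v₁ v₂) v₂)) (F (φ v₁) x) := by
  have st := h.key D
  rw [← split_l, ← split_cyc] at st
  refine T'.link v₁ (fun x => ¬ split_Tri T' v₁ x v₂ → 0 < om (P (φ v₁))
    (F (φ v₁) (T'.nx v₂ v₁) + F (φ v₁) (T'.nx (T'.nx v₂ v₁) v₁))
    (F (φ v₁) (T'.nx v₁ v₂) + F (φ v₁) (T'.nx (T'.nx v₁ v₂) v₂)) (F (φ v₁) x))
    _ (T'.adj_nx' h.adj) (fun _ => st) (fun x hx ih hn' => ?_) x hx hn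
  by_cases hn : split_Tri T' v₁ x v₂
  · rcases (split_tri_iff h.adj hx).1 hn with rfl | rfl
    · exact st
    · exact absurd (Or.inr (Or.inl (T'.nx_prev h.adj).symm)) hn'
  have k1 := D.cvx _ _ _ h.tk.1 (h.xs hx hn).2.1 fun e =>
    hn' ((split_tri_iff h.adj (T'.adj_nx' hx)).2 (Or.inr (e ▸ h.xk.2.2)))
  have k2 := split_cv D h.tk.1 (h.xs (T'.adj_nx' hx) hn').2.1
  have k3 := h.symm.key D
  rw [h.eq] at k3
  rw [h.tk.2] at k1 k2
  have k4 := k1 fun e => hn ((split_tri_iff h.adj hx).2 (Or.inr e))
  refine (mul_pos_iff_of_pos_right k4).1 ?_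
  rw [split_id]
  exact add_pos_of_nonneg_of_pos (mul_nonneg (ih hn).le k2) (mul_pos (h.outb D hx hn hn') k3)

theorem cvx1 (h : split_SC T' T φ v₁ v₂) (D : JD T X F P) (g : split_G T' φ v₁ v₂ F G 0 0)
    (hc : T'.adj v₁ c) (hd : T'.adj v₁ d) (n1 : d ≠ c) (n2 : d ≠ T'.nx v₁ c) :
    0 < om (P (φ v₁)) (G v₁ c) (G v₁ (T'.nx v₁ c)) (G v₁ d) := by
  have g1 := g.s1
  have g2 := (g.inv _ _ h.symm.adj).trans g.s2
  have g3 : ∀ {x}, T'.adj v₁ x → ¬ split_Tri T' v₁ x v₂ → G v₁ x = F (φ v₁) x := fun hx hn => by
    rw [g.n _ _ hx fun k => hn k.2, (h.xs hx hn).1]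
  rw [add_zero] at g1 g2
  rw [h.eq] at g2
  have hd' := (split_tri_iff h.adj hd).1
  by_cases hn : split_Tri T' v₁ c v₂
  · rcases (split_tri_iff h.adj hc).1 hn with rfl | rfl
    · rw [g1, g3 (T'.adj_nx' hc) h.xa, split_l]
      by_cases k : split_Tri T' v₁ d c
      · rw [(hd' k).resolve_left n1, g2]
        exact h.key D
      · have := D.cvx _ _ _ h.tl.1 (h.xs hd k).2.1 (h.disj hd k h.symm.xk.1 h.symm.xk.2.1)
        rw [h.tl.2] at this
        rw [g3 hd k]
        exact this n2
    · rw [T'.nx_prev h.adj] at n2 ⊢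
      have k : ¬ split_Tri T' v₁ d v₂ := fun k => (hd' k).elim n2 n1
      rw [g1, g2, g3 hd k]
      exact h.sign D hd k
  by_cases hn' : split_Tri T' v₁ (T'.nx v₁ c) v₂
  · have e := ((split_tri_iff h.adj (T'.adj_nx' hc)).1 hn').resolve_left
      fun e => hn (Or.inr (Or.inr e.symm))
    obtain rfl := T'.nx_inj hc h.xk.1 (e.trans h.xk.2.2.symm)
    rw [e] at n2 ⊢
    rw [g2, g3 hc hn, split_r]
    by_cases k : split_Tri T' v₁ d v₂
    · rw [(hd' k).resolve_right n2, g1, ← h.eq]
      exact h.symm.key D
    · have := D.cvx _ _ _ h.tk.1 (h.xs hd k).2.1 n1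
      rw [h.tk.2] at this
      rw [g3 hd k]
      exact this n2
  rw [g3 hc hn, g3 (T'.adj_nx' hc) hn']
  by_cases k : split_Tri T' v₁ d v₂
  · rcases hd' k with rfl | rfl
    · have := split_cv D (h.xs hc hn).2.1 h.ta
      rw [(h.xs hc hn).2.2] at this
      rw [g1, split_add]
      exact add_pos_of_nonneg_of_pos this (h.out D hc hn hn' h.symm.xk.1 h.symm.xk.2.1)
    · rw [g2]
      exact h.outb D hc hn hn'
  · have := D.cvx _ _ _ (h.xs hc hn).2.1 (h.xs hd k).2.1 n1
    rw [(h.xs hc hn).2.2] at this
    rw [g3 hd k]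
    exact this n2

theorem inj' (h : split_SC T' T φ v₁ v₂) (hx : x ≠ v₁) (hy : y ≠ v₁) (e : φ x = φ y) : x = y :=
  h.inj e (fun k => hx k.1) fun k => hy k.2

theorem nfa (h : split_SC T' T φ v₁ v₂) (hc : T'.adj (T'.nx v₁ v₂) c) (n : c ≠ v₁) :
    ¬ (split_Tri T' (T'.nx v₁ v₂) c v₁ ∧ split_Tri T' (T'.nx v₁ v₂) c v₂) := by
  rintro ⟨e | e | e, k⟩
  · exact T'.nx_ne_left h.adj e.symm
  · exact n e.symm
  · have e' := T'.nx_nx' hc
    rw [← e] at e'
    rcases k with k | k | k
    · exact T'.nx_ne_right h.adj k.symm
    · exact h.xa (Or.inr (Or.inr (k.trans e'.symm)))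
    · exact T'.ne_of_adj h.adj (e.trans k.symm)

theorem at_a (h : split_SC T' T φ v₁ v₂) (D : JD T X F P) :
    T.adj (T'.nx v₁ v₂) (T'.nx v₁ (T'.nx v₁ v₂)) ∧
      T.nx (T'.nx v₁ v₂) (T'.nx v₁ (T'.nx v₁ v₂)) = φ v₁ ∧
      F (T'.nx v₁ v₂) (T'.nx v₁ (T'.nx v₁ v₂)) = F (φ v₁) (T'.nx v₁ v₂) ∧
      F (T'.nx v₁ v₂) (φ v₁) = F (φ v₁) (T'.nx (T'.nx v₁ v₂) v₂) ∧
      T.nx (T'.nx v₁ v₂) (φ v₁) = T'.nx (T'.nx v₁ v₂) v₂ := by
  have e := (h.xs (T'.adj_nx' h.adj) h.xa).2.2
  have k1 := D.inv _ _ (T.adj_nx h.tl.1)
  have k2 := T.nx_nx' h.tl.1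
  rw [T.nx_nx h.tl.1, D.inv _ _ h.tl.1, h.tl.2] at k1
  rw [h.tl.2] at k2
  exact ⟨e ▸ T.adj_nx h.ta, e ▸ T.nx_nx h.ta, e ▸ D.inv _ _ h.ta, k1, k2⟩

theorem ga (h : split_SC T' T φ v₁ v₂) (D : JD T X F P) (g : split_G T' φ v₁ v₂ F G A B) :
    G (T'.nx v₁ v₂) v₁ = F (T'.nx v₁ v₂) (φ v₁) + F (T'.nx v₁ v₂) (T'.nx v₁ (T'.nx v₁ v₂)) + A ∧
      (∀ c, T'.adj (T'.nx v₁ v₂) c → c ≠ v₁ → G (T'.nx v₁ v₂) c = F (T'.nx v₁ v₂) (φ c) ∧
        T.adj (T'.nx v₁ v₂) (φ c) ∧ T.nx (T'.nx v₁ v₂) (φ c) = φ (T'.nx (T'.nx v₁ v₂) c)) ∧
      φ (T'.nx v₁ (T'.nx v₁ v₂)) = T'.nx v₁ (T'.nx v₁ v₂) := by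
  have ha := T'.adj_nx' h.adj
  have e := (h.xs ha h.xa).1
  refine ⟨?_, fun c hc n => ?_, h.fix _ (T'.nx_ne_left ha) fun k => h.xa (Or.inr (Or.inr k.symm))⟩
  · have k := g.inv _ _ (T'.adj_nx h.adj)
    rw [T'.nx_nx h.adj] at k
    rw [k, g.inv _ _ h.adj, g.s1, (h.at_a D).2.2.1, (h.at_a D).2.2.2.1, add_comm (F _ _)]
  · have k := h.map _ _ hc (h.nfa hc n)
    rw [g.n _ _ hc (h.nfa hc n)]
    rw [e] at k ⊢
    exact ⟨rfl, k⟩

theorem cvxa (h : split_SC T' T φ v₁ v₂) (D : JD T X F P) (g : split_G T' φ v₁ v₂ F G 0 B)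
    (hc : T'.adj (T'.nx v₁ v₂) c) (hd : T'.adj (T'.nx v₁ v₂) d) (n1 : d ≠ c)
    (n2 : d ≠ T'.nx (T'.nx v₁ v₂) c) (n3 : ¬ (c = v₁ ∧ d = T'.nx v₁ (T'.nx v₁ v₂)))
    (n4 : ¬ (c = T'.nx v₁ (T'.nx v₁ v₂) ∧ d = v₂)) :
    0 < om (P (T'.nx v₁ v₂)) (G (T'.nx v₁ v₂) c) (G (T'.nx v₁ v₂) (T'.nx (T'.nx v₁ v₂) c))
      (G (T'.nx v₁ v₂) d) := by
  obtain ⟨g1, g2, g3⟩ := h.ga D g
  obtain ⟨a1, a2, -⟩ := h.at_a D
  have ha := T'.adj_nx' h.adj
  have n21 := (T'.ne_of_adj h.adj).symm
  have nx1 := T'.nx_ne_left ha
  have k0 : d ≠ v₁ → d ≠ v₂ → d ≠ T'.nx v₁ (T'.nx v₁ v₂) → 0 < om (P (T'.nx v₁ v₂))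
      (F (T'.nx v₁ v₂) (T'.nx v₁ (T'.nx v₁ v₂))) (F (T'.nx v₁ v₂) (φ v₁)) (G (T'.nx v₁ v₂) d) :=
    fun m1 m2 m3 => by
      have := D.cvx _ _ _ a1 (g2 d hd m1).2.1 fun e => m3 (h.inj' m1 nx1 (e.trans g3.symm))
      rw [a2] at this
      rw [(g2 d hd m1).1]
      exact this fun e => m2 (h.inj' m1 n21 (e.trans h.eq.symm))
  rw [add_zero] at g1
  by_cases e : c = v₁
  · subst e
    rw [T'.nx_nx' h.adj] at n2 ⊢
    rw [g1, (g2 v₂ (T'.symm (T'.adj_nx h.adj)) n21).1, h.eq, split_l]
    exact k0 n1 n2 fun e => n3 ⟨rfl, e⟩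
  by_cases e' : T'.nx (T'.nx v₁ v₂) c = v₁
  · obtain rfl := T'.nx_inj hc (T'.adj_nx ha) (e'.trans (T'.nx_nx ha).symm)
    rw [e'] at n2 ⊢
    rw [g1, (g2 _ hc e).1, g3, split_r]
    exact k0 n2 (fun e => n4 ⟨rfl, e⟩) n1
  obtain ⟨c1, c2, c3⟩ := g2 c hc e
  rw [c1, (g2 _ (T'.adj_nx' hc) e').1, ← c3]
  by_cases m : d = v₁
  · have m1 : T'.nx v₁ (T'.nx v₁ v₂) ≠ φ c := fun k =>
      e' (by rw [h.inj' e nx1 (k.symm.trans g3.symm), T'.nx_nx ha])
    rw [m, g1, split_add]
    by_cases k : T'.nx v₁ (T'.nx v₁ v₂) = T.nx (T'.nx v₁ v₂) (φ c)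
    · refine add_pos_of_pos_of_nonneg (D.cvx _ _ _ c2 (T.symm h.ta) (fun k' => split_deg a1 ?_)
        fun k' => T.nx_ne_right a1 (a2.trans (k'.trans k.symm))) (split_cv D c2 a1)
      rw [a2, k', ← k]
    · exact add_pos_of_nonneg_of_pos (split_cv D c2 (T.symm h.ta)) (D.cvx _ _ _ c2 a1 m1 k)
  · rw [(g2 d hd m).1]
    exact D.cvx _ _ _ c2 (g2 d hd m).2.1 (fun k => n1 (h.inj' m e k))
      fun k => n2 (h.inj' m e' (k.trans c3))

theorem dega (h : split_SC T' T φ v₁ v₂) (D : JD T X F P) {e : ℝ} {M : W}
    (g : split_G T' φ v₁ v₂ F G (e • M) B) {Q : Fin 3 → W} (he : 0 < e)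
    (hQ : 0 < om Q (F (φ v₁) (T'.nx v₁ v₂)) M (F (φ v₁) (T'.nx (T'.nx v₁ v₂) v₂)))
    (n : (c = v₁ ∧ d = T'.nx v₁ (T'.nx v₁ v₂)) ∨ (c = T'.nx v₁ (T'.nx v₁ v₂) ∧ d = v₂)) :
    0 < om Q (G (T'.nx v₁ v₂) c) (G (T'.nx v₁ v₂) (T'.nx (T'.nx v₁ v₂) c))
      (G (T'.nx v₁ v₂) d) := by
  obtain ⟨g1, g2, g3⟩ := h.ga D g
  have ha := T'.adj_nx' h.adj
  have k : 0 < om Q (G (T'.nx v₁ v₂) (T'.nx v₁ (T'.nx v₁ v₂))) (G (T'.nx v₁ v₂) v₁)
      (G (T'.nx v₁ v₂) v₂) := by
    rw [g1, (g2 _ (T'.adj_nx ha) (T'.nx_ne_left ha)).1, g3,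
      (g2 v₂ (T'.symm (T'.adj_nx h.adj)) (T'.ne_of_adj h.adj).symm).1, h.eq, split_mid,
      (h.at_a D).2.2.1, (h.at_a D).2.2.2.1]
    exact mul_pos he hQ
  rcases n with ⟨e1, e2⟩ | ⟨e1, e2⟩
  · rw [e1, e2, T'.nx_nx' h.adj, ← split_cyc]
    exact k
  · rw [e1, e2, T'.nx_nx ha]
    exact k

theorem cvxo (h : split_SC T' T φ v₁ v₂) (D : JD T X F P) (g : split_G T' φ v₁ v₂ F G A B)
    (m1 : ¬ split_Tri T' v₁ v₂ z) (m2 : ¬ split_Tri T' v₂ v₁ z) (hc : T'.adj z c) (hd : T'.adj z d)
    (n1 : d ≠ c) (n2 : d ≠ T'.nx z c) :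
    0 < om (P (φ z)) (G z c) (G z (T'.nx z c)) (G z d) := by
  have nf : ∀ {c}, T'.adj z c → ¬ (split_Tri T' z c v₁ ∧ split_Tri T' z c v₂) := fun hc k =>
    (split_flat h.adj g.inv hc k).elim (fun k => m1 ((k.1 z).1 (Or.inl rfl)))
      fun k => m2 ((k.1 z).1 (Or.inl rfl))
  have nc : T'.adj z v₁ → T'.adj z v₂ → False := fun k1 k2 =>
    (h.common z (T'.symm k1) (T'.symm k2)).elim (fun e => m1 (Or.inr (Or.inr e)))
      fun e => m2 (Or.inr (Or.inr e))
  have ij : ∀ {c d}, T'.adj z c → T'.adj z d → φ c = φ d → c = d := fun hc hd e =>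
    h.inj e (fun k => nc (k.1 ▸ hc) (k.2 ▸ hd)) fun k => nc (k.2 ▸ hd) (k.1 ▸ hc)
  have k := h.map _ _ hc (nf hc)
  rw [g.n _ _ hc (nf hc), g.n _ _ hd (nf hd), g.n _ _ (T'.adj_nx' hc) (nf (T'.adj_nx' hc)), ← k.2]
  exact D.cvx _ _ _ k.1 (h.map _ _ hd (nf hd)).1 (fun e => n1 (ij hd hc e))
    fun e => n2 (ij hd (T'.adj_nx' hc) (e.trans k.2))

theorem posa (h : split_SC T' T φ v₁ v₂) (D : JD T X F P) (g : split_G T' φ v₁ v₂ F G 0 B)
    (hz : z ∈ T'.vs) (m : ¬ split_Tri T' v₁ v₂ z) : 0 < X (φ z) ⬝ᵥ G v₁ v₂ := by
  have m1 : z ≠ v₁ := fun e => m (Or.inl e)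
  have m2 : z ≠ v₂ := fun e => m (Or.inr (Or.inl e))
  have m3 : z ≠ T'.nx v₁ v₂ := fun e => m (Or.inr (Or.inr e))
  have m4 : z ≠ φ v₁ := fun e => h.mem.elim (fun k => m1 (e.trans k)) fun k => m2 (e.trans k)
  have hz' := h.vs z hz
  rw [h.fix z m1 m2] at hz' ⊢
  rw [g.s1, add_zero, dotProduct_add]
  by_cases e : z = T.nx (φ v₁) (T'.nx v₁ v₂)
  · exact add_pos_of_nonneg_of_pos (split_ps D h.ta hz') (D.pos _ _ _ h.tl.1 hz' m4
      (fun k => T.ne h.ta (e.symm.trans (k.trans (h.at_a D).2.2.2.2.symm))) (h.tl.2.symm ▸ m3))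
  · exact add_pos_of_pos_of_nonneg (D.pos _ _ _ h.ta hz' m4 m3 e) (split_ps D h.tl.1 hz')

theorem zeroa (h : split_SC T' T φ v₁ v₂) (D : JD T X F P) (g : split_G T' φ v₁ v₂ F G A B)
    (h1 : X (φ v₁) ⬝ᵥ A = 0) (h2 : X (T'.nx v₁ v₂) ⬝ᵥ A = 0) (m : split_Tri T' v₁ v₂ z) :
    X (φ z) ⬝ᵥ G v₁ v₂ = 0 := by
  have k : X (φ v₁) ⬝ᵥ G v₁ v₂ = 0 := by
    rw [g.s1, dotProduct_add, dotProduct_add, h1, D.zero _ _ h.ta, D.zero _ _ h.tl.1, add_zero,
      add_zero]
  rcases m with e | e | e
  · rw [e, k]
  · rw [e, h.eq, k]
  · rw [e, (h.xs (T'.adj_nx' h.adj) h.xa).1, g.s1, dotProduct_add, dotProduct_add, h2,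
      split_zero D.inv D.zero h.ta (Or.inr (Or.inl rfl)),
      split_zero D.inv D.zero h.tl.1 (Or.inr (Or.inr h.tl.2.symm)), add_zero, add_zero]

theorem pert (h : split_SC T' T φ v₁ v₂) (D : JD T X F P) {U : W}
    (hU : U ⬝ᵥ F (φ v₁) (T'.nx v₁ v₂) ≠ 0) : ∃ (M : W) (R : Fin 3 → W), X (φ v₁) ⬝ᵥ M = 0 ∧
      X (T'.nx v₁ v₂) ⬝ᵥ M = 0 ∧ U ⬝ᵥ M = 0 ∧ ∀ s : ℝ, 0 < s → 0 < om (P (T'.nx v₁ v₂) + s • R)
        (F (φ v₁) (T'.nx v₁ v₂)) M (F (φ v₁) (T'.nx (T'.nx v₁ v₂) v₂)) := by
  obtain ⟨a1, a2, a3, a4, -⟩ := h.at_a D
  have n : T.nx (T'.nx v₁ v₂) (φ v₁) ≠ T'.nx v₁ (T'.nx v₁ v₂) := fun e => split_deg a1 (a2 ▸ e)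
  have k := D.cvx _ _ _ a1 (T.adj_nx' (T.symm h.ta)) n
    (by rw [a2]; exact T.nx_ne_right (T.symm h.ta))
  have p := D.pos _ _ _ (T.symm h.ta) (T.mem (T.symm a1)) (T.ne_of_adj a1).symm
    (a2 ▸ (T.nx_ne_right a1).symm) n.symm
  have q := split_zero D.inv D.zero a1 (Or.inr (Or.inl rfl))
  rw [a2, a3, a4] at k
  exact split_pert _ _ _ hU (a3 ▸ q) (a4 ▸ p.ne') k

theorem result (h : split_SC T' T φ v₁ v₂) (D : JD T X F P) : J T' := by
  classical
  obtain ⟨U, hU⟩ := split_vec (P (φ v₁))
    (F (φ v₁) (T'.nx v₁ v₂) + F (φ v₁) (T'.nx (T'.nx v₁ v₂) v₂))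
    (F (φ v₁) (T'.nx v₂ v₁) + F (φ v₁) (T'.nx (T'.nx v₂ v₁) v₁))
  have u1 : ∀ x, T'.adj v₁ x → ¬ split_Tri T' v₁ x v₂ → U ⬝ᵥ F (φ v₁) x < 0 := fun x hx hn => by
    rw [hU, split_swap]
    exact neg_neg_of_pos (h.sign D hx hn)
  have u2 : ∀ x, T'.adj v₂ x → ¬ split_Tri T' v₂ x v₁ → 0 < U ⬝ᵥ F (φ v₂) x := fun x hx hn => by
    rw [hU, ← h.eq]
    exact h.symm.sign D hx hn
  obtain ⟨M, R, m1, m2, m3, m4⟩ := h.pert D (u1 _ (T'.adj_nx' h.adj) h.xa).ne
  obtain ⟨N, S, n1, n2, n3, n4⟩ := h.symm.pert D (u2 _ (T'.adj_nx' h.symm.adj) h.symm.xa).ne'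
  let G : ℝ → V → V → W := fun e u w => if split_Tri T' u w v₁ ∧ split_Tri T' u w v₂ then
    (if split_Tri T' u w (T'.nx v₁ v₂) then
      F (φ v₁) (T'.nx v₁ v₂) + F (φ v₁) (T'.nx (T'.nx v₁ v₂) v₂) + e • M
    else F (φ v₂) (T'.nx v₂ v₁) + F (φ v₂) (T'.nx (T'.nx v₂ v₁) v₁) + e • N) else F (φ u) (φ w)
  let Q : ℝ → V → Fin 3 → W := fun e z => P (φ z) +
    e • if z = T'.nx v₁ v₂ then R else if z = T'.nx v₂ v₁ then S else 0
  have g : ∀ e, split_G T' φ v₁ v₂ F (G e) (e • M) (e • N) := fun e => by
    refine ⟨fun u w _ hn => if_neg hn, fun u w k => ?_, ?_, ?_⟩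
    · have r : ∀ z, split_Tri T' w (T'.nx u w) z ↔ split_Tri T' u w z := fun z => by
        rw [split_Tri, split_Tri, T'.nx_nx k]
        tauto
      simp only [G, r]
      split_ifs with hn
      · rfl
      · rfl
      · rw [← (h.map u w k hn).2, D.inv _ _ (h.map u w k hn).1]
    · exact (if_pos ⟨Or.inl rfl, Or.inr (Or.inl rfl)⟩).trans (if_pos (Or.inr (Or.inr rfl)))
    · refine (if_pos ⟨Or.inr (Or.inl rfl), Or.inl rfl⟩).trans (if_neg ?_)
      rintro (e | e | e)
      exacts [T'.nx_ne_right h.adj e, T'.nx_ne_left h.adj e, T'.ne h.adj e]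
  have g0 : split_G T' φ v₁ v₂ F (G 0) 0 0 := by simpa only [zero_smul] using g 0
  have tG : ∀ u w, Tendsto (fun e => G e u w) (𝓝[>] 0) (𝓝 (G 0 u w)) := fun u w => by
    refine (Continuous.tendsto ?_ 0).mono_left nhdsWithin_le_nhds
    simp only [G]
    split_ifs <;> fun_prop
  have tQ : ∀ z, Tendsto (fun e => Q e z) (𝓝[>] 0) (𝓝 (P (φ z))) := fun z => by
    have : Continuous fun e => Q e z := by
      simp only [Q]
      fun_prop
    simpa only [Q, zero_smul, add_zero] using (this.tendsto 0).mono_left nhdsWithin_le_nhds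
  obtain ⟨e, ⟨o1, o2, -, o4⟩, he⟩ := ((split_open (X := fun _ z => X (φ z))
    (fun _ => tendsto_const_nhds) tG tQ).and self_mem_nhdsWithin).exists
  have he : 0 < e := he
  refine split_two T' (X := fun z => X (φ z)) (P := Q e) (U := U) (g e).inv (fun u w k => ?_)
    (fun u w k => o2 u w ?_) (fun z hz => D.one _ (h.vs z hz)) (fun z c d hc hd k1 k2 => ?_)
    (fun u w z k hz k1 k2 k3 => o1 u w z ?_) h.adj (congrArg X h.eq) (fun x hx hn => ?_)
    (fun x hx hn => ⟨?_, fun k => ?_⟩) fun x hx hn => ?_
  · by_cases hn : split_Tri T' u w v₁ ∧ split_Tri T' u w v₂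
    · rcases split_flat h.adj (g e).inv k hn with ⟨r1, r2⟩ | ⟨r1, r2⟩ <;> rw [r2]
      · exact h.zeroa D (g e) (by rw [dotProduct_smul, m1, smul_zero])
          (by rw [dotProduct_smul, m2, smul_zero]) ((r1 u).1 (Or.inl rfl))
      · exact h.symm.zeroa D (g e).symm (by rw [dotProduct_smul, n1, smul_zero])
          (by rw [dotProduct_smul, n2, smul_zero]) ((r1 u).1 (Or.inl rfl))
    · rw [(g e).n u w k hn]
      exact D.zero _ _ (h.map u w k hn).1
  · by_cases hn : split_Tri T' u w v₁ ∧ split_Tri T' u w v₂
    · rcases split_flat h.adj g0.inv k hn with ⟨-, r2⟩ | ⟨-, r2⟩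
      · rw [r2, g0.s1, add_zero]
        exact add_pos (D.low _ _ h.ta) (D.low _ _ h.tl.1)
      · rw [r2, g0.s2, add_zero]
        exact add_pos (D.low _ _ h.symm.ta) (D.low _ _ h.symm.tl.1)
    · rw [g0.n u w k hn]
      exact D.low _ _ (h.map u w k hn).1
  · by_cases z1 : z = v₁
    · subst z1
      exact o4 _ _ _ _ (h.cvx1 D g0 hc hd k1 k2)
    by_cases z2 : z = v₂
    · subst z2
      exact o4 _ _ _ _ (h.symm.cvx1 D g0.symm hc hd k1 k2)
    by_cases z3 : z = T'.nx v₁ v₂
    · subst z3
      by_cases n : (c = v₁ ∧ d = T'.nx v₁ (T'.nx v₁ v₂)) ∨ (c = T'.nx v₁ (T'.nx v₁ v₂) ∧ d = v₂)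
      · refine h.dega D (g e) he ?_ n
        simp only [Q, if_true, h.fix _ z1 z2]
        exact m4 e he
      · refine o4 _ _ _ _ ?_
        rw [h.fix _ z1 z2]
        exact h.cvxa D g0 hc hd k1 k2 (not_or.1 n).1 (not_or.1 n).2
    by_cases z4 : z = T'.nx v₂ v₁
    · subst z4
      by_cases n : (c = v₂ ∧ d = T'.nx v₂ (T'.nx v₂ v₁)) ∨ (c = T'.nx v₂ (T'.nx v₂ v₁) ∧ d = v₁)
      · refine h.symm.dega D (g e).symm he ?_ n
        simp only [Q, if_true, h.fix _ z1 z2, if_neg z3]
        exact n4 e he
      · refine o4 _ _ _ _ ?_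
        rw [h.fix _ z1 z2]
        exact h.symm.cvxa D g0.symm hc hd k1 k2 (not_or.1 n).1 (not_or.1 n).2
    exact o4 _ _ _ _ (h.cvxo D g0 (fun k => k.elim z1 fun k => k.elim z2 z3)
      (fun k => k.elim z2 fun k => k.elim z1 z4) hc hd k1 k2)
  · by_cases hn : split_Tri T' u w v₁ ∧ split_Tri T' u w v₂
    · rcases split_flat h.adj g0.inv k hn with ⟨r1, r2⟩ | ⟨r1, r2⟩ <;> rw [r2]
      · exact h.posa D g0 hz fun k => k1 ((r1 z).2 k)
      · exact h.symm.posa D g0.symm hz fun k => k1 ((r1 z).2 k)
    · have ij : ∀ y, split_Tri T' u w y → φ z ≠ φ y := fun y hy e => k1 (h.inj e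
        (fun k => k2 ⟨k.1, k.2 ▸ hy⟩) (fun k => k3 ⟨k.1, k.2 ▸ hy⟩) ▸ hy)
      rw [g0.n u w k hn]
      exact D.pos _ _ _ (h.map u w k hn).1 (h.vs z hz) (ij _ (Or.inl rfl))
        (ij _ (Or.inr (Or.inl rfl))) ((h.map u w k hn).2 ▸ ij _ (Or.inr (Or.inr rfl)))
  · rcases split_flat h.adj (g e).inv hx ⟨Or.inl rfl, hn⟩ with ⟨-, r2⟩ | ⟨-, r2⟩
    · rw [r2, (g e).s1, dotProduct_add, dotProduct_smul, m3, hU, split_left, smul_zero, add_zero]
    · rw [r2, (g e).s2, dotProduct_add, dotProduct_smul, n3, hU, h.eq, split_right, smul_zero,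
        add_zero]
  · rw [(g e).n _ _ hx fun k => hn k.2, (h.xs hx hn).1]
    exact u1 x hx hn
  · have a1 := T'.symm (T'.adj_nx hx)
    have k1 := h.map _ _ a1 fun k' => by
      rcases k'.1 with e | e | e
      exacts [T'.nx_ne_left hx e.symm, T'.ne_of_adj hx e, T'.ne_of_adj h.adj (e.trans k)]
    obtain ⟨b1, b2, b3⟩ := h.xs hx hn
    rw [k, h.eq, b1, h.fix _ (T'.nx_ne_left hx) fun e => hn (Or.inr (Or.inr e.symm)), ← b3] at k1
    exact T.ne (T.adj_nx b2) ((T.nx_nx b2).trans k1.2.symm)
  · rw [(g e).n _ _ hx fun k => hn k.1, (h.symm.xs hx hn).1]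
    exact u2 x hx hn

end split_SC

/-- Block Split. -/
theorem split {V : Type} [Fintype V] [DecidableEq V] {T' T : Surf V} {v₁ v₂ : V}
    (h : Contr T' T v₁ v₂) (hJ : J T) : J T' := by
  obtain ⟨X, F, P, D⟩ := hJ
  have n := T'.ne_of_adj h.adj
  have e1 : col v₁ v₂ v₁ = v₂ := if_pos rfl
  refine split_SC.result (φ := col v₁ v₂) ⟨h.adj, h.common, fun z hz => ?_, h.map,
    fun z h1 _ => if_neg h1, (if_neg n.symm).trans e1.symm, Or.inr e1⟩ D
  rw [h.vs, col]
  split_ifs with e
  · exact mem_erase.2 ⟨n.symm, T'.mem (T'.symm h.adj)⟩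
  · exact mem_erase.2 ⟨e, hz⟩

end Pool.Agent.MP_6209da_co

/-! Integer certificates for the tables. -/

namespace Pool.Agent.MP_6209da_co

open Chk

noncomputable section

def bas_d0 : ℕ := 2635158041050332698426884541276051607193507542175640867589142958454123074311546876429829322417143287718559413231426461236761903514682297566565785092437037775750347841914397821159162235026709359335566042853131084784866772306155143794058752431142219501369877625712227624049442914966438185543255062396187833147589310839985112033111227963944426862857464805635778786230329240386431965573985219865968001464290558972963322182829452343420162650886201426807133729065386095830862916036203141025884903119007737662857798321065141580651220375545189911328949466803238719299471834536913681755324293453058926804591031756664781302292806519992197517800503417251718911476210248082920616077625169113579211200659784667288745390666406596652771901691857132298592680814964268481479495451519983596675987017948388695033083507503313855343038783096996402009650224622745690522775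7325617812955894232918731675809700370933447984338758344867067591203587479041616491901840219080138659786727143601007673405854691332443332491406751637491617545717950777152413664319105703062892034307919489046134978995332054241489130686683705856929893307030456830650766452276171770598542506639093201481127028119731780308445303635281535057714514138228284917902742227385554602055287644117819158671086071257255642828341365175702389080421265280865011489678568497492751988399278901472231339341754625654865274415856351594804052897946288747547550004379035356842301356261036909258641703390790641800696511069732736099101478255917725291011458984738589989138831404647594109508510326523739458044456108046813060910045016369532907890296806578009178845038615496942367905204576881020871800372103843085197234684522127837168559407727686006737682201270150444682607240502033900393104526407501053099500795588307737375349867868275085168384424004757442601995193191232288094997958552169137434169956038969737534489308119252453607560534851255038601908457795789696301875085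1421325354633015559633651359512755426761753272419931984088870870553217827488363064790854143076690501635364159752929556583537594235886631439886556551142103349919265164926724201123059042211284703937625057157334012875365259237450895730037520886886435458092413256225650083067687827895540285699226482664003368685260305315876183722472254732535392653471095313782993157694359039323192944443727892074653958271193476270361557098114319316540641237804590342234945180592896553094606154973517699217100323972323839953729518188838563341380229369433338462000967263485368324822899721490904403718169505066423461575894859284810804398057528873117636113981303284545598441880791099718717273111378567932564253822971005078919845084732065939188894089845221000752407273219742548408256580587495838491561580451034569897309958155032150126625409719782370639474591398270036569304550566786704436075190119493709234995459955162879537370432642584171836739138860986152788999806515539868193814111049750705503037174244616568875770932130130455645885974896906367957474387044007688465799363536252981160206707196765817428258372680766064127602608680042398099150230513209426805182976406126236739111007457229955285876596898763344907491147720807980253288666036501050338679346194948202602340883495366367835153259039378691404208686962628889003911027643439325506181209368590542240465310239475408474916206731157744356336995212877938439769965966601037298258255052475533282851510581045694413904976760658635209423164915051740826198859832061837755063898246435249928281521891795471936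

def bas_d1 : ℕ := 38416850331956313132783433078157684460569319216222335760538838188239974002514996229122138824560798861152303926206879130399485845738657572475410679697765286659751630319594068981879786083835582780659760515114309328944097358651858331298187082366607795514641494654231836486149175456420659875673960238317499594063476651214444569187240441657235901952599598024928322418301008068072052921020099860189972112238724041304418464408892018265869527738941241256887682021550405672018030232536096497525468104939596373838959408672523186086941757557970860187296646573000998893342671870993267053026888318554071469910999360810627217539400258401158553012583875039532266229154283055977364919128561547753906389914289823208036660224986924420616335704724832214772545276170168058645200030559099452626558646590760752833936290818788421782410965363678340589220853653533272501385815892495552843337525536615905610008331475085833959528222376794808698784755740642355263263182972312727477043202534128863645895837126361531897149670747346149323814233714606954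6896191006226998964284718748737893452060884858498721953546354825502072051898797423243963352358223206641821421430586921535730268883982443889270190097282578915492829684936477320638175630854223889343675898880937420153240073581781848310683876235818155784735112458061033531631873485907299062387366058568616782752551572566068969708775826783916001009728823506802483758529078732882225224402859639359108422574816548986700528092873679260469257520138046170735736213289533472536580037736430023981536438042115721235144149605547695415568971022587172735489689437874723784314363155534407999624752209515429708572185875896909168894358955864265704662640627968342108742108894659631267841040902860568773496540841062866044408317417349795536025146532403538666926019578721684600627782203689181894155121963749992159038139332823665050658752761883810172955449961363419904184855346055441651057602091988303790374007349633029965893867516578584489952264133812747243616104578842909102409628453330896622892339913908363483576572583539628662548493670561419300411678051619941458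684452449195723755129126091214448897969718309234044932640557391591086489685616723245279464159131218744023642516771212667224249081934173816947509425148823428464202897894167499016681300378731694225997948614029181054467548014043038846910008911596304570516670508302614204568792400221341998653172385258680686191607097996014688058237982908122875967834780040935340111841304509452023565856092343640019305152572023039471035338723153395211218777227216438544139003943854415151371581377840633475328567214829174058739138107929683898375546421243900973909749202776971521073939397980536380293759190817878386192332990292815671302557522875328790261785769002700339992685410382271359050307768677756091436084187127283768191714611034645617918392752100979117750314063385477946668642490248480457096512552581774148690837887612988403800747049377153206450473005427404167563164239132597010499025158107467799562783723937266899698259288624121202087276348470865206588539848782961483975634085165840552380624934030385912956491394028084445129822605177482814775931304715622803404561492091393991183255244221893857398006952297434413070375062857149667880742530710866050071000966331088676139825586111909083741178767824006498589227292677785178240571797648502511701280203488094456800758079577479677444589692946905913119455834563284078606898093075419585053783564249728005995828856147153053644776668670232169579706980639776090569860656400096124463648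

def bas_d2 : ℕ := 40180712422385661147259585257382587038589471470588166764061741567403829564786786081027844202840466654584013822656073163899689431805291136021233862205563269826923741446978324287590604163681328532750138996056721580127144761147234308641675192610303195920059231208422650919919296040014065115039631560376682760795579649858795120436896692651452043907514037324984399435626389872530637906704233451664654034447817943135088666329524491090614069134445754912882414784238648731609735729303260194311522965576532075197831563480656895586607291398761637896142725416793142097343175519579343254767425742375460148264105692284738160351071664873252851824502028445769816455092922921336292777770638107654058338599243767890748624678650061547328029521657672914532293469803181918553003184299647566189942009382918264140786410173059951809939710792577054324470177442917903223014927226368547820081798381269754673545043104465044495064596456032668531973219982717558316015074720637040741626323695989674558839795468534178345052604015482494205061637734757141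7021457085717519238018045824800580859030079290524709114345538999697342439516082485366790101685047988610142253485877635263589695056617415705449569256573365154157689112765524354597886049186455694340517485726063890304838899401484051276676062620919086840130261396109346712347005940728148295297487650918941422069534038254018358254471541975346375568889923605042894518030965977534559828417915136826009372875090740813898535195047943409577480774344013568908849753167190884270605225801904484431177963866264638211767311827436894458203249465728399812444848483935148186994542653480624303659897893552773866028686457109079916837376918275867060631834906147400439690783169843791672018731004726496859761036044281066388693778869736121652685888653186031694189850869492217608071085995390951658757339382443606244363300781564492287896222675210290905676757362971885835156814917127752829550323384542679299824704071085394280284883540524144285199790105919618527311897629699199286724867246328720402791829593792590077223719764505266137125035720153249566161432112150009770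799755396231247632605692674707698542824253216092920766887039250552916440308097218213852163958131470746930065494595073000906686510420000837342013041661917225261955499155995215140951174245965157299240457497516604492332793848330404802149013665091360608071681740046288863797916723369128613567488264715977285740839633016421639887463410925968535078334976063805285252953022915214159326183644162485921448754140424589409304133258721244848960016529880038303816066520771612962311620093500377196221007421053599603132311437401615889715934905976826542245866328983464205152255835767801066917078360797266302371636606578010350042715480391209971201919173984648012777625967677385237221331716813222199858022491971855114391196196681971715920181090472027427262202061974289384493771754577564168263209232649346255120390835836822376103116626709394460648749682651753494043450851660886511441856559920694356385716493227135300104118087006760274899070883210298820686199795322785311158674191162560178640761779850337174380385052198968234817826324937143623434790059767845155988117845203632079334917124212059213304167604474646964487957571778927681027558077441654374073818007810705796468238434693955623287261020409936532937863678628070949129610785754040734930156197035359428068405814346029815115280590004472235815589957549192766546818049079081863332313897310059251090937544751359631566607905895043849738958075970739992884565611899879682443808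

def bas_d3 : ℕ := 39753132601561063850271816445438001944443969075939809312229184319122515009868412047984827490814844043092942743258126772847473018314596354777149869898592685855246853197884649461086616590694579289101212305250646159113218415851270722684735281606091516434418749353306066873604006181617154305172081767290844639733929860158414382010541316753245075156612695742870516234668906877419407592237843367927201466470237556904138406134185394578862232090771389829519802903828346570943585287155318451041874025746482829774476257110123764871576783776320672695034101246882400123014091252189729380528080909631125861968752690175008753949896861523768537726324434005982815611843842554221590563153125313112496331573880818515291383780973062062656317898129005355449586437780120672689851486027238815103051795260658918726378073855243843748885222093058331737093719287656766112213255385087423390225135418064583128383876385171234595136576214057531978611782395361257420068634601027325340714782151246588176808094281898029732284970735048042117145011745391561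0162339341700348095745304011281347200896994129491180231424709042003195611048411592037907199213284482096846357458382563971647519465712076910046605566869650424499881514918351865117649479322324036547543794870044975769713488477070740795310776603604496747016027673093588322830085463024098179922746156553764702159621595706723126454787089842774464537295080669098888556382767905287835706160088507847563764947360567431491984837757056237856472186628717433580273335709833646393600161315621703155600359006279379668805487156196956962934314334195780338338306870981080498224133172696839549363630599276335222981050975713811862715345824694132227945380130311494149511203137292859402389026220776461636627026334801816250230381469104865281695264948770253136789689970672352218413200126363616998091021528747514330373913984541987422408287257013664643837421840347645887311868652115038962306489972232393951060669206138123124321258594379092227729424379360333400201274017396784088821280910648422975288400884712450175221985628950754909695959234924446971424032809037829316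909488658070342631585504255792155842678419944462584542604176834302568395162047882399042670026103610207687469810224184362995487888188940926497814119086279466292406193207090686500778557642924330560403625808554697049255354073956347913170642807298556470255115619527202505172502197767848672174560834431360558806176014760053466878549692062415721756011856243198689380202786810196613694409730828799668416368850453337360530337451548579771632751305564699998134442815356536426337686063303442293813238600581662345924583379567545840706264439614344766954822750209831080685896578248802995994527475287456072723595450810832869684681330425603902976260035955959239637731938934659544060717971989039502187564841071405017843847936985304542231121105519571903503559139238663743878122125093495527265201125794682815883227817385701184647895329898740194767467422088766717760826415802383826508330596126329147528029169440169644274052502131992436206888480604772369766809522377169469587567488221092679323131083333024621065653782885350170837194505400392723615829666876446556867442119514247341602536328444127248780047241782014989381722175713972055376692322635337056001084544923980644754596146180551801655013273631928738263667363484308781652267950771900350910580695758111720270948869283496769113639717301434116433559270162182412530128315757281007045268356257832304187871568082518536872418725789596361327271092783226625645429504033162063672896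

def bas_d4 : ℕ := 38599170368603477456423152471187452424272272225141710662822428385484430993092717550223255851412820316607402003228852518888428417719309738021072154967162093493135987730847144685399169300610122034295110893730610735276473802929033199733976522614508496311821204343752902559605107818100337371284813444800483240850512691096679014106002758064164580870049770832284780246246382270962595879640000167429821204297988841703474207612666586061236676371305521170115177364476088644759028925504248599120940467958235249194318179694477457285451176919885620214460690117439757274756433922918296142308866057470032167432187553594266630468425133041947261586730296324120129243021280496684419399512196495617672832450218901407138057578570763904801050781238143712309183388865046833538091896864424239933420941604982252297010782437985978816668718612260055959271566441257375151335625906932250880027846179486040566088283356838820653114896155628764521711769055200587129112526450991098417333814056990804587510945150993783605000375233678051400475433691398738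3485336966556764613277369049890840742624816151490306908562245133416868301710191388996640381502079838454124056368458281777370163144323863851502240094907044404643399271897055833203759307125213525220185424108933638079091587706022315197487471842648063361099080250855981904282725135981382318363154742780607379612917605708703965338311839914803907024488540838068284011301412230230573031250446476888132324549945129624738922597152953852471468406536141021225593625012036732102714619191599810514826645849694799544539405212527176873728022452606921005838249824901447650373596978904226779232423452144447640473879094473872919248563936521259688339343718266934154557870433138490249174023301262933507574806633368386425414480939163797841442870402976644839456912197392014011987338389677567665880042085318706963235519524322202059063908673151211348696907057607912243892391344055479861438437015453005511665205564274927904543752071295020017748426325118399745589910119193330183163645301046362083247402693871972558335179222006205331317136161894948517453256046896604255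244225131642166523469654721378180705226614503547783416949744976798921109654047833641808925122871874481707722770470168588108832130950114140438332593129568534238207513395974868947521391850128438129817799311833733006899108406769871497745630761854819033260040700160416229237274125834111680246839236592305185754771212384532269355031298918998391389687018575205006538771664679776284851450337693194932860823528267246409632887230123209568476607791453087841501897572004130598906165427975676904383984757222818302196705329905800750717536433645607740368887459041934519297437747931298436846861941752093186231143161163224257970090379698693518561334740246591459539263433510950918670907310738950879314039754562448378646354599173304927141111077795882048803699748275714197666753754726406069094399009391441745079966480715006176008440374709314624919636919212958796386121761553297877274301491014109429260725768753012238408203156855095670285891691484631854971195143621947759909671064037084471269705972718339108286755775186553739644044119464948882466525029204378449882452565128062634796066967561682429923992441410638146396281482028706867776825714090484140925329727123972110714153802966975707831767008495900168525238003655893632933291967935414578200008033285935872314259951150688216240771712272388262201312194630642904928840100960839186270166994964037236687293770341443886639159056746046306516261060407867269720582221271865191051824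

def bas_d5 : ℕ := 42502888533794144958269926547964207967364279857106751873059319669700937906028891889983326334951048661098806524797549728639013802541060398293969488969695151873381770576853769392022137344988565887580142127091934717824914745910175628739328526464500504538793814840181917890198663625176707143074308840348048764697709325936220542490264772606081339941791406826266128443799472038667359069899382876118577206600281012072983256676877086884842342274655160208266788384488941066278167074348414160341082411731893406830395784807432951312396608820789403426988823849271875661005258206238082423278417672508999854338977712641403089009052026742579509647540020858729192731738782084139944292931716238265019476939733990103279494952827497680639997220446926559960319800688706173408762214384550536626946606798296085038460954384191661489547988200254114541608729953422416530445981073895057413381269617218877617435773063446200538327662612343884893858644235283292511949068012603181977436199828880465049609446910341044204685999488931571247234077302095477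9144303642059837286199721700216741924810281248510540042809243188274181011524607336584451414846778989220583599273313683349637520779325717567683903378387346886082051183681550093823750741219592482124027798892459375678949158582952671808041532080345334252393997513030562523701835304831457967387966472585908918101752788065904392153039774660234037083403075634194173020506452442733269876995716321406002008071747589710740248128798284114816261690365339084036572745152382500843085409133498992630267381031003737639782524600411198521945031576733480435289802323491373452240809358850056803935997133585724350878986849409774294927267385018455767053082819855679027130733497361305140963051310679757131795966503537603770305010696912177465040504600246488493275574948583339726162195463694957898654828177651486581375215861046861592663827434697957132411509082290763208329259867626537938122150013079131706471103167884486504166469269991279439161906566384287015980686993195288511148359375728421615517355607037161388030530233723287567183118196484073579946863042630440092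447600631179499946204476121784723909095227575098248985934981110924258265529095362491220780156328753625555944916283833105802551005102660597499051367359896209095742441537509420242770548574622601542979857394639675858983149159396170543850012899027811763536434047099802585160673750808425957303952253712412743741880218661486710976744064667989063086384221684746759651681618599971889300886129465423775482007310454165120099560246834838755183065617400493456397000422224506129856627628085078964888602189897727485875255015718235341858709899840984336581732089742066039970658593318150627283142646062677387434805665496475450549824481076055719951551354504345631139957943289735507152713715471110034968573538546526953727232717058372812373346279824658049313601978922245522763159484903737385915978424913970873967829808653483234955843243480274890187885335904517867307803141752725078930009514170351418462283619423733289442051884397831606829977736076033244029132883450124458347373068569520815576988087694845554194756020886645718500691236441588443996647326342492976499581332217197967381914850142572784960415538135948218051790705400751758224646300597098754086878786394899141935599342344364379855920890211935767050037847040959231788326804607052488692344578905278340349727443007980150646171921908968160213536703391302449712767301576169226327525010514120170045657674512611162315593836539303072674985692618742799876808408115671945734688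

def bas_d6 : ℕ := 62720224291647507409019388602762832716968942869397699676293941058012331641634254293518139327891506357088570368733979367609743696011190180285267358196035378201206768084946020130220310095413524721683282651451004814341340522062228251911497861656242678577031069733717806210176933721539695849523781700886876883392702157411226612923785885369766322934071421874540103884810110606023106985077487770104897722187553586164221185647472804444937230550829644036083104302653221942526268419305177422489614760328965223484591494995880452694897674711054258837520823126558017177316504172803965039125349222843244962741661112598279106529467387131406713988948684361687580197174480718220657241338989002089189472470104940354931910133191733111323437919152087415645774490535995044741968178370138953018672935694263850460321977786572934712275223681155626209381997760026652419341921402317577909638949648646238042908237049567875054281277294130652444257335069925086625752308199932957774531779954857117274293398200397104281924814559420161923152585377289163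8546623331317705920400284754677526235721983617240798470504459930324330748749356371470879387816060247729603562495702432273137910663474713019242302216800472729196409826677365244924166205866847455189308975190840743749133831893451417614736721419677970025302503583410740468363411927874007447298626624958125620038161184662652844824033101774091675881590700317380360832977115722757950658506242651345437025319762913936751347807923001242657817789172185092748439186102493966657003133326582595900247222907222443172190083945587770205279769272647906095119577038104332834751877188912662983024707476434493447919420126843192491608244706884050347623417884665844639813715207892693452773828904969832877087551643244989220723899625726684578714773030926410835153647328729261668196836422905665472230207297803853977820216208132910083081572781890238668376191673292325318821165652510572227558403404868794845010197018675094662961233223809650295705104686943283432182222296922024412151864703181529363630292825516811429818570965663126241696231087948054468407452996677992207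145484492216107542526404984224274962778759030308916955365935460443522239474119284979314128053403660965448912611505564020444248066236411403755906452277761209323629200927154926863752700695234830853658292848377521566801916252352700521516229095266868805344374437269436377511508766668319786268984743775860153485545905167853556628834848456682140744777472602936697034622825781975441462183273308541394182318336563032355493990125634997596139000046881489763423099835942428183638561460871097279873477363237653418876950782039320463341972760759780640861402784277522977284887988287717270706399267263747231916775250732161400017883740894609966270084418695723721097262623846955751335279422929778642658642190906893716058235256206871627126976363787765820391563760054036459200731167729933017469232940692137452412075125737735426240322158459942621383499709595320249977733278623359010960492642735788420162106301815916760223520375014349938381096578369808575089642834177814352139495732813894962122652461704103867296290648016552157394612343052589184948329646783251195114319584475364990287363250000751736458064185732138978117374163477328087657271845342704600574972605913138943459747505290593351620064531374830265124169472721506546873630031642701318142808287240232817055793371996147733379943750913389517693231812371140692919272559855732219899264019520266240839436916979315892966645416204017992341935084694224953158355278398987693741088413312245316663945969898868800316535939361919210016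

def bas_dat : ℕ := Nat.add bas_d0 (Nat.shiftLeft (Nat.add bas_d1 (Nat.shiftLeft (Nat.add bas_d2 (Nat.shiftLeft (Nat.add bas_d3 (Nat.shiftLeft (Nat.add bas_d4 (Nat.shiftLeft (Nat.add bas_d5 (Nat.shiftLeft (bas_d6) 11700)) 11700)) 11700)) 11700)) 11700)) 11700)

def bas_code : ℕ := 63488428592101035366988189707193220949924926483330007041

def bas_fld (c w i : ℕ) : ℕ :=
  Nat.land (Nat.shiftRight c (Nat.mul w i)) (Nat.sub (Nat.shiftLeft 1 w) 1)

def bas_bv (c w i o : ℕ) : ℤ := Int.subNatNat (bas_fld c w i) o

def bas_dot (a b : ℕ → ℤ) : ℤ :=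
  Int.add (Int.add (Int.add (Int.add (Int.mul (a 0) (b 0)) (Int.mul (a 1) (b 1)))
    (Int.mul (a 2) (b 2))) (Int.mul (a 3) (b 3))) (Int.mul (a 4) (b 4))

def bas_t3 (a b c : ℕ → ℤ) : ℤ :=
  Int.add (Int.sub (Int.mul (a 0) (Int.sub (Int.mul (b 1) (c 2)) (Int.mul (b 2) (c 1))))
    (Int.mul (a 1) (Int.sub (Int.mul (b 0) (c 2)) (Int.mul (b 2) (c 0)))))
    (Int.mul (a 2) (Int.sub (Int.mul (b 0) (c 1)) (Int.mul (b 1) (c 0))))

def bas_pos (z : ℤ) : Bool := Int.rec (fun n => Nat.ble 1 n) (fun _ => false) z

def bas_zero (z : ℤ) : Bool := Int.rec (fun n => Nat.beq n 0) (fun _ => false) z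

def bas_chk (nb tb : ℕ) (X : ℕ → ℕ → ℤ) (T : ℕ → ℕ → ℕ) (F : ℕ → ℕ → ℤ) (P : ℕ → ℕ → ℕ → ℤ) :
    Bool :=
  allN nb fun u => cd (bas_pos (X u 0)) (allN nb fun w => cd (hs tb w u)
    (frc (pr tb w u) fun y => frc (T u w) fun τ => frc (T u y) fun σ =>
      cd (Nat.beq (T w y) τ) (cd (bas_zero (bas_dot (X u) (F τ))) (cd (bas_pos (F τ 4))
        (cd (allN nb fun z => cd (Nat.beq z u) true (cd (Nat.beq z w) true (cd (Nat.beq z y) true
          (bas_pos (bas_dot (X z) (F τ))))))
          (allN nb fun d => cd (hs tb d u) (cd (Nat.beq d w) true (cd (Nat.beq d y) true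
            (frc (T u d) fun ρ => bas_pos (bas_t3 (fun i => bas_dot (P u i) (F τ))
              (fun i => bas_dot (P u i) (F σ)) (fun i => bas_dot (P u i) (F ρ)))))) true)
          false) false) false) false) true) false

def bas_one (nb tb m x q p f : ℕ) : Bool :=
  bas_chk nb tb (fun z k => bas_bv x 10 (Nat.add (Nat.mul 5 z) k) 512)
    (fun u w => bas_fld q 5 (Nat.add (Nat.mul (Nat.sub 10 (Nat.mul 9 m)) u)
      (Nat.mul (Nat.succ (Nat.mul 9 m)) w)))
    (fun τ k => bas_bv f 17 (Nat.add (Nat.mul 5 τ) k) 65536)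
    (fun v i k => bas_bv p 8 (Nat.add (Nat.mul 15 v) (Nat.add (Nat.mul 5
      (Nat.add (Nat.mul m (Nat.sub 2 i)) (Nat.mul (Nat.sub 1 m) i))) k)) 128)

theorem bas_run : frc bas_dat (fun D => allN 31 fun j => frc (bn j) fun nb => frc (bt j) fun tb =>
    frc (bas_fld bas_code 6 j) fun e => frc (bas_fld D 3900 (Nat.shiftRight e 1)) fun r =>
      frc (Nat.land e 1) fun m => frc (bas_fld r 500 0) fun x => frc (bas_fld r 500 1) fun q =>
        frc (Nat.shiftRight r 1000) fun p => frc (Nat.shiftRight r 2200) fun f =>
          bas_one nb tb m x q p f) = true := by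
  decide +kernel

end

theorem bas_pos_iff {z : ℤ} (h : bas_pos z = true) : (0 : ℝ) < z := by
  cases z with
  | ofNat n =>
    have : 1 ≤ n := Nat.le_of_ble_eq_true h
    exact_mod_cast (show (0 : ℤ) < Int.ofNat n by simp; omega)
  | negSucc n => exact absurd h (by simp [bas_pos])

theorem bas_zero_iff {z : ℤ} (h : bas_zero z = true) : (z : ℝ) = 0 := by
  cases z with
  | ofNat n =>
    obtain rfl : n = 0 := Nat.eq_of_beq_eq_true h
    simp
  | negSucc n => exact absurd h (by simp [bas_zero])

theorem bas_dot_cast (a b : ℕ → ℤ) :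
    (fun k : Fin 5 => (a k : ℝ)) ⬝ᵥ (fun k : Fin 5 => (b k : ℝ)) = (bas_dot a b : ℝ) := by
  simp only [dotProduct, Fin.sum_univ_five, Fin.isValue, Fin.coe_ofNat_eq_mod, Nat.zero_mod, Nat.one_mod, Nat.reduceMod, Nat.mod_succ, bas_dot, Int.mul_def, Int.add_def, Int.cast_add, Int.cast_mul]

theorem bas_t3_cast (a b c : ℕ → ℤ) : tp (fun i : Fin 3 => (a i : ℝ)) (fun i : Fin 3 => (b i : ℝ))
    (fun i : Fin 3 => (c i : ℝ)) = (bas_t3 a b c : ℝ) := by
  have e : ∀ x y : ℤ, Int.sub x y = x - y := fun _ _ => rfl
  simp only [tp, Fin.isValue, Fin.coe_ofNat_eq_mod, Nat.zero_mod, Nat.one_mod, Nat.mod_succ, bas_t3, Int.mul_def, e, Int.add_def, Int.cast_add, Int.cast_sub, Int.cast_mul]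

theorem bas_cdf (b x : Bool) : cd b x false = true ↔ b = true ∧ x = true := by
  cases b <;> simp [cd]

theorem bas_cdt (b x : Bool) : cd b true x = true ↔ (b = false → x = true) := by
  cases b <;> simp [cd]

theorem bas_cdi (b x : Bool) : cd b x true = true ↔ (b = true → x = true) := by
  cases b <;> simp [cd]

theorem bas_sound {nb tb : ℕ} {X : ℕ → ℕ → ℤ} {T : ℕ → ℕ → ℕ} {F : ℕ → ℕ → ℤ}
    {P : ℕ → ℕ → ℕ → ℤ} (h : bas_chk nb tb X T F P = true) : Cert nb tb := by
  have ne : ∀ a b : ℕ, a ≠ b → Nat.beq a b = false := fun a b h => by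
    rw [← Bool.not_eq_true]
    exact fun e => h (Nat.eq_of_beq_eq_true e)
  simp only [bas_chk, allN_iff, frc_eq, bas_cdf, bas_cdt, bas_cdi] at h
  refine ⟨fun z k => X z k, fun u w k => F (T u w) k, fun v i k => P v i k,
    fun u w hu hw e => ?_, fun u w hu hw e => ?_, fun u w z hu hw hz e n1 n2 n3 => ?_,
    fun u w hu hw e => bas_pos_iff ((h u hu).2 w hw e).2.2.1, fun z hz => bas_pos_iff (h z hz).1,
    fun v a d hv ha hd e e' n1 n2 => ?_⟩
  · rw [Nat.eq_of_beq_eq_true ((h u hu).2 w hw e).1]
  · rw [bas_dot_cast]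
    exact bas_zero_iff ((h u hu).2 w hw e).2.1
  · rw [bas_dot_cast]
    exact bas_pos_iff (((h u hu).2 w hw e).2.2.2.1 z hz (ne _ _ n1) (ne _ _ n2) (ne _ _ n3))
  · have := bas_pos_iff (((h v hv).2 a ha e).2.2.2.2 d hd e' (ne _ _ n1) (ne _ _ n2))
    rw [← bas_t3_cast] at this
    simpa only [om, bas_dot_cast] using this

theorem base_cert (j : ℕ) : Cert (bn j) (bt j) := by
  by_cases hj : j < 31
  · have := bas_run
    simp only [allN_iff, frc_eq] at this
    exact bas_sound (this j hj)
  · have h0 : bn j = 0 := by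
      have h1 : bnL < 2 ^ 124 := by decide +kernel
      have h2 : Nat.shiftRight bnL (Nat.mul 4 j) = 0 := by
        rw [Nat.shiftRight_eq, Nat.shiftRight_eq_div_pow]
        exact Nat.div_eq_of_lt (h1.trans_le (Nat.pow_le_pow_right (by omega)
          (by rw [Nat.mul_eq]; omega)))
      exact (congrArg (fun x => Nat.land x 15) h2).trans rfl
    rw [h0]
    exact bas_sound (X := fun _ _ => 0) (T := fun _ _ => 0) (F := fun _ _ => 0)
      (P := fun _ _ _ => 0) rfl

end Pool.Agent.MP_6209da_co
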