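import Pool.Agent.MP_6209da_co.Ind

namespace Pool.Agent.MP_6209da_co.Chk

noncomputable section

def c0 : ℕ := 6062565134547563555986354398028529876711773524784206387362011237116662559369214278589323492133935760108945695817411203125359270271828932440597450989844959812941370950894799956129406335195849860400619616377663052790443135411206433612914890821698631139441670953727166164603702666730653538064473744122384135217551737000076943782722064858471339033875543009575374148369813269508028759008170060012387353290216707817452071052981228341655752920217860338405503245753614890925082583298510345373007358338503050914532656411493626976832408919374420282105059875888319592271840801774720187808551832784925484313577688234464050063924557162334950670131849141784440160433809574515456887516680938945111080780909414563465716958746209649919946489462203643660887877027288863378156479319097627127220055962039720708849002368250450229318718808962838498586872128379301342539054002728429822997683128030256068794146275983446682719110031645597000252109829770968002625200813421531124892834044370004798556596975311973668489926378989605068446553481582191233369313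92702716246513425892687113342979665799973420398496946824574070449074239294296338518897272738232290677075412889709639209011995099162814468323114615112669653426292865145514808618448960135065380006519041851517727360697492713642254696828839842650298066412174004843859153437068285698870299157933447787673077302644518717045177083093447699376262821342305299695556352133949258810782541623858405715969613172059747715791283947010267722649635351332692534804788198766085548704249844082129355628202624799473547578462567659200858974123777449471779228901793575059873407615411655253166713090759414272875220963071378627491296491747670716221467014234759130858677157396104786670070163547735922217056788684886152222299298399318448004950357884773235144092277075672486190537115326580204149216560533530961839584458661112469864532373569723682248117312268578117044959492222440956291028273494770468727408102250747017353051262685697983111064217286854005560555694875663597226930264828456899013900219362991447140416499455656599513751659382719820644659636608507795578416672927625512990845603886545093651993860606501415145891844903778449410735323604335046083782136759838285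14179707682294874550061249650070416356964830006736646232951363077726690299305113727760280163024854576463425358755130917434855782279567886425500868204289267081767142580705976687682665232101781654245656834475112539398980274848650342200403182854643089438221514866400852893037977993067222603264114071876766755652143140436393283654308430815623731453392941271831649943206608003763727276741310220512979045792188513432444434603985874168414851666270645455051064796021510901788688856573076215133391989536558623249588285111651804966610389946959191691182243554256372103534990613722301879874317605551753284044326325101971287070639274187903003816963721204009228758156701894837662808063047857244228026786518697414044944897383347538854501390888542402633815434857775700535084774037085021206524222664023033445620807675011494943850134212502529546596294807506942586815165347263322131114360713213475870233675022277216465062215829722958414160677599053135780753819304717048951761065644986988435826465140410390908751542976446176825880064259702274533925426223129958553019256936048713100917951214793526948575927462206526203973352983677916789240212265186633046193143089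31033616126597283834639044573855864383591888292716384021111300297022230407690766165219818645350131738606667559523207584102808974243794967860520628628551801049182525764162291681552173469123509429807798487160679389643364605999487237148993955552826256332035487667635012337280899017119498656177273275748520003861787386733130358325877717802659302898858937298692987733225014444862677425019078948119762516402301143240842158036808325939069736414224806212717350318374802886030137354627595683398959212860217806059877690702461530526912093686534394855326033924265112101037190943503792621190031115777656384931060776597934580663148252007429998601884659765123272106084443198249163874700019369670236530991114796485555500934462175382030669779576961941451273372424299478291737008165351244788857977890135573092648964623204957401386201452909858687147975583648910580983904678898098526566499063345474855785605398410015853067262856394915595303363941787632088301326117741324425561198373752455859736921978513719603838675820211274179883122499839585508808216807818383851131549911564946086456236093424173696240706598855947589724925047625955366843569464254896477070502952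22131130914387208634408169853934736600795776379395938504069696403309727986585295218939380838204782963351679848588168022735778582333568574303998699358652467839105813369935623674559222106440971240502785424866473494708226002858834131132176653573744513625717030826599988466335008356851138690861391616336699180280050493792511085356096706186722033401683894686626203768014690592269958396778507034501393109327241927375005765527709600625876401140924856498307478020825890687519585202099201258077878513049574367012112180129576724985617847635654913036769171500846762264219083374602973505971477163638806814729130646329305973980033058358444597193782959202628666022629519251807460824316621313418269299485620748299140114733593757319526125646611511877550129007144593428177052931177632062647685281759644386102697963006026816139933526004606749133632196778054302233080560993553246274039124921846729297093576527180551712827076885952422545321247853129049694919086000482265180217780760941619461396343471253307407036338227422523239937552221644098327042159308211981846312501262865839814239233223602585807413639563082083299643348691236937654095723254177757911824637014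956670513693453146950420854064194826033546654241975715981769007752616463797885759203210476254245672922327528411973773716229585722796288395733437223870243070279394821010448251123525338003148857527119427071664707380466821505923655227921820548367882489199554843500641069782910656766620823321863548546217217209829796604559470212164266158483397976412268357529823015086317976584255493260372043035469433072391053157014483791265404185216483273630041868158334508807320368373290749880888531796641794668153323536287290946585213639217853479461992168640325841454336728451820655240508781683888228456030340327338047784545158504022869626566978902856543430190603534083131686094133853940309721172426164722374943817090705759522324230623927482660314090134541358090664038671144190871696789529288885189626666474446249189394505013329891434637301354635734130127199690155461416803943625669851981375830024083841468454213319216611401908971407859446330538685640014324308395452740798697067247296576402394785786549086398069486159467362074513153151393212805296988900233832324687896733494865313000010589686894043549005601057867123083982505767991671920205566533116004484083670998577301120304275035282410349688885741673491389605203129627944923991343938003810430487880576459499222392374123624470916288882190403800466227895925875911580851500762767741373237519888230018367817578603244308956830965156467416373560105331903956286779678366201135461807053376886233305821175162374508740004037484976523227075318795886815921077764901806521003119559262214149717727929184898163283287424373610140629280925920469711253320209957854850162508005654113127016061573296533271111717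

def c1 : ℕ := 4590973570824089319108416081533331430744974060291711190543690170060767901721967158553604470466416109687912179035060616091053614066908005974125058616572620556131552028257800650090646956219795169266086217674113167437413683227186332485335185640443108397462978781134381226089204591587624790114628180029433171095394632978914788374336766973053299936149934489056986811054929447547513398126802596728601730100156073067568326632938168181184231827549964983787281811105630469827406006251526863227665058903749908719945253620957433973485352125317752437890183167835832521245101436909712671040964035665801591949846474013143820463618394941366670250177105567877718305589749888727218699619590753001144252229389480093430294939838646023445286550381783922520887300085453729566404597083696975654441630922576860041704342620811991638563520999308134553033807481724892364019581157280568391438659479345705737501625455657116282435483486810326709927830012154513905863456123853270069985270175664543274841885507233738887282469126335168825443778727189738566706137265477640094712049657737434639669068359664989284781265802442387020209184046800436984238475428515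13192994369690744398029961948178827623598207310500497636557142018832677381752674300199374596318067165981629373104182296844101730070313300339833499221614269611558840347855482441093047421806218412049923601843053880907323231449573630292446024808120253647398781252154012704827196531578835362970562572688471338653899753552555217391972689498456033819834185456387869750557619506206694101460413045580582111422916173378750099596129564837044472148367043280043116397371281146411871688115043845303545821911385457926303690401104224534660741618758339843916356100840227751112605630890167131167318609896144765045676764508318871359121769543804557789508452893855650623116961413720684476598184482032044307388935311512537439638835861139170146302796804715908612696569504290877472699790642321849279174293928205355012083931374341038894557625197855349214676532469039050365803583672391380535082222206565133459753179906187438908021808530279624692362101634554007513618752532635233067943516916188463213724790182694652685827291013535900382209587168689106861925943153742510836978977951814101069992618275425653895503471412125071296744030367262909980748315118300743539147176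01770365059855171539383882678546820122262948972560976405965203449138670346662134031657334851470663216292503204495186254859803171864107395737610344981210140188802475365151149760682241637656732388368712843505577251575820495738319061856902709748941425302514792438645482630068539280824244615372078279051494446256999767456517737233824487857413085704742624023914634586913534703315412262716261049166069861058637808874306501437622453585008498978956249583256265552561311605126110457104787532079277133086861567016168365084104348430576100272084788326336976609648852562551091106133604259412637231105099174116970961847601656056225817118919418446559626061505451071039123717194703891171042412911854929793116573013070322059618769264812174424141464082966287228349884918448909736158000034396073933449782194386425804376400748120107187252498282411623693258965587589631189164000175205519254513836924996587981814255878640442374887103871817559842240652972348554172966584320578550884375238986018263757591490032477174194836182291327174667037709758359867670253024369151933051388223844455674839147835071908457878446067959877230012577798112625834576351917654871036054518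76827859691869907498596495692961596451888351388548795319906028926495125581053718600045725347012195667820145176027936384896223339103312817919499152941014712808373104103444531135307646511446718152163058003982665125057980725184107069722086962755119459951731430513897293513784934502092064671183217691803472935573143390545287742431842854681457799513093940867372087363861794298536193355931262804447474861548230708227231059295377320178166483813024672290591084994943608107324905431847620032838447429088137924226680855112006964821864745523073988575903103038880196093553917622880375632202738058408405165653300730270447629065421991343652298229694790698231640325870369069665508010712306187996854102553107858007238865742777880003517567293836784365824610625073116346323457944198766060401276773111826016460647387458926251525338613385668071619929950775018980378368236209049106282549193576028451459800722171151524998316580874055653317572515276729407549719040959618390716386099978784028232280489201132972905956973284938426094809849669872953647729132980360849018733725847904178118574556895866385817558891867273428940732931758273566026513008425876509858876882268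88860617693474832926696218839766899599463873684450673675373428238896980974074037124357812634445938424074132178736630313551244408985428655867256361218079608965099836868746536082674409108803849669296780034176350417609811240756969825260900692007520033863379316979377528517279789247954086311692474990011964014851431488206691234774445379472492062385197953917511118043356005124712292302851082748398798320636931354861439505830486977607797788146824998625646273748417939780856700266055993579962030973611506795128624100919016865025995926692785362585757532723132311022271850280028580630700458091672465555862427509887887847658838919330189810110719037181941883538815010966649349532842656646911913626223143569835026522970849701224971257902864189150990030068029181206716303692283522755710440213410414534787650598698235036919256662447111680689238013108381350090526861313785177458207013527120418507542871990244475253880195688006338762832220798454149760536302165249275911826311928725670410086694204399134501914981098352815914393873547971960618140286126339103881279868281140958673595070359229326124167201143480870442946124629072597749465295896294714159115357278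1968592663660798770159020102610917111513928517099494219298866415055861387710538067316890068372714995132331836342141913597929235506671777353973497949697247535196017840546956815618550759429216894749971342276558682558046492999012111548290881601583067184124401343926529418143551486487010018019994615955842648388953287169758857660784021920978429826559072605362782207257579502302381846595997477085632250017416857755789274741725197161654153222990724782467614177653589388173862946027277471121381486910241828393228197789304253303124326291036009223577454408070304319205061325091486009422712517617891903091154001328219178802325249398097619449758963035854070355780202361939008030763792528054389953481025041018628515010142079784934389840465418939232996254723206673923571813456804949673407738201335840661176385978405550492497973218116414880162576659620164850547086328734289612980688028253164064046290344835629914748179043596827837437393499460228189867978542757298522253060265468628657484793159947455089760477371670288109888553627193383282854858352828820950189711433146812517293778189681504807392911682716509430033523755524582618600526389354570234608264760023695135153142094264550657593068580250959241787956032739341235351804127004454318673440893489098877348182725437081018127985639676872988324178617140709194484657735834292656979100563941330407278792798174933003247987968066104491825689788539164183530365954587583328629739711888146335536843055404261959090644743067056205858955154347345781073915217658244776717981451830310511744138193082810531842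

def c2 : ℕ := 4418482971656840703027194818424326414554721383526305116312709891074022206526925027606230783109975917903011174098355408232469219740208009516713487427745051081913557274595833583533007846670692514603499073037228054967201757388699176052895338083085662586594886027875556556149035848766285271685529806880162510670710693383383396928334797995860360692686517872238312452134917768981548186072348416883552622577896073176947093700934197848806986765958277364011931109055809180894249075568921212682449351641762575861208926180608806561828062535320232912324895879245792961950431359579260836220274516913246607423660514258266510103333096188258515626379481409455020554789298225972543976803187078473730786882911056883135068183125425883355968826306750866211525931291663409888631428985790720000785420088004607265041954115280349917777162955214473431428544965731190048189580128554604754827716836632718625751998615228743402621282163904047419342282478636846050805306345640369729548051393049645630326486942017043061967664507896952191731838086216869688195136218182260357745561527631075263972717540090598139078217462794320316753446760269631436843836347618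45182731187474943193997835530930069629948767438181863104869195000606578802104788059654047241590552329846186150795700331786602294789559484473070232997123673700609247638713790696451991020484882782282828207691484404601934368951567704726962519942976536124293662902270241652368199824851749254246650405121005132564342409442411257532239257910094280860795610539898392119234886161202755133810910883183111488947945705482863492347796186685241461805509303438831903238896250677652368665958820648929975419086572453478233386722902416481294916925197713724704162787112280912051278469402212489343045464049895856254992019669189829008540544527297636315292389487856101104007969253056530179815909381809261497908609841624936005595292061238861598781019683228596249987558067424221868273424175718217611124619781152763621580998429875731107548239510933891509036708488594910997179695214658318123224403958033262535405211329384483044546642822061272282903012302521724897878667291052441453655519548887544033574235641649619480953672614336146158747612321177250370494847558657062856013036078965166514966264245941412159150829005551717349609913813855132597004830314891647240170442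51614317106624677422198381716428402792732840882246091594339378514184479698718398189539047168226666992457695089964955686946263995519086653336168728769860340572975359277744291993128954965574460712572669790057086785038829036051783646803671377880402173416012879107620586914522048842057307501551933808243792660494554931822249991476987963547159379506159617741726211640532070696494956741200290667740040908487141386702801330575593858542123378288826743087808167038279106767938606504636435238508876687201183822677464026482577482385535568503611396360128785764134031697733278326077378309465491533199575732978882704098810670608400377680522793355336493702820267548483790895528477107997356639819826009758679131090529748138524746177350511113790846728326352769840934300115220669483569160087939648246493323026606447812208383480988727086737254454005367125724281280887502969008001709297530685737301113142968373677384645476247493865965142202241526596168689580682809718423843037800047946101064121412402352954671737872442220293007029699893758487112458959100956932840321622218249556407267840332571995114096657320912351334139256537322424712034241804748742946896144105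10198068668741743302763722172782660016893274455758880526114958526208462787777099428452037508843667614291998675016818597998962336665299567733750510155861292985382262718824547584963470583212970532365788559386397540282697863148386882558133794878230978459859370362040363308328106028197601036547453942885550506927097024824983351448186737950676216431822922578650039066495727466271437128061242449202634875625619051284447263598160636291302566850356028131930915818682522960322904662304655716276210832882443132564473900731382995419205955785574355871392746076061891531163679218891649831096386857534973389811256303172298635057628017228252094433687738581601320873155666642411236271219360983657096066481918246133802785263683605959499817182481937829292688606172315433008473986020731689454814563417640894008280241105485528857765133730162835348791609032723746314251251027619786249392072535041193991080476940116153183734529746034271553419111686672502369218679605774126341728045939473003112259135673892514200344594576792093497573359161276637791857886693559651103779280190978787761306345214996305982092500034495387455781658452383509263551309175979128002040560644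23529194653307625701169269372014280536332276342314764508689222099527492566858212490623834551774103061731324438792991048378097109931690147701010700263068592174359918936165105795285153960973716630550491615583254603595420005309478759520933677485924541551890523177920253006913976188228594536755814962025987096977663550417673953933210720365513642328933069737737165025405462438482141832119340934351661531831324707049123402048104658449928664167691460194558215816987661874358920804600881334112495619661394390548776047892808715577801290058994554081939795209854569689238894000223663711599399388975772217645335461180018400894478493030894821499465033964288402002049386445075164368208578037246068240943820318141520221732729768586021623313297763647679892684246689031402063531929739656026293500278032756540026351752235002438993639258369391424178713774037515270284685708099228255761555717256410178099708402636647962580428241511848498655401109752821308775681409348733610853130852230676086226749562552510797619806906367205380522957360286268021446741761092163347937075022834745014057430064394327979553327338896796112999140561307915395942839388838729249515835124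596275718852355836023729753794902362733938780527295278295856280375620448930193619506307767800876767326955648350292824387952478821790537727206617503536493678672202509223083218035029702345264291386855665133272713617139018926045429167652311512853920997755788935795028514746024370477808895962373297753670654633003133474912941541679654011310284843262515846207461452643093355025668105737001440600622159702888354354171966253145197899537633837533881199974984629557002750677923810049074166652654512085575747533028242528606783196427141808689348269444092949434809897573182106628981411423988373935840012914426981885279804258496596168264463335833120609733215493710271482356775517021873910346439545714494995527213763944701591890568359262030829239606950572526404514563080316545776103077528283950826975540664129004962275176944241124782377394716203922367138592041535801080821508304866367776566287593104983284864008264243924810442058530639991654509658851899498804399722114745749903697449725378743119930808077485521424809266697247320016971912102536245397391304576285743557492125006339545208944247304413207070567775767802813170579546839693890317249316787094266131630641275799391062965951415115951577943713789603785760215104051838196624276106082807374377342493609937507895712077407758660346634478880603695391720994618854652834998325322305717391017031331850425073091512894367854703028540400279272686250905310303952908145353040935514028042235749644479560595949398931455573037719851999492872166778766570386417700443042165624331530145866817117373739557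

def c3 : ℕ := 9953068840182704036717195207120437723051705968622423050589964147374855701392271557968368713602639537932773441289335199287782250620982060186527953000808216286459838946226797773141013563645058515251597733692655157683716529770637199776894180995355810696197918795209604545580195885910477111677456769335599625951197317705753600983875006057003531106704534004066944260580400481692298286347445690771212408370274963001051344428117792526050520386633951414938059081732624887990113202848996670758791949311530637507017977997565489268390189092925094280367434028888532393642746305121721171581703856711068889566049633382435907168097905414000527618204366043651203908951684739884953676918928445366972688861795698529277266676064422678124502343481915274609027516692351326580651391913124177318099221642592129237185612381359297257775849016052505414402234210463391080748183722370690735344355884341557013006562616933347235874133025861383024045154596698707197444053709242290318792277843631755328154283822403852552101834165420981398909260669010289387599053845696954510161286564056119191870415284387777586285713575460459833812918747901918118999208345751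97371639824742823030295779018461661406635211563558937006682588973747196606903701487655253429482717114839745999740124934107908910693146308922762434003111441067731553170348317793908029150231030708561693107692244939951642190849104196811592907113610695638820411434513882593479879335768915495731022552578567721682444813423583450164023393354659458407241954551135832148075882973248256954536014849964998523826955408238528415640329157723711442620991809499105789003673204357642426837774971711295196362586771821756560731532546924229609055464661489329349753914652000123906566350871162043131020382466895840684727832456301957514272004013060774226712444940970420068717222905798131770139401998418414576598282137905043867211467873028126973851795811818797676962949323254917556491811242490517145089904756290964114012677397176937716371912756753296357587569451030739555336199143768330819030861241916522397820045933317027810489580919293257867313102233764686354492159396640293560581932226509373712465118431904427514071301513666932271619370076051761871740414590707943137282499727834965635670135210034095586054602889168641995318519284605538657239422694100693374915711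00956895059455705133465953395127410666666068986433036759916791171713582373172967183291841268273151728359021233863690472338832801534738595198991761376195971080480411001332717108986357466331665091394201712053332661745561097398350163806335389058113154600963391933578939717114610652897342064379196182531679914005627192335941576248509432494706888695800829491811146946225269624511405294998450737011013517352728271573434126565982704697174657758846096350545381065920400111325351449580469003977619220713557951538016493788788493724809757973936265460922144246626632513610542802729655332509680933295559417662089501142366149422100160149060487947780259173617734611743588248733778183895902631338075644718907753624331919041455864365361897947715588136464189979869975111641035345437751262443789965350833789233857950325990826791936380543777348456399893384427454232379249599566459997153793209984388856145149945687210913743541282005424347428521685559649897773791902903106385253850146564214189253542890018219838777482786402547713454431386244984260376969076650067831203318537457270650632403977550262834602086704992403648023362965070672472852235457373666942793664184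91502448566855275837368006108527888985623214511983788264803426849171508223957501131604979247798069945074610298760516099124649408794364362062522939364393838931932008727340231962878498967503174262544925361992428249108579249765357056067773539837818016449318497488352644590280149122533784157039192438379024948239681607075353646065112783178809226312555879669153280813371960434162821671065216647470225985263738689003513203526142996390488432214754687951568856124369039590438432520472352660143313773444447417450448785521886779876492324805899211010236849341353301117255180964092781799027857223768430056713450965846555397869056027230166386768943006104708042046744137358081348554342062317092034885785272901087612946427924184481879868792492245456723320728618061456528583465418139440512916576687307265934193302789526994576185775040159174540270251703097356412941301243470923275849915644691011117142802794601744917592513600535121842262398854681693190191003178704203024702439536930366888526117764964661081347881676791754675061830782599459779155551150562640187951596893757386314271897246407626171498594459053820414157254693836973550452991510223067183170296956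91431290063328669875059713820494012031484962701427615738187655419894319817934179413666176923336184316225458371529591759971297498812725930346039521271586168267980372587350672031768884605481028712282803693995329986765448120810362087609831808878541621002939761656456091454090805274199744923002000764722948008863483243483111764026448871881410612348599390312322406002374339139596093025312928224109642182818196335579009932420174156511851776553443909817673993130927921602344589373108317177947251860247136023386536669367612918264553364698855509975166276631498893756134311998291367159628303714108364048635916823846466149638051759105480480362600498660770800721116051289461378577068093718522723952845927390817890469209079859264062019397056644163519088948202279363416957488595627452830436089227237707055089410861911607015889534772039432000135067520021921867385522758480227641317033084532750660682847257069263867429299171422443630410912539700993197490061069511960450669824833806965724756355393352033376396394582376668729002195996430890288076529895236961146633072655325419146153336623195165025870907306195914687323634042928589633195431071894879571175607580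427848406854943019177014757471557080990577317582822138590804834989397699640132462834550468351663320238694522393982370780633049122021638323262472329180784924880009796744450213937802187134575770532972469923183131651646392903760974612349655520060121426179143795507467525558482261405887490096654457808438081102019295036342850916578140205572687884907405567579775896099552758168808821020701898388408691807247753089877077994939469998157365868740011931912387311869241409620262830464027561582142251406067725996365503734629531503574847453090564368962718910483623400939229259388195657880484088186353561550563638871091733999215038069529123359748751996465348272897902429178171673158005930273940121759125251744750637176648950631545843446279214676257742642630223243991159410336191906865839760074257360736526582499925741015646386651274549189621821921977397105472015123396078624051716564457826160001122357900748870510309374293671982650039729940633964219755361321456821687163336779242645574431679607538163120291020443167396759058963510587997099712555634201919625564650186425413757721223712942772654496492474930241323148047374905274005153153825278980734912864361823102028204216298094600508212066715683058764739976159018783545244680318271693517223624356968373511178594508471057324885725533362185659539655344334952189439406880049574309198610243691642754846246634573624863307831826848849610094080968829091442181679731191326025450491496129449387295976168964025332195508207578033974381162637687741240085617613346045815294615192447105860393847332221831184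

def c4 : ℕ := 13407953382551396994188901175114444301979648989461582428368619574572983834038234641359850395207080510322135350509491933983340937764371628395691400522421936

def cert : ℕ := Nat.add c0 (Nat.shiftLeft (Nat.add c1 (Nat.shiftLeft (Nat.add c2 (Nat.shiftLeft (Nat.add c3 (Nat.shiftLeft (c4) 24000)) 24000)) 24000)) 24000)

theorem run : peel 5 t0 0 1 (fun n y t => cd (Nat.beq y 2) (frc cert fun c => go bn bt 40 n t c) true) = true := by
  decide +kernel

end

end Pool.Agent.MP_6209da_co.Chk

namespace Pool.Agent.MP_6209da_co

open Finset Chk

variable {V : Type} [Fintype V] [DecidableEq V]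

variable {T : Surf V} {n t : ℕ} {lb : ℕ → V} {G : Finset (Sym2 V)}

theorem upd_gt_lt (t w u : ℕ) : gt t w u < 16 := by
  have : gt t w u = (t >>> ix w u) &&& 15 := rfl
  rw [this]
  exact Nat.lt_succ_of_le Nat.and_le_right

theorem upd_xor_lt {a b : ℕ} (ha : a < 16) (hb : b < 16) : Nat.xor a b < 16 :=
  Nat.xor_lt_two_pow (n := 4) ha hb

theorem upd_gt_xr (t : ℕ) {w u w' u' v : ℕ} (hu : u < 16) (hu' : u' < 16) (hv : v < 16) :
    gt (xr t w u v) w' u' = if w' = w ∧ u' = u then gt t w u ^^^ v else gt t w' u' := by
  have e1 : ∀ t w u, gt t w u = (t >>> (64 * w + 4 * u)) &&& (2 ^ 4 - 1) := fun _ _ _ => rfl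
  have e2 : xr t w u v = t ^^^ (v <<< (64 * w + 4 * u)) := rfl
  have hb : ∀ k, 4 ≤ k → v.testBit k = false := fun k hk =>
    Nat.testBit_lt_two_pow (lt_of_lt_of_le hv (Nat.pow_le_pow_right (n := 2) (by norm_num) hk))
  rw [e2]
  simp only [e1]
  apply Nat.eq_of_testBit_eq
  intro k
  split_ifs with h
  · obtain ⟨rfl, rfl⟩ := h
    simp only [Nat.testBit_and, Nat.testBit_xor, Nat.testBit_shiftRight, Nat.testBit_shiftLeft,
      Nat.testBit_two_pow_sub_one]
    by_cases hk : k < 4
    · simp only [ge_iff_le, le_add_iff_nonneg_right, zero_le, decide_true, add_tsub_cancel_left, Bool.true_and, hk, Bool.and_true]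
    · simp only [ge_iff_le, le_add_iff_nonneg_right, zero_le, decide_true, add_tsub_cancel_left, hb k (by omega), Bool.and_false, Bool.bne_false, hk, decide_false, bne_self_eq_false]
  · simp only [Nat.testBit_and, Nat.testBit_xor, Nat.testBit_shiftRight, Nat.testBit_shiftLeft,
      Nat.testBit_two_pow_sub_one]
    by_cases hk : k < 4
    · by_cases h2 : 64 * w' + 4 * u' + k ≥ 64 * w + 4 * u
      · rw [hb _ (by omega)]
        simp
      · simp only [ge_iff_le, h2, decide_false, Bool.false_and, Bool.bne_false]
    · simp only [ge_iff_le, hk, decide_false, Bool.and_false]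

theorem upd_hs (t w u : ℕ) : hs t w u = true ↔ 1 ≤ gt t w u := Nat.ble_eq ▸ Iff.rfl

theorem upd_pr (t w u : ℕ) : pr t w u = gt t w u - 1 := rfl

theorem upd_zero {t w u : ℕ} (h : ¬ hs t w u = true) : gt t w u = 0 := by
  rw [upd_hs] at h
  omega

theorem upd_ins (t : ℕ) {y u z p w x : ℕ} (hy : y < 15) (hu : u < 16) (hz : z < 15) (hp : p < 16)
    (hx : x < 16) (a1 : gt t y z = 0) (a2 : gt t z y = 0) (b1 : y ≠ z) (b2 : u ≠ z) (b3 : p ≠ y) :
    gt (Chk.ins t y u z p) w x =
      if w = y ∧ x = z then gt t y u else if w = y ∧ x = u then z + 1 else
        if w = z ∧ x = y then gt t z p else if w = z ∧ x = p then y + 1 else gt t w x := by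
  have la := upd_gt_lt t y u
  have lb := upd_gt_lt t z p
  have l1 : Nat.xor (gt t y u) (Nat.succ z) < 16 := upd_xor_lt la (by omega)
  have l2 : Nat.xor (gt t z p) (Nat.succ y) < 16 := upd_xor_lt lb (by omega)
  have hy' : y < 16 := by omega
  have hz' : z < 16 := by omega
  unfold Chk.ins ins1 ins2
  simp only [frn_eq]
  rw [upd_gt_xr _ hp hx l2, upd_gt_xr _ hy' hp lb, upd_gt_xr _ hy' hx lb,
    upd_gt_xr _ hu hp l1, upd_gt_xr _ hu hy' l1, upd_gt_xr _ hu hx l1,
    upd_gt_xr _ hz' hp la, upd_gt_xr _ hz' hy' la, upd_gt_xr _ hz' hu la, upd_gt_xr _ hz' hx la]
  by_cases c1 : w = y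
  · subst c1
    by_cases c2 : x = z
    · subst c2
      simp [b1, b2.symm, a1]
    · by_cases c3 : x = u
      · subst c3
        simp [b1, b2]
      · simp [b1, c2, c3]
  · by_cases c2 : w = z
    · subst c2
      by_cases c3 : x = y
      · subst c3
        simp [c1, b3.symm, a2]
      · by_cases c4 : x = p
        · subst c4
          simp [c1, b3]
        · simp [c1, c3, c4]
    · simp [c1, c2]

theorem upd_pen (t : ℕ) {y u z w x : ℕ} (hy : y < 15) (hu : u < 16) (hz : z < 15)
    (hx : x < 16) (a1 : gt t y z = 0) (a2 : gt t z y = 0) (b1 : y ≠ z) (b2 : u ≠ z) :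
    gt (Chk.pen t y u z) w x =
      if w = y ∧ x = z then gt t y u else if w = y ∧ x = u then z + 1 else
        if w = z ∧ x = y then y + 1 else gt t w x := by
  have la := upd_gt_lt t y u
  have l1 : Nat.xor (gt t y u) (Nat.succ z) < 16 := upd_xor_lt la (by omega)
  have l2 : Nat.succ y < 16 := by omega
  have hy' : y < 16 := by omega
  have hz' : z < 16 := by omega
  unfold Chk.pen pen1
  simp only [frn_eq]
  rw [upd_gt_xr _ hy' hx l2, upd_gt_xr _ hu hy' l1, upd_gt_xr _ hu hx l1,
    upd_gt_xr _ hz' hy' la, upd_gt_xr _ hz' hu la, upd_gt_xr _ hz' hx la]
  by_cases c1 : w = y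
  · subst c1
    by_cases c2 : x = z
    · subst c2
      simp [b1, b2.symm, a1]
    · by_cases c3 : x = u
      · subst c3
        simp [b1, b2]
      · simp [b1, c2, c3]
  · by_cases c2 : w = z
    · subst c2
      by_cases c3 : x = y
      · subst c3
        simp [c1, a2]
      · simp [c1, c3]
    · simp [c1, c2]

/-- The row of a vertex that receives a new neighbour. -/
theorem upd_row (h : Rep T n t lb G) {n' t' y u z : ℕ} {lb' : ℕ → V} (hn : n ≤ n') (hn' : n' ≤ 14)
    (hl : ∀ i, i < n → lb' i = lb i) (hy : y < n) (hu : u < n) (hz : z < n')
    (h1 : hs t y u = true) (hM : s(lb y, lb' z) ∉ G)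
    (g : T.Gap (fun a => s(lb y, a) ∈ G) (lb y) (lb' z) (lb u))
    (e1 : gt t' y z = gt t y u) (e2 : gt t' y u = z + 1)
    (e3 : ∀ x, x < 16 → x ≠ z → x ≠ u → gt t' y x = gt t y x) (h0 : gt t y z = 0)
    {x : ℕ} (hx : x < n') (h2 : hs t' y x = true) :
    pr t' y x < n' ∧ hs t' y (pr t' y x) = true ∧
      T.Gap (fun a => s(lb y, a) ∈ insert s(lb y, lb' z) G) (lb y) (lb' (pr t' y x)) (lb' x) := by
  have hi := h.hi
  have up : ∀ a, a < n → hs t y a = true → hs t' y a = true := fun a ha e => by
    rw [upd_hs] at e ⊢
    by_cases c1 : a = z
    · subst c1
      omega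
    · by_cases c2 : a = u
      · subst c2
        omega
      · rwa [e3 a (by omega) c1 c2]
  have cv : ∀ a, s(lb y, a) ∈ insert s(lb y, lb' z) G → s(lb y, a) ∈ G ∨ a = lb' z := fun a e =>
    (mem_insert.1 e).symm.imp id Sym2.congr_right.1
  have mu := (h.hs_iff hy hu).1 h1
  by_cases c1 : x = z
  · subst c1
    obtain ⟨p1, p2, p3⟩ := h.gap y u hy hu h1
    have e : pr t' y x = pr t y u := by rw [upd_pr, upd_pr, e1]
    rw [e, hl _ p1]
    exact ⟨by omega, up _ p1 p2, (g.ins_left hM mu p3 ((h.hs_iff hy p1).1 p2)).mono cv⟩
  · by_cases c2 : x = u
    · subst c2
      have e : pr t' y x = z := by rw [upd_pr, e2]; rfl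
      rw [e, hl _ hu]
      exact ⟨hz, by rw [upd_hs, e1, ← upd_hs]; exact h1, (g.ins_right hM mu).mono cv⟩
    · have e0 := e3 x (by omega) c1 c2
      have h3 : hs t y x = true := by rwa [upd_hs, ← e0, ← upd_hs]
      obtain ⟨-, xn, mx⟩ := (h.tab y x (by omega) (by omega)).1 h3
      obtain ⟨p1, p2, p3⟩ := h.gap y x hy xn h3
      have e : pr t' y x = pr t y x := by rw [upd_pr, upd_pr, e0]
      rw [e, hl _ p1, hl _ xn]
      exact ⟨by omega, up _ p1 p2,
        (g.ins_other mu p3 mx fun q => c2 (h.inj _ _ xn hu q)).mono cv⟩

/-- The row of a vertex that is not touched. -/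
theorem upd_row' (h : Rep T n t lb G) {n' t' w : ℕ} {lb' : ℕ → V} {a b : V} (hn : n ≤ n')
    (hn' : n' ≤ 14) (hl : ∀ i, i < n → lb' i = lb i) (hw : w < n) (ha : lb w ≠ a) (hb : lb w ≠ b)
    (e3 : ∀ x, x < 16 → gt t' w x = gt t w x) {x : ℕ} (hx : x < n') (h2 : hs t' w x = true) :
    pr t' w x < n' ∧ hs t' w (pr t' w x) = true ∧
      T.Gap (fun c => s(lb w, c) ∈ insert s(a, b) G) (lb w) (lb' (pr t' w x)) (lb' x) := by
  have hi := h.hi
  have e0 := e3 x (by omega)
  have h3 : hs t w x = true := by rwa [upd_hs, ← e0, ← upd_hs]
  obtain ⟨-, xn, -⟩ := (h.tab w x (by omega) (by omega)).1 h3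
  obtain ⟨p1, p2, p3⟩ := h.gap w x hw xn h3
  have e : pr t' w x = pr t w x := by rw [upd_pr, upd_pr, e0]
  rw [e, hl _ p1, hl _ xn]
  refine ⟨by omega, by rwa [upd_hs, e3 _ (by omega), ← upd_hs], p3.mono fun c hc => ?_⟩
  rcases mem_insert.1 hc with q | q
  · rcases Sym2.eq_iff.1 q with q | q
    · exact absurd q.1 ha
    · exact absurd q.1 hb
  · exact q

/-- Block Upd (1): a chord between two corners (uses `inv_chord`). -/
theorem Rep.ins (h : Rep T n t lb G) {y u z p : ℕ} (hy : y < n) (hu : u < n) (hz : z < n)
    (hp : p < n) (h1 : hs t y u = true) (h2 : hs t z p = true) (hn : s(lb y, lb z) ∉ G)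
    (g1 : T.Gap (fun x => s(lb y, x) ∈ G) (lb y) (lb z) (lb u))
    (g2 : T.Gap (fun x => s(lb z, x) ∈ G) (lb z) (lb y) (lb p)) :
    Rep T n (Chk.ins t y u z p) lb (insert s(lb y, lb z) G) := by
  have hi := h.hi
  have hn2 : s(lb z, lb y) ∉ G := by rwa [Sym2.eq_swap]
  have m1 := (h.hs_iff hy hu).1 h1
  have m2 := (h.hs_iff hz hp).1 h2
  have ad := g1.adj_left
  have a1 : gt t y z = 0 := upd_zero fun e => hn ((h.hs_iff hy hz).1 e)
  have a2 : gt t z y = 0 := upd_zero fun e => hn2 ((h.hs_iff hz hy).1 e)
  have b1 : y ≠ z := fun e => T.ne_of_adj ad (by rw [e])
  have b2 : u ≠ z := fun e => hn (e ▸ m1)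
  have b3 : p ≠ y := fun e => hn2 (e ▸ m2)
  have key : ∀ w x, x < 16 → gt (Chk.ins t y u z p) w x = _ := fun w x hx =>
    upd_ins t (w := w) (by omega) (by omega) (by omega) (by omega) hx a1 a2 b1 b2 b3
  refine ⟨h.lo, h.hi, h.inj, fun a b e => ?_, fun w x hw hx => ?_, fun w x hw hx e => ?_,
    fun w hw => (h.nb w hw).imp fun _ e => mem_insert_of_mem e,
    fun P hP => h.con P fun a b e => hP a b (mem_insert_of_mem e), ?_, h.deg⟩
  · rcases mem_insert.1 e with q | q
    · rcases Sym2.eq_iff.1 q with ⟨rfl, rfl⟩ | ⟨rfl, rfl⟩
      · exact ⟨ad, y, hy, rfl⟩
      · exact ⟨T.symm ad, z, hz, rfl⟩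
    · exact h.mem a b q
  · rw [upd_hs, key w x hx]
    split_ifs with c1 c2 c3 c4
    · obtain ⟨rfl, rfl⟩ := c1
      exact iff_of_true ((upd_hs _ _ _).1 h1) ⟨hy, hz, mem_insert_self _ _⟩
    · obtain ⟨rfl, rfl⟩ := c2
      exact iff_of_true (by omega) ⟨hy, hu, mem_insert_of_mem m1⟩
    · obtain ⟨rfl, rfl⟩ := c3
      exact iff_of_true ((upd_hs _ _ _).1 h2) ⟨hz, hy, mem_insert.2 (Or.inl Sym2.eq_swap)⟩
    · obtain ⟨rfl, rfl⟩ := c4
      exact iff_of_true (by omega) ⟨hz, hp, mem_insert_of_mem m2⟩
    · rw [← upd_hs, h.tab w x hw hx]
      refine ⟨fun q => ⟨q.1, q.2.1, mem_insert_of_mem q.2.2⟩, fun q => ⟨q.1, q.2.1, ?_⟩⟩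
      rcases mem_insert.1 q.2.2 with r | r
      · rcases Sym2.eq_iff.1 r with r | r
        · exact absurd ⟨h.inj _ _ q.1 hy r.1, h.inj _ _ q.2.1 hz r.2⟩ c1
        · exact absurd ⟨h.inj _ _ q.1 hz r.1, h.inj _ _ q.2.1 hy r.2⟩ c3
      · exact r
  · by_cases c1 : w = y
    · subst c1
      exact upd_row h le_rfl hi (fun _ _ => rfl) hy hu hz h1 hn g1
        (by rw [key _ _ (by omega)]; simp) (by rw [key _ _ (by omega)]; simp [b2])
        (fun a ha d1 d2 => by rw [key _ _ ha]; simp [d1, d2, b1]) a1 hx e
    · by_cases c2 : w = z
      · subst c2
        rw [Sym2.eq_swap (a := lb y)]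
        exact upd_row h le_rfl hi (fun _ _ => rfl) hz hp hy h2 hn2 g2
          (by rw [key _ _ (by omega)]; simp [c1]) (by rw [key _ _ (by omega)]; simp [c1, b3])
          (fun a ha d1 d2 => by rw [key _ _ ha]; simp [d1, d2, c1]) a2 hx e
      · exact upd_row' h le_rfl hi (fun _ _ => rfl) hw (fun q => c1 (h.inj _ _ hw hy q))
          (fun q => c2 (h.inj _ _ hw hz q)) (fun a ha => by rw [key _ _ ha]; simp [c1, c2]) hx e
  · have := inv_chord T G (fun a b e => (h.mem a b e).1) ad hn ⟨_, m1⟩ ⟨_, m2⟩
    have := h.tight
    rw [card_insert_of_notMem hn]
    omega

/-- Block Upd (2): a pendant edge to a new vertex (uses `inv_pend`). -/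
theorem Rep.pen (h : Rep T n t lb G) (hn : n ≤ 13) {y u : ℕ} (hy : y < n) (hu : u < n)
    (h1 : hs t y u = true) {x : V} (hx : ∀ i, i < n → lb i ≠ x)
    (g : T.Gap (fun a => s(lb y, a) ∈ G) (lb y) x (lb u)) :
    Rep T (n + 1) (Chk.pen t y u n) (Function.update lb n x) (insert s(lb y, x) G) := by
  have lo := h.lo
  have hl : ∀ i, i < n → Function.update lb n x i = lb i := fun i hi =>
    Function.update_of_ne (by omega) _ _
  have hN : Function.update lb n x n = x := Function.update_self _ _ _
  have nx1 : ∀ a, s(x, a) ∉ G := fun a e => by
    obtain ⟨i, hi, q⟩ := (h.mem _ _ e).2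
    exact hx i hi q
  have nx2 : ∀ a, s(a, x) ∉ G := fun a e => nx1 a (by rwa [Sym2.eq_swap])
  have m1 := (h.hs_iff hy hu).1 h1
  have ad := g.adj_left
  have z1 : ∀ a, a < 16 → gt t a n = 0 := fun a ha =>
    upd_zero fun e => absurd ((h.tab a n ha (by omega)).1 e).2.1 (lt_irrefl _)
  have z2 : ∀ a, a < 16 → gt t n a = 0 := fun a ha =>
    upd_zero fun e => absurd ((h.tab n a (by omega) ha).1 e).1 (lt_irrefl _)
  have b1 : y ≠ n := by omega
  have b2 : u ≠ n := by omega
  have key : ∀ w a, a < 16 → gt (Chk.pen t y u n) w a = _ := fun w a ha =>
    upd_pen t (w := w) (by omega) (by omega) (by omega) ha (z1 y (by omega)) (z2 y (by omega)) b1 b2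
  have cs : ∀ i, i < n + 1 → i < n ∨ i = n := fun i hi => by omega
  refine ⟨by omega, by omega, fun i j hi hj e => ?_, fun a b e => ?_, fun w a hw ha => ?_,
    fun w a hw ha e => ?_, fun w hw => ?_, fun P hP i j hi hj e => ?_, ?_, ?_⟩
  · rcases cs i hi with hi | rfl <;> rcases cs j hj with hj | rfl
    · rw [hl i hi, hl j hj] at e
      exact h.inj i j hi hj e
    · rw [hl i hi, hN] at e
      exact absurd e (hx i hi)
    · rw [hl j hj, hN] at e
      exact absurd e.symm (hx j hj)
    · rfl
  · rcases mem_insert.1 e with q | q
    · rcases Sym2.eq_iff.1 q with ⟨rfl, rfl⟩ | ⟨rfl, rfl⟩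
      · exact ⟨ad, y, by omega, hl y hy⟩
      · exact ⟨T.symm ad, n, by omega, hN⟩
    · obtain ⟨q1, i, hi, q2⟩ := h.mem a b q
      exact ⟨q1, i, by omega, (hl i hi).trans q2⟩
  · rw [upd_hs, key w a ha]
    split_ifs with c1 c2 c3
    · obtain ⟨rfl, rfl⟩ := c1
      rw [hl w hy, hN]
      exact iff_of_true ((upd_hs _ _ _).1 h1) ⟨by omega, by omega, mem_insert_self _ _⟩
    · obtain ⟨rfl, rfl⟩ := c2
      rw [hl w hy, hl a hu]
      exact iff_of_true (by omega) ⟨by omega, by omega, mem_insert_of_mem m1⟩
    · obtain ⟨rfl, rfl⟩ := c3
      rw [hl a hy, hN]
      exact iff_of_true (by omega) ⟨by omega, by omega, mem_insert.2 (Or.inl Sym2.eq_swap)⟩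
    · rw [← upd_hs, h.tab w a hw ha]
      constructor
      · rintro ⟨q1, q2, q3⟩
        rw [hl w q1, hl a q2]
        exact ⟨by omega, by omega, mem_insert_of_mem q3⟩
      · rintro ⟨q1, q2, q3⟩
        rcases cs w q1 with q1 | rfl <;> rcases cs a q2 with q2 | rfl
        · rw [hl w q1, hl a q2] at q3
          rcases mem_insert.1 q3 with r | r
          · rcases Sym2.eq_iff.1 r with r | r
            · exact absurd r.2 (hx a q2)
            · exact absurd r.1 (hx w q1)
          · exact ⟨q1, q2, r⟩
        · rw [hl w q1, hN] at q3
          rcases mem_insert.1 q3 with r | r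
          · exact absurd ⟨h.inj _ _ q1 hy (Sym2.congr_left.1 r), rfl⟩ c1
          · exact absurd r (nx2 _)
        · rw [hl a q2, hN] at q3
          rcases mem_insert.1 q3 with r | r
          · rw [Sym2.eq_swap] at r
            exact absurd ⟨rfl, h.inj _ _ q2 hy (Sym2.congr_left.1 r)⟩ c3
          · exact absurd r (nx1 _)
        · rw [hN] at q3
          rcases mem_insert.1 q3 with r | r
          · exact absurd (Sym2.congr_left.1 r).symm (hx y hy)
          · exact absurd r (nx1 _)
  · rcases cs w hw with hw | rfl
    · rw [hl w hw]
      by_cases c1 : w = y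
      · subst c1
        have := upd_row h (n' := n + 1) (t' := Chk.pen t w u n) (z := n) (by omega) (by omega) hl
          hy hu (by omega) h1 (by rw [hN]; exact nx2 _) (by rw [hN]; exact g)
          (by rw [key _ _ (by omega)]; simp) (by rw [key _ _ (by omega)]; simp [b2])
          (fun c hc d1 d2 => by rw [key _ _ hc]; simp [d1, d2, b1]) (z1 w (by omega)) ha e
        rwa [hN] at this
      · have c2 : w ≠ n := by omega
        exact upd_row' h (by omega) (by omega) hl hw (fun q => c1 (h.inj _ _ hw hy q)) (hx w hw)
          (fun c hc => by rw [key _ _ hc]; simp [c1, c2]) ha e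
    · have ay : a = y := by
        by_contra c
        rw [upd_hs, key _ _ (by omega)] at e
        simp [b1.symm, c, z2 a (by omega)] at e
      subst ay
      have e1 : pr (Chk.pen t a u w) w a = a := by
        rw [upd_pr, key _ _ (by omega)]
        simp [b1.symm]
      rw [e1, hN, hl a hy]
      obtain ⟨c, rfl, q⟩ := Surf.exists_gap (M := fun c => c = lb a) (T.symm ad) (T.symm ad) rfl
      refine ⟨ha, e, q.mono fun c hc => ?_⟩
      rcases mem_insert.1 hc with r | r
      · rw [Sym2.eq_swap] at r
        exact Sym2.congr_left.1 r
      · exact absurd r (nx1 _)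
  · rcases cs w hw with hw | rfl
    · rw [hl w hw]
      exact (h.nb w hw).imp fun _ e => mem_insert_of_mem e
    · rw [hN]
      exact ⟨lb y, mem_insert.2 (Or.inl Sym2.eq_swap)⟩
  · have old := h.con P fun a b e => hP a b (mem_insert_of_mem e)
    have py : P (lb y) := by
      rcases cs i hi with hi | rfl
      · rw [hl i hi] at e
        exact old i y hi hy e
      · rw [hN] at e
        exact hP _ _ (mem_insert.2 (Or.inl Sym2.eq_swap)) e
    rcases cs j hj with hj | rfl
    · rw [hl j hj]
      exact old y j hy hj py
    · rw [hN]
      exact hP _ _ (mem_insert_self _ _) py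
  · have := inv_pend T G (fun a b e => (h.mem a b e).1) ad ⟨_, m1⟩ nx1
    have := h.tight
    rw [card_insert_of_notMem (nx2 _)]
    omega
  · rw [hl 0 (by omega)]
    exact h.deg

end Pool.Agent.MP_6209da_co

namespace Pool.Agent.MP_6209da_co

open Finset Chk

variable {V : Type} [Fintype V] [DecidableEq V] {T : Surf V} {n t : ℕ} {lb : ℕ → V}
  {G : Finset (Sym2 V)}

/-- The next dart of a face. -/
noncomputable def fac_sc (t : ℕ) (d : ℕ × ℕ) : ℕ × ℕ := (d.2, pr t d.2 d.1)

/-- Valid darts. -/
def fac_ok (n t : ℕ) (d : ℕ × ℕ) : Prop := d.1 < n ∧ d.2 < n ∧ hs t d.2 d.1 = true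

theorem fac_ok_sc (h : Rep T n t lb G) {d : ℕ × ℕ} (hd : fac_ok n t d) :
    fac_ok n t (fac_sc t d) := by
  obtain ⟨h1, h2, h3⟩ := hd
  obtain ⟨g1, g2, -⟩ := h.gap _ _ h2 h1 h3
  exact ⟨h2, g1, h.hs_symm h2 g1 g2⟩

theorem fac_ok_it (h : Rep T n t lb G) {d : ℕ × ℕ} (hd : fac_ok n t d) (i : ℕ) :
    fac_ok n t ((fac_sc t)^[i] d) := by
  induction i with
  | zero => exact hd
  | succ i ih => rw [Function.iterate_succ_apply']; exact fac_ok_sc h ih

theorem fac_inj (h : Rep T n t lb G) {d d' : ℕ × ℕ} (hd : fac_ok n t d) (hd' : fac_ok n t d')
    (e : fac_sc t d = fac_sc t d') : d = d' := by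
  obtain ⟨a, b⟩ := d
  obtain ⟨a', b'⟩ := d'
  obtain ⟨h1, h2, h3⟩ := hd
  obtain ⟨h1', h2', h3'⟩ := hd'
  simp only [fac_sc, Prod.mk.injEq] at e h1 h2 h3 h1' h2' h3'
  obtain ⟨rfl, e⟩ := e
  have g := (h.gap _ _ h2 h1 h3).2.2
  have g' := (h.gap _ _ h2 h1' h3').2.2
  rw [← e] at g'
  have := g.fwd g' ((h.hs_iff h2 h1).1 h3) ((h.hs_iff h2 h1').1 h3')
  rw [h.inj _ _ h1 h1' this]

theorem fac_mem (h : Rep T n t lb G) {d : ℕ × ℕ} (hd : fac_ok n t d) :
    s(lb d.1, lb d.2) ∈ G := by
  rw [Sym2.eq_swap]
  exact (h.hs_iff hd.2.1 hd.1).1 hd.2.2

/-- A set of darts closed under successor and predecessor is cut out by a region function. -/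
theorem fac_ext (h : Rep T n t lb G) (hne : G.Nonempty) (S : ℕ × ℕ → Prop)
    (hv : ∀ d, S d → fac_ok n t d) (hs : ∀ d, fac_ok n t d → (S d ↔ S (fac_sc t d))) :
    ∃ s ∈ T.Reg G, ∀ d, fac_ok n t d → (s (lb d.1) (lb d.2) = 1 ↔ S d) := by
  classical
  let g : V → V → ZMod 2 := fun a b => if ∃ d, S d ∧ lb d.1 = a ∧ lb d.2 = b then 1 else 0
  have hg : ∀ d, fac_ok n t d → ((∃ d', S d' ∧ lb d'.1 = lb d.1 ∧ lb d'.2 = lb d.2) ↔ S d) := by
    intro d hd
    refine ⟨?_, fun e => ⟨d, e, rfl, rfl⟩⟩
    rintro ⟨d', e, e1, e2⟩
    have hd' := hv d' e
    have : d' = d := Prod.ext (h.inj _ _ hd'.1 hd.1 e1) (h.inj _ _ hd'.2.1 hd.2.1 e2)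
    exact this ▸ e
  have hI : g ∈ T.Inv G := by
    refine ⟨fun a b hab => ?_, fun w z u hz hu gp => ?_⟩
    · refine if_neg ?_
      rintro ⟨d, e, rfl, rfl⟩
      exact hab (fac_mem h (hv d e))
    · obtain ⟨j, hj, rfl⟩ := (h.mem _ _ hu).2
      obtain ⟨i, hi, rfl⟩ := h.lab hu
      have hd : fac_ok n t (i, j) := ⟨hi, hj, (h.hs_iff hj hi).2 hu⟩
      obtain ⟨g1, g2, g3⟩ := h.gap _ _ hj hi hd.2.2
      obtain rfl : z = lb (pr t j i) := gp.bwd g3 hz ((h.hs_iff hj g1).1 g2)
      have e1 := hg _ hd
      have e2 := hg _ (fac_ok_sc h hd)
      have e3 := hs _ hd
      simp only [fac_sc] at e1 e2 e3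
      simp only [g, e1, e2, e3]
  have hc : ((range n).image lb).card = n := by
    rw [card_image_of_injOn, card_range]
    intro i hi j hj e
    exact h.inj i j (by simpa using hi) (by simpa using hj) e
  obtain ⟨s, hs1, hs2⟩ := inv_ext T G ((range n).image lb) hne
    (fun v hv => by
      obtain ⟨i, hi, rfl⟩ := mem_image.1 hv
      obtain ⟨x, hx⟩ := h.nb i (mem_range.1 hi)
      exact T.mem (h.mem _ _ hx).1)
    (fun a b hab => by
      obtain ⟨h1, i, hi, e⟩ := h.mem _ _ hab
      exact ⟨h1, mem_image.2 ⟨i, mem_range.2 hi, e⟩⟩)
    (by rw [hc]; exact h.tight) hI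
  refine ⟨s, hs1, fun d hd => ?_⟩
  rw [hs2 _ _ (fac_mem h hd), ← hg d hd]
  simp only [g]
  split_ifs with e
  · simpa only [Prod.exists, true_iff] using e
  · simpa only [zero_ne_one, Prod.exists, false_iff, not_exists, not_and] using e

/-- The same for a closed orbit. -/
theorem fac_orb (h : Rep T n t lb G) {d₀ : ℕ × ℕ} (hd : fac_ok n t d₀) {m : ℕ}
    (hm : (fac_sc t)^[m + 1] d₀ = d₀) :
    ∃ s ∈ T.Reg G, ∀ d, fac_ok n t d →
      (s (lb d.1) (lb d.2) = 1 ↔ ∃ i, i < m + 1 ∧ (fac_sc t)^[i] d₀ = d) := by
  refine fac_ext h ⟨_, fac_mem h hd⟩ _ ?_ ?_
  · rintro d ⟨i, -, rfl⟩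
    exact fac_ok_it h hd i
  · intro d hd'
    constructor
    · rintro ⟨i, hi, rfl⟩
      by_cases e : i = m
      · subst e
        exact ⟨0, by omega, by rw [← Function.iterate_succ_apply' (fac_sc t), Nat.succ_eq_add_one, hm]; rfl⟩
      · exact ⟨i + 1, by omega, Function.iterate_succ_apply' _ _ _⟩
    · rintro ⟨i, hi, e⟩
      cases i with
      | zero =>
        refine ⟨m, by omega, fac_inj h (fac_ok_it h hd m) hd' ?_⟩
        rw [← e, ← Function.iterate_succ_apply' (fac_sc t), Nat.succ_eq_add_one, hm]
        rfl
      | succ i =>
        refine ⟨i, by omega, fac_inj h (fac_ok_it h hd i) hd' ?_⟩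
        rw [← e, Function.iterate_succ_apply']

theorem fac_fc {u₀ w₀ : ℕ} {f : ℕ → ℕ → Bool} (k : ℕ) : ∀ d : ℕ × ℕ,
    fc t u₀ w₀ f k d.1 d.2 = true → ∃ m, (fac_sc t)^[m + 1] d = (u₀, w₀) ∧
      ∀ i, i < m + 1 → f ((fac_sc t)^[i] d).1 ((fac_sc t)^[i] d).2 = true := by
  induction k with
  | zero => intro d h; exact absurd h (by simp [fc])
  | succ k ih =>
    intro d h
    have e : fc t u₀ w₀ f (k + 1) d.1 d.2 =
        cd (f d.1 d.2) (frc (pr t d.2 d.1) (fc2 u₀ w₀ (fc t u₀ w₀ f k) d.2)) false := rfl
    rw [e, frc_eq, cd_eq] at h
    rcases h with ⟨h1, h2⟩ | ⟨-, h⟩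
    · rw [fc2, cd_eq] at h2
      rcases h2 with ⟨h2, -⟩ | ⟨-, h2⟩
      · rw [cd_eq] at h2
        rcases h2 with ⟨a, b⟩ | ⟨-, b⟩
        · refine ⟨0, ?_, fun i hi => ?_⟩
          · exact Prod.ext (Nat.eq_of_beq_eq_true a) (Nat.eq_of_beq_eq_true b)
          · obtain rfl : i = 0 := by omega
            exact h1
        · simp at b
      · obtain ⟨m, a, b⟩ := ih (fac_sc t d) h2
        refine ⟨m + 1, a, fun i hi => ?_⟩
        cases i with
        | zero => exact h1
        | succ i => exact b i (by omega)
    · simp at h

/-- Block Fac (1): a new edge joins two corners of the same face (uses `inv_ext`). -/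
theorem Rep.face (h : Rep T n t lb G) {u w x p k : ℕ} {f : ℕ → ℕ → Bool} (hu : u < n) (hw : w < n)
    (hx : x < n) (hp : p < n) (h1 : hs t w u = true) (h2 : hs t x p = true)
    (hn : s(lb w, lb x) ∉ G) (g1 : T.Gap (fun a => s(lb w, a) ∈ G) (lb w) (lb x) (lb u))
    (g2 : T.Gap (fun a => s(lb x, a) ∈ G) (lb x) (lb w) (lb p))
    (hf : fc t u w f k u w = true) : f p x = true := by
  obtain ⟨m, a, b⟩ := fac_fc k (u, w) hf
  have hd : fac_ok n t (u, w) := ⟨hu, hw, h1⟩
  obtain ⟨s, ⟨hs1, hs2⟩, hs⟩ := fac_orb h hd a
  have e0 : s (lb u) (lb w) = 1 := (hs _ hd).2 ⟨0, by omega, rfl⟩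
  have e1 := g1.tri hs1 fun y _ hy => hs2 _ _ hy
  have e2 := g2.tri hs1 fun y _ hy => hs2 _ _ hy
  have e3 : s (lb p) (lb x) = 1 := by rw [e2, ← hs2 _ _ hn, ← e1, e0]
  obtain ⟨i, hi, e⟩ := (hs (p, x) ⟨hp, hx, h2⟩).1 e3
  have := b i hi
  rwa [e] at this

theorem fac_two (h : Rep T n t lb G) {a b c : ℕ} (hd : fac_ok n t (a, b)) (hc : pr t b a = c)
    (e : T.nx (lb b) (lb a) = lb c) {y : V} (hy : s(lb b, y) ∈ G) : y = lb a ∨ y = lb c := by
  obtain ⟨g1, g2, g3⟩ := h.gap _ _ hd.2.1 hd.1 hd.2.2
  simp only [hc] at g1 g2 g3
  have ha : T.adj (lb b) (lb a) := g3.adj_right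
  have hne : lb c ≠ lb a := e ▸ T.nx_ne_right ha
  have g4 : T.Gap (fun x => s(lb b, x) ∈ G ∧ x ≠ lb a) (lb b) (lb c) (lb a) :=
    g3.mono fun _ o => o.1
  have g5 : T.Gap (fun x => s(lb b, x) ∈ G ∧ x ≠ lb a) (lb b) (lb a) (lb c) :=
    e ▸ Surf.gap_nx ha
  by_cases e' : y = lb a
  · exact Or.inl e'
  · exact Or.inr ((g4.trans (fun o => o.2 rfl) g5).self ⟨(h.hs_iff hd.2.1 g1).1 g2, hne⟩
      (h.mem _ _ hy).1 ⟨hy, e'⟩)

/-- Block Fac (2): a face of length three is a triangle (uses `inv_ext`, `nul_face`). -/
theorem Rep.cls_nx (hI : T.Irr) (h : Rep T n t lb G) {u w : ℕ} (hu : u < n) (hw : w < n)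
    (h1 : hs t w u = true) (hc : cls t u w = true) : T.nx (lb u) (lb w) = lb (pr t w u) := by
  rw [cls, frc_eq, cls1, cd_eq] at hc
  obtain ⟨z, hz⟩ : ∃ z, pr t w u = z := ⟨_, rfl⟩
  rw [hz] at hc ⊢
  obtain ⟨c1, c2⟩ : pr t z w = u ∧ pr t u z = w := by
    rcases hc with ⟨a, b⟩ | ⟨-, b⟩
    · exact ⟨Nat.eq_of_beq_eq_true a, Nat.eq_of_beq_eq_true b⟩
    · simp at b
  have d0 : fac_ok n t (u, w) := ⟨hu, hw, h1⟩
  have s0 : fac_sc t (u, w) = (w, z) := by simp [fac_sc, hz]
  have s1 : fac_sc t (w, z) = (z, u) := by simp [fac_sc, c1]
  have s2 : fac_sc t (z, u) = (u, w) := by simp [fac_sc, c2]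
  have d1 : fac_ok n t (w, z) := s0 ▸ fac_ok_sc h d0
  have d2 : fac_ok n t (z, u) := s1 ▸ fac_ok_sc h d1
  have hzn : z < n := d2.1
  have m0 : s(lb u, lb w) ∈ G := fac_mem h d0
  have m1 : s(lb w, lb z) ∈ G := fac_mem h d1
  have m2 : s(lb z, lb u) ∈ G := fac_mem h d2
  have a0 := (h.mem _ _ m0).1
  have a1 := (h.mem _ _ m1).1
  have a2 := (h.mem _ _ m2).1
  have n0 : u ≠ w := fun e => T.ne_of_adj a0 (by rw [e])
  have n1 : w ≠ z := fun e => T.ne_of_adj a1 (by rw [e])
  have n2 : z ≠ u := fun e => T.ne_of_adj a2 (by rw [e])
  obtain ⟨s, ⟨hs1, hs2⟩, hs⟩ := fac_orb h d0 (m := 2)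
    (by simp only [Function.iterate_succ_apply, Function.iterate_zero_apply, s0, s1, s2])
  have hS : ∀ i j : ℕ, (∃ k, k < 2 + 1 ∧ (fac_sc t)^[k] (u, w) = (i, j)) ↔
      (u = i ∧ w = j) ∨ (w = i ∧ z = j) ∨ (z = i ∧ u = j) := by
    intro i j
    constructor
    · rintro ⟨k, hk, e⟩
      obtain rfl | rfl | rfl : k = 0 ∨ k = 1 ∨ k = 2 := by omega
      all_goals
        simp only [Function.iterate_succ_apply, Function.iterate_zero_apply, s0, s1,
          Prod.mk.injEq] at e
        tauto
    · rintro (⟨rfl, rfl⟩ | ⟨rfl, rfl⟩ | ⟨rfl, rfl⟩)
      · exact ⟨0, by omega, rfl⟩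
      · exact ⟨1, by omega, s0⟩
      · exact ⟨2, by omega, by
          simp only [Function.iterate_succ_apply, Function.iterate_zero_apply, s0, s1]⟩
  have z2 : ∀ x y : ZMod 2, (x + y = 1 ↔ ¬ (x = 1 ↔ y = 1)) := by decide
  have li : ∀ i j, i < n → j < n → (lb i = lb j ↔ i = j) :=
    fun i j hi hj => ⟨h.inj i j hi hj, fun e => by rw [e]⟩
  rcases nul_face T hI hs1 a0 a1 a2 (fun a b hab => by
    by_cases e : s(a, b) ∈ G
    · obtain ⟨i, hi, rfl⟩ := (h.mem _ _ e).2
      obtain ⟨j, hj, rfl⟩ := h.lab e
      have hij : i ≠ j := fun o => T.ne_of_adj hab (by rw [o])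
      have o1 : Chk.hs t i j = true := (h.hs_iff hi hj).2 e
      have e1 := hs (i, j) ⟨hi, hj, h.hs_symm hi hj o1⟩
      have e2 := hs (j, i) ⟨hj, hi, o1⟩
      rw [hS] at e1 e2
      rw [z2, e1, e2, li _ _ hi hu, li _ _ hi hw, li _ _ hi hzn, li _ _ hj hu, li _ _ hj hw,
        li _ _ hj hzn]
      clear * - hij n0 n1 n2
      constructor
      · intro o
        by_cases e : (u = i ∧ w = j) ∨ (w = i ∧ z = j) ∨ (z = i ∧ u = j)
        · omega
        · have e' : (u = j ∧ w = i) ∨ (w = j ∧ z = i) ∨ (z = j ∧ u = i) := by
            by_contra e'
            exact o (iff_of_false e e')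
          omega
      · rintro ⟨rfl | rfl | rfl, rfl | rfl | rfl⟩ <;> simp_all [eq_comm]
    · rw [z2, hs2 _ _ e]
      refine iff_of_false (fun o => o Iff.rfl) ?_
      rintro ⟨rfl | rfl | rfl, rfl | rfl | rfl⟩
      all_goals first
        | exact T.irr _ hab
        | exact e (by assumption)
        | exact e (by rwa [Sym2.eq_swap])) with e | e
  · exact e.symm
  · exfalso
    have e0 : T.nx (lb w) (lb u) = lb z := e.symm
    have e1 : T.nx (lb z) (lb w) = lb u := by rw [← e0]; exact T.nx_nx' (T.symm a0)
    have e2 : T.nx (lb u) (lb z) = lb w := by rw [← e0]; exact T.nx_nx (T.symm a0)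
    have hP := h.con (fun y => y = lb u ∨ y = lb w ∨ y = lb z) (fun a b hab ha => by
      rcases ha with rfl | rfl | rfl
      · have := fac_two h d2 c2 e2 hab
        tauto
      · have := fac_two h d0 hz e0 hab
        tauto
      · have := fac_two h d1 c1 e1 hab
        tauto) u
    have hl := h.lo
    have key : ∀ j, j < n → j = u ∨ j = w ∨ j = z := fun j hj => by
      have := hP j hu hj (Or.inl rfl)
      rwa [li _ _ hj hu, li _ _ hj hw, li _ _ hj hzn] at this
    have k0 := key 0 (by omega)
    have k1 := key 1 (by omega)
    have k2 := key 2 (by omega)
    have k3 := key 3 (by omega)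
    omega

end Pool.Agent.MP_6209da_co

namespace Pool.Agent.MP_6209da_co

open Finset Chk

variable {V : Type} [Fintype V] [DecidableEq V] {T : Surf V} {n t : ℕ} {lb : ℕ → V}
  {G : Finset (Sym2 V)}

omit [DecidableEq V] in
theorem ini_two {M : V → Prop} {w p q : V} (hM : ∀ x, M x ↔ x = p ∨ x = q) (hp : T.adj w p)
    (hq : T.adj w q) (hne : p ≠ q) : T.Gap M w p q := by
  obtain ⟨u, hu, g⟩ := Surf.exists_gap (M := M) hp hq ((hM q).2 (Or.inr rfl))
  rcases (hM u).1 hu with rfl | rfl
  · exact absurd (g.self hu hq ((hM q).2 (Or.inr rfl))).symm hne
  · exact g

def iniL : List (ℕ × ℕ × ℕ) :=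
  [(0, 2, 1), (0, 3, 2), (0, 4, 3), (0, 1, 4), (1, 0, 3), (1, 3, 0), (3, 0, 1), (3, 1, 0),
    (2, 0, 4), (2, 4, 0), (4, 0, 2), (4, 2, 0)]

theorem ini_tab0 : allN 16 (fun w => allN 16 fun u =>
    cd (hs t0 w u) (decide ((w, u, pr t0 w u) ∈ iniL)) true) = true := by
  decide +kernel

theorem ini_tab1 (w : ℕ) (hw : w < 16) (u : ℕ) (hu : u < 16) (h : hs t0 w u = true) :
    (w, u, pr t0 w u) ∈ iniL := by
  have := (allN_iff _ _).1 ((allN_iff _ _).1 ini_tab0 w hw) u hu
  rw [h] at this
  exact of_decide_eq_true this

theorem ini_tab2 : ∀ p ∈ iniL, hs t0 p.1 p.2.1 = true := by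
  decide +kernel

/-- Block Ini: the first state (uses `hom_deg`, `chords`). -/
theorem rep_init (hI : T.Irr) : ∃ lb G, Rep T 5 t0 lb G ∧ T.nx (lb 0) (lb 1) = lb 2 := by
  obtain ⟨v, hv, hdeg⟩ := hom_deg T
  obtain ⟨a, b, c, d, ha, hb, hc, hd, hac, hbd, hnx, nab, nad, nbc, ncd, gbc, gcd, gda⟩ :=
    chords T hI hv
  have nva := T.ne_of_adj ha
  have nvb := T.ne_of_adj hb
  have nvc := T.ne_of_adj hc
  have nvd := T.ne_of_adj hd
  have nac := T.ne_of_adj hac
  have nbd := T.ne_of_adj hbd
  obtain ⟨lb, l0, l1, l2, l3, l4⟩ :
      ∃ lb : ℕ → V, lb 0 = v ∧ lb 1 = a ∧ lb 2 = b ∧ lb 3 = c ∧ lb 4 = d :=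
    ⟨fun i => if i = 0 then v else if i = 1 then a else if i = 2 then b else if i = 3 then c else d,
      by simp, by simp, by simp, by simp, by simp⟩
  obtain ⟨G, hcard, hG⟩ : ∃ G : Finset (Sym2 V), G.card = 6 ∧ ∀ x y, s(x, y) ∈ G ↔
      (x = v ∧ y = a ∨ x = a ∧ y = v) ∨ (x = v ∧ y = b ∨ x = b ∧ y = v) ∨
      (x = v ∧ y = c ∨ x = c ∧ y = v) ∨ (x = v ∧ y = d ∨ x = d ∧ y = v) ∨
      (x = a ∧ y = c ∨ x = c ∧ y = a) ∨ (x = b ∧ y = d ∨ x = d ∧ y = b) := by
    refine ⟨{s(v, a), s(v, b), s(v, c), s(v, d), s(a, c), s(b, d)}, ?_, fun x y => ?_⟩
    · rw [card_insert_of_notMem, card_insert_of_notMem, card_insert_of_notMem,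
        card_insert_of_notMem, card_insert_of_notMem, card_singleton]
      all_goals
        simp only [mem_insert, mem_singleton, Sym2.eq_iff]
        grind
    · simp only [mem_insert, mem_singleton, Sym2.eq_iff]
  have mv : ∀ x, s(v, x) ∈ G ↔ x = a ∨ x = b ∨ x = c ∨ x = d := fun x => by rw [hG]; grind
  have ma : ∀ x, s(a, x) ∈ G ↔ x = v ∨ x = c := fun x => by rw [hG]; grind
  have mb : ∀ x, s(b, x) ∈ G ↔ x = v ∨ x = d := fun x => by rw [hG]; grind
  have mc : ∀ x, s(c, x) ∈ G ↔ x = v ∨ x = a := fun x => by rw [hG]; grind
  have md : ∀ x, s(d, x) ∈ G ↔ x = v ∨ x = b := fun x => by rw [hG]; grind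
  have g1 : T.Gap (fun x => s(v, x) ∈ G) v a b := hnx ▸ Surf.gap_nx ha
  have g2 : T.Gap (fun x => s(v, x) ∈ G) v b c := gbc.mono fun x => (mv x).1
  have g3 : T.Gap (fun x => s(v, x) ∈ G) v c d := gcd.mono fun x => (mv x).1
  have g4 : T.Gap (fun x => s(v, x) ∈ G) v d a := gda.mono fun x => (mv x).1
  have a1 := ini_two ma (T.symm ha) hac nvc
  have a2 := ini_two (fun x => (ma x).trans or_comm) hac (T.symm ha) nvc.symm
  have b1 := ini_two mb (T.symm hb) hbd nvd
  have b2 := ini_two (fun x => (mb x).trans or_comm) hbd (T.symm hb) nvd.symm
  have c1 := ini_two mc (T.symm hc) (T.symm hac) nva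
  have c2 := ini_two (fun x => (mc x).trans or_comm) (T.symm hac) (T.symm hc) nva.symm
  have d1 := ini_two md (T.symm hd) (T.symm hbd) nvb
  have d2 := ini_two (fun x => (md x).trans or_comm) (T.symm hbd) (T.symm hd) nvb.symm
  have hin : ∀ w u z, (w, u, z) ∈ iniL → w < 5 ∧ u < 5 ∧ z < 5 ∧ s(lb w, lb u) ∈ G ∧
      (∃ y, y < 5 ∧ (w, z, y) ∈ iniL) ∧
      T.Gap (fun x => s(lb w, x) ∈ G) (lb w) (lb z) (lb u) := by
    intro w u z h
    simp only [iniL, List.mem_cons, Prod.mk.injEq, List.not_mem_nil, or_false] at h
    rcases h with h | h | h | h | h | h | h | h | h | h | h | h <;> obtain ⟨rfl, rfl, rfl⟩ := h <;>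
      refine ⟨by omega, by omega, by omega, ?_, by decide, ?_⟩ <;>
      simp only [l0, l1, l2, l3, l4, mv, ma, mb, mc, md, true_or, or_true] <;>
      simp only [← mv, ← ma, ← mb, ← mc, ← md] <;> assumption
  refine ⟨lb, G, ⟨le_rfl, by omega, ?_, ?_, ?_, ?_, ?_, ?_, ?_, l0 ▸ hdeg⟩, by rw [l0, l1, l2, hnx]⟩
  · intro i j hi hj
    interval_cases i <;> interval_cases j <;> simp only [l0, l1, l2, l3, l4] <;> grind
  · intro x y h
    rw [hG] at h
    rcases h with (h | h) | (h | h) | (h | h) | (h | h) | (h | h) | (h | h) <;>
      obtain ⟨rfl, rfl⟩ := h
    exacts [⟨ha, 0, by omega, l0⟩, ⟨T.symm ha, 1, by omega, l1⟩, ⟨hb, 0, by omega, l0⟩,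
      ⟨T.symm hb, 2, by omega, l2⟩, ⟨hc, 0, by omega, l0⟩, ⟨T.symm hc, 3, by omega, l3⟩,
      ⟨hd, 0, by omega, l0⟩, ⟨T.symm hd, 4, by omega, l4⟩, ⟨hac, 1, by omega, l1⟩,
      ⟨T.symm hac, 3, by omega, l3⟩, ⟨hbd, 2, by omega, l2⟩, ⟨T.symm hbd, 4, by omega, l4⟩]
  · intro w u hw hu
    constructor
    · intro h
      obtain ⟨h1, h2, -, h3, -⟩ := hin _ _ _ (ini_tab1 w hw u hu h)
      exact ⟨h1, h2, h3⟩
    · rintro ⟨h1, h2, h3⟩
      have : ∃ z, z < 5 ∧ (w, u, z) ∈ iniL := by
        interval_cases w <;> interval_cases u <;>
          first
          | decide
          | (simp only [l0, l1, l2, l3, l4, mv, ma, mb, mc, md] at h3; exfalso; grind)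
      obtain ⟨z, -, h⟩ := this
      exact ini_tab2 _ h
  · intro w u hw hu h
    obtain ⟨-, -, h1, -, ⟨y, -, h2⟩, h3⟩ := hin _ _ _ (ini_tab1 w (by omega) u (by omega) h)
    exact ⟨h1, ini_tab2 _ h2, h3⟩
  · intro w hw
    interval_cases w
    exacts [⟨a, by simp [l0, mv]⟩, ⟨v, by simp [l1, ma]⟩, ⟨v, by simp [l2, mb]⟩,
      ⟨v, by simp [l3, mc]⟩, ⟨v, by simp [l4, md]⟩]
  · intro P hP
    have key : ∀ i, i < 5 → (P (lb i) ↔ P v) := by
      intro i hi
      interval_cases i
      · rw [l0]
      · rw [l1]; exact ⟨hP _ _ (by simp [ma]), hP _ _ (by simp [mv])⟩
      · rw [l2]; exact ⟨hP _ _ (by simp [mb]), hP _ _ (by simp [mv])⟩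
      · rw [l3]; exact ⟨hP _ _ (by simp [mc]), hP _ _ (by simp [mv])⟩
      · rw [l4]; exact ⟨hP _ _ (by simp [md]), hP _ _ (by simp [mv])⟩
    exact fun i j hi hj h => (key j hj).2 ((key i hi).1 h)
  · let φ : T.Inv G →ₗ[ZMod 2] ZMod 2 :=
      { toFun := fun f => f.1 a v
        map_add' := fun _ _ => rfl
        map_smul' := fun _ _ => rfl }
    have hφ : Function.Injective φ := by
      rw [injective_iff_map_eq_zero]
      rintro ⟨f, hf0, hf⟩ h0
      have e0 : f a v = 0 := h0
      have e1 : f v d = 0 := (hf v d a (by simp [mv]) (by simp [mv]) g4).symm.trans e0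
      have e2 : f d b = 0 := (hf d b v (by simp [md]) (by simp [md]) d2).symm.trans e1
      have e3 : f b v = 0 := (hf b v d (by simp [mb]) (by simp [mb]) b1).symm.trans e2
      have e4 : f v a = 0 := (hf v a b (by simp [mv]) (by simp [mv]) g1).symm.trans e3
      have e5 : f a c = 0 := (hf a c v (by simp [ma]) (by simp [ma]) a2).symm.trans e4
      have e6 : f c v = 0 := (hf c v a (by simp [mc]) (by simp [mc]) c1).symm.trans e5
      have e7 : f v b = 0 := (hf v b c (by simp [mv]) (by simp [mv]) g2).symm.trans e6
      have e8 : f b d = 0 := (hf b d v (by simp [mb]) (by simp [mb]) b2).symm.trans e7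
      have e9 : f d v = 0 := (hf d v b (by simp [md]) (by simp [md]) d1).symm.trans e8
      have e10 : f v c = 0 := (hf v c d (by simp [mv]) (by simp [mv]) g3).symm.trans e9
      have e11 : f c a = 0 := (hf c a v (by simp [mc]) (by simp [mc]) c2).symm.trans e10
      apply Subtype.ext
      funext x y
      by_cases h : s(x, y) ∈ G
      · rw [hG] at h
        rcases h with (h | h) | (h | h) | (h | h) | (h | h) | (h | h) | (h | h) <;>
          obtain ⟨rfl, rfl⟩ := h <;> assumption
      · exact hf0 x y h
    have := LinearMap.finrank_le_finrank_of_injective hφ
    rw [Module.finrank_self] at this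
    omega

end Pool.Agent.MP_6209da_co

/-! Soundness of the moves of the search program. -/

namespace Pool.Agent.MP_6209da_co

open Finset Chk Surf

variable {V : Type} [Fintype V] [DecidableEq V] {T : Surf V} {n t : ℕ} {lb : ℕ → V}
  {G : Finset (Sym2 V)}

theorem cd_f (b x : Bool) : cd b x false = true ↔ b = true ∧ x = true := by
  cases b <;> simp [cd]

theorem cd_t (b x : Bool) : cd b true x = true ↔ b = true ∨ x = true := by
  cases b <;> simp [cd]

theorem cd_i (b x : Bool) : cd b x true = true ↔ (b = true → x = true) := by
  cases b <;> simp [cd]

theorem Rep.pr_eq (h : Rep T n t lb G) {w u z : ℕ} (hw : w < n) (hu : u < n) (hz : z < n)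
    (h1 : hs t w u = true) (h2 : hs t w z = true) (e : T.nx (lb w) (lb z) = lb u) :
    pr t w u = z := by
  obtain ⟨a, b, c⟩ := h.gap w u hw hu h1
  have m := (h.hs_iff hw hz).1 h2
  have g : T.Gap (fun x => s(lb w, x) ∈ G) (lb w) (lb z) (lb u) := e ▸ gap_nx (h.mem _ _ m).1
  exact h.inj _ _ a hz (c.bwd g ((h.hs_iff hw a).1 b) m)

/-- A closed corner is empty. -/
theorem Rep.cls_no (hI : T.Irr) (h : Rep T n t lb G) {u w : ℕ} (hu : u < n) (hw : w < n)
    (h1 : hs t w u = true) (hc : cls t u w = true) {x : V}
    (g : T.Gap (fun a => s(lb w, a) ∈ G) (lb w) x (lb u)) : s(lb w, x) ∈ G := by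
  obtain ⟨a, b, -⟩ := h.gap w u hw hu h1
  have m := (h.hs_iff hw a).1 b
  have e := h.cls_nx hI hu hw h1 hc
  have auw : T.adj (lb u) (lb w) := T.symm (h.mem _ _ ((h.hs_iff hw hu).1 h1)).1
  obtain ⟨y, r, ay, ey⟩ := g
  have : y = lb (pr t w u) := T.nx_inj ay (h.mem _ _ m).1 (by rw [ey, ← e, T.nx_nx auw])
  subst this
  rw [stp_eq r m]
  exact m

/-- The corner of `G` at `lb w` that contains `x`. -/
theorem Rep.corner (h : Rep T n t lb G) {w : ℕ} (hw : w < n) {x : V} (hx : T.adj (lb w) x) :
    ∃ u, u < n ∧ hs t w u = true ∧ T.Gap (fun a => s(lb w, a) ∈ G) (lb w) x (lb u) := by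
  obtain ⟨y, hy⟩ := h.nb w hw
  obtain ⟨u', m, g⟩ := exists_gap (M := fun a => s(lb w, a) ∈ G) hx (h.mem _ _ hy).1 hy
  obtain ⟨u, hu, rfl⟩ := h.lab m
  exact ⟨u, hu, (h.hs_iff hw hu).2 m, g⟩

/-- A later state in which `x` has the label `y` and is joined to `w`. -/
def Ext (T : Surf V) (n : ℕ) (lb : ℕ → V) (G : Finset (Sym2 V)) (w : ℕ) (x : V)
    (k : ℕ → ℕ → ℕ → Bool) : Prop :=
  ∃ n' t' lb' G' y, Rep T n' t' lb' G' ∧ n ≤ n' ∧ (∀ i, i < n → lb' i = lb i) ∧ G ⊆ G' ∧ y < n' ∧
    lb' y = x ∧ s(lb w, x) ∈ G' ∧ k n' y t' = true

theorem nb2_sound (hI : T.Irr) (h : Rep T n t lb G) {u w : ℕ} (hu : u < n) (hw : w < n)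
    (h1 : hs t w u = true) {x : V} (hn : s(lb w, x) ∉ G)
    (g : T.Gap (fun a => s(lb w, a) ∈ G) (lb w) x (lb u)) {k : ℕ → ℕ → ℕ → Bool}
    (e : nb2 n t w k u = true) : Ext T n lb G w x k := by
  rw [nb2, cd_t, cd_f, cd_f, frc_eq] at e
  rcases e with e | ⟨⟨e1, e2⟩, e3⟩
  · exact absurd (h.cls_no hI hu hw h1 e g) hn
  by_cases hx : ∃ y, y < n ∧ lb y = x
  · obtain ⟨y, hy, rfl⟩ := hx
    obtain ⟨p, hp, h2, g2⟩ := h.corner hy (T.symm g.adj_left)
    have := h.face hu hw hy hp h1 h2 hn g g2 e3
    rw [nb3, cd_t, cd_t, nb4, frc_eq] at this
    rcases this with e | e | e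
    · rw [Nat.eq_of_beq_eq_true e] at g
      exact absurd g.adj_left (T.irr _)
    · exact absurd ((h.hs_iff hw hy).1 e) hn
    · exact ⟨n, _, lb, _, y, h.ins hw hu hy hp h1 h2 hn g g2, le_rfl, fun _ _ => rfl,
        subset_insert _ _, hy, rfl, mem_insert_self _ _, e⟩
  · push Not at hx
    exact ⟨n + 1, _, _, _, n, h.pen (Nat.le_of_ble_eq_true e1) hw hu h1 hx g, by omega,
      fun i hi => Function.update_of_ne (by omega) _ _, subset_insert _ _, by omega,
      Function.update_self _ _ _, mem_insert_self _ _, e2⟩

theorem nbr_sound (hI : T.Irr) (h : Rep T n t lb G) {w : ℕ} (hw : w < n) {x : V}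
    (hx : T.adj (lb w) x) {k : ℕ → ℕ → ℕ → Bool} (e : nbr n t w k = true) :
    Ext T n lb G w x k := by
  rw [nbr, allN_iff] at e
  by_cases hn : s(lb w, x) ∈ G
  · obtain ⟨u, hu, rfl⟩ := h.lab hn
    have := (cd_i _ _).1 (e u hu) ((h.hs_iff hw hu).2 hn)
    rw [nb1, cd_f] at this
    exact ⟨n, t, lb, G, u, h, le_rfl, fun _ _ => rfl, Subset.rfl, hu, rfl, hn, this.1⟩
  · obtain ⟨u, hu, h1, g⟩ := h.corner hw hx
    have := (cd_i _ _).1 (e u hu) h1
    rw [nb1, cd_f] at this
    exact nb2_sound hI h hu hw h1 hn g this.2

theorem en1_sound (hI : T.Irr) (h : Rep T n t lb G) {u y p : ℕ} (hu : u < n) (hy : y < n)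
    (hp : p < n) (h1 : hs t y p = true) (hn : s(lb y, lb u) ∉ G)
    (g : T.Gap (fun a => s(lb y, a) ∈ G) (lb y) (lb u) (lb p)) {k : ℕ → Bool}
    (e : en1 t u y k p = true) : ∃ t', Rep T n t' lb (insert s(lb y, lb u) G) ∧ k t' = true := by
  rw [en1, cd_t] at e
  rcases e with e | e
  · exact absurd (h.cls_no hI hp hy h1 e g) hn
  obtain ⟨q, hq, h2, g2⟩ := h.corner hu (T.symm g.adj_left)
  have := h.face hp hy hu hq h1 h2 hn g g2 e
  rw [en2, cd_i, frc_eq] at this
  exact ⟨_, h.ins hy hp hu hq h1 h2 hn g g2, this (Nat.beq_refl u)⟩

theorem ens_sound (hI : T.Irr) (h : Rep T n t lb G) {u y : ℕ} (hu : u < n) (hy : y < n)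
    (a : T.adj (lb y) (lb u)) {k : ℕ → Bool} (e : ens n t u y k = true) :
    ∃ t' G', Rep T n t' lb G' ∧ G ⊆ G' ∧ k t' = true := by
  rw [ens, cd_eq, allN_iff] at e
  rcases e with ⟨-, e⟩ | ⟨e1, e⟩
  · exact ⟨t, G, h, Subset.rfl, e⟩
  have hn : s(lb y, lb u) ∉ G := fun m => by simp [(h.hs_iff hy hu).2 m] at e1
  obtain ⟨p, hp, h1, g⟩ := h.corner hy a
  obtain ⟨t', h', e'⟩ := en1_sound hI h hu hy hp h1 hn g ((cd_i _ _).1 (e p hp) h1)
  exact ⟨t', _, h', subset_insert _ _, e'⟩

theorem third_sound (hI : T.Irr) (h : Rep T n t lb G) {u w c : ℕ} (hu : u < n) (hw : w < n)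
    (h1 : hs t w u = true) {go : ℕ → ℕ → ℕ → Bool} (e : third n t u w c go = true) :
    ∃ n' t' lb' G' c', Rep T n' t' lb' G' ∧ go n' t' c' = true := by
  have m := (h.hs_iff hw hu).1 h1
  have a := (h.mem _ _ m).1
  obtain ⟨x, x1, x2, x3, x4⟩ := hI _ _ (T.symm a)
  obtain ⟨n', t', lb', G', y, h', le, eq, sb, hy, rfl, -, e'⟩ := nbr_sound hI h hw x2 e
  have hu' : u < n' := by omega
  have hw' : w < n' := by omega
  rw [← eq u hu] at x1 x3 x4 m
  rw [← eq w hw] at x3 x4 m
  rw [th1, cd_t] at e'
  rcases e' with e' | e'
  · rw [Nat.eq_of_beq_eq_true e'] at x1
    exact absurd x1 (T.irr _)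
  obtain ⟨t'', G'', h'', sb', e''⟩ := ens_sound hI h' hu' hy (T.symm x1) e'
  have h2 := (h''.hs_iff hw' hu').2 (sb' (sb m))
  rw [th2, cd_t, cd_t, cd_f, cd_f, nxt, frc_eq] at e''
  rcases e'' with ⟨e1, e2⟩ | ⟨e1, e2⟩ | e''
  · exact absurd (by rw [h''.cls_nx hI hu' hw' h2 e2, Nat.eq_of_beq_eq_true e1]) x3
  · exact absurd (by
      rw [h''.cls_nx hI hw' hu' (h''.hs_symm hw' hu' h2) e2, Nat.eq_of_beq_eq_true e1]) x4
  · exact ⟨_, _, _, _, _, h'', e''⟩

theorem pe2_sound (h : Rep T n t lb G) {u w y : ℕ} (hu : u < n) (hw : w < n) (hy : y < n)
    (m1 : s(lb w, lb u) ∈ G) (m2 : s(lb w, lb y) ∈ G) (m3 : s(lb y, lb u) ∈ G)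
    (e : lb y = T.nx (lb u) (lb w)) {k : ℕ → ℕ → ℕ → Bool} (e' : pe2 u w k n y t = true) :
    k n y t = true := by
  have h1 := (h.hs_iff hw hu).2 m1
  have h2 := (h.hs_iff hw hy).2 m2
  have h3 := (h.hs_iff hy hu).2 m3
  rw [pe2, cd_i, cd_i, h.pr_eq hu hy hw (h.hs_symm hy hu h3) (h.hs_symm hw hu h1) e.symm,
    h.pr_eq hy hw hu (h.hs_symm hw hy h2) h3 (by rw [e, T.nx_nx' (T.symm (h.mem _ _ m1).1)])] at e'
  exact e' (Nat.beq_refl _) (Nat.beq_refl _)

theorem pe1_sound (hI : T.Irr) (h : Rep T n t lb G) {u w y : ℕ} (hu : u < n) (hw : w < n)
    (hy : y < n) (m1 : s(lb w, lb u) ∈ G) (m2 : s(lb w, lb y) ∈ G)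
    (e : lb y = T.nx (lb u) (lb w)) {k : ℕ → ℕ → ℕ → Bool} (e' : pe1 u w k n y t = true) :
    ∃ t' G', Rep T n t' lb G' ∧ k n y t' = true := by
  have h1 := (h.hs_iff hw hu).2 m1
  have h2 := (h.hs_iff hw hy).2 m2
  have a := T.symm (h.mem _ _ m1).1
  rw [pe1, cd_t, cd_i, cd_eq, h.pr_eq hw hu hy h1 h2 (by rw [e, T.nx_nx a])] at e'
  rcases e' with e' | e'
  · rw [Nat.eq_of_beq_eq_true e'] at e
    exact absurd e.symm (T.nx_ne_left a)
  rcases e' (Nat.beq_refl _) with ⟨e1, e2⟩ | ⟨e1, e2⟩
  · exact ⟨t, G, h, pe2_sound h hu hw hy m1 m2 ((h.hs_iff hy hu).1 e1) e e2⟩
  · have hn : s(lb y, lb u) ∉ G := fun m => by simp [(h.hs_iff hy hu).2 m] at e1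
    have g : T.Gap (fun a => s(lb y, a) ∈ G) (lb y) (lb u) (lb w) := by
      have := gap_nx (M := fun a => s(lb y, a) ∈ G) (T.symm (T.adj_nx' a))
      rwa [T.nx_nx' a, ← e] at this
    obtain ⟨t', h', e3⟩ := en1_sound hI h hu hy hw (h.hs_symm hw hy h2) hn g e2
    exact ⟨t', _, h', pe2_sound h' hu hw hy (mem_insert_of_mem m1) (mem_insert_of_mem m2)
      (mem_insert_self _ _) e e3⟩

theorem peel_sound (hI : T.Irr) (h : Rep T n t lb G) {u w : ℕ} (hu : u < n) (hw : w < n)
    (h1 : hs t w u = true) {k : ℕ → ℕ → ℕ → Bool} (e : peel n t u w k = true) :
    ∃ n' t' lb' G' y, Rep T n' t' lb' G' ∧ n ≤ n' ∧ (∀ i, i < n → lb' i = lb i) ∧ y < n' ∧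
      lb' y = T.nx (lb u) (lb w) ∧ k n' y t' = true := by
  have m := (h.hs_iff hw hu).1 h1
  have a := T.symm (h.mem _ _ m).1
  rw [peel, cd_f, frc_eq] at e
  by_cases hn : s(lb w, T.nx (lb u) (lb w)) ∈ G
  · obtain ⟨y, hy, ey⟩ := h.lab hn
    rw [← ey] at hn
    rw [h.pr_eq hw hu hy h1 ((h.hs_iff hw hy).2 hn) (by rw [ey, T.nx_nx a])] at e
    obtain ⟨t', G', h', e'⟩ := pe1_sound hI h hu hw hy m hn ey e.1
    exact ⟨n, t', lb, G', y, h', le_rfl, fun _ _ => rfl, hy, ey, e'⟩
  · have g : T.Gap (fun a => s(lb w, a) ∈ G) (lb w) (T.nx (lb u) (lb w)) (lb u) := by
      have := gap_nx (M := fun a => s(lb w, a) ∈ G) (T.adj_nx a)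
      rwa [T.nx_nx a] at this
    obtain ⟨n', t', lb', G', y, h', le, eq, sb, hy, ey, m', e'⟩ := nb2_sound hI h hu hw h1 hn g e.2
    obtain ⟨t'', G'', h'', e''⟩ := pe1_sound hI h' (u := u) (w := w) (by omega) (by omega) hy
      (by rw [eq u hu, eq w hw]; exact sb m) (by rw [eq w hw, ey]; exact m')
      (by rw [eq u hu, eq w hw, ey]) e'
    exact ⟨n', t'', lb', G'', y, h'', le, eq, hy, ey, e''⟩

theorem dg_eq (n t w : ℕ) : dg n t w = #{u ∈ range n | hs t w u = true} := by
  induction n with
  | zero => rfl
  | succ n ih =>
    have : dg (n + 1) t w = cn (hs t w n) (Nat.succ (dg n t w)) (dg n t w) := rfl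
    rw [this, ih, range_add_one, filter_insert]
    cases hs t w n
    · simp [cn]
    · simp [cn]

theorem Rep.dg_ncard (h : Rep T n t lb G) {w : ℕ} (hw : w < n) :
    dg n t w = {x | s(lb w, x) ∈ G}.ncard := by
  have : {x | s(lb w, x) ∈ G} = lb '' (↑({u ∈ range n | hs t w u = true} : Finset ℕ) : Set ℕ) := by
    ext x
    simp only [Set.mem_setOf_eq, coe_filter, mem_range, Set.mem_image]
    constructor
    · intro m
      obtain ⟨u, hu, rfl⟩ := h.lab m
      exact ⟨u, ⟨hu, (h.hs_iff hw hu).2 m⟩, rfl⟩
    · rintro ⟨u, ⟨hu, e⟩, rfl⟩
      exact (h.hs_iff hw hu).1 e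
  rw [this, Set.InjOn.ncard_image, Set.ncard_coe_finset, dg_eq]
  intro i hi j hj e
  simp only [coe_filter, mem_range, Set.mem_setOf_eq] at hi hj
  exact h.inj i j hi.1 hj.1 e

theorem Rep.dg_le (h : Rep T n t lb G) {w : ℕ} (hw : w < n) : dg n t w ≤ T.deg (lb w) := by
  rw [h.dg_ncard hw]
  exact Set.ncard_le_ncard (fun x m => (h.mem _ _ m).1) (Set.toFinite _)

theorem Rep.full_adj (hI : T.Irr) (h : Rep T n t lb G) {w : ℕ} (hw : w < n)
    (e : ∀ u, u < n → hs t w u = true → cls t u w = true) {x : V} (hx : T.adj (lb w) x) :
    s(lb w, x) ∈ G := by
  obtain ⟨u, hu, h1, g⟩ := h.corner hw hx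
  exact h.cls_no hI hu hw h1 (e u hu h1) g

theorem leaf_sound (hI : T.Irr) (h : Rep T n t lb G) {nb tb r s : ℕ} (hc : Cert nb tb)
    (e : leaf n t nb tb r s = true) : J T := by
  simp only [leaf, allN_iff, frc_eq, cd_f, cd_i] at e
  have mv : ∀ i, i < n → lb i ∈ T.vs := fun i hi => by
    obtain ⟨x, m⟩ := h.nb i hi
    exact T.mem (h.mem _ _ m).1
  have fa : ∀ w, w < n → ∀ x, T.adj (lb w) x → s(lb w, x) ∈ G := fun w hw x hx =>
    h.full_adj hI hw (fun u hu h1 => ((e w hw).2.2 u hu h1).1) hx
  have all : ∀ v ∈ T.vs, ∃ i, i < n ∧ lb i = v :=
    T.conn _ (lb 0) (mv 0 (by have := h.lo; omega)) ⟨0, by have := h.lo; omega, rfl⟩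
      (by rintro _ y a ⟨i, hi, rfl⟩; exact h.lab (fa i hi y a))
  choose! ι h1 h2 using all
  have h3 : ∀ i, i < n → ι (lb i) = i := fun i hi =>
    h.inj _ _ (h1 _ (mv i hi)) hi (h2 _ (mv i hi))
  refine J_of_cert T hc (fun v => dig r (ι v))
    (fun v hv => Nat.le_of_ble_eq_true (e _ (h1 v hv)).2.1) (fun v hv w hw e' => ?_)
    (fun u w a => ?_)
  · rw [← h2 v hv, ← h2 w hw, ← Nat.eq_of_beq_eq_true (e _ (h1 v hv)).1,
      ← Nat.eq_of_beq_eq_true (e _ (h1 w hw)).1]
    exact congrArg (fun i => lb (dig s i)) e'
  · have hu := T.mem a
    have hw := T.mem (T.symm a)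
    have m : hs t (ι w) (ι u) = true := by
      rw [h.hs_iff (h1 w hw) (h1 u hu)]
      exact fa _ (h1 w hw) _ (by rw [h2 w hw, h2 u hu]; exact T.symm a)
    obtain ⟨e1, e2⟩ := (e _ (h1 w hw)).2.2 _ (h1 u hu) m
    have := h.cls_nx hI (h1 u hu) (h1 w hw) m e1
    rw [h2 u hu, h2 w hw] at this
    simp only [this, h3 _ (h.gap _ _ (h1 w hw) (h1 u hu) m).1]
    exact Nat.eq_of_beq_eq_true e2

theorem go_sound (hI : T.Irr) {bn bt : ℕ → ℕ} (hc : ∀ j, Cert (bn j) (bt j)) (k : ℕ) :
    ∀ n t c lb G, Rep T n t lb G → go bn bt k n t c = true → J T := by
  induction k with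
  | zero => exact fun n t c lb G _ e => absurd e (by simp [go])
  | succ k ih =>
    intro n t c lb G h e
    have h0 : 0 < n := by have := h.lo; omega
    obtain ⟨o, u, w, c', j, r, s, e⟩ : ∃ o u w c' j r s,
        cd (Nat.beq o 1) (Nat.ble 7 (dg n t 0)) (cd (Nat.beq o 2) (cd (Nat.ble (Nat.succ w) n)
          (cd (full n t w) (Nat.ble (Nat.succ (dg n t w)) (dg n t 0)) false) false)
          (cd (Nat.beq o 3) (leaf n t (bn j) (bt j) r s)
            (cd (cd (Nat.ble (Nat.succ w) n) (cd (Nat.ble (Nat.succ u) n) (hs t w u) false) false)
              (cd (Nat.beq o 4) (third n t u w c' (go bn bt k))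
                (peel n t u w fun n _ t => nxt c' (go bn bt k) n t)) false))) = true := by
      unfold go at e
      change frc _ _ = true at e
      iterate 9 rw [frc_eq] at e
      exact ⟨_, _, _, _, _, _, _, e⟩
    rw [cd_eq, cd_eq, cd_f, cd_f, cd_eq, cd_f, cd_f, cd_f, cd_eq] at e
    rcases e with ⟨-, e⟩ | ⟨-, ⟨-, e1, e2, e3⟩ | ⟨-, ⟨-, e⟩ | ⟨-, ⟨e1, e2, e3⟩, ⟨-, e⟩ | ⟨-, e⟩⟩⟩⟩
    · have := Nat.le_of_ble_eq_true e
      have := h.dg_le h0
      have := h.deg.1
      omega
    · have hw := Nat.le_of_ble_eq_true e1
      have e4 := Nat.le_of_ble_eq_true e3
      simp only [full, allN_iff, cd_i] at e2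
      obtain ⟨x, m⟩ := h.nb _ hw
      have a1 := h.deg.2 _ (T.mem (h.mem _ _ m).1)
      have a2 := h.dg_le h0
      have a3 : T.deg (lb w) ≤ dg n t w := by
        rw [h.dg_ncard hw]
        exact Set.ncard_le_ncard (fun x hx => h.full_adj hI hw e2 (x := x) hx) (Set.toFinite _)
      exact absurd (a2.trans (a1.trans a3)) (Nat.not_le.2 e4)
    · exact leaf_sound hI h (hc _) e
    · obtain ⟨n', t', lb', G', c', h', e'⟩ :=
        third_sound hI h (Nat.le_of_ble_eq_true e2) (Nat.le_of_ble_eq_true e1) e3 e
      exact ih _ _ _ _ _ h' e'
    · obtain ⟨n', t', lb', G', y, h', -, -, -, -, e'⟩ :=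
        peel_sound hI h (Nat.le_of_ble_eq_true e2) (Nat.le_of_ble_eq_true e1) e3 e
      rw [nxt, frc_eq] at e'
      exact ih _ _ _ _ _ h' e'

theorem irr_J (hc : ∀ j, Cert (bn j) (bt j)) (T : Surf V) (hI : T.Irr) : J T := by
  obtain ⟨lb, G, h, e⟩ := rep_init hI
  obtain ⟨n', t', lb', G', y, h', le, eq, hy, ey, e'⟩ :=
    peel_sound hI h (u := 0) (w := 1) (by omega) (by omega) (by decide +kernel) run
  obtain rfl : y = 2 := h'.inj _ _ hy (by omega) (by rw [ey, e, eq 2 (by omega)])
  rw [cd_i, frc_eq] at e'
  exact go_sound hI hc 40 _ _ _ _ _ h' (e' rfl)

end Pool.Agent.MP_6209da_co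

namespace Pool.Agent.MP_6209da_co

open Finset

theorem asm_ind {V E P : Type} [AddCommGroup P] [Module ℝ P] {e : V → E}
    (he : Function.Injective e) {t : Set V} {S : Set E} (hS : S = e '' t) (q : E → P)
    (h : AffineIndependent ℝ (fun x : t => q (e x))) : AffineIndependent ℝ (fun x : S => q x) := by
  subst hS
  exact (affineIndependent_equiv (Equiv.Set.image e t he)).1 h

/-- Induction on the number of vertices. -/
theorem all_J {V : Type} [Fintype V] [DecidableEq V] (T : Surf V) : J T := by
  induction hn : T.vs.card using Nat.strong_induction_on generalizing T with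
  | _ n ih =>
    by_cases h : T.Irr
    · exact irr_J base_cert T h
    · unfold Surf.Irr at h
      push Not at h
      obtain ⟨u, w, huw, hc⟩ := h
      obtain ⟨T₀, h0⟩ := contract T huw fun y h1 h2 => by
        by_contra hy
        push Not at hy
        exact hy.2 (hc y h1 h2 hy.1)
      refine split h0 (ih _ ?_ T₀ rfl)
      rw [h0.vs, ← hn]
      exact card_erase_lt_of_mem (T.mem huw)

end Pool.Agent.MP_6209da_co
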