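import Pool.Agent.MP_6209da_co.Basic
import Pool.Agent.Lib.PlaneTop.HasLog

attribute [-instance] RKHS.instFunLike TotallySeparatedSpace.t2Space AddQuantale.instAddLeftMono
  NonUnitalNonAssocSemiring.toAddCommMonoid Valued.toUniformSpace NumberField.to_charZero
  SubfieldClass.toSubringClass instCharZeroOfIsSemireal continuousSub_of_discreteTopology
  IdemSemiring.toCanonicallyOrderedAdd RCLike.charZero_rclike GrpTypeEquivalenceGrp.grpGroup
  NonUnitalAlgSemiHomClass.toDistribMulActionSemiHomClass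
  ContinuousMonoidHom.instCoeOutOfMonoidHomClassOfContinuousMapClass littleWedderburn instCoeTCOfCoe
  IdemSemiring.toSemiring continuousSub_of_indiscreteTopology CommRing.toRing NormedRing.toRing
  LieAdmissibleAlgebra.toModule ProperSMul.toContinuousSMul RightPreLieAlgebra.toModule
  NonarchimedeanRing.toIsTopologicalRing LeftPreLieAlgebra.toModule
  NonUnitalNonAssocSemiring.toMulZeroClass NonarchimedeanAddGroup.toIsTopologicalAddGroup
  AddQuantale.instAddRightMono LinearOrderedCommMonoidWithZero.toIsBotZeroClass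
  CStarAlgebra.instOrderClosedTopology CoalgHomClass.toSemilinearMapClass
  NumberField.instFiniteDimensional MulSemiringAction.toDistribMulAction
  IsTopologicalTorsor.toContinuousSMul

namespace Pool.Agent.MP_6209da_co

open Finset

theorem bar_hull {V E : Type} [Fintype V] [DecidableEq V] [AddCommGroup E] [Module ℝ E]
    (e : V ↪ E) (t : Finset V) (x : E) : x ∈ convexHull ℝ (t.map e : Set E) ↔
      ∃ y : V → ℝ, (∀ v, 0 ≤ y v) ∧ ∑ v, y v = 1 ∧ (∀ v, v ∉ t → y v = 0) ∧ ∑ v, y v • e v = x := by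
  constructor
  · intro h
    obtain ⟨w, h1, h2, h3⟩ := Finset.mem_convexHull'.1 h
    rw [sum_map] at h2 h3
    refine ⟨fun v => if v ∈ t then w (e v) else 0, fun v => ?_, by simpa only [sum_ite_mem, univ_inter] using h2,
      fun v hv => if_neg hv, by simpa only [ite_smul, zero_smul, sum_ite_mem, univ_inter] using h3⟩
    beta_reduce
    split_ifs with hv
    exacts [h1 _ (mem_map_of_mem e hv), le_rfl]
  · rintro ⟨y, h1, h2, h3, rfl⟩
    rw [← sum_subset (subset_univ t) fun v _ hv => by rw [h3 v hv, zero_smul]]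
    refine (convex_convexHull ℝ _).sum_mem (fun v _ => h1 v) ?_
      fun v hv => subset_convexHull ℝ _ (mem_map_of_mem e hv)
    rw [← h2, sum_subset (subset_univ t) fun v _ hv => h3 v hv]

theorem bar_uniq {V E : Type} [Fintype V] [DecidableEq V] [AddCommGroup E] [Module ℝ E]
    (e : V ↪ E) (t : Finset V) (h : AffineIndependent ℝ ((↑) : t.map e → E)) {y y' : V → ℝ}
    (h1 : ∑ v, y v = 1) (h2 : ∑ v, y' v = 1) (h3 : ∀ v, v ∉ t → y v = 0)
    (h4 : ∀ v, v ∉ t → y' v = 0) (h5 : ∑ v, y v • e v = ∑ v, y' v • e v) : y = y' := by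
  have k := h.comp_embedding ⟨fun v : t => ⟨e v, mem_map_of_mem e v.2⟩,
    fun a b hab => Subtype.ext (e.injective (congrArg Subtype.val hab))⟩
  have z : ∀ v, v ∉ t → y v - y' v = 0 := fun v hv => by rw [h3 v hv, h4 v hv, sub_zero]
  have k' := affineIndependent_iff.1 k univ (fun v => y v - y' v) (by
    rw [sum_coe_sort t fun v => y v - y' v, sum_subset (subset_univ t) fun v _ hv => z v hv,
      sum_sub_distrib, h1, h2, sub_self]) (by
    change ∑ v : t, (y v - y' v) • e v = 0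
    rw [sum_coe_sort t fun v => (y v - y' v) • e v,
      sum_subset (subset_univ t) fun v _ hv => by rw [z v hv, zero_smul]]
    simp only [sub_smul, sum_sub_distrib, h5, sub_self])
  funext v
  by_cases hv : v ∈ t
  exacts [sub_eq_zero.1 (k' ⟨v, hv⟩ (mem_univ _)), sub_eq_zero.1 (z v hv)]

/-- Block Bar. -/
theorem bary_of_complex {n : ℕ} (K : Geometry.SimplicialComplex ℝ (EuclideanSpace ℝ (Fin n)))
    (hK : K.faces.Finite) {M : Type} [TopologicalSpace M] (h : K.space ≃ₜ M) :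
    ∃ (m : ℕ) (e : Fin m → EuclideanSpace ℝ (Fin n)) (Fc : Finset (Fin m) → Prop)
      (lam : M → Fin m → ℝ), Function.Injective e ∧ Set.range e = K.vertices ∧ Bary M Fc lam ∧
        ∀ s ∈ K.faces, ∃ t, Fc t ∧ (s : Set (EuclideanSpace ℝ (Fin n))) = e '' (t : Set (Fin m)) := by
  have hV : K.vertices.Finite := by
    rw [K.vertices_eq]; exact hK.biUnion fun s _ => s.finite_toSet
  obtain ⟨m, f, hf, hr⟩ := hV.fin_param
  let e : Fin m ↪ EuclideanSpace ℝ (Fin n) := ⟨f, hf⟩
  have pre : ∀ s ∈ K.faces, ∃ t : Finset (Fin m), t.map e = s := fun s hs => by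
    refine ⟨univ.filter fun v => f v ∈ s, Finset.ext fun x => ?_⟩
    simp only [mem_map, mem_filter, mem_univ, true_and]
    refine ⟨fun ⟨v, h1, h2⟩ => h2 ▸ h1, fun hx => ?_⟩
    obtain ⟨v, rfl⟩ : x ∈ Set.range f := by
      rw [hr]; exact K.down_closed hs (singleton_subset_iff.2 hx) (singleton_nonempty x)
    exact ⟨v, hx, rfl⟩
  let S : Set (Fin m → ℝ) := {y | (∀ v, 0 ≤ y v) ∧ ∑ v, y v = 1 ∧
    ∃ s : Finset (Fin m), s.map e ∈ K.faces ∧ ∀ v, v ∉ s → y v = 0}
  have hS : IsCompact S := by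
    have : S = stdSimplex ℝ (Fin m) ∩ ⋃ s : Finset (Fin m),
        {y | s.map e ∈ K.faces ∧ ∀ v, v ∉ s → y v = 0} := by
      ext y
      simp only [S, stdSimplex, Set.mem_ofPred_eq, Set.mem_inter_iff, Set.mem_iUnion, and_assoc]
    rw [this]
    refine (isCompact_stdSimplex ℝ _).inter_right (isClosed_iUnion_of_finite fun s => ?_)
    simp only [Set.ofPred_and, Set.ofPred_forall]
    exact isClosed_const.inter (isClosed_iInter fun v => isClosed_iInter fun _ =>
      isClosed_eq (continuous_apply v) continuous_const)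
  have : CompactSpace S := isCompact_iff_compactSpace.1 hS
  let Φ : S → K.space := fun y => ⟨∑ v, y.1 v • e v, by
    obtain ⟨h1, h2, s, h3, h4⟩ := y.2
    exact K.convexHull_subset_space h3 ((bar_hull e s _).2 ⟨y.1, h1, h2, h4, rfl⟩)⟩
  have hΦ : Function.Bijective Φ := by
    refine ⟨fun y y' hy => ?_, fun x => ?_⟩
    · obtain ⟨h1, h2, s, h3, h4⟩ := y.2
      obtain ⟨k1, k2, t, k3, k4⟩ := y'.2
      have hy' : ∑ v, y.1 v • e v = ∑ v, y'.1 v • e v := congrArg Subtype.val hy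
      have := K.inter_subset_convexHull h3 k3 ⟨(bar_hull e s _).2 ⟨y.1, h1, h2, h4, rfl⟩,
        (bar_hull e t _).2 ⟨y'.1, k1, k2, k4, hy'.symm⟩⟩
      rw [← coe_inter, ← map_inter] at this
      obtain ⟨z, -, z2, z3, z4⟩ := (bar_hull e _ _).1 this
      exact Subtype.ext ((bar_uniq e s (K.indep h3) h2 z2 h4
        (fun v hv => z3 v fun k => hv (mem_inter.1 k).1) z4.symm).trans
        (bar_uniq e t (K.indep k3) z2 k2 (fun v hv => z3 v fun k => hv (mem_inter.1 k).2) k4
          (z4.trans hy')))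
    · obtain ⟨s, hs, hx⟩ := Geometry.SimplicialComplex.mem_space_iff.1 x.2
      obtain ⟨t, rfl⟩ := pre s hs
      obtain ⟨y, h1, h2, h3, h4⟩ := (bar_hull e t _).1 hx
      exact ⟨⟨y, h1, h2, t, hs, h3⟩, Subtype.ext h4⟩
  let Ψ : S ≃ₜ K.space := Continuous.homeoOfEquivCompactToT2 (f := Equiv.ofBijective Φ hΦ)
    (Continuous.subtype_mk (continuous_finsetSum _ fun v _ =>
      ((continuous_apply v).comp continuous_subtype_val).smul continuous_const) _)
  refine ⟨m, f, fun t => t.map e ∈ K.faces, fun x => (Ψ.symm (h.symm x)).1, hf, hr,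
    ⟨fun s hs => map_nonempty.1 (K.nonempty_of_mem_faces hs),
      fun s t hs hts ht => K.down_closed hs (map_subset_map.2 hts) (map_nonempty.2 ht),
      fun v => ?_, by fun_prop,
      Subtype.val_injective.comp (Ψ.symm.injective.comp h.symm.injective), fun y => ?_⟩,
    fun s hs => ?_⟩
  · rw [map_singleton]
    exact (hr ▸ Set.mem_range_self v : f v ∈ K.vertices)
  · exact ⟨fun ⟨x, hx⟩ => hx ▸ (Ψ.symm (h.symm x)).2, fun hy => ⟨h (Ψ ⟨y, hy⟩), by simp⟩⟩
  · obtain ⟨t, rfl⟩ := pre s hs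
    exact ⟨t, hs, coe_map e t⟩

end Pool.Agent.MP_6209da_co

/-! The local combinatorics of a triangulation of the torus. -/

namespace Pool.Agent.MP_6209da_co

open Set Metric Topology

open Pool.Agent.Lib.PlaneTop in
/-- An odd function has no logarithm on a circle about the origin. -/
theorem loc_odd {g : ℂ → ℂ} {r : ℝ} (hr : 0 < r) (ho : ∀ z, g (-z) = -g z) :
    ¬ HasLogOn g (sphere 0 r) := by
  intro h
  obtain ⟨ω, h1, h2⟩ := id h
  have hn : MapsTo (fun z : ℂ => -z) (sphere 0 r) (sphere 0 r) := fun z hz => by simpa using hz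
  have hx : (r : ℂ) ∈ sphere (0 : ℂ) r := by simp [hr.le]
  have hc : IsPreconnected (sphere (0 : ℂ) r) :=
    isPreconnected_sphere (by simp [Complex.rank_real_complex]) _ _
  have := log_sub_const (ω := ω) (ω' := fun z => ω (-z) + Real.pi * Complex.I) hc h1
    ((h1.comp continuous_neg.continuousOn hn).add continuousOn_const)
    (fun z hz => by
      rw [Complex.exp_add, Complex.exp_pi_mul_I, h2 _ (hn hz), h2 z hz, ho]; ring) hx (hn hx)
  simp only [neg_neg] at this
  have h3 : ω (-r) = ω r := by linear_combination (-1 / 2 : ℂ) * this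
  have h4 : g (-r) = g r := by rw [← h2 _ (hn hx), ← h2 _ hx, h3]
  rw [ho] at h4
  exact h.ne_zero hx (by linear_combination (-1 / 2 : ℂ) * h4)

open Pool.Agent.Lib.PlaneTop in
theorem loc_deg {f : ℂ → ℂ} {c : ℂ} {r : ℝ} (hr : 0 < r) (hc : ContinuousOn f (closedBall c r))
    (hi : InjOn f (closedBall c r)) : ¬ HasLogOn (fun z => f (c + z) - f c) (sphere 0 r) := by
  intro h
  have hm : ∀ s : ℝ, |s| ≤ 1 → ∀ z ∈ sphere (0 : ℂ) r, c + s * z ∈ closedBall c r := by
    intro s hs z hz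
    have hz' : ‖z‖ = r := by simpa using hz
    simp only [mem_closedBall, dist_self_add_left, norm_mul, Complex.norm_real, Real.norm_eq_abs,
      hz']
    nlinarith only [hr, hs]
  have m1 : ∀ t ∈ Icc (0 : ℝ) 1, |1 - t / 2| ≤ 1 := fun t ht =>
    abs_le.2 ⟨by linarith only [ht.2], by linarith [ht.1]⟩
  have m2 : ∀ t ∈ Icc (0 : ℝ) 1, |-(t / 2)| ≤ 1 := fun t ht =>
    abs_le.2 ⟨by linarith [ht.2], by linarith [ht.1]⟩
  have := HasLogOn.homotopy (K := sphere (0 : ℂ) r)
    (H := fun t z => f (c + (1 - t / 2 : ℝ) * z) - f (c + (-(t / 2) : ℝ) * z))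
    ((hc.comp (f := fun p : ℝ × ℂ => c + (1 - p.1 / 2 : ℝ) * p.2) (by fun_prop)
      fun p hp => hm _ (m1 _ hp.1) _ hp.2).sub
      (hc.comp (f := fun p : ℝ × ℂ => c + (-(p.1 / 2) : ℝ) * p.2) (by fun_prop)
        fun p hp => hm _ (m2 _ hp.1) _ hp.2))
    (fun t ht z hz h0 => by
      have e := hi (hm _ (m1 t ht) z hz) (hm _ (m2 t ht) z hz) (sub_eq_zero.1 h0)
      have e' : z = 0 := by
        push_cast at e
        linear_combination e
      rw [e'] at hz
      simp at hz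
      exact hr.ne hz)
    (by simpa using h)
  refine loc_odd hr (fun z => ?_) this
  have e1 : (((1 - 1 / 2 : ℝ) : ℝ) : ℂ) * -z = ((-(1 / 2) : ℝ) : ℂ) * z := by
    push_cast; ring
  have e2 : ((-(1 / 2) : ℝ) : ℂ) * -z = (((1 - 1 / 2 : ℝ) : ℝ) : ℂ) * z := by
    push_cast; ring
  rw [e1, e2]; ring

/-- Invariance of domain in the plane. -/
theorem loc_inv {O : Set ℂ} (hO : IsOpen O) {f : ℂ → ℂ} (hc : ContinuousOn f O)
    (hi : InjOn f O) : IsOpen (f '' O) := by
  rw [Metric.isOpen_iff]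
  rintro _ ⟨c, hcO, rfl⟩
  obtain ⟨r, hr, hb⟩ := nhds_basis_closedBall.mem_iff.1 (hO.mem_nhds hcO)
  have hs : sphere c r ⊆ O := sphere_subset_closedBall.trans hb
  have hS : IsClosed (f '' sphere c r) :=
    ((isCompact_sphere c r).image_of_continuousOn (hc.mono hs)).isClosed
  have hn : f c ∈ (f '' sphere c r)ᶜ := by
    rintro ⟨z, hz, e⟩
    rw [hi (hs hz) hcO e] at hz
    simp at hz
    exact hr.ne hz
  obtain ⟨δ, hδ, hball⟩ := Metric.isOpen_iff.1 hS.isOpen_compl _ hn
  refine ⟨δ, hδ, fun w hw => ?_⟩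
  by_contra hwO
  have hm : ∀ z ∈ closedBall (0 : ℂ) r, c + z ∈ closedBall c r := fun z hz => by simpa only [mem_closedBall, dist_self_add_left, dist_zero_right] using hz
  have hcc : ContinuousOn (fun z => f (c + z)) (closedBall 0 r) :=
    (hc.mono hb).comp (by fun_prop) hm
  have h0 := (Pool.Agent.Lib.PlaneTop.hasLogOn_of_convex (F := fun z => f (c + z) - w)
    (convex_closedBall (0 : ℂ) r) (hcc.sub continuousOn_const)
    fun z hz e => hwO ⟨_, hb (hm z hz), sub_eq_zero.1 e⟩).mono sphere_subset_closedBall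
  have := Pool.Agent.Lib.PlaneTop.HasLogOn.homotopy (K := sphere (0 : ℂ) r)
    (H := fun t z => f (c + z) - ((1 - t) • w + t • f c))
    ((hcc.comp continuous_snd.continuousOn fun p hp => sphere_subset_closedBall hp.2).sub
      (by fun_prop))
    (fun t ht z hz e => hball (convex_ball (f c) δ hw (mem_ball_self hδ) (by linarith [ht.2]) ht.1
      (by ring : 1 - t + t = 1)) ⟨c + z, by simpa using hz, sub_eq_zero.1 e⟩)
    (by simpa using h0)
  exact loc_deg hr (hc.mono hb) (hi.mono hb) (by simpa only [sub_self, zero_smul, one_smul, zero_add] using this)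

theorem loc_half {W : Set ℂ} (hW : IsOpen W) (h : ∀ z ∈ W, 0 ≤ z.im) {z : ℂ} (hz : z ∈ W) :
    z.im ≠ 0 := by
  intro h0
  obtain ⟨ε, hε, hb⟩ := Metric.isOpen_iff.1 hW z hz
  have := h (z - (ε / 2 : ℝ) * Complex.I) (hb (by
    simp only [mem_ball, dist_self_sub_left, norm_mul, Complex.norm_real, Complex.norm_I,
      Real.norm_eq_abs, mul_one]
    rw [abs_of_pos (by linarith)]; linarith only [hε]))
  simp only [Complex.ofReal_div, Complex.ofReal_ofNat, Complex.sub_im, h0, Complex.mul_im, Complex.div_ofNat_re, Complex.ofReal_re, Complex.I_im, mul_one, Complex.div_ofNat_im, Complex.ofReal_im, zero_div, Complex.I_re, mul_zero, add_zero, zero_sub, Left.nonneg_neg_iff] at this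
  linarith only [hε, this]

/-- Every point of the torus has a plane chart. -/
theorem loc_chart (x : Tor) : ∃ (e : OpenPartialHomeomorph ℂ Tor) (c : ℂ), c ∈ e.source ∧ e c = x := by
  obtain ⟨a, ha⟩ := QuotientAddGroup.mk_surjective x.1
  obtain ⟨b, hb⟩ := QuotientAddGroup.mk_surjective x.2
  obtain ⟨e₁, h₁, f₁⟩ := AddCircle.isLocalHomeomorph_coe (1 : ℝ) a
  obtain ⟨e₂, h₂, f₂⟩ := AddCircle.isLocalHomeomorph_coe (1 : ℝ) b
  refine ⟨Complex.equivRealProdCLM.toHomeomorph.toOpenPartialHomeomorph.trans (e₁.prod e₂),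
    ⟨a, b⟩, ⟨trivial, h₁, h₂⟩, ?_⟩
  exact Prod.ext ((congrFun f₁ a).symm.trans ha) ((congrFun f₂ b).symm.trans hb)

theorem loc_open_to {O : Set ℂ} (hO : IsOpen O) {Ψ : ℂ → Tor} (hc : ContinuousOn Ψ O)
    (hi : InjOn Ψ O) {z : ℂ} (hz : z ∈ O) : Ψ '' O ∈ 𝓝 (Ψ z) := by
  obtain ⟨e, c, hc1, hc2⟩ := loc_chart (Ψ z)
  have ht : Ψ z ∈ e.target := hc2 ▸ e.map_source hc1
  have h1 : IsOpen ((fun z => e.symm (Ψ z)) '' (O ∩ Ψ ⁻¹' e.target)) :=
    loc_inv (hc.isOpen_inter_preimage hO e.open_target)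
      (e.continuousOn_symm.comp (hc.mono inter_subset_left) fun z hz => hz.2)
      fun z hz z' hz' h => hi hz.1 hz'.1 (e.symm.injOn hz.2 hz'.2 h)
  have h2 := e.isOpen_image_of_subset_source h1 (by
    rintro _ ⟨w, hw, rfl⟩
    exact e.map_target hw.2)
  refine Filter.mem_of_superset (h2.mem_nhds ⟨_, ⟨z, ⟨hz, ht⟩, rfl⟩, e.right_inv ht⟩) ?_
  rintro _ ⟨_, ⟨w, hw, rfl⟩, rfl⟩
  exact ⟨w, hw.1, (e.right_inv hw.2).symm⟩

theorem loc_open_from {W : Set Tor} (hW : IsOpen W) {g : Tor → ℂ} (hc : ContinuousOn g W)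
    (hi : InjOn g W) : IsOpen (g '' W) := by
  refine isOpen_iff_mem_nhds.2 ?_
  rintro _ ⟨x, hx, rfl⟩
  obtain ⟨e, c, hc1, rfl⟩ := loc_chart x
  have h1 : IsOpen ((fun z => g (e z)) '' (e.source ∩ e ⁻¹' W)) :=
    loc_inv (e.isOpen_inter_preimage hW)
      (hc.comp (e.continuousOn.mono inter_subset_left) fun z hz => hz.2)
      fun z hz z' hz' h => e.injOn hz.1 hz'.1 (hi hz.2 hz'.2 h)
  refine Filter.mem_of_superset (h1.mem_nhds ⟨c, ⟨hc1, hx⟩, rfl⟩) ?_
  rintro _ ⟨w, hw, rfl⟩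
  exact ⟨_, hw.2, rfl⟩

theorem loc_ball (c : ℂ) (ε : ℝ) : IsPreconnected (ball c ε \ {c}) := by
  have h := ((isPreconnected_Ioo (a := (0 : ℝ)) (b := ε)).prod
    (isPreconnected_univ (α := ℝ))).image
    (fun p : ℝ × ℝ => c + p.1 * Complex.exp (p.2 * Complex.I)) (by fun_prop)
  convert h using 1
  ext z
  constructor
  · rintro ⟨h1, h2⟩
    refine ⟨(‖z - c‖, Complex.arg (z - c)), ⟨⟨norm_pos_iff.2 (sub_ne_zero.2 h2), ?_⟩, trivial⟩, ?_⟩
    · simpa [dist_eq_norm] using h1
    · simp only [Complex.norm_mul_exp_arg_mul_I]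
      ring
  · rintro ⟨⟨r, t⟩, ⟨⟨h1, h2⟩, -⟩, rfl⟩
    have h3 : ‖(r : ℂ) * Complex.exp (t * Complex.I)‖ = r := by
      rw [norm_mul, Complex.norm_exp_ofReal_mul_I, Complex.norm_real, mul_one,
        Real.norm_of_nonneg h1.le]
    refine ⟨by simpa only [mem_ball, dist_self_add_left, h3] using h2, fun h => ?_⟩
    have h4 : (r : ℂ) * Complex.exp (t * Complex.I) = 0 := by simpa using h
    rw [h4, norm_zero] at h3
    exact h1.ne h3

/-- Small punctured neighbourhoods are connected and not empty. -/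
theorem loc_punct (x : Tor) {N : Set Tor} (hN : N ∈ 𝓝 x) :
    ∃ S ⊆ N, IsPreconnected S ∧ S.Nonempty ∧ x ∉ S ∧ insert x S ∈ 𝓝 x := by
  obtain ⟨e, c, hc, rfl⟩ := loc_chart x
  obtain ⟨ε, hε, hb⟩ := Metric.mem_nhds_iff.1
    (Filter.inter_mem (e.open_source.mem_nhds hc) (e.continuousAt hc hN))
  have hs : ball c ε ⊆ e.source := fun z hz => (hb hz).1
  refine ⟨e '' (ball c ε \ {c}), ?_, (loc_ball c ε).image _ (e.continuousOn.mono
    (sdiff_subset.trans hs)), ⟨_, c + (ε / 2 : ℝ), ⟨?_, ?_⟩, rfl⟩, ?_, ?_⟩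
  · rintro _ ⟨z, hz, rfl⟩
    exact (hb hz.1).2
  · simp only [mem_ball, dist_self_add_left, Complex.norm_real, Real.norm_eq_abs]
    rw [abs_of_pos (by linarith)]; linarith only [hε]
  · simpa using hε.ne'
  · rintro ⟨z, hz, h⟩
    exact hz.2 (e.injOn (hs hz.1) hc h)
  · refine Filter.mem_of_superset ((e.isOpen_image_of_subset_source isOpen_ball hs).mem_nhds
      ⟨c, mem_ball_self hε, rfl⟩) ?_
    rintro _ ⟨z, hz, rfl⟩
    by_cases h : z = c
    · exact Or.inl (h ▸ rfl)
    · exact Or.inr ⟨z, ⟨hz, h⟩, rfl⟩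

section

variable {V : Type} [Fintype V] [DecidableEq V] {Fc : Finset V → Prop} {lam : Tor → V → ℝ}

/-- Barycentric coordinates of a point of the simplex on `s`. -/
def LocIn (s : Finset V) (y : V → ℝ) : Prop :=
  (∀ v, 0 ≤ y v) ∧ ∑ v, y v = 1 ∧ ∀ v, v ∉ s → y v = 0

theorem loc_in_single {s : Finset V} {v : V} (hv : v ∈ s) : LocIn s (Pi.single v 1) :=
  ⟨fun w => by rw [Pi.single_apply]; split_ifs <;> norm_num, by simp only [Finset.sum_pi_single', Finset.mem_univ, ↓ reduceIte],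
    fun w hw => Pi.single_eq_of_ne (by rintro rfl; exact hw hv) _⟩

omit [DecidableEq V] in
theorem LocIn.mix {s : Finset V} {y y' : V → ℝ} (h : LocIn s y) (h' : LocIn s y') {t : ℝ}
    (h0 : 0 ≤ t) (h1 : t ≤ 1) : LocIn s ((1 - t) • y + t • y') := by
  refine ⟨fun v => add_nonneg (mul_nonneg (by linarith) (h.1 v)) (mul_nonneg h0 (h'.1 v)), ?_,
    fun v hv => by simp [h.2.2 v hv, h'.2.2 v hv]⟩
  simp only [Pi.add_apply, Pi.smul_apply, smul_eq_mul, Finset.sum_add_distrib, ← Finset.mul_sum,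
    h.2.1, h'.2.1]
  ring

theorem loc_pt (h : Bary Tor Fc lam) {s : Finset V} (hs : Fc s) {y : V → ℝ} (hy : LocIn s y) :
    ∃ x, lam x = y := (h.range y).2 ⟨hy.1, hy.2.1, s, hs, hy.2.2⟩

theorem loc_face (h : Bary Tor Fc lam) (x : Tor) : ∃ s, Fc s ∧ LocIn s (lam x) := by
  obtain ⟨h1, h2, s, h3, h4⟩ := (h.range _).1 ⟨x, rfl⟩
  exact ⟨s, h3, h1, h2, h4⟩

theorem loc_supp (h : Bary Tor Fc lam) (x : Tor) {t : Finset V} (ht : t.Nonempty)
    (hx : ∀ v ∈ t, lam x v ≠ 0) : Fc t := by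
  obtain ⟨s, h1, h2⟩ := loc_face h x
  exact h.down s t h1 (fun v hv => not_not.1 fun e => hx v hv (h2.2.2 v e)) ht

theorem loc_emb (h : Bary Tor Fc lam) : IsEmbedding lam :=
  (h.cont.isClosedEmbedding h.inj).isEmbedding

/-- A neighbourhood of a point meets every segment that leaves the point inside a face. -/
theorem loc_appr (h : Bary Tor Fc lam) {x₀ : Tor} {U : Set Tor} (hU : U ∈ 𝓝 x₀) {s : Finset V}
    (hs : Fc s) (h0 : LocIn s (lam x₀)) {y : V → ℝ} (hy : LocIn s y) :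
    ∃ t : ℝ, 0 < t ∧ ∃ x ∈ U, lam x = (1 - t) • lam x₀ + t • y := by
  rw [(loc_emb h).nhds_eq_comap] at hU
  obtain ⟨U', h1, h2⟩ := Filter.mem_comap.1 hU
  have h3 : ContinuousAt (fun t : ℝ => (1 - t) • lam x₀ + t • y) 0 := by fun_prop
  have h4 : ∀ᶠ t in 𝓝[>] (0 : ℝ), (1 - t) • lam x₀ + t • y ∈ U' :=
    nhdsWithin_le_nhds (h3 (by simpa only [sub_zero, one_smul, zero_smul, add_zero] using h1))
  obtain ⟨t, h5, h6⟩ := (h4.and (Ioo_mem_nhdsGT one_pos)).exists
  obtain ⟨x, hx⟩ := loc_pt h hs (h0.mix hy h6.1.le h6.2.le)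
  exact ⟨t, h6.1, x, h2 (show lam x ∈ U' from hx ▸ h5), hx⟩

/-- Two triangles on an edge fill a neighbourhood of its midpoint. -/
theorem loc_diamond (h : Bary Tor Fc lam) {u w a b : V} (huw : u ≠ w) (hau : a ≠ u) (haw : a ≠ w)
    (hbu : b ≠ u) (hbw : b ≠ w) (hab : a ≠ b) (ha : Fc {u, w, a}) (hb : Fc {u, w, b})
    {s : Finset V} (hs : Fc s) (hu : u ∈ s) (hw : w ∈ s) {y : V → ℝ} (hy : LocIn s y) :
    (∀ d, d ≠ u → d ≠ w → d ≠ a → d ≠ b → y d = 0) ∧ (y a = 0 ∨ y b = 0) := by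
  let Y : ℂ → V → ℝ := fun z => Pi.single u ((1 - |z.im| + z.re) / 2) +
    Pi.single w ((1 - |z.im| - z.re) / 2) + Pi.single a (max z.im 0) + Pi.single b (max (-z.im) 0)
  have yu : ∀ z, Y z u = (1 - |z.im| + z.re) / 2 := fun z => by
    simp only [Y, Pi.add_apply, Pi.single_eq_same, ne_eq, huw, not_false_eq_true, Pi.single_eq_of_ne, add_zero, hau.symm, hbu.symm]
  have yw : ∀ z, Y z w = (1 - |z.im| - z.re) / 2 := fun z => by
    simp only [Y, Pi.add_apply, ne_eq, huw.symm, not_false_eq_true, Pi.single_eq_of_ne, Pi.single_eq_same, zero_add, haw.symm, add_zero, hbw.symm]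
  have ya : ∀ z, Y z a = max z.im 0 := fun z => by simp only [Y, Pi.add_apply, ne_eq, hau, not_false_eq_true, Pi.single_eq_of_ne, haw, add_zero, Pi.single_eq_same, zero_add, hab]
  have yb : ∀ z, Y z b = max (-z.im) 0 := fun z => by simp only [Y, Pi.add_apply, ne_eq, hbu, not_false_eq_true, Pi.single_eq_of_ne, hbw, add_zero, hab.symm, Pi.single_eq_same, zero_add]
  have yd : ∀ z d, d ≠ u → d ≠ w → d ≠ a → d ≠ b → Y z d = 0 := fun z d h1 h2 h3 h4 => by
    simp only [Y, Pi.add_apply, ne_eq, h1, not_false_eq_true, Pi.single_eq_of_ne, h2, add_zero, h3, h4]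
  have hY : Continuous Y := continuous_pi fun v => by
    simp only [Y, Pi.add_apply, Pi.single_apply]
    split_ifs <;> fun_prop
  have hO : IsOpen {z : ℂ | |z.re| + |z.im| < 1} := isOpen_lt (by fun_prop) continuous_const
  have hin : ∀ z : ℂ, |z.re| + |z.im| < 1 → ∃ x, lam x = Y z := fun z hz => by
    refine (h.range _).2 ⟨fun v => ?_, ?_, ?_⟩
    · have h1 := le_abs_self z.re
      have h2 := neg_abs_le z.re
      refine add_nonneg (add_nonneg (add_nonneg ?_ ?_) ?_) ?_ <;> rw [Pi.single_apply] <;>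
        split_ifs <;> first | exact le_rfl | exact le_max_right _ _ | linarith only [hz, h2, h1]
    · simp only [Y, Pi.add_apply, Finset.sum_add_distrib, Finset.sum_pi_single', Finset.mem_univ,
        if_true]
      have := max_zero_add_max_neg_zero_eq_abs_self z.im
      linarith
    · rcases le_total 0 z.im with h1 | h1
      · refine ⟨_, ha, fun v hv => ?_⟩
        simp only [Finset.mem_insert, Finset.mem_singleton, not_or] at hv
        by_cases e : v = b
        · rw [e, yb, max_eq_right (by linarith)]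
        · exact yd z v hv.1 hv.2.1 hv.2.2 e
      · refine ⟨_, hb, fun v hv => ?_⟩
        simp only [Finset.mem_insert, Finset.mem_singleton, not_or] at hv
        by_cases e : v = a
        · rw [e, ya, max_eq_right h1]
        · exact yd z v hv.1 hv.2.1 e hv.2.2
  have hl : ∀ z : ℂ, |z.re| + |z.im| < 1 → lam (Function.invFun lam (Y z)) = Y z :=
    fun z hz => Function.invFun_eq (hin z hz)
  have h0 : |(0 : ℂ).re| + |(0 : ℂ).im| < 1 := by simp
  have hU := loc_open_to (Ψ := fun z => Function.invFun lam (Y z)) hO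
    ((loc_emb h).isInducing.continuousOn_iff.2 (hY.continuousOn.congr hl))
    (fun z hz z' hz' e => by
      have e1 : Y z = Y z' := by rw [← hl z hz, ← hl z' hz']; exact congrArg lam e
      have e2 : z.im = z'.im := by
        have h1 := max_zero_sub_max_neg_zero_eq_self z.im
        have h2 := max_zero_sub_max_neg_zero_eq_self z'.im
        rw [← ya, ← yb] at h1 h2
        rw [← h1, ← h2, e1]
      have e3 := congrFun e1 u
      rw [yu, yu, e2] at e3
      exact Complex.ext (by linarith only [e3]) e2) h0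
  have hm : LocIn s (Y 0) := by
    have := (loc_in_single hu).mix (loc_in_single hw) (t := 1 / 2) (by norm_num) (by norm_num)
    convert this using 1
    ext v
    simp only [Y, Pi.add_apply, Pi.smul_apply, Pi.single_apply]
    split_ifs <;> norm_num
  obtain ⟨t, ht, _, ⟨z, hz, rfl⟩, e⟩ := loc_appr h hU hs (by rwa [hl 0 h0]) hy
  rw [hl z hz, hl 0 h0] at e
  refine ⟨fun d h1 h2 h3 h4 => ?_, ?_⟩
  · have := congrFun e d
    simpa [yd _ d h1 h2 h3 h4, ht.ne'] using this
  · have e1 := congrFun e a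
    have e2 := congrFun e b
    simp only [Pi.add_apply, Pi.smul_apply, ya, yb, smul_eq_mul] at e1 e2
    rcases le_total 0 z.im with h1 | h1
    · rw [max_eq_right (by linarith)] at e2
      exact Or.inr (by simpa [ht.ne'] using e2)
    · rw [max_eq_right h1] at e1
      exact Or.inl (by simpa [ht.ne'] using e1)

/-- An edge lies in at least two triangles. -/
theorem loc_two (h : Bary Tor Fc lam) {u w : V} (huw : u ≠ w) (hf : Fc {u, w}) :
    ∃ a b, a ≠ b ∧ (a ≠ u ∧ a ≠ w ∧ Fc {u, w, a}) ∧ b ≠ u ∧ b ≠ w ∧ Fc {u, w, b} := by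
  by_contra hn
  push Not at hn
  have hc : ∀ v, Continuous fun x => lam x v := fun v => (continuous_apply v).comp h.cont
  have hs : ∀ x, ∑ v, lam x v = 1 := fun x => ((h.range _).1 ⟨x, rfl⟩).2.1
  have hp : ∀ x v, 0 ≤ lam x v := fun x => ((h.range _).1 ⟨x, rfl⟩).1
  have hW : IsOpen {x | 0 < lam x u ∧ 0 < lam x w} :=
    (isOpen_lt continuous_const (hc u)).inter (isOpen_lt continuous_const (hc w))
  have h1 : ∀ x, 0 < lam x u ∧ 0 < lam x w → ∀ v, lam x v ≠ 0 → Fc {u, w, v} := fun x hx v hv =>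
    loc_supp h x (by simp) (by simp only [Finset.mem_insert, Finset.mem_singleton, ne_eq, forall_eq_or_imp, hx.1.ne', not_false_eq_true, hx.2.ne', forall_eq, hv, and_self])
  have h2 : ∀ x, 0 < lam x u ∧ 0 < lam x w → ∀ v, v ≠ u → v ≠ w → Fc {u, w, v} →
      lam x v = 1 - lam x u - lam x w := fun x hx v e1 e2 e3 => by
    rw [← hs x, ← Finset.sum_subset (Finset.subset_univ {u, w, v}) fun d _ hd => ?_]
    · rw [Finset.sum_insert (by simp [huw, e1.symm]), Finset.sum_pair e2.symm]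
      ring
    · simp only [Finset.mem_insert, Finset.mem_singleton, not_or] at hd
      by_contra e
      exact hn d v hd.2.2 ⟨hd.1, hd.2.1, h1 x hx d e⟩ e1 e2 e3
  have h3 := loc_open_from (g := fun x => ⟨lam x u - lam x w, 1 - lam x u - lam x w⟩) hW
    (Continuous.continuousOn (by
      refine Complex.equivRealProdCLM.symm.continuous.comp (f := fun x =>
        (lam x u - lam x w, 1 - lam x u - lam x w)) ?_
      fun_prop))
    (fun x hx x' hx' e => by
      obtain ⟨e1, e2⟩ := Complex.ext_iff.1 e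
      have e3 : lam x u = lam x' u := by simp only at e1 e2; linarith
      have e4 : lam x w = lam x' w := by simp only at e1 e2; linarith
      refine h.inj (funext fun v => ?_)
      by_cases c1 : v = u
      · rw [c1, e3]
      by_cases c2 : v = w
      · rw [c2, e4]
      by_cases c3 : Fc {u, w, v}
      · rw [h2 x hx v c1 c2 c3, h2 x' hx' v c1 c2 c3, e3, e4]
      · rw [not_not.1 (mt (h1 x hx v) c3), not_not.1 (mt (h1 x' hx' v) c3)])
  obtain ⟨x, hx⟩ := loc_pt h hf ((loc_in_single (v := u) (by simp)).mix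
    (loc_in_single (v := w) (by simp)) (t := 1 / 2) (by norm_num) (by norm_num))
  have e1 : lam x u = 1 / 2 := by rw [hx]; simp [huw]; norm_num
  have e2 : lam x w = 1 / 2 := by rw [hx]; simp [huw.symm]
  refine loc_half h3 ?_ ⟨x, ⟨by rw [e1]; norm_num, by rw [e2]; norm_num⟩, rfl⟩
    (by simp only [e1, e2]; norm_num)
  rintro _ ⟨x, -, rfl⟩
  have := Finset.sum_le_univ_sum_of_nonneg (s := {u, w}) (hp x)
  rw [Finset.sum_pair huw, hs] at this
  simp only
  linarith only [this]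

/-- A property of vertices spreads over a connected set. -/
theorem loc_sep (h : Bary Tor Fc lam) {S : Set Tor} (hS : IsPreconnected S) {Q P : V → Prop}
    (h1 : ∀ x ∈ S, ∃ y, Q y ∧ 0 < lam x y)
    (h2 : ∀ x ∈ S, ∀ y y', Q y → Q y' → 0 < lam x y → 0 < lam x y' → P y → P y') {a b : V}
    (ha : ∃ x ∈ S, Q a ∧ 0 < lam x a) (hb : ∃ x ∈ S, Q b ∧ 0 < lam x b) (hp : P a) : P b := by
  have ho : ∀ R : V → Prop, IsOpen {x | ∃ y, R y ∧ Q y ∧ 0 < lam x y} := fun R => by
    rw [ofPred_exists]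
    exact isOpen_iUnion fun y => isOpen_const.inter (isOpen_const.inter
      (isOpen_lt continuous_const ((continuous_apply y).comp h.cont)))
  by_contra hn
  obtain ⟨x, hx, ⟨y, e1, e2, e3⟩, y', e4, e5, e6⟩ := hS _ _ (ho P) (ho fun y => ¬ P y)
    (fun x hx => by
      obtain ⟨y, hy⟩ := h1 x hx
      exact (em (P y)).imp (fun e => ⟨y, e, hy⟩) fun e => ⟨y, e, hy⟩)
    (ha.imp fun x hx => ⟨hx.1, a, hp, hx.2⟩) (hb.imp fun x hx => ⟨hx.1, b, hn, hx.2⟩)
  exact e4 (h2 x hx y y' e2 e5 e3 e6 e1)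

/-- A connected punctured neighbourhood of a vertex inside its open star. -/
theorem loc_star (h : Bary Tor Fc lam) (v : V) : ∃ S : Set Tor, IsPreconnected S ∧ S.Nonempty ∧
    (∀ x ∈ S, 0 < lam x v ∧ ∃ y, y ≠ v ∧ 0 < lam x y) ∧
    ∀ a, a ≠ v → Fc {v, a} → ∃ x ∈ S, a ≠ v ∧ 0 < lam x a := by
  obtain ⟨x₀, h0⟩ := loc_pt h (h.single v) (loc_in_single (v := v) (by simp))
  obtain ⟨S, h1, h2, h3, h4, h5⟩ := loc_punct x₀ (N := {x | 0 < lam x v})
    ((isOpen_lt continuous_const ((continuous_apply v).comp h.cont)).mem_nhds (by simp [h0]))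
  refine ⟨S, h2, h3, fun x hx => ⟨h1 hx, ?_⟩, fun a ha hf => ?_⟩
  · by_contra hn
    push Not at hn
    obtain ⟨s, -, h6, h7, -⟩ := loc_face h x
    have h8 : ∀ y, y ≠ v → lam x y = 0 := fun y hy => le_antisymm (hn y hy) (h6 y)
    rw [Finset.sum_eq_single v (fun y _ => h8 y) (by simp only [Finset.mem_univ, not_true_eq_false, IsEmpty.forall_iff])] at h7
    refine h4 (h.inj (h0.trans (funext fun y => ?_)) ▸ hx)
    by_cases e : y = v
    · rw [e, h7, Pi.single_eq_same]
    · rw [h8 y e, Pi.single_eq_of_ne e]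
  · obtain ⟨t, ht, x, hx, e⟩ := loc_appr h h5 hf (h0 ▸ loc_in_single (by simp))
      (loc_in_single (v := a) (by simp))
    have e1 : lam x a = t := by rw [e, h0]; simp [ha]
    refine ⟨x, hx.resolve_left fun e2 => ?_, ha, e1 ▸ ht⟩
    rw [e2, h0, Pi.single_eq_of_ne ha] at e1
    exact ht.ne e1

end

/-- Block Loc. -/
theorem loc_of_bary {V : Type} [Fintype V] [DecidableEq V] {Fc : Finset V → Prop}
    {lam : Tor → V → ℝ} (h : Bary Tor Fc lam) : Loc Fc := by
  refine ⟨fun s hs => ?_, fun u w huw hf => ?_, fun v => ?_, fun v P hP a b ha hb fa fb => ?_,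
    fun P hP a b => ?_⟩
  · by_contra hn
    obtain ⟨u, w, a, b, hu, hw, ha, hb, h1, h2, h3, h4, h5, h6⟩ :=
      Finset.three_lt_card_iff.1 (not_le.1 hn)
    have := (loc_diamond h h1 h2.symm h4.symm h3.symm h5.symm h6
      (h.down s _ hs (by simp [Finset.insert_subset_iff, hu, hw, ha]) (by simp))
      (h.down s _ hs (by simp [Finset.insert_subset_iff, hu, hw, hb]) (by simp)) hs hu hw
      ((loc_in_single ha).mix (loc_in_single hb) (t := 1 / 2) (by norm_num) (by norm_num))).2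
    simp [h6, h6.symm] at this
    norm_num at this
  · obtain ⟨a, b, hab, ha, hb⟩ := loc_two h huw hf
    refine ⟨a, b, hab, fun y => ⟨fun hy => ?_, fun hy => hy.elim (· ▸ ha) (· ▸ hb)⟩⟩
    by_contra hn
    push Not at hn
    simpa using (loc_diamond h huw ha.1 ha.2.1 hb.1 hb.2.1 hab ha.2.2 hb.2.2 hy.2.2 (by simp)
      (by simp) (loc_in_single (v := y) (by simp))).1 y hy.1 hy.2.1 hn.1 hn.2
  · obtain ⟨S, -, ⟨x, hx⟩, h1, -⟩ := loc_star h v
    obtain ⟨h2, y, h3, h4⟩ := h1 x hx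
    exact ⟨y, h3, loc_supp h x (by simp) (by simp [h2.ne', h4.ne'])⟩
  · obtain ⟨S, h1, -, h2, h3⟩ := loc_star h v
    exact loc_sep h h1 (fun x hx => (h2 x hx).2) (fun x hx y y' e1 e2 e3 e4 => hP y y' e1 e2
      (loc_supp h x (by simp) (by simp only [Finset.mem_insert, Finset.mem_singleton, ne_eq, forall_eq_or_imp, (h2 x hx).1.ne', not_false_eq_true, e3.ne', forall_eq, e4.ne', and_self]))) (h3 a ha fa)
      (h3 b hb fb)
  · have h1 : ∀ a, ∃ x ∈ (univ : Set Tor), True ∧ 0 < lam x a := fun a => by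
      obtain ⟨x, hx⟩ := loc_pt h (h.single a) (loc_in_single (v := a) (by simp))
      exact ⟨x, trivial, trivial, by simp [hx]⟩
    refine loc_sep h isPreconnected_univ (Q := fun _ => True) (fun x _ => ?_) 
      (fun x _ y y' _ _ e3 e4 => hP y y' (loc_supp h x (by simp) (by simp [e3.ne', e4.ne']))) (h1 a) (h1 b)
    obtain ⟨s, -, h2, h3, -⟩ := loc_face h x
    obtain ⟨y, -, hy⟩ := Finset.exists_ne_zero_of_sum_ne_zero (h3.trans_ne one_ne_zero)
    exact ⟨y, trivial, (h2 y).lt_of_ne' hy⟩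

end Pool.Agent.MP_6209da_co

namespace Pool.Agent.MP_6209da_co

open Finset Topology Filter

section General

variable {V : Type} [Fintype V] [DecidableEq V] {Fc : Finset V → Prop}
  {M : Type} [TopologicalSpace M] {lam : M → V → ℝ}

theorem glo_nonneg (h : Bary M Fc lam) (x : M) (v : V) : 0 ≤ lam x v :=
  ((h.range _).1 ⟨x, rfl⟩).1 v

theorem glo_sum (h : Bary M Fc lam) (x : M) : ∑ v, lam x v = 1 :=
  ((h.range _).1 ⟨x, rfl⟩).2.1

theorem glo_face (h : Bary M Fc lam) (x : M) (t : Finset V) (ht : t.Nonempty)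
    (hx : ∀ v ∈ t, 0 < lam x v) : Fc t := by
  obtain ⟨s, hs, h0⟩ := ((h.range _).1 ⟨x, rfl⟩).2.2
  refine h.down s t hs (fun v hv => ?_) ht
  by_contra hn
  exact (hx v hv).ne' (h0 v hn)

theorem glo_idx (h : Bary M Fc lam) (x : M) : ∃ v, 0 < lam x v := by
  by_contra hn
  push Not at hn
  have h1 := glo_sum h x
  have h2 : ∑ v, lam x v ≤ 0 := Finset.sum_nonpos fun v _ => hn v
  linarith

theorem glo_face2 (h : Bary M Fc lam) {x : M} {u w : V} (hu : 0 < lam x u) (hw : 0 < lam x w) :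
    Fc {u, w} := by
  refine glo_face h x _ (by simp) fun v hv => ?_
  simp only [mem_insert, mem_singleton] at hv
  rcases hv with rfl | rfl <;> assumption

theorem glo_face3 (h : Bary M Fc lam) {x : M} {u w y : V} (hu : 0 < lam x u) (hw : 0 < lam x w)
    (hy : 0 < lam x y) : Fc {u, w, y} := by
  refine glo_face h x _ (by simp) fun v hv => ?_
  simp only [mem_insert, mem_singleton] at hv
  rcases hv with rfl | rfl | rfl <;> assumption

/-- A point whose support is exactly a given face. -/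
theorem glo_centre (h : Bary M Fc lam) {s : Finset V} (hs : Fc s) :
    ∃ b : M, ∀ v, 0 < lam b v ↔ v ∈ s := by
  have hc : (0 : ℝ) < s.card := by exact_mod_cast (h.nonempty s hs).card_pos
  obtain ⟨b, hb⟩ := (h.range (fun v => if v ∈ s then (s.card : ℝ)⁻¹ else 0)).2
    ⟨fun v => by split_ifs <;> positivity, by
      rw [Finset.sum_ite_mem, Finset.univ_inter, Finset.sum_const, nsmul_eq_mul]
      exact mul_inv_cancel₀ hc.ne', s, hs, fun v hv => by simp [hv]⟩
  refine ⟨b, fun v => ?_⟩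
  rw [hb]
  by_cases hv : v ∈ s
  · simp only [hv, if_true, iff_true]; positivity
  · simp [hv]

theorem glo_seg (h : Bary M Fc lam) (x z : M) (hz : ∀ v, 0 < lam z v → 0 < lam x v) (t : ℝ)
    (h0 : 0 ≤ t) (h1 : t ≤ 1) : ∃ y, lam y = fun v => (1 - t) * lam z v + t * lam x v := by
  obtain ⟨s, hs, hs0⟩ := ((h.range _).1 ⟨x, rfl⟩).2.2
  refine (h.range _).2 ⟨fun v => ?_, ?_, s, hs, fun v hv => ?_⟩
  · have := glo_nonneg h x v
    have := glo_nonneg h z v
    have : 0 ≤ 1 - t := by linarith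
    positivity
  · rw [Finset.sum_add_distrib, ← Finset.mul_sum, ← Finset.mul_sum, glo_sum h, glo_sum h]
    ring
  · have hx := hs0 v hv
    have hzv : lam z v = 0 := by
      rcases (glo_nonneg h z v).eq_or_lt with e | e
      · exact e.symm
      · exact absurd (hz v e) (by rw [hx]; exact lt_irrefl _)
    rw [hx, hzv]; ring

/-- The intersection of two open stars. -/
def gloU (lam : M → V → ℝ) (u w : V) : Set M := {x | 0 < lam x u ∧ 0 < lam x w}

theorem glo_cont (h : Bary M Fc lam) (v : V) : Continuous fun x => lam x v :=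
  (continuous_apply v).comp h.cont

theorem glo_open (h : Bary M Fc lam) (u w : V) : IsOpen (gloU lam u w) :=
  (isOpen_lt continuous_const (glo_cont h u)).inter (isOpen_lt continuous_const (glo_cont h w))

theorem glo_htpy [CompactSpace M] (h : Bary M Fc lam) {u w : V} (huw : Fc {u, w}) :
    ∃ (b : M) (H : C(unitInterval × gloU lam u w, M)), b ∈ gloU lam u w ∧ (∀ a, H (0, a) = b) ∧
      (∀ a, H (1, a) = a) ∧ ∀ p, H p ∈ gloU lam u w := by
  obtain ⟨b, hb⟩ := glo_centre h huw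
  have hbu : 0 < lam b u := (hb u).2 (by simp)
  have hbw : 0 < lam b w := (hb w).2 (by simp)
  have hex : ∀ p : unitInterval × gloU lam u w,
      ∃ y, lam y = fun v => (1 - (p.1 : ℝ)) * lam b v + (p.1 : ℝ) * lam p.2 v := by
    intro p
    refine glo_seg h p.2 b (fun v hv => ?_) _ p.1.2.1 p.1.2.2
    have := (hb v).1 hv
    simp only [mem_insert, mem_singleton] at this
    rcases this with rfl | rfl
    · exact p.2.2.1
    · exact p.2.2.2
  choose g hg using hex
  have hemb := (h.cont.isClosedEmbedding h.inj).isEmbedding.isInducing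
  have hc : Continuous g := by
    rw [hemb.continuous_iff]
    have : lam ∘ g = fun p : unitInterval × gloU lam u w =>
        fun v => (1 - (p.1 : ℝ)) * lam b v + (p.1 : ℝ) * lam p.2 v := funext hg
    rw [this]
    refine continuous_pi fun v => ?_
    have h2 : Continuous fun p : unitInterval × gloU lam u w => lam p.2 v :=
      (glo_cont h v).comp (continuous_subtype_val.comp continuous_snd)
    have h3 : Continuous fun p : unitInterval × gloU lam u w => (p.1 : ℝ) :=
      continuous_subtype_val.comp continuous_fst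
    exact ((continuous_const.sub h3).mul continuous_const).add (h3.mul h2)
  have hpos : ∀ (t : unitInterval) (c d : ℝ), 0 < c → 0 < d → 0 < (1 - (t : ℝ)) * c + t * d := by
    intro t c d hc hd
    have h0 := t.2.1
    have h1 := t.2.2
    rcases h0.eq_or_lt with e | e
    · rw [← e]; linarith
    · have : 0 ≤ (1 - (t : ℝ)) * c := mul_nonneg (by linarith) hc.le
      have := mul_pos e hd
      linarith
  refine ⟨b, ⟨g, hc⟩, ⟨hbu, hbw⟩, fun a => h.inj ?_, fun a => h.inj ?_, fun p => ?_⟩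
  · show lam (g (0, a)) = _
    rw [hg]; funext v; simp only [Set.Icc.coe_zero, sub_zero, one_mul, zero_mul, add_zero]
  · show lam (g (1, a)) = _
    rw [hg]; funext v; simp only [Set.Icc.coe_one, sub_self, zero_mul, one_mul, zero_add]
  · show 0 < lam (g p) u ∧ 0 < lam (g p) w
    rw [hg]
    exact ⟨hpos _ _ _ hbu p.2.2.1, hpos _ _ _ hbw p.2.2.2⟩

theorem glo_preconn [CompactSpace M] (h : Bary M Fc lam) (u w : V) :
    IsPreconnected (gloU lam u w) := by
  rcases (gloU lam u w).eq_empty_or_nonempty with e | ⟨x, hx⟩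
  · rw [e]; exact isPreconnected_empty
  obtain ⟨b, H, -, h0, h1, hH⟩ := glo_htpy h (glo_face2 h hx.1 hx.2)
  refine isPreconnected_of_forall b fun y hy =>
    ⟨Set.range fun t : unitInterval => H (t, ⟨y, hy⟩), ?_, ⟨0, h0 _⟩, ⟨1, h1 _⟩, ?_⟩
  · rintro _ ⟨t, rfl⟩; exact hH _
  · exact isPreconnected_range (by fun_prop)

/-- Real lifts of a circle-valued map over the open stars. -/
theorem glo_lift [CompactSpace M] (h : Bary M Fc lam) (f : C(M, AddCircle (1 : ℝ))) (v : V) :
    ∃ L : M → ℝ, ContinuousOn L (gloU lam v v) ∧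
      ∀ x ∈ gloU lam v v, (L x : AddCircle (1 : ℝ)) = f x := by
  classical
  obtain ⟨b, H, -, h0, h1, -⟩ := glo_htpy h (u := v) (w := v) (by simpa using h.single v)
  obtain ⟨r, hr⟩ := QuotientAddGroup.mk_surjective (f b)
  have cov := AddCircle.isCoveringMap_coe (1 : ℝ)
  have H0 : ∀ a : gloU lam v v, (f.comp H) (0, a) =
      (((ContinuousMap.const (gloU lam v v) r) a : ℝ) : AddCircle (1 : ℝ)) := by
    intro a
    simp only [ContinuousMap.comp_apply, h0, ContinuousMap.const_apply]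
    exact hr.symm
  let G := cov.liftHomotopy (f.comp H) (ContinuousMap.const _ r) H0
  refine ⟨fun x => if hx : x ∈ gloU lam v v then G (1, ⟨x, hx⟩) else 0, ?_, fun x hx => ?_⟩
  · rw [continuousOn_iff_continuous_domRestrict]
    have : (gloU lam v v).domRestrict
        (fun x => if hx : x ∈ gloU lam v v then G (1, ⟨x, hx⟩) else 0) = fun a => G (1, a) := by
      funext a
      simp [Set.domRestrict, a.2]
    rw [this]
    fun_prop
  · simp only [hx, dif_pos]
    have := congr_fun (cov.liftHomotopy_lifts (f.comp H) (ContinuousMap.const _ r) H0)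
      (1, ⟨x, hx⟩)
    simp only [Function.comp_apply, ContinuousMap.comp_apply, h1] at this
    exact this

/-- A cocycle pulled back to the plane is a coboundary. -/
theorem glo_theta (h : Bary M Fc lam) {A : Type} [AddCommGroup A] (φ : V → V → A)
    (hφ : Coc Fc φ) (q : C(ℝ × ℝ, M)) :
    ∃ θ : ℝ × ℝ → V → A,
      (∀ y₀ v, 0 < lam (q y₀) v → ∀ᶠ y in 𝓝 y₀, θ y v = θ y₀ v) ∧
      ∀ y u w, 0 < lam (q y) u → 0 < lam (q y) w → θ y w - θ y u = φ u w := by
  let : TopologicalSpace A := ⊥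
  have : DiscreteTopology A := ⟨rfl⟩
  choose idx hidx using glo_idx h
  let Z : FiberBundleCore V M A :=
    { baseSet := fun v => gloU lam v v
      isOpen_baseSet := fun v => glo_open h v v
      indexAt := idx
      mem_baseSet_at := fun x => ⟨hidx x, hidx x⟩
      coordChange := fun u w _ a => a + φ u w
      coordChange_self := fun v x hx a => by
        have := hφ v v v (glo_face3 h hx.1 hx.1 hx.1)
        have e : φ v v = 0 := by simpa using this
        simp [e]
      continuousOn_coordChange := fun u w =>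
        ((continuous_of_discreteTopology (f := fun a : A => a + φ u w)).comp
          continuous_snd).continuousOn
      coordChange_comp := fun u w y x hx a => by
        have := hφ u w y (glo_face3 h hx.1.1.1 hx.1.2.1 hx.2.1)
        rw [add_assoc, this] }
  have cov : IsCoveringMap Z.proj := FiberBundle.isCoveringMap (F := A) (E := Z.Fiber)
  obtain ⟨F, ⟨-, hF⟩, -⟩ := cov.existsUnique_continuousMap_lifts q 0
    (⟨q 0, (0 : A)⟩ : Z.TotalSpace) rfl
  have hF1 : ∀ y, (F y).1 = q y := fun y => congr_fun hF y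
  refine ⟨fun y v => (Z.localTriv v (F y)).2, fun y₀ v hv => ?_, fun y u w hu hw => ?_⟩
  · have hm : F y₀ ∈ (Z.localTriv v).source := by
      rw [Z.mem_localTriv_source, hF1]
      exact ⟨hv, hv⟩
    have hc : ContinuousAt (fun y => (Z.localTriv v (F y)).2) y₀ :=
      continuousAt_snd.comp (ContinuousAt.comp
        ((Z.localTriv v).toOpenPartialHomeomorph.continuousAt hm) F.continuous.continuousAt)
    have := hc.eventually (isOpen_discrete {(Z.localTriv v (F y₀)).2} |>.mem_nhds rfl)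
    exact this
  · have := hφ (idx (F y).1) u w (glo_face3 h (x := q y) (by rw [← hF1]; exact hidx _) hu hw)
    have e : ∀ a : A, (a + φ (idx (F y).1) w) - (a + φ (idx (F y).1) u) = φ u w := by
      intro a; rw [← this]; abel
    exact e _

end General

/-- The universal covering of the torus. -/
noncomputable def gloQ : C(ℝ × ℝ, Tor) :=
  ⟨fun y => ((y.1 : AddCircle (1 : ℝ)), (y.2 : AddCircle (1 : ℝ))),
    ((AddCircle.continuous_mk' 1).comp continuous_fst).prodMk
      ((AddCircle.continuous_mk' 1).comp continuous_snd)⟩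

theorem gloQ_apply (y : ℝ × ℝ) :
    gloQ y = ((y.1 : AddCircle (1 : ℝ)), (y.2 : AddCircle (1 : ℝ))) := rfl

theorem gloQ_e1 (y : ℝ × ℝ) : gloQ (y + (1, 0)) = gloQ y := by
  simp only [gloQ_apply, Prod.fst_add, Prod.snd_add, add_zero, AddCircle.coe_add_period]

theorem gloQ_e2 (y : ℝ × ℝ) : gloQ (y + (0, 1)) = gloQ y := by
  simp only [gloQ_apply, Prod.fst_add, Prod.snd_add, add_zero, AddCircle.coe_add_period]

theorem glo_int {a b : ℝ} (e : (a : AddCircle (1 : ℝ)) = b) : ∃ n : ℤ, a - b = n := by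
  have : ((a - b : ℝ) : AddCircle (1 : ℝ)) = 0 := by rw [AddCircle.coe_sub, e, sub_self]
  obtain ⟨n, hn⟩ := (AddCircle.coe_eq_zero_iff _).1 this
  exact ⟨n, by rw [← hn]; simp⟩

theorem glo_int_ev {X : Type} [TopologicalSpace X] {f : X → ℝ} {x₀ : X} {l : Filter X}
    (hf : Tendsto f l (𝓝 (f x₀))) (h₀ : ∃ n : ℤ, f x₀ = n) (hi : ∀ᶠ x in l, ∃ n : ℤ, f x = n) :
    ∀ᶠ x in l, f x = f x₀ := by
  filter_upwards [hi, Metric.tendsto_nhds.1 hf 1 one_pos] with x ⟨n, hn⟩ hd
  obtain ⟨m, hm⟩ := h₀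
  rw [hn, hm, Real.dist_eq] at hd
  rw [hn, hm]
  have : |n - m| < 1 := by exact_mod_cast hd
  have : n = m := by
    have := abs_lt.1 this
    omega
  rw [this]

theorem glo_int_const {X : Type} [TopologicalSpace X] {S : Set X} (hS : IsPreconnected S)
    {f : X → ℝ} (hf : ContinuousOn f S) (hi : ∀ x ∈ S, ∃ n : ℤ, f x = n) {x y : X}
    (hx : x ∈ S) (hy : y ∈ S) : f x = f y := by
  have : PreconnectedSpace S := Subtype.preconnectedSpace hS
  have hl : IsLocallyConstant (S.domRestrict f) := by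
    rw [IsLocallyConstant.iff_eventually_eq]
    intro a
    exact glo_int_ev (continuousOn_iff_continuous_domRestrict.1 hf).continuousAt (hi _ a.2)
      (Eventually.of_forall fun z => hi _ z.2)
  exact hl.apply_eq_of_preconnectedSpace ⟨x, hx⟩ ⟨y, hy⟩

section Torus

variable {V : Type} [Fintype V] [DecidableEq V] {Fc : Finset V → Prop} {lam : Tor → V → ℝ}

theorem glo_lifts (h : Bary Tor Fc lam) : ∃ L : V → Tor → ℝ × ℝ,
    (∀ v, ContinuousOn (L v) (gloU lam v v)) ∧ ∀ v, ∀ x ∈ gloU lam v v, gloQ (L v x) = x := by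
  choose L₁ c₁ e₁ using glo_lift h ⟨Prod.fst, continuous_fst⟩
  choose L₂ c₂ e₂ using glo_lift h ⟨Prod.snd, continuous_snd⟩
  refine ⟨fun v x => (L₁ v x, L₂ v x), fun v => (c₁ v).prodMk (c₂ v), fun v x hx => ?_⟩
  rw [gloQ_apply]
  exact Prod.ext (e₁ v x hx) (e₂ v x hx)

theorem glo_ev (h : Bary Tor Fc lam) {y₀ : ℝ × ℝ} {v : V} (hv : 0 < lam (gloQ y₀) v) :
    ∀ᶠ y in 𝓝 y₀, 0 < lam (gloQ y) v :=
  ((glo_cont h v).comp gloQ.continuous).continuousAt.eventually (lt_mem_nhds hv)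

theorem glo_mono (h : Bary Tor Fc lam) {A : Type} [AddCommGroup A] {φ : V → V → A}
    {θ : ℝ × ℝ → V → A}
    (h1 : ∀ y₀ v, 0 < lam (gloQ y₀) v → ∀ᶠ y in 𝓝 y₀, θ y v = θ y₀ v)
    (h2 : ∀ y u w, 0 < lam (gloQ y) u → 0 < lam (gloQ y) w → θ y w - θ y u = φ u w)
    (e : ℝ × ℝ) (he : ∀ y, gloQ (y + e) = gloQ y) :
    ∃ m : A, ∀ y v, 0 < lam (gloQ y) v → θ (y + e) v - θ y v = m := by
  choose idx hidx using glo_idx h
  have key : ∀ y u w, 0 < lam (gloQ y) u → 0 < lam (gloQ y) w →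
      θ (y + e) u - θ y u = θ (y + e) w - θ y w := by
    intro y u w hu hw
    have a := h2 y u w hu hw
    have b := h2 (y + e) u w (by rwa [he]) (by rwa [he])
    have c : θ (y + e) w - θ (y + e) u = θ y w - θ y u := by rw [a, b]
    have : θ (y + e) w - θ y w - (θ (y + e) u - θ y u) =
        (θ (y + e) w - θ (y + e) u) - (θ y w - θ y u) := by abel
    rw [c, sub_self, sub_eq_zero] at this
    exact this.symm
  have hl : IsLocallyConstant fun y => θ (y + e) (idx (gloQ y)) - θ y (idx (gloQ y)) := by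
    rw [IsLocallyConstant.iff_eventually_eq]
    intro y₀
    have t : Tendsto (fun y => y + e) (𝓝 y₀) (𝓝 (y₀ + e)) :=
      (continuous_add_const e).continuousAt
    filter_upwards [glo_ev h (hidx (gloQ y₀)), h1 y₀ _ (hidx _),
      t.eventually (h1 (y₀ + e) (idx (gloQ y₀)) (by rw [he]; exact hidx _))] with y a b c
    rw [key y _ _ (hidx _) a, b, c]
  refine ⟨θ (0 + e) (idx (gloQ 0)) - θ 0 (idx (gloQ 0)), fun y v hv => ?_⟩
  rw [key y _ _ hv (hidx _)]
  exact hl.apply_eq_of_preconnectedSpace y 0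

theorem glo_eps : ∀ m₁ m₂ : Fin 3 → ZMod 2, ∃ ε : Fin 3 → ZMod 2, ε ≠ 0 ∧
    ∑ i, ε i * m₁ i = 0 ∧ ∑ i, ε i * m₂ i = 0 := by
  decide +kernel

theorem glo_up (h : Bary Tor Fc lam) (φ : Fin 3 → V → V → ZMod 2) (hφ : ∀ i, Coc Fc (φ i)) :
    ∃ ε : Fin 3 → ZMod 2, ε ≠ 0 ∧
      ∃ ψ : V → ZMod 2, ∀ u w, Fc {u, w} → ∑ i, ε i * φ i u w = ψ w - ψ u := by
  obtain ⟨θ, h1, h2⟩ := glo_theta h (A := Fin 3 → ZMod 2) (fun u w i => φ i u w)
    (fun u w y hf => funext fun i => hφ i u w y hf) gloQ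
  obtain ⟨m₁, hm₁⟩ := glo_mono h h1 h2 (1, 0) gloQ_e1
  obtain ⟨m₂, hm₂⟩ := glo_mono h h1 h2 (0, 1) gloQ_e2
  obtain ⟨ε, hε, e₁, e₂⟩ := glo_eps m₁ m₂
  obtain ⟨L, hLc, hL⟩ := glo_lifts h
  let η : ℝ × ℝ → V → ZMod 2 := fun y v => ∑ i, ε i * θ y v i
  have hsub : ∀ y v y' v', η y v - η y' v' = ∑ i, ε i * (θ y v - θ y' v') i := by
    intro y v y' v'
    simp only [η, Pi.sub_apply, mul_sub, Finset.sum_sub_distrib]
  let G : AddSubgroup (ℝ × ℝ) :=
    { carrier := {e | ∀ y, gloQ (y + e) = gloQ y ∧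
        ∀ v, 0 < lam (gloQ y) v → η (y + e) v = η y v}
      zero_mem' := fun y => by simp
      add_mem' := fun {a b} ha hb y => by
        refine ⟨by rw [← add_assoc, (hb _).1, (ha _).1], fun v hv => ?_⟩
        rw [← add_assoc, (hb _).2 v (by rwa [(ha _).1]), (ha _).2 v hv]
      neg_mem' := fun {a} ha y => by
        have e := (ha (y + -a)).1
        have e' := (ha (y + -a)).2
        rw [neg_add_cancel_right] at e e'
        exact ⟨e.symm, fun v hv => (e' v (by rwa [← e])).symm⟩ }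
  have g₁ : ((1, 0) : ℝ × ℝ) ∈ G := fun y => ⟨gloQ_e1 y, fun v hv => by
    rw [← sub_eq_zero, hsub, hm₁ y v hv, e₁]⟩
  have g₂ : ((0, 1) : ℝ × ℝ) ∈ G := fun y => ⟨gloQ_e2 y, fun v hv => by
    rw [← sub_eq_zero, hsub, hm₂ y v hv, e₂]⟩
  have hper : ∀ y y' v, gloQ y = gloQ y' → 0 < lam (gloQ y') v → η y v = η y' v := by
    intro y y' v e hv
    obtain ⟨a, ha⟩ := glo_int (congrArg Prod.fst e)
    obtain ⟨b, hb⟩ := glo_int (congrArg Prod.snd e)
    have hg := G.add_mem (G.zsmul_mem g₁ a) (G.zsmul_mem g₂ b)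
    have : y = y' + (a • ((1, 0) : ℝ × ℝ) + b • ((0, 1) : ℝ × ℝ)) := by
      ext
      · simp; linarith only [ha]
      · simp; linarith only [hb]
    rw [this]
    exact (hg y').2 v hv
  have hconst : ∀ v, ∀ x ∈ gloU lam v v, ∀ x' ∈ gloU lam v v, η (L v x) v = η (L v x') v := by
    intro v x hx x' hx'
    have : PreconnectedSpace (gloU lam v v) := Subtype.preconnectedSpace (glo_preconn h v v)
    have hl : IsLocallyConstant fun a : gloU lam v v => η (L v a) v := by
      rw [IsLocallyConstant.iff_eventually_eq]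
      intro a
      have t : Tendsto (fun z : gloU lam v v => L v z) (𝓝 a) (𝓝 (L v a)) :=
        (continuousOn_iff_continuous_domRestrict.1 (hLc v)).continuousAt
      filter_upwards [t.eventually (h1 (L v a) v (by rw [hL v _ a.2]; exact a.2.1))] with z hz
      simp only [η, hz]
    exact hl.apply_eq_of_preconnectedSpace ⟨x, hx⟩ ⟨x', hx'⟩
  choose p hp using fun v => glo_centre h (h.single v)
  have hpU : ∀ v, p v ∈ gloU lam v v := fun v => ⟨(hp v v).2 (by simp), (hp v v).2 (by simp)⟩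
  refine ⟨ε, hε, fun v => η (L v (p v)) v, fun u w huw => ?_⟩
  obtain ⟨b, hb⟩ := glo_centre h huw
  have hu : 0 < lam b u := (hb u).2 (by simp)
  have hw : 0 < lam b w := (hb w).2 (by simp)
  have eu := hL u b ⟨hu, hu⟩
  have ew := hL w b ⟨hw, hw⟩
  show _ = η (L w (p w)) w - η (L u (p u)) u
  rw [hconst w _ (hpU w) b ⟨hw, hw⟩, hconst u _ (hpU u) b ⟨hu, hu⟩,
    hper (L w b) (L u b) w (by rw [eu, ew]) (by rwa [eu]), hsub,
    h2 (L u b) u w (by rwa [eu]) (by rwa [eu])]

theorem glo_lo (h : Bary Tor Fc lam) :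
    ∃ c : Fin 2 → V → V → ℝ, (∀ i, Coc Fc (c i)) ∧ ∀ (l : Fin 2 → ℝ) (ψ : V → ℝ),
      (∀ u w, Fc {u, w} → ∑ i, l i * c i u w = ψ w - ψ u) → l = 0 := by
  obtain ⟨L, hLc, hL⟩ := glo_lifts h
  have hc : ∀ u w, ∃ c : ℝ × ℝ, ∀ x ∈ gloU lam u w, L u x - L w x = c := by
    intro u w
    rcases (gloU lam u w).eq_empty_or_nonempty with e | ⟨b, hb⟩
    · exact ⟨0, by simp [e]⟩
    have hcont : ContinuousOn (fun x => L u x - L w x) (gloU lam u w) :=
      ((hLc u).mono fun x hx => ⟨hx.1, hx.1⟩).sub ((hLc w).mono fun x hx => ⟨hx.2, hx.2⟩)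
    have e : ∀ x ∈ gloU lam u w, gloQ (L u x) = gloQ (L w x) := fun x hx => by
      rw [hL u x ⟨hx.1, hx.1⟩, hL w x ⟨hx.2, hx.2⟩]
    refine ⟨L u b - L w b, fun x hx => Prod.ext ?_ ?_⟩
    · exact glo_int_const (glo_preconn h u w) (continuous_fst.comp_continuousOn hcont)
        (fun z hz => glo_int (congrArg Prod.fst (e z hz))) hx hb
    · exact glo_int_const (glo_preconn h u w) (continuous_snd.comp_continuousOn hcont)
        (fun z hz => glo_int (congrArg Prod.snd (e z hz))) hx hb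
  choose c hc using hc
  have hcoc : ∀ u w y, Fc {u, w, y} → c u w + c w y = c u y := by
    intro u w y hf
    obtain ⟨b, hb⟩ := glo_centre h hf
    have hu : 0 < lam b u := (hb u).2 (by simp)
    have hw : 0 < lam b w := (hb w).2 (by simp)
    have hy : 0 < lam b y := (hb y).2 (by simp)
    rw [← hc u w b ⟨hu, hw⟩, ← hc w y b ⟨hw, hy⟩, ← hc u y b ⟨hu, hy⟩]
    abel
  refine ⟨![fun u w => (c u w).1, fun u w => (c u w).2], fun i u w y hf => ?_, fun l ψ hl => ?_⟩
  · fin_cases i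
    · exact congrArg Prod.fst (hcoc u w y hf)
    · exact congrArg Prod.snd (hcoc u w y hf)
  choose idx hidx using glo_idx h
  let G : ℝ × ℝ → V → ℝ := fun y v =>
    l 0 * (y.1 - (L v (gloQ y)).1) + l 1 * (y.2 - (L v (gloQ y)).2) - ψ v
  have key : ∀ y u w, 0 < lam (gloQ y) u → 0 < lam (gloQ y) w → G y u = G y w := by
    intro y u w hu hw
    have a := hl u w (glo_face2 h hu hw)
    simp only [Fin.sum_univ_two, Matrix.cons_val_zero, Matrix.cons_val_one] at a
    rw [← hc u w _ ⟨hu, hw⟩] at a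
    simp only [Prod.fst_sub, Prod.snd_sub] at a
    simp only [G]
    linarith
  have hloc : IsLocallyConstant fun y => G y (idx (gloQ y)) := by
    rw [IsLocallyConstant.iff_eventually_eq]
    intro y₀
    set v := idx (gloQ y₀) with hv
    have hv0 : 0 < lam (gloQ y₀) v := hidx _
    have hca : ContinuousAt (fun y => L v (gloQ y)) y₀ :=
      ContinuousAt.comp (f := gloQ) (g := L v)
        ((hLc v).continuousAt ((glo_open h v v).mem_nhds ⟨hv0, hv0⟩)) gloQ.continuous.continuousAt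
    have e : ∀ y, 0 < lam (gloQ y) v → gloQ y = gloQ (L v (gloQ y)) := fun y hy =>
      (hL v _ ⟨hy, hy⟩).symm
    have a₁ := glo_int_ev (f := fun y : ℝ × ℝ => y.1 - (L v (gloQ y)).1) (x₀ := y₀) (l := 𝓝 y₀)
      (continuousAt_fst.sub (continuousAt_fst.comp hca))
      (glo_int (congrArg Prod.fst (e _ hv0)))
      ((glo_ev h hv0).mono fun y hy => glo_int (congrArg Prod.fst (e _ hy)))
    have a₂ := glo_int_ev (f := fun y : ℝ × ℝ => y.2 - (L v (gloQ y)).2) (x₀ := y₀) (l := 𝓝 y₀)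
      (continuousAt_snd.sub (continuousAt_snd.comp hca))
      (glo_int (congrArg Prod.snd (e _ hv0)))
      ((glo_ev h hv0).mono fun y hy => glo_int (congrArg Prod.snd (e _ hy)))
    filter_upwards [glo_ev h hv0, a₁, a₂] with y hy b₁ b₂
    rw [key y _ _ (hidx _) hy]
    simp only [G, b₁, b₂]
  have s₁ := hloc.apply_eq_of_preconnectedSpace ((0 : ℝ × ℝ) + (1, 0)) 0
  have s₂ := hloc.apply_eq_of_preconnectedSpace ((0 : ℝ × ℝ) + (0, 1)) 0
  simp only [G, gloQ_e1, gloQ_e2, Prod.fst_add, Prod.snd_add, Prod.fst_zero, Prod.snd_zero] at s₁ s₂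
  funext i
  fin_cases i
  · show l 0 = 0
    linarith
  · show l 1 = 0
    linarith

end Torus

/-- Block Glo. -/
theorem glob_of_bary {V : Type} [Fintype V] [DecidableEq V] {Fc : Finset V → Prop}
    {lam : Tor → V → ℝ} (h : Bary Tor Fc lam) : Glob Fc :=
  ⟨glo_up h, glo_lo h⟩

end Pool.Agent.MP_6209da_co

namespace Pool.Agent.MP_6209da_co

open Finset

section Ori

variable {V : Type} [Fintype V] [DecidableEq V] {Fc : Finset V → Prop} {r : V → ℕ}
  {k : Type} [Field k]

/-- Ordered triangles. -/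
def oriT (Fc : Finset V → Prop) (u w y : V) : Prop := u ≠ w ∧ y ≠ u ∧ y ≠ w ∧ Fc {u, w, y}

omit [Fintype V] in
theorem oriT.swap {u w y : V} (h : oriT Fc u w y) : oriT Fc w u y :=
  ⟨h.1.symm, h.2.2.1, h.2.1, by rw [insert_comm]; exact h.2.2.2⟩

omit [Fintype V] in
theorem oriT.rot {u w y : V} (h : oriT Fc u w y) : oriT Fc w y u :=
  ⟨h.2.2.1.symm, h.1, h.2.1.symm, by
    have : ({w, y, u} : Finset V) = {u, w, y} := by ext; simp; tauto
    rw [this]; exact h.2.2.2⟩

def oriD (k : Type) [Field k] (a b : V) : k := if a = b then 1 else 0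

def oriS (k : Type) [Field k] (t : V × V × V) (u w y : V) : k :=
  oriD k u t.1 * oriD k w t.2.1 * oriD k y t.2.2 + oriD k u t.2.1 * oriD k w t.2.2 * oriD k y t.1
    + oriD k u t.2.2 * oriD k w t.1 * oriD k y t.2.1
    - oriD k u t.2.1 * oriD k w t.1 * oriD k y t.2.2
    - oriD k u t.1 * oriD k w t.2.2 * oriD k y t.2.1
    - oriD k u t.2.2 * oriD k w t.2.1 * oriD k y t.1

open Classical in
noncomputable def oriE (r : V → ℕ) (Fc : Finset V → Prop) : Finset (V × V) :=
  univ.filter fun p => r p.1 < r p.2 ∧ Fc {p.1, p.2}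

open Classical in
noncomputable def oriF (r : V → ℕ) (Fc : Finset V → Prop) : Finset (V × V × V) :=
  univ.filter fun p => r p.1 < r p.2.1 ∧ r p.2.1 < r p.2.2 ∧ Fc {p.1, p.2.1, p.2.2}

theorem ori_memE {p : V × V} : p ∈ oriE r Fc ↔ r p.1 < r p.2 ∧ Fc {p.1, p.2} := by
  simp only [oriE, mem_filter, mem_univ, true_and]

theorem ori_memF {p : V × V × V} :
    p ∈ oriF r Fc ↔ r p.1 < r p.2.1 ∧ r p.2.1 < r p.2.2 ∧ Fc {p.1, p.2.1, p.2.2} := by
  simp only [oriF, mem_filter, mem_univ, true_and]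

theorem ori_tri (t : oriF r Fc) : oriT Fc t.1.1 t.1.2.1 t.1.2.2 := by
  obtain ⟨h1, h2, h3⟩ := ori_memF.1 t.2
  refine ⟨fun e => ?_, fun e => ?_, fun e => ?_, h3⟩
  · rw [e] at h1; omega
  · rw [e] at h2; omega
  · rw [e] at h2; omega

noncomputable def oriB (k : Type) [Field k] (r : V → ℕ) (Fc : Finset V → Prop) :
    Matrix (oriE r Fc) (oriF r Fc) k := fun e t =>
  oriD k e.1.1 t.1.1 * oriD k e.1.2 t.1.2.1 + oriD k e.1.1 t.1.2.1 * oriD k e.1.2 t.1.2.2
    - oriD k e.1.1 t.1.1 * oriD k e.1.2 t.1.2.2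

noncomputable def oriM (μ : oriF r Fc → k) (u w y : V) : k :=
  ∑ t : oriF r Fc, oriS k t.1 u w y * μ t

theorem oriM_swap (μ : oriF r Fc → k) (u w y : V) : oriM μ w u y = - oriM μ u w y := by
  simp only [oriM, ← sum_neg_distrib]
  exact sum_congr rfl fun t _ => by unfold oriS; ring

theorem oriM_rot (μ : oriF r Fc → k) (u w y : V) : oriM μ w y u = oriM μ u w y := by
  simp only [oriM]
  exact sum_congr rfl fun t _ => by unfold oriS; ring

omit [Fintype V] in
theorem oriD3 {u w y a b c : V} (h : u = a → w = b → y = c → False) :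
    oriD k u a * oriD k w b * oriD k y c = 0 := by
  unfold oriD; split_ifs with h1 h2 h3 <;> first | exact (h h1 h2 h3).elim | simp

omit [Fintype V] in
theorem oriD2 {u w a b : V} (h : u = a → w = b → False) : oriD k u a * oriD k w b = 0 := by
  unfold oriD; split_ifs with h1 h2 <;> first | exact (h h1 h2).elim | simp

theorem oriS_zero (t : oriF r Fc) {u w y : V} (h : ¬ oriT Fc u w y) : oriS k t.1 u w y = 0 := by
  have h0 := ori_tri t
  have key : ∀ a b c, oriT Fc a b c → oriD k u a * oriD k w b * oriD k y c = 0 :=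
    fun a b c habc => oriD3 fun e1 e2 e3 => h (by rw [e1, e2, e3]; exact habc)
  unfold oriS
  rw [key _ _ _ h0, key _ _ _ h0.rot, key _ _ _ h0.rot.rot, key _ _ _ h0.swap,
    key _ _ _ h0.swap.rot, key _ _ _ h0.swap.rot.rot]
  ring

theorem oriM_zero (μ : oriF r Fc → k) {u w y : V} (h : ¬ oriT Fc u w y) : oriM μ u w y = 0 :=
  sum_eq_zero fun t _ => by rw [oriS_zero t h, zero_mul]

theorem oriM_sorted (μ : oriF r Fc → k) (s : oriF r Fc) :
    oriM μ s.1.1 s.1.2.1 s.1.2.2 = μ s := by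
  have key : ∀ t : oriF r Fc, oriS k t.1 s.1.1 s.1.2.1 s.1.2.2 = if t = s then 1 else 0 := by
    intro t
    obtain ⟨h1, h2, -⟩ := ori_memF.1 t.2
    obtain ⟨h3, h4, -⟩ := ori_memF.1 s.2
    unfold oriS
    rw [oriD3 (a := t.1.2.1) (b := t.1.2.2) fun e1 e2 e3 => by rw [e1, e2] at h3; rw [e2, e3] at h4; omega,
      oriD3 (a := t.1.2.2) (b := t.1.1) fun e1 e2 e3 => by rw [e1, e2] at h3; rw [e2, e3] at h4; omega,
      oriD3 (a := t.1.2.1) (b := t.1.1) fun e1 e2 e3 => by rw [e1, e2] at h3; rw [e2, e3] at h4; omega,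
      oriD3 (a := t.1.1) (b := t.1.2.2) fun e1 e2 e3 => by rw [e1, e2] at h3; rw [e2, e3] at h4; omega,
      oriD3 (a := t.1.2.2) (b := t.1.2.1) fun e1 e2 e3 => by rw [e1, e2] at h3; rw [e2, e3] at h4; omega]
    split_ifs with h
    · subst h; simp [oriD]
    · rw [oriD3 fun e1 e2 e3 => h (Subtype.ext (Prod.ext e1.symm (Prod.ext e2.symm e3.symm)))]
      ring
  simp only [oriM, univ_eq_attach, key, ite_mul, one_mul, zero_mul, sum_ite_eq', mem_attach, ↓ reduceIte]

theorem oriM_tri (hr : Function.Injective r) {u w y : V} (h : oriT Fc u w y) :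
    ∃ s : oriF r Fc, (∀ μ : oriF r Fc → k, oriM μ u w y = μ s) ∨
      ∀ μ : oriF r Fc → k, oriM μ u w y = - μ s := by
  have key : ∀ a b c, oriT Fc a b c → r a < r b → r b < r c →
      ∃ s : oriF r Fc, ∀ μ : oriF r Fc → k, oriM μ a b c = μ s := fun a b c h h1 h2 =>
    ⟨⟨(a, b, c), ori_memF.2 ⟨h1, h2, h.2.2.2⟩⟩, fun μ =>
      oriM_sorted μ ⟨(a, b, c), ori_memF.2 ⟨h1, h2, h.2.2.2⟩⟩⟩
  have n1 : r u ≠ r w := fun e => h.1 (hr e)
  have n2 : r y ≠ r u := fun e => h.2.1 (hr e)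
  have n3 : r y ≠ r w := fun e => h.2.2.1 (hr e)
  rcases lt_or_gt_of_ne n1 with a1 | a1 <;> rcases lt_or_gt_of_ne n2 with a2 | a2 <;>
    rcases lt_or_gt_of_ne n3 with a3 | a3
  · obtain ⟨s, hs⟩ := key _ _ _ h.rot.rot a2 a1
    exact ⟨s, Or.inl fun μ => by rw [← hs μ, oriM_rot μ w y u, oriM_rot μ u w y]⟩
  · omega
  · obtain ⟨s, hs⟩ := key _ _ _ h.swap.rot a2 a3
    exact ⟨s, Or.inr fun μ => by rw [← hs μ, oriM_rot μ w u y, oriM_swap μ u w y, neg_neg]⟩
  · obtain ⟨s, hs⟩ := key _ _ _ h a1 a3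
    exact ⟨s, Or.inl hs⟩
  · obtain ⟨s, hs⟩ := key _ _ _ h.swap.rot.rot a3 a1
    exact ⟨s, Or.inr fun μ => by
      rw [← hs μ, oriM_rot μ u y w, oriM_rot μ w u y, oriM_swap μ u w y, neg_neg]⟩
  · obtain ⟨s, hs⟩ := key _ _ _ h.rot a3 a2
    exact ⟨s, Or.inl fun μ => by rw [← hs μ, oriM_rot μ u w y]⟩
  · omega
  · obtain ⟨s, hs⟩ := key _ _ _ h.swap a1 a2
    exact ⟨s, Or.inr fun μ => by rw [← hs μ, oriM_swap μ u w y, neg_neg]⟩

theorem oriB_mulVec (μ : oriF r Fc → k) (e : oriE r Fc) :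
    (oriB k r Fc).mulVec μ e = ∑ y, oriM μ e.1.1 e.1.2 y := by
  simp only [oriM, Matrix.mulVec, dotProduct]
  rw [sum_comm]
  refine sum_congr rfl fun t _ => ?_
  rw [← sum_mul]
  congr 1
  obtain ⟨h1, h2, -⟩ := ori_memF.1 t.2
  obtain ⟨h3, -⟩ := ori_memE.1 e.2
  have one : ∀ a : V, ∑ y, oriD k y a = 1 := fun a => by simp only [oriD, sum_ite_eq', mem_univ, ↓ reduceIte]
  simp only [oriS, sum_sub_distrib, sum_add_distrib, ← mul_sum, one, mul_one, oriB]
  rw [oriD2 (a := t.1.2.2) (b := t.1.1) fun e1 e2 => by rw [e1, e2] at h3; omega,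
    oriD2 (a := t.1.2.1) (b := t.1.1) fun e1 e2 => by rw [e1, e2] at h3; omega,
    oriD2 (a := t.1.2.2) (b := t.1.2.1) fun e1 e2 => by rw [e1, e2] at h3; omega]
  ring

theorem ori_sum_two {A : Type} [AddCommMonoid A] {u w a b : V} (huw : u ≠ w) (hab : a ≠ b)
    (h : ∀ y, (y ≠ u ∧ y ≠ w ∧ Fc {u, w, y}) ↔ (y = a ∨ y = b)) (f : V → A)
    (hf : ∀ y, ¬ oriT Fc u w y → f y = 0) : ∑ y, f y = f a + f b :=
  sum_eq_add_of_mem a b (mem_univ _) (mem_univ _) hab fun y _ hy =>
    hf y fun ht => by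
      have := huw
      rcases (h y).1 ht.2 with e | e
      · exact hy.1 e
      · exact hy.2 e

theorem oriB_vecMul (hd : ∀ s t, Fc s → t ⊆ s → t.Nonempty → Fc t) (c : V → V → k)
    (t : oriF r Fc) :
    ∑ e : oriE r Fc, c e.1.1 e.1.2 * oriB k r Fc e t =
      c t.1.1 t.1.2.1 + c t.1.2.1 t.1.2.2 - c t.1.1 t.1.2.2 := by
  have key : ∀ a b, (a, b) ∈ oriE r Fc →
      ∑ e : oriE r Fc, c e.1.1 e.1.2 * (oriD k e.1.1 a * oriD k e.1.2 b) = c a b := by
    intro a b hab
    rw [sum_eq_single (⟨(a, b), hab⟩ : oriE r Fc)]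
    · simp [oriD]
    · intro e _ he
      rw [oriD2 fun e1 e2 => he (Subtype.ext (Prod.ext e1 e2)), mul_zero]
    · simp only [univ_eq_attach, mem_attach, not_true_eq_false, mul_eq_zero, IsEmpty.forall_iff]
  obtain ⟨h1, h2, h3⟩ := ori_memF.1 t.2
  simp only [oriB, mul_sub, mul_add, sum_sub_distrib, sum_add_distrib]
  rw [key _ _ (ori_memE.2 ⟨h1, hd _ _ h3 (by intro x; simp; tauto) (by simp)⟩),
    key _ _ (ori_memE.2 ⟨h2, hd _ _ h3 (by intro x; simp; tauto) (by simp)⟩),
    key _ _ (ori_memE.2 ⟨h1.trans h2, hd _ _ h3 (by intro x; simp; tauto) (by simp)⟩)]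

omit [Fintype V] in
theorem ori_coc_self {A : Type} [AddCommGroup A] {c : V → V → A} (h1 : ∀ v, Fc {v})
    (hc : Coc Fc c) (u : V) : c u u = 0 := by
  have := hc u u u (by simpa using h1 u)
  simpa using this

omit [Fintype V] in
theorem ori_coc_swap {A : Type} [AddCommGroup A] {c : V → V → A} (h1 : ∀ v, Fc {v})
    (hc : Coc Fc c) {u w : V} (h : Fc {u, w}) : c w u = - c u w := by
  have := hc u w u (by
    have : ({u, w, u} : Finset V) = {u, w} := by ext; simp; tauto
    rw [this]; exact h)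
  rw [ori_coc_self h1 hc] at this
  exact eq_neg_of_add_eq_zero_right this

open Classical in
/-- Alternating extension of an edge cochain. -/
noncomputable def oriX (φ : oriE r Fc → k) (u w : V) : k :=
  if h : (u, w) ∈ oriE r Fc then φ ⟨_, h⟩ else if h : (w, u) ∈ oriE r Fc then - φ ⟨_, h⟩ else 0

theorem oriX_mem (φ : oriE r Fc → k) (e : oriE r Fc) : oriX φ e.1.1 e.1.2 = φ e := by
  unfold oriX; rw [dif_pos e.2]

theorem oriX_swap (φ : oriE r Fc → k) (u w : V) : oriX φ w u = - oriX φ u w := by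
  unfold oriX
  by_cases h1 : (u, w) ∈ oriE r Fc <;> by_cases h2 : (w, u) ∈ oriE r Fc
  · have := (ori_memE.1 h1).1
    have := (ori_memE.1 h2).1
    simp only at *; omega
  · simp [h1, h2]
  · simp [h1, h2]
  · simp [h1, h2]

theorem oriX_self (φ : oriE r Fc → k) (u : V) : oriX φ u u = 0 := by
  have : (u, u) ∉ oriE r Fc := fun h => lt_irrefl _ (ori_memE.1 h).1
  simp [oriX, this]

theorem oriX_coc (hr : Function.Injective r) (hd : ∀ s t, Fc s → t ⊆ s → t.Nonempty → Fc t)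
    (φ : oriE r Fc → k) (h : (oriB k r Fc).vecMul φ = 0) : Coc Fc (oriX φ) := by
  have key : ∀ a b c, oriT Fc a b c → r a < r b → r b < r c →
      oriX φ a b + oriX φ b c = oriX φ a c := by
    intro a b c ht h1 h2
    have h3 := oriB_vecMul hd (oriX φ) ⟨(a, b, c), ori_memF.2 ⟨h1, h2, ht.2.2.2⟩⟩
    have h4 := congrFun h ⟨(a, b, c), ori_memF.2 ⟨h1, h2, ht.2.2.2⟩⟩
    simp only [oriX_mem] at h3
    simp only [Matrix.vecMul, dotProduct, Pi.zero_apply] at h4
    rw [h4] at h3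
    exact (sub_eq_zero.1 h3.symm)
  intro u w y hf
  by_cases e1 : u = w
  · subst e1; simp [oriX_self]
  by_cases e2 : y = u
  · subst e2; rw [oriX_self, oriX_swap φ y w]; ring
  by_cases e3 : y = w
  · subst e3; simp [oriX_self]
  have h : oriT Fc u w y := ⟨e1, e2, e3, hf⟩
  have n1 : r u ≠ r w := fun e => e1 (hr e)
  have n2 : r y ≠ r u := fun e => e2 (hr e)
  have n3 : r y ≠ r w := fun e => e3 (hr e)
  have s1 := oriX_swap φ u w
  have s2 := oriX_swap φ w y
  have s3 := oriX_swap φ u y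
  rcases lt_or_gt_of_ne n1 with a1 | a1 <;> rcases lt_or_gt_of_ne n2 with a2 | a2 <;>
    rcases lt_or_gt_of_ne n3 with a3 | a3
  · linear_combination key _ _ _ h.rot.rot a2 a1 - s3 + s2
  · omega
  · linear_combination - key _ _ _ h.swap.rot a2 a3 + s2
  · exact key _ _ _ h a1 a3
  · linear_combination - key _ _ _ h.swap.rot.rot a3 a1 + s1 + s2 - s3
  · linear_combination key _ _ _ h.rot a3 a2 - s3 + s1
  · omega
  · linear_combination - key _ _ _ h.swap a1 a2 + s1

theorem ori_le_one {ι : Type} [Fintype ι] (K : Submodule k (ι → k)) (i : ι)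
    (h : ∀ x ∈ K, x i = 0 → x = 0) : Module.finrank k K ≤ 1 := by
  have := LinearMap.finrank_le_finrank_of_injective
    (f := (LinearMap.proj i : (ι → k) →ₗ[k] k).comp K.subtype)
    ((injective_iff_map_eq_zero _).2 fun x hx => Subtype.ext (h x.1 x.2 hx))
  simpa only [ge_iff_le, Module.finrank_self] using this

theorem ori_one_le {ι : Type} [Fintype ι] (K : Submodule k (ι → k)) (x : ι → k) (hx : x ∈ K)
    (h : x ≠ 0) : 1 ≤ Module.finrank k K := by
  have : Nontrivial K := ⟨⟨⟨x, hx⟩, 0, fun e => h (congrArg Subtype.val e)⟩⟩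
  exact Module.finrank_pos

theorem ori_rank {m n : Type} [Fintype m] [Fintype n] (A : Matrix m n k) :
    A.rank + Module.finrank k (LinearMap.ker A.mulVecLin) = Fintype.card n := by
  have := LinearMap.finrank_range_add_finrank_ker A.mulVecLin
  rwa [Module.finrank_fintype_fun_eq_card] at this

theorem ori_exF [Nonempty V] (hr : Function.Injective r) (hl : Loc Fc) : Nonempty (oriF r Fc) := by
  obtain ⟨v⟩ := ‹Nonempty V›
  obtain ⟨w, hw, hf⟩ := hl.nb v
  obtain ⟨a, b, -, h⟩ := hl.two v w hw.symm hf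
  obtain ⟨s, -⟩ := oriM_tri (k := ℚ) hr (⟨hw.symm, (h a).2 (Or.inl rfl)⟩ : oriT Fc v w a)
  exact ⟨s⟩

theorem ori_edge (hl : Loc Fc) (μ : oriF r Fc → k) (e : oriE r Fc) :
    ∃ a b, oriT Fc e.1.1 e.1.2 a ∧ oriT Fc e.1.1 e.1.2 b ∧
      (oriB k r Fc).mulVec μ e = oriM μ e.1.1 e.1.2 a + oriM μ e.1.1 e.1.2 b := by
  obtain ⟨h1, h2⟩ := ori_memE.1 e.2
  have hne : e.1.1 ≠ e.1.2 := fun x => by rw [x] at h1; omega
  obtain ⟨a, b, hab, h⟩ := hl.two _ _ hne h2
  exact ⟨a, b, ⟨hne, (h a).2 (Or.inl rfl)⟩, ⟨hne, (h b).2 (Or.inr rfl)⟩, by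
    rw [oriB_mulVec, ori_sum_two hne hab h _ fun y hy => oriM_zero μ hy]⟩

/-- The count modulo two. -/
theorem ori_mod2 [Nonempty V] (hr : Function.Injective r)
    (hd : ∀ s t, Fc s → t ⊆ s → t.Nonempty → Fc t) (hl : Loc Fc) (hg : Glob Fc) :
    (oriE r Fc).card ≤ Fintype.card V + (oriF r Fc).card := by
  have : Fact (Nat.Prime 2) := ⟨Nat.prime_two⟩
  set B := oriB (ZMod 2) r Fc with hB
  have h1 : 1 ≤ Module.finrank (ZMod 2) (LinearMap.ker B.mulVecLin) := by
    obtain ⟨t⟩ := ori_exF hr hl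
    refine ori_one_le _ (fun _ => 1) ?_ fun e => one_ne_zero (congrFun e t)
    rw [LinearMap.mem_ker]
    funext e
    obtain ⟨a, b, ha, hb, h⟩ := ori_edge hl (fun _ => (1 : ZMod 2)) e
    obtain ⟨s, hs⟩ := oriM_tri (k := ZMod 2) hr ha
    obtain ⟨s', hs'⟩ := oriM_tri (k := ZMod 2) hr hb
    rw [Matrix.mulVecLin_apply, hB, h, Pi.zero_apply]
    have two : (1 : ZMod 2) + 1 = 0 := rfl
    rcases hs with hs | hs <;> rcases hs' with hs' | hs' <;> rw [hs, hs']
    · exact two
    · exact add_neg_cancel _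
    · exact neg_add_cancel _
    · linear_combination - two
  have h2 := ori_rank B
  have h3 := ori_rank B.transpose
  rw [Matrix.rank_transpose] at h3
  let d0 : Matrix (oriE r Fc) V (ZMod 2) := fun e v => oriD _ e.1.2 v - oriD _ e.1.1 v
  have hd0 : ∀ ψ e, d0.mulVec ψ e = ψ e.1.2 - ψ e.1.1 := by
    intro ψ e
    simp only [Matrix.mulVec, dotProduct, d0, oriD, sub_mul, ite_mul, one_mul, zero_mul, sum_sub_distrib, sum_ite_eq, mem_univ, ↓ reduceIte]
  have h4 := ori_rank d0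
  have h5 : 1 ≤ Module.finrank (ZMod 2) (LinearMap.ker d0.mulVecLin) := by
    obtain ⟨v⟩ := ‹Nonempty V›
    refine ori_one_le _ (fun _ => 1) ?_ fun e => one_ne_zero (congrFun e v)
    rw [LinearMap.mem_ker]
    funext e
    rw [Matrix.mulVecLin_apply, hd0]; simp
  obtain ⟨C, hC⟩ := (LinearMap.range d0.mulVecLin).exists_isCompl
  have h6 := Submodule.finrank_add_eq_of_isCompl hC
  have h7 := Submodule.finrank_sup_add_finrank_inf_eq (LinearMap.ker B.transpose.mulVecLin) C
  have h8 := Submodule.finrank_le (LinearMap.ker B.transpose.mulVecLin ⊔ C)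
  have h9 : Module.finrank (ZMod 2) ↥(LinearMap.ker B.transpose.mulVecLin ⊓ C) ≤ 2 := by
    by_contra hc
    obtain ⟨f, hf⟩ := exists_linearIndependent_of_le_finrank (R := ZMod 2)
      (M := ↥(LinearMap.ker B.transpose.mulVecLin ⊓ C)) (n := 3) (by omega)
    obtain ⟨ε, hε, ψ, hψ⟩ := hg.up (fun i => oriX (f i).1) fun i => oriX_coc hr hd _ (by
      have := (f i).2.1
      rwa [SetLike.mem_coe, LinearMap.mem_ker, Matrix.mulVecLin_apply,
        Matrix.mulVec_transpose] at this)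
    have hz : (∑ i, ε i • f i : ↥(LinearMap.ker B.transpose.mulVecLin ⊓ C)).1 = 0 := by
      refine (Submodule.disjoint_def.1 hC.disjoint) _ ⟨ψ, ?_⟩ (∑ i, ε i • f i).2.2
      funext e
      have := hψ e.1.1 e.1.2 (ori_memE.1 e.2).2
      simp only [oriX_mem] at this
      rw [Matrix.mulVecLin_apply, hd0, ← this]
      simp only [AddSubmonoidClass.coe_finsetSum, SetLike.val_smul, Finset.sum_apply, Pi.smul_apply, smul_eq_mul]
    exact hε (funext (Fintype.linearIndependent_iff.1 hf ε (Subtype.ext hz)))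
  rw [Module.finrank_fintype_fun_eq_card] at h6 h8
  unfold Matrix.rank at h4
  simp only [Fintype.card_coe] at *
  omega

/-- The count over the reals. -/
theorem ori_real [Nonempty V] (hr : Function.Injective r)
    (hd : ∀ s t, Fc s → t ⊆ s → t.Nonempty → Fc t) (h1 : ∀ v, Fc {v}) (hl : Loc Fc)
    (hg : Glob Fc) : (oriB ℝ r Fc).rank + Fintype.card V + 1 ≤ (oriE r Fc).card := by
  obtain ⟨c, hc, hlo⟩ := hg.lo
  let g : V ⊕ Fin 2 → V → V → ℝ := Sum.elim (fun v u w => oriD ℝ w v - oriD ℝ u v) c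
  have hg : ∀ i, Coc Fc (g i) := by
    rintro (v | i)
    · intro u w y _; simp [g]
    · exact hc i
  let A : Matrix (V ⊕ Fin 2) (oriE r Fc) ℝ := fun i e => g i e.1.1 e.1.2
  have hAB : A * oriB ℝ r Fc = 0 := by
    ext i t
    rw [Matrix.mul_apply, oriB_vecMul hd (g i) t, hg i _ _ _ (ori_memF.1 t.2).2.2]
    simp
  have h2 := Matrix.rank_add_rank_le_card_of_mul_eq_zero hAB
  have h3 := ori_rank A.transpose
  obtain ⟨v⟩ := ‹Nonempty V›
  have h4 : Module.finrank ℝ (LinearMap.ker A.transpose.mulVecLin) ≤ 1 := by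
    refine ori_le_one _ (Sum.inl v) fun x hx hv => ?_
    rw [LinearMap.mem_ker, Matrix.mulVecLin_apply, Matrix.mulVec_transpose] at hx
    have k1 : ∀ u w, r u < r w → Fc {u, w} → ∑ i, x i * g i u w = 0 := fun u w a b =>
      congrFun hx ⟨(u, w), ori_memE.2 ⟨a, b⟩⟩
    have k2 : ∀ u w, Fc {u, w} → ∑ i, x i * g i u w = 0 := by
      intro u w hf
      rcases lt_trichotomy (r u) (r w) with a | a | a
      · exact k1 u w a hf
      · rw [hr a]; simp [ori_coc_self h1 (hg _)]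
      · have hf' : Fc {w, u} := by rw [pair_comm]; exact hf
        simp only [ori_coc_swap h1 (hg _) hf', mul_neg, sum_neg_distrib, k1 w u a hf', neg_zero]
    have k3 : ∀ u w, Fc {u, w} → ∑ i, x (Sum.inr i) * c i u w =
        - x (Sum.inl w) - - x (Sum.inl u) := by
      intro u w hf
      have := k2 u w hf
      rw [Fintype.sum_sum_type] at this
      simp only [g, Sum.elim_inl, Sum.elim_inr, mul_sub, sum_sub_distrib, oriD, mul_ite, mul_one,
        mul_zero, sum_ite_eq, mem_univ, if_true] at this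
      linarith only [this]
    have k4 := hlo (fun i => x (Sum.inr i)) (fun u => - x (Sum.inl u)) k3
    have k5 : ∀ i, x (Sum.inr i) = 0 := fun i => congrFun k4 i
    funext i
    rcases i with u | i
    · refine hl.conn (fun u => x (Sum.inl u) = 0) (fun a b hf ha => ?_) v u hv
      have := k3 a b hf
      simp only [k5, zero_mul, sum_const_zero] at this
      linarith only [ha, this]
    · exact k5 i
  rw [Matrix.rank_transpose] at h3
  simp only [Fintype.card_coe, Fintype.card_sum, Fintype.card_fin] at *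
  omega

theorem ori_pair (hr : Function.Injective r) {μ : oriF r Fc → k}
    (hμ : (oriB k r Fc).mulVec μ = 0) {u w a b : V} (huw : u ≠ w) (hf : Fc {u, w}) (hab : a ≠ b)
    (h : ∀ y, (y ≠ u ∧ y ≠ w ∧ Fc {u, w, y}) ↔ (y = a ∨ y = b)) :
    oriM μ u w a + oriM μ u w b = 0 := by
  rw [← ori_sum_two huw hab h _ fun y hy => oriM_zero μ hy]
  rcases lt_or_gt_of_ne (fun e => huw (hr e) : r u ≠ r w) with c | c
  · exact (oriB_mulVec μ ⟨(u, w), ori_memE.2 ⟨c, hf⟩⟩).symm.trans (congrFun hμ _)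
  · have := (oriB_mulVec μ ⟨(w, u), ori_memE.2 ⟨c, by rw [pair_comm]; exact hf⟩⟩).symm.trans
      (congrFun hμ _)
    simp only [oriM_swap μ u w, sum_neg_distrib, Pi.zero_apply, neg_eq_zero] at this
    exact this

omit [Fintype V] in
theorem oriT.edge (hd : ∀ s t, Fc s → t ⊆ s → t.Nonempty → Fc t) {u w y : V}
    (h : oriT Fc u w y) : Fc {u, w} :=
  hd _ _ h.2.2.2 (by intro x; simp; tauto) (by simp)

theorem ori_other (hr : Function.Injective r) (hd : ∀ s t, Fc s → t ⊆ s → t.Nonempty → Fc t)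
    (hl : Loc Fc) {μ : oriF r Fc → k} (hμ : (oriB k r Fc).mulVec μ = 0) {u w y z : V}
    (hy : oriT Fc u w y) (hz : oriT Fc u w z) (hyz : y ≠ z) :
    oriM μ u w y + oriM μ u w z = 0 := by
  obtain ⟨a, b, hab, h⟩ := hl.two u w hy.1 (hy.edge hd)
  have := ori_pair hr hμ hy.1 (hy.edge hd) hab h
  rcases (h y).1 hy.2 with e | e <;> rcases (h z).1 hz.2 with e' | e'
  · exact absurd (e.trans e'.symm) hyz
  · rw [e, e']; exact this
  · rw [e, e', add_comm]; exact this
  · exact absurd (e.trans e'.symm) hyz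

theorem ori_van (hr : Function.Injective r) (hd : ∀ s t, Fc s → t ⊆ s → t.Nonempty → Fc t)
    (hl : Loc Fc) {μ : oriF r Fc → k} (hμ : (oriB k r Fc).mulVec μ = 0) {u w y : V}
    (hy : oriT Fc u w y) (h0 : oriM μ u w y = 0) : μ = 0 := by
  have A : ∀ v x y, oriT Fc v x y → oriM μ v x y = 0 → ∀ z, oriT Fc v x z → oriM μ v x z = 0 := by
    intro v x y hy h0 z hz
    by_cases e : y = z
    · rw [← e]; exact h0
    · have := ori_other hr hd hl hμ hy hz e
      rwa [h0, zero_add] at this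
  have B : ∀ v a, a ≠ v → Fc {v, a} → (∀ z, oriT Fc v a z → oriM μ v a z = 0) →
      ∀ b, b ≠ v → Fc {v, b} → ∀ z, oriT Fc v b z → oriM μ v b z = 0 := by
    intro v a ha hfa h b hb hfb
    refine hl.link v (fun x => ∀ z, oriT Fc v x z → oriM μ v x z = 0) ?_ a b ha hb hfa hfb h
    intro x y hx hy hf hP
    by_cases e : y = x
    · rw [e]; exact hP
    have ht : oriT Fc v x y := ⟨hx.symm, hy, e, hf⟩
    refine A v y x ht.swap.rot ?_
    rw [oriM_rot μ x v y, oriM_swap μ v x y, hP y ht, neg_zero]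
  funext s
  have ht := ori_tri s
  rw [← oriM_sorted μ s]
  refine hl.conn (fun v => ∀ b, b ≠ v → Fc {v, b} → ∀ z, oriT Fc v b z → oriM μ v b z = 0) ?_
    u _ (B u w hy.1.symm (hy.edge hd) (A u w y hy h0)) _ ht.1.symm (ht.edge hd) _ ht
  intro a b hf hP
  by_cases e : a = b
  · rw [← e]; exact hP
  refine B b a e (by rw [pair_comm]; exact hf) fun z hz => ?_
  rw [oriM_swap μ a b z, hP b (Ne.symm e) hf z hz.swap, neg_zero]

theorem ori_euler [Nonempty V] (hr : Function.Injective r)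
    (hd : ∀ s t, Fc s → t ⊆ s → t.Nonempty → Fc t) (h1 : ∀ v, Fc {v}) (hl : Loc Fc)
    (hg : Glob Fc) : (oriE r Fc).card = Fintype.card V + (oriF r Fc).card ∧
      ∃ μ : oriF r Fc → ℝ, (oriB ℝ r Fc).mulVec μ = 0 ∧ μ ≠ 0 := by
  have a1 := ori_mod2 hr hd hl hg
  have a2 := ori_real hr hd h1 hl hg
  have a3 := ori_rank (oriB ℝ r Fc)
  obtain ⟨s⟩ := ori_exF hr hl
  have a4 := ori_le_one (LinearMap.ker (oriB ℝ r Fc).mulVecLin) s fun x hx h =>
    ori_van hr hd hl hx (ori_tri s) (by rw [oriM_sorted, h])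
  rw [Fintype.card_coe] at a3
  refine ⟨by omega, ?_⟩
  have : Nontrivial (LinearMap.ker (oriB ℝ r Fc).mulVecLin) :=
    (Module.finrank_pos_iff (R := ℝ)).1 (by omega)
  obtain ⟨μ, hμ⟩ := exists_ne (0 : LinearMap.ker (oriB ℝ r Fc).mulVecLin)
  exact ⟨μ.1, μ.2, fun e => hμ (Subtype.ext e)⟩

open Classical in
theorem ori_darts (hr : Function.Injective r) :
    (univ.filter fun p : V × V => p.1 ≠ p.2 ∧ Fc {p.1, p.2}).card = 2 * (oriE r Fc).card := by
  have e1 : (univ.filter fun p : V × V => p.1 ≠ p.2 ∧ Fc {p.1, p.2}) =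
      oriE r Fc ∪ (oriE r Fc).map (Equiv.prodComm V V).toEmbedding := by
    ext ⟨u, w⟩
    simp only [mem_filter, mem_univ, true_and, mem_union, mem_map_equiv, Equiv.prodComm_symm,
      Equiv.prodComm_apply, Prod.swap_prod_mk, ori_memE, pair_comm w u]
    constructor
    · rintro ⟨a, b⟩
      rcases lt_or_gt_of_ne (fun e => a (hr e) : r u ≠ r w) with c | c
      · exact Or.inl ⟨c, b⟩
      · exact Or.inr ⟨c, b⟩
    · rintro (⟨a, b⟩ | ⟨a, b⟩) <;> exact ⟨fun e => by rw [e] at a; omega, b⟩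
  rw [e1, card_union_of_disjoint, card_map, two_mul]
  rw [disjoint_left]
  rintro ⟨u, w⟩ a b
  simp only [mem_map_equiv, Equiv.prodComm_symm, Equiv.prodComm_apply, Prod.swap_prod_mk,
    ori_memE] at a b
  omega

open Classical in
theorem ori_faces (hr : Function.Injective r) (hd : ∀ s t, Fc s → t ⊆ s → t.Nonempty → Fc t)
    (hl : Loc Fc) :
    (univ.filter fun p : V × V => p.1 ≠ p.2 ∧ Fc {p.1, p.2}).card = 3 * (oriF r Fc).card := by
  set N := oriM (fun _ : oriF r Fc => (1 : ℚ)) with hN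
  have sq : ∀ u w y, oriT Fc u w y → N u w y * N u w y = 1 := by
    intro u w y h
    obtain ⟨s, hs | hs⟩ := oriM_tri (k := ℚ) hr h <;> rw [hN, hs] <;> norm_num
  have e1 : ∀ p : V × V, ∑ y, N p.1 p.2 y * N p.1 p.2 y =
      if p.1 ≠ p.2 ∧ Fc {p.1, p.2} then 2 else 0 := by
    rintro ⟨u, w⟩
    split_ifs with h
    · obtain ⟨a, b, hab, h'⟩ := hl.two u w h.1 h.2
      rw [ori_sum_two h.1 hab h' _ fun y hy => by rw [hN, oriM_zero _ hy, zero_mul],
        sq _ _ _ ⟨h.1, (h' a).2 (Or.inl rfl)⟩, sq _ _ _ ⟨h.1, (h' b).2 (Or.inr rfl)⟩]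
      norm_num
    · exact sum_eq_zero fun y _ => by
        rw [hN, oriM_zero _ fun ht => h ⟨ht.1, ht.edge hd⟩, zero_mul]
  have e2 : ∀ a b c, ∑ p : V × V, ∑ y, oriD ℚ p.1 a * oriD ℚ p.2 b * oriD ℚ y c * N p.1 p.2 y =
      N a b c := by
    intro a b c
    simp only [oriD, mul_ite, mul_one, mul_zero, ite_mul, one_mul, zero_mul, sum_ite_eq', mem_univ, ↓ reduceIte, Fintype.sum_prod_type]
  have e3 : ∀ t : oriF r Fc, ∑ p : V × V, ∑ y, oriS ℚ t.1 p.1 p.2 y * N p.1 p.2 y = 6 := by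
    intro t
    simp only [oriS, sub_mul, add_mul, sum_sub_distrib, sum_add_distrib, e2]
    have k0 : N t.1.1 t.1.2.1 t.1.2.2 = 1 := oriM_sorted _ t
    have k1 : ∀ a b c, N b c a = N a b c := oriM_rot _
    have k2 : ∀ a b c, N b a c = - N a b c := oriM_swap _
    rw [k1 t.1.2.1 t.1.2.2 t.1.1, k1 t.1.2.1 t.1.1 t.1.2.2, ← k1 t.1.2.2 t.1.2.1 t.1.1,
      k1 t.1.1 t.1.2.1 t.1.2.2, k2 t.1.1 t.1.2.1 t.1.2.2, k0]
    norm_num
  have e4 : ∑ p : V × V, ∑ y, N p.1 p.2 y * N p.1 p.2 y = ∑ _t : oriF r Fc, (6 : ℚ) := by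
    rw [← sum_congr rfl fun t _ => e3 t, eq_comm, sum_comm]
    refine sum_congr rfl fun p _ => ?_
    rw [sum_comm]
    refine sum_congr rfl fun y _ => ?_
    rw [← sum_mul]
    simp only [univ_eq_attach, hN, oriM, mul_one]
  simp only [e1, sum_ite, sum_const, smul_zero, add_zero, card_univ, Fintype.card_coe,
    nsmul_eq_mul] at e4
  have : (((univ.filter fun p : V × V => p.1 ≠ p.2 ∧ Fc {p.1, p.2}).card : ℕ) : ℚ) =
      3 * (oriF r Fc).card := by linarith
  exact_mod_cast this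

end Ori

theorem surf_of_loc {V : Type} [Fintype V] [DecidableEq V] [Nonempty V] {Fc : Finset V → Prop}
    (hn : ∀ s, Fc s → s.Nonempty) (hd : ∀ s t, Fc s → t ⊆ s → t.Nonempty → Fc t)
    (h1 : ∀ v, Fc {v}) (hl : Loc Fc) (hg : Glob Fc) :
    ∃ T : Surf V, T.vs = univ ∧ ∀ s, Fc s → ∃ u w, T.adj u w ∧ s ⊆ {u, w, T.nx u w} := by
  classical
  let r : V → ℕ := fun v => Fintype.equivFin V v
  have hr : Function.Injective r := fun a b e => (Fintype.equivFin V).injective (Fin.ext e)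
  obtain ⟨hE, μ, hμ, h0⟩ := ori_euler hr hd h1 hl hg
  have nz : ∀ {u w y}, oriT Fc u w y → oriM μ u w y ≠ 0 := fun h e => h0 (ori_van hr hd hl hμ h e)
  have tri : ∀ {u w y}, 0 < oriM μ u w y → oriT Fc u w y := fun h => by
    by_contra hc
    exact h.ne' (oriM_zero μ hc)
  have uniq : ∀ {u w y z}, 0 < oriM μ u w y → 0 < oriM μ u w z → y = z := fun a b => by
    by_contra hc
    have := ori_other hr hd hl hμ (tri a) (tri b) hc
    linarith only [a, b, this]
  let nx : V → V → V := fun u w => Classical.epsilon fun y => 0 < oriM μ u w y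
  have chr : ∀ {u w y}, 0 < oriM μ u w y → nx u w = y := fun {u w y} h =>
    uniq (Classical.epsilon_spec (p := fun y => 0 < oriM μ u w y) ⟨y, h⟩) h
  have spec : ∀ {u w}, u ≠ w ∧ Fc {u, w} → 0 < oriM μ u w (nx u w) := fun {u w} h => by
    obtain ⟨a, b, hab, h'⟩ := hl.two u w h.1 h.2
    have k1 := ori_pair hr hμ h.1 h.2 hab h'
    rcases lt_or_gt_of_ne (nz ⟨h.1, (h' a).2 (Or.inl rfl)⟩) with c | c
    · have : 0 < oriM μ u w b := by linarith only [k1, c]
      rwa [chr this]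
    · rwa [chr c]
  have flip : ∀ {u w y}, oriM μ u w y < 0 → 0 < oriM μ u y w := fun {u w y} h => by
    rw [oriM_rot μ w u y, oriM_swap μ u w y]; linarith only [h]
  have inj : ∀ {v x z}, v ≠ x ∧ Fc {v, x} → v ≠ z ∧ Fc {v, z} → nx v x = nx v z → x = z :=
    fun {v x z} a b e => by
      have k1 := spec a
      have k2 := spec b
      rw [← e] at k2
      rw [← oriM_rot, ← oriM_rot] at k1 k2
      exact uniq k1 k2
  refine ⟨⟨univ, fun u w => u ≠ w ∧ Fc {u, w}, nx, fun h => ⟨h.1.symm, by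
    rw [pair_comm]; exact h.2⟩, fun u h => h.1 rfl, fun _ => mem_univ _, fun h =>
      ⟨(tri (spec h)).rot.1, (tri (spec h)).rot.edge hd⟩, fun h => chr (by
        rw [oriM_rot]; exact spec h), ?_, ?_, ?_, univ_nonempty, ?_⟩, rfl, ?_⟩
  · intro u w h e
    have k1 := spec h
    have k2 := spec (u := w) (w := u) ⟨h.1.symm, by rw [pair_comm]; exact h.2⟩
    rw [← e, oriM_swap] at k2
    linarith only [k1, k2]
  · intro v P a ha hP hcl b hb
    have hm : Set.MapsTo (nx v) {x | (v ≠ x ∧ Fc {v, x}) ∧ P x} {x | (v ≠ x ∧ Fc {v, x}) ∧ P x} :=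
      fun x hx => ⟨⟨(tri (spec hx.1)).swap.rot.1, (tri (spec hx.1)).swap.rot.edge hd⟩,
        hcl x hx.1 hx.2⟩
    have hs := (((Set.toFinite _).injOn_iff_bijOn_of_mapsTo hm).1
      fun x hx z hz e => inj hx.1 hz.1 e).surjOn
    refine (hl.link v (fun x => (v ≠ x ∧ Fc {v, x}) ∧ P x) ?_ a b ha.1.symm hb.1.symm ha.2 hb.2
      ⟨ha, hP⟩).2
    intro x y hx hy hf hS
    by_cases e : y = x
    · rw [e]; exact hS
    have ht : oriT Fc v x y := ⟨hx.symm, hy, e, hf⟩
    rcases lt_or_gt_of_ne (nz ht) with c | c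
    · obtain ⟨z, hz, ez⟩ := hs hS
      rw [inj ⟨hy.symm, ht.swap.rot.edge hd⟩ hz.1 ((chr (flip c)).trans ez.symm)]
      exact hz
    · rw [← chr c]; exact hm hS
  · intro P a _ hP hcl b _
    refine hl.conn P (fun x y hf hx => ?_) a b hP
    by_cases e : x = y
    · rwa [← e]
    · exact hcl x y ⟨e, hf⟩ hx
  · have k1 := ori_darts (Fc := Fc) hr
    have k2 := ori_faces hr hd hl
    rw [Set.ncard_eq_toFinset_card', Set.toFinset_ofPred, card_univ]
    omega
  · intro s hs
    have k1 := hl.card s hs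
    have k2 := (hn s hs).card_pos
    rcases (by omega : s.card = 1 ∨ s.card = 2 ∨ s.card = 3) with c | c | c
    · obtain ⟨v, rfl⟩ := card_eq_one.1 c
      obtain ⟨w, hw, hf⟩ := hl.nb v
      exact ⟨v, w, ⟨hw.symm, hf⟩, by simp⟩
    · obtain ⟨u, w, huw, rfl⟩ := card_eq_two.1 c
      exact ⟨u, w, ⟨huw, hs⟩, by intro x; simp; tauto⟩
    · obtain ⟨u, w, y, a1, a2, a3, rfl⟩ := card_eq_three.1 c
      have ht : oriT Fc u w y := ⟨a1, a2.symm, a3.symm, hs⟩
      rcases lt_or_gt_of_ne (nz ht) with c | c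
      · exact ⟨u, y, ⟨a2, ht.swap.rot.edge hd⟩, by
          show ({u, w, y} : Finset V) ⊆ {u, y, nx u y}
          rw [chr (flip c)]; intro x; simp; tauto⟩
      · exact ⟨u, w, ⟨a1, ht.edge hd⟩, by
          show ({u, w, y} : Finset V) ⊆ {u, w, nx u w}
          rw [chr c]⟩

end Pool.Agent.MP_6209da_co

namespace Pool.Agent.MP_6209da_co

open Finset

/-- Weights for a point of the convex hull of an image, indexed by the whole vertex type. -/
theorem res_weights {V E : Type} [Fintype V] [AddCommGroup E] [Module ℝ E]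
    (f : V → E) (A : Set V) {y : E} (hy : y ∈ convexHull ℝ (f '' A)) :
    ∃ α : V → ℝ, (∀ v, 0 ≤ α v) ∧ (∀ v, v ∉ A → α v = 0) ∧ ∑ v, α v = 1 ∧
      ∑ v, α v • f v = y := by
  classical
  have hc : Convex ℝ {y : E | ∃ α : V → ℝ, (∀ v, 0 ≤ α v) ∧ (∀ v, v ∉ A → α v = 0) ∧
      ∑ v, α v = 1 ∧ ∑ v, α v • f v = y} := by
    rintro x ⟨α, h0, h1, h2, rfl⟩ z ⟨β, k0, k1, k2, rfl⟩ a b ha hb hab
    refine ⟨fun v => a * α v + b * β v, fun v => add_nonneg (mul_nonneg ha (h0 v))
      (mul_nonneg hb (k0 v)), fun v hv => by simp [h1 v hv, k1 v hv], ?_, ?_⟩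
    · rw [Finset.sum_add_distrib, ← Finset.mul_sum, ← Finset.mul_sum, h2, k2]
      simpa using hab
    · simp only [add_smul, mul_smul, Finset.sum_add_distrib, Finset.smul_sum]
  refine convexHull_min ?_ hc hy
  rintro _ ⟨v, hv, rfl⟩
  refine ⟨fun w => if w = v then 1 else 0, fun w => ?_, fun w hw => ?_, by simp only [sum_ite_eq', mem_univ, ↓ reduceIte], by simp only [ite_smul, one_smul, zero_smul, sum_ite_eq', mem_univ, ↓ reduceIte]⟩
  · dsimp only
    split_ifs <;> norm_num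
  · have : w ≠ v := fun e => hw (e ▸ hv)
    simp [this]

theorem res_mem {V E : Type} [Fintype V] [AddCommGroup E] [Module ℝ E]
    (f : V → E) (A : Set V) (α : V → ℝ) (h0 : ∀ v, 0 ≤ α v) (h1 : ∀ v, v ∉ A → α v = 0)
    (h2 : ∑ v, α v = 1) : ∑ v, α v • f v ∈ convexHull ℝ (f '' A) := by
  classical
  have e1 : ∑ v, α v • f v = ∑ v ∈ univ.filter (· ∈ A), α v • f v := by
    rw [Finset.sum_filter]
    refine Finset.sum_congr rfl fun v _ => ?_
    split_ifs with hv
    · rfl
    · rw [h1 v hv, zero_smul]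
  have e2 : ∑ v ∈ univ.filter (· ∈ A), α v = 1 := by
    rw [Finset.sum_filter, ← h2]
    refine Finset.sum_congr rfl fun v _ => ?_
    split_ifs with hv
    · rfl
    · rw [h1 v hv]
  rw [e1]
  exact (convex_convexHull ℝ _).sum_mem (fun v _ => h0 v) e2
    fun v hv => subset_convexHull ℝ _ ⟨v, (Finset.mem_filter.1 hv).2, rfl⟩

/-- Averaging an affine function of the first three coordinates. -/
theorem res_avg {V : Type} [Fintype V] (g : V → EuclideanSpace ℝ (Fin 3)) (α : V → ℝ)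
    (h2 : ∑ v, α v = 1) (a : Fin 3 → ℝ) (c : ℝ) :
    ∑ v, α v * (c + ∑ i : Fin 3, a i * g v i) = c + ∑ i : Fin 3, a i * (∑ v, α v • g v) i := by
  have e : ∀ i : Fin 3, (∑ v, α v • g v) i = ∑ v, α v * g v i := fun i => by
    simp only [WithLp.ofLp_sum, WithLp.ofLp_smul, Finset.sum_apply, Pi.smul_apply, smul_eq_mul]
  simp only [e, mul_add, Finset.sum_add_distrib, ← Finset.sum_mul, h2, one_mul, Finset.mul_sum]
  congr 1
  rw [Finset.sum_comm]
  exact Finset.sum_congr rfl fun i _ => Finset.sum_congr rfl fun v _ => by ring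

/-- Two convex combinations with the same projection, supported on faces `s` and `t`:
the first one is supported on `t` as well. -/
theorem res_key {V : Type} [Fintype V] (g : V → EuclideanSpace ℝ (Fin 3)) (H : V → ℝ)
    (s t : Finset V) (a b : Fin 3 → ℝ) (c d : ℝ)
    (hs : ∀ v, (v ∈ s → H v = c + ∑ i : Fin 3, a i * g v i) ∧
      (v ∉ s → c + ∑ i : Fin 3, a i * g v i < H v))
    (ht : ∀ v, (v ∈ t → H v = d + ∑ i : Fin 3, b i * g v i) ∧
      (v ∉ t → d + ∑ i : Fin 3, b i * g v i < H v))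
    (α β : V → ℝ) (h0 : ∀ v, 0 ≤ α v) (h1 : ∀ v, v ∉ s → α v = 0) (h2 : ∑ v, α v = 1)
    (k0 : ∀ v, 0 ≤ β v) (k1 : ∀ v, v ∉ t → β v = 0) (k2 : ∑ v, β v = 1)
    (e : ∑ v, α v • g v = ∑ v, β v • g v) : ∀ v, v ∉ t → α v = 0 := by
  have hs' : ∀ v, c + ∑ i : Fin 3, a i * g v i ≤ H v := fun v => by
    by_cases hv : v ∈ s
    · exact ((hs v).1 hv).ge
    · exact ((hs v).2 hv).le
  have ht' : ∀ v, d + ∑ i : Fin 3, b i * g v i ≤ H v := fun v => by
    by_cases hv : v ∈ t
    · exact ((ht v).1 hv).ge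
    · exact ((ht v).2 hv).le
  have a1 : ∑ v, α v * H v = ∑ v, α v * (c + ∑ i : Fin 3, a i * g v i) :=
    Finset.sum_congr rfl fun v _ => by
      by_cases hv : v ∈ s
      · rw [(hs v).1 hv]
      · rw [h1 v hv, zero_mul, zero_mul]
  have b1 : ∑ v, β v * H v = ∑ v, β v * (d + ∑ i : Fin 3, b i * g v i) :=
    Finset.sum_congr rfl fun v _ => by
      by_cases hv : v ∈ t
      · rw [(ht v).1 hv]
      · rw [k1 v hv, zero_mul, zero_mul]
  have b2 : ∑ v, β v * (c + ∑ i : Fin 3, a i * g v i) ≤ ∑ v, β v * H v :=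
    Finset.sum_le_sum fun v _ => mul_le_mul_of_nonneg_left (hs' v) (k0 v)
  have a3 := res_avg g α h2 a c
  have a4 := res_avg g α h2 b d
  have b3 := res_avg g β k2 a c
  have b4 := res_avg g β k2 b d
  rw [e] at a3 a4
  have z : ∑ v, α v * (H v - (d + ∑ i : Fin 3, b i * g v i)) ≤ 0 := by
    simp only [mul_sub, Finset.sum_sub_distrib]
    linarith
  have nn : ∀ v ∈ (univ : Finset V), 0 ≤ α v * (H v - (d + ∑ i : Fin 3, b i * g v i)) :=
    fun v _ => mul_nonneg (h0 v) (sub_nonneg.2 (ht' v))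
  have z0 := (Finset.sum_eq_zero_iff_of_nonneg nn).1 (le_antisymm z (Finset.sum_nonneg nn))
  intro v hv
  rcases mul_eq_zero.1 (z0 v (Finset.mem_univ v)) with h | h
  · exact h
  · have := (ht v).2 hv
    linarith only [h, this]

/-- Block Res: from lower supporting hyperplanes to exposed faces and a straight embedding. -/
theorem exposed_of_lower {V : Type} [Fintype V] [DecidableEq V]
    (p : V → EuclideanSpace ℝ (Fin 4)) (Fc : Finset V → Prop)
    (hn : ∀ s, Fc s → s.Nonempty) (hd : ∀ s t, Fc s → t ⊆ s → t.Nonempty → Fc t)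
    (h : ∀ s, Fc s → ∃ (a : Fin 3 → ℝ) (c : ℝ), ∀ v,
      (v ∈ s → p v 3 = c + ∑ i : Fin 3, a i * p v i.castSucc) ∧
      (v ∉ s → c + ∑ i : Fin 3, a i * p v i.castSucc < p v 3))
    (g : V → EuclideanSpace ℝ (Fin 3)) (hg : ∀ v i, g v i = p v i.castSucc) :
    (∀ s, Fc s → IsExposed ℝ (convexHull ℝ (Set.range p)) (convexHull ℝ (p '' (s : Set V)))) ∧
    (∀ s, Fc s → AffineIndependent ℝ (fun x : s => g x)) ∧
    ∀ s t, Fc s → Fc t → convexHull ℝ (g '' (s : Set V)) ∩ convexHull ℝ (g '' (t : Set V)) ⊆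
      convexHull ℝ (g '' ((s : Set V) ∩ (t : Set V))) := by
  have h' : ∀ s, Fc s → ∃ (a : Fin 3 → ℝ) (c : ℝ), ∀ v,
      (v ∈ s → p v 3 = c + ∑ i : Fin 3, a i * g v i) ∧
      (v ∉ s → c + ∑ i : Fin 3, a i * g v i < p v 3) := by
    simpa only [hg] using h
  have three : ∀ s t, Fc s → Fc t →
      convexHull ℝ (g '' (s : Set V)) ∩ convexHull ℝ (g '' (t : Set V)) ⊆
        convexHull ℝ (g '' ((s : Set V) ∩ (t : Set V))) := by
    rintro s t hs ht y ⟨ys, yt⟩
    obtain ⟨a, c, ha⟩ := h' s hs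
    obtain ⟨b, d, hb⟩ := h' t ht
    obtain ⟨α, h0, h1, h2, rfl⟩ := res_weights g _ ys
    obtain ⟨β, k0, k1, k2, e⟩ := res_weights g _ yt
    have := res_key g (fun v => p v 3) s t a b c d ha hb α β h0 h1 h2 k0 k1 k2 e.symm
    refine res_mem g _ α h0 (fun v hv => ?_) h2
    by_cases hvs : v ∈ s
    · exact this v fun hvt => hv ⟨hvs, hvt⟩
    · exact h1 v hvs
  refine ⟨fun s hs _ => ?_, fun s hs => ?_, three⟩
  · obtain ⟨a, c, ha⟩ := h s hs
    obtain ⟨l, hl⟩ : ∃ l : StrongDual ℝ (EuclideanSpace ℝ (Fin 4)),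
        ∀ x, l x = ∑ i : Fin 3, a i * x i.castSucc - x 3 :=
      ⟨∑ i : Fin 3, a i • EuclideanSpace.proj (𝕜 := ℝ) i.castSucc
        - EuclideanSpace.proj (𝕜 := ℝ) (3 : Fin 4), fun x => by
        simp⟩
    have l1 : ∀ v, v ∈ s → l (p v) = -c := fun v hv => by
      rw [hl, (ha v).1 hv]; ring
    have l2 : ∀ v, v ∉ s → l (p v) < -c := fun v hv => by
      have := (ha v).2 hv
      rw [hl]; linarith
    have l3 : ∀ v, l (p v) ≤ -c := fun v => by
      by_cases hv : v ∈ s
      · exact (l1 v hv).le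
      · exact (l2 v hv).le
    have lsum : ∀ α : V → ℝ, ∑ v, α v = 1 →
        -c - l (∑ v, α v • p v) = ∑ v, α v * (-c - l (p v)) := fun α h2 => by
      simp only [map_sum, map_smul, smul_eq_mul, mul_sub, Finset.sum_sub_distrib,
        ← Finset.sum_mul, h2, one_mul]
    have up : ∀ y ∈ convexHull ℝ (Set.range p), l y ≤ -c := fun y hy => by
      rw [← Set.image_univ] at hy
      obtain ⟨α, h0, -, h2, rfl⟩ := res_weights p _ hy
      have : 0 ≤ ∑ v, α v * (-c - l (p v)) :=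
        Finset.sum_nonneg fun v _ => mul_nonneg (h0 v) (sub_nonneg.2 (l3 v))
      rw [← lsum α h2] at this
      linarith
    refine ⟨l, Set.ext fun x => ⟨fun hx => ⟨?_, fun y hy => ?_⟩, ?_⟩⟩
    · exact convexHull_mono (Set.image_subset_range _ _) hx
    · obtain ⟨α, -, h1, h2, rfl⟩ := res_weights p _ hx
      have : ∑ v, α v * (-c - l (p v)) = 0 := Finset.sum_eq_zero fun v _ => by
        by_cases hv : v ∈ s
        · rw [l1 v hv, sub_self, mul_zero]
        · rw [h1 v hv, zero_mul]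
      rw [← lsum α h2] at this
      linarith [up y hy]
    · rintro ⟨hx, hm⟩
      obtain ⟨v₀, hv₀⟩ := hn s hs
      have m := hm (p v₀) (subset_convexHull ℝ _ ⟨v₀, rfl⟩)
      rw [l1 v₀ hv₀] at m
      rw [← Set.image_univ] at hx
      obtain ⟨α, h0, -, h2, rfl⟩ := res_weights p _ hx
      have nn : ∀ v ∈ (univ : Finset V), 0 ≤ α v * (-c - l (p v)) :=
        fun v _ => mul_nonneg (h0 v) (sub_nonneg.2 (l3 v))
      have z : ∑ v, α v * (-c - l (p v)) ≤ 0 := by
        rw [← lsum α h2]; linarith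
      have z0 := (Finset.sum_eq_zero_iff_of_nonneg nn).1 (le_antisymm z (Finset.sum_nonneg nn))
      refine res_mem p _ α h0 (fun v hv => ?_) h2
      rcases mul_eq_zero.1 (z0 v (Finset.mem_univ v)) with h | h
      · exact h
      · have := l2 v hv
        linarith
  · by_contra hdep
    obtain ⟨I, y, y1, y2⟩ := Convex.radon_partition hdep
    classical
    have key : ∀ J : Set s, y ∈ convexHull ℝ ((fun x : s => g x) '' J) →
        ∃ t : Finset V, Fc t ∧ (t : Set V) = Subtype.val '' J ∧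
          y ∈ convexHull ℝ (g '' (t : Set V)) := fun J hJ => by
      have e : (((univ.filter (· ∈ J)).image Subtype.val : Finset V) : Set V)
          = Subtype.val '' J := by
        ext v; simp only [univ_eq_attach, coe_image, coe_filter, mem_attach, true_and, Set.ofPred_mem_eq, Set.mem_image, Subtype.exists, exists_and_right, exists_eq_right]
      have hne : J.Nonempty := by
        rcases J.eq_empty_or_nonempty with rfl | hne
        · simp at hJ
        · exact hne
      refine ⟨_, hd s _ hs (fun v hv => ?_) ?_, e, ?_⟩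
      · obtain ⟨x, -, rfl⟩ := Finset.mem_image.1 hv
        exact x.2
      · rw [← Finset.coe_nonempty, e]
        exact hne.image _
      · rw [e, Set.image_image]
        exact hJ
    obtain ⟨t₁, f1, e1, m1⟩ := key I y1
    obtain ⟨t₂, f2, e2, m2⟩ := key Iᶜ y2
    have := three t₁ t₂ f1 f2 ⟨m1, m2⟩
    rw [e1, e2, ← Set.image_inter Subtype.val_injective] at this
    simp at this

end Pool.Agent.MP_6209da_co

/-!
From the invariant `J` to points of four-space in general position whose triangles, edges and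
vertices are lower faces.
-/

namespace Pool.Agent.MP_6209da_co

open Finset Filter Topology

/-- A determinant along a line whose direction has nonzero determinant vanishes only finitely
often. -/
theorem fin_det (A B : Matrix (Fin 5) (Fin 5) ℝ) (hA : A.det ≠ 0) :
    ∀ᶠ r in 𝓝[≠] (0 : ℝ), (r • A + B).det ≠ 0 := by
  have hq : (((Polynomial.X : Polynomial ℝ) • A.map Polynomial.C +
      B.map Polynomial.C).det) ≠ 0 := by
    intro h
    have := Polynomial.coeff_det_X_add_C_card A B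
    rw [h, Polynomial.coeff_zero] at this
    exact hA this.symm
  refine ((Polynomial.eventually_cofinite_not_isRoot hq).filter_mono
    (nhdsNE_le_cofinite 0)).mono fun r hr h => hr ?_
  have e := (Polynomial.evalRingHom r).map_det
    ((Polynomial.X : Polynomial ℝ) • A.map Polynomial.C + B.map Polynomial.C)
  have e' : (Polynomial.evalRingHom r).mapMatrix
      ((Polynomial.X : Polynomial ℝ) • A.map Polynomial.C + B.map Polynomial.C) = r • A + B := by
    ext i j
    simp only [RingHom.mapMatrix_apply, Matrix.map_apply, Matrix.add_apply, Matrix.smul_apply,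
      smul_eq_mul, Polynomial.coe_evalRingHom, Polynomial.eval_add, Polynomial.eval_mul,
      Polynomial.eval_X, Polynomial.eval_C]
  rw [e', h] at e
  exact e

/-- A functional that kills three points can follow the points when they move. -/
theorem fin_pert (x : Fin 3 → ℝ → W) (hx : ∀ i, Continuous (x i)) (g : Fin 3 → W) (f : W)
    (hf : ∀ i, x i 0 ⬝ᵥ f = 0) (hd : (Matrix.of fun i j => x i 0 ⬝ᵥ g j).det ≠ 0) :
    ∃ G : ℝ → W, ContinuousAt G 0 ∧ G 0 = f ∧ ∀ᶠ r in 𝓝 (0 : ℝ), ∀ i, x i r ⬝ᵥ G r = 0 := by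
  let M : ℝ → Matrix (Fin 3) (Fin 3) ℝ := fun r => Matrix.of fun i j => x i r ⬝ᵥ g j
  let b : ℝ → Fin 3 → ℝ := fun r i => x i r ⬝ᵥ f
  have hM : Continuous M :=
    continuous_pi fun i => continuous_pi fun j => (hx i).dotProduct continuous_const
  have hb : Continuous b := continuous_pi fun i => (hx i).dotProduct continuous_const
  have hb0 : b 0 = 0 := funext hf
  let c : ℝ → Fin 3 → ℝ := fun r => (M r).det⁻¹ • Matrix.mulVec (M r).adjugate (b r)
  have hc : ContinuousAt c 0 :=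
    (hM.matrix_det.continuousAt.inv₀ hd).smul (hM.matrix_adjugate.matrix_mulVec hb).continuousAt
  refine ⟨fun r => f - ∑ j, c r j • g j, ?_, ?_, ?_⟩
  · refine continuousAt_const.sub (tendsto_finsetSum _ fun j _ => ?_)
    exact (((continuous_apply j).continuousAt.comp hc).smul continuousAt_const)
  · simp [c, hb0]
  · filter_upwards [hM.matrix_det.continuousAt.eventually_ne hd] with r hr i
    have h1 : Matrix.mulVec (M r) (c r) = b r := by
      simp only [c, Matrix.mulVec_smul, Matrix.mulVec_mulVec, Matrix.mul_adjugate,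
        Matrix.smul_mulVec, Matrix.one_mulVec, smul_smul, inv_mul_cancel₀ hr, one_smul]
    have h2 := congrFun h1 i
    rw [dotProduct_sub, dotProduct_sum]
    simp only [dotProduct_smul, smul_eq_mul]
    simp only [Matrix.mulVec, M, b, Matrix.of_apply] at h2
    rw [← h2, sub_eq_zero]
    simp only [dotProduct]
    exact Finset.sum_congr rfl fun j _ => mul_comm _ _

/-- The supporting functional of a triangle follows the moving points. -/
theorem fin_dart {V : Type} [Fintype V] (T : Surf V) (hv : T.vs = univ) {X : V → W}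
    {F : V → V → W} {P : V → Fin 3 → W} (H : JD T X F P) (Y : V → ℝ → W)
    (hY : ∀ v, Continuous (Y v)) (h0 : ∀ v, Y v 0 = X v) (u w : V) :
    ∀ᶠ r in 𝓝 (0 : ℝ), ∃ G : W, T.adj u w →
      (Y u r ⬝ᵥ G = 0 ∧ Y w r ⬝ᵥ G = 0 ∧ Y (T.nx u w) r ⬝ᵥ G = 0) ∧
      (∀ z, z ≠ u → z ≠ w → z ≠ T.nx u w → 0 < Y z r ⬝ᵥ G) ∧ 0 < G 4 := by
  by_cases h : T.adj u w
  swap
  · exact Eventually.of_forall fun r => ⟨0, fun h' => absurd h' h⟩
  have hz : ∀ z, z ∈ T.vs := fun z => hv ▸ mem_univ z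
  have z1 : ∀ a b, T.adj a b → X a ⬝ᵥ F a b = 0 := H.zero
  have z2 : ∀ a b, T.adj a b → X b ⬝ᵥ F a b = 0 := fun a b hab => by
    rw [← H.inv a b hab]; exact H.zero _ _ (T.adj_nx hab)
  have z3 : ∀ a b, T.adj a b → X (T.nx a b) ⬝ᵥ F a b = 0 := fun a b hab => by
    rw [← H.inv a b hab]; exact z2 _ _ (T.adj_nx hab)
  have pp : ∀ a b, T.adj a b → 0 < X (T.nx a b) ⬝ᵥ F b a := fun a b hab =>
    H.pos b a _ (T.symm hab) (hz _) (T.nx_ne_right hab) (T.nx_ne_left hab) (T.ne hab)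
  have h2 := T.adj_nx h
  have h3 := T.adj_nx' h
  have p1 := pp _ _ h2
  have p2 := pp _ _ (T.symm h3)
  have p3 := pp _ _ h
  rw [T.nx_nx h] at p1
  rw [T.nx_nx' h] at p2
  obtain ⟨G, hG, hG0, hev⟩ := fin_pert ![Y u, Y w, Y (T.nx u w)]
    (fun i => by fin_cases i <;> exact hY _)
    ![F (T.nx u w) w, F u (T.nx u w), F w u] (F u w)
    (fun i => by
      fin_cases i
      · simpa [h0] using z1 _ _ h
      · simpa [h0] using z2 _ _ h
      · simpa [h0] using z3 _ _ h)
    (by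
      rw [Matrix.det_fin_three]
      simp only [Matrix.of_apply, Matrix.cons_val_zero, Matrix.cons_val_one, Matrix.cons_val_two,
        Matrix.head_cons, Matrix.tail_cons, h0, z1 _ _ h3, z2 _ _ h3, z1 _ _ (T.symm h),
        z2 _ _ (T.symm h), z1 _ _ (T.symm h2), z2 _ _ (T.symm h2)]
      have := mul_pos (mul_pos p1 p2) p3
      intro hh
      linarith)
  have e1 : ∀ᶠ r in 𝓝 (0 : ℝ), ∀ z, z ≠ u → z ≠ w → z ≠ T.nx u w → 0 < Y z r ⬝ᵥ G r := by
    refine eventually_all.2 fun z => ?_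
    by_cases hh : z ≠ u ∧ z ≠ w ∧ z ≠ T.nx u w
    · have hc : ContinuousAt (fun r => Y z r ⬝ᵥ G r) 0 := by
        unfold dotProduct
        refine tendsto_finsetSum _ fun j _ => ?_
        exact ((continuous_apply j).continuousAt.comp (hY z).continuousAt).mul
          ((continuous_apply j).continuousAt.comp hG)
      have hp : 0 < Y z 0 ⬝ᵥ G 0 := by
        rw [h0, hG0]; exact H.pos u w z h (hz z) hh.1 hh.2.1 hh.2.2
      exact (hc.eventually (lt_mem_nhds hp)).mono fun r hr _ _ _ => hr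
    · exact Eventually.of_forall fun r a b c => absurd ⟨a, b, c⟩ hh
  have e2 : ∀ᶠ r in 𝓝 (0 : ℝ), 0 < G r 4 := by
    have hc : ContinuousAt (fun r => G r 4) 0 := (continuous_apply 4).continuousAt.comp hG
    have hp : 0 < G 0 4 := by rw [hG0]; exact H.low u w h
    exact hc.eventually (lt_mem_nhds hp)
  filter_upwards [hev, e1, e2] with r a b c
  exact ⟨G r, fun _ => ⟨⟨a 0, a 1, a 2⟩, b, c⟩⟩

theorem fin_card {V : Type} [Fintype V] (T : Surf V) (hv : T.vs = univ) :
    5 ≤ Fintype.card V := by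
  have h1 := T.cnt
  have h2 := T.nonempty.card_pos
  have h3 : {p : V × V | T.adj p.1 p.2}.ncard ≤ Nat.card (V × V) := Set.ncard_le_card _
  rw [hv, card_univ] at h1 h2
  rw [h1, Nat.card_eq_fintype_card, Fintype.card_prod] at h3
  have := Nat.le_of_mul_le_mul_right h3 h2
  omega

/-- A vertex outside a subset of a triangle misses some triangle that contains the subset. -/
theorem fin_miss {V : Type} [Fintype V] [DecidableEq V] (T : Surf V) {s : Finset V} {u w v : V}
    (h : T.adj u w) (hs : s ⊆ {u, w, T.nx u w}) (hvs : v ∉ s) :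
    ∃ a b, T.adj a b ∧ s ⊆ {a, b, T.nx a b} ∧ v ≠ a ∧ v ≠ b ∧ v ≠ T.nx a b := by
  have key : ∀ a b, T.adj a b → v = T.nx a b → (∀ z ∈ s, z = a ∨ z = b ∨ z = T.nx a b) →
      ∃ a b, T.adj a b ∧ s ⊆ {a, b, T.nx a b} ∧ v ≠ a ∧ v ≠ b ∧ v ≠ T.nx a b := by
    intro a b hab e hz
    refine ⟨b, a, T.symm hab, fun z hzs => ?_, e ▸ T.nx_ne_right hab, e ▸ T.nx_ne_left hab,
      e ▸ T.ne hab⟩
    rcases hz z hzs with rfl | rfl | h'
    · simp
    · simp
    · exact absurd (h'.trans e.symm ▸ hzs) hvs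
  have hz : ∀ z ∈ s, z = u ∨ z = w ∨ z = T.nx u w := fun z hzs => by simpa using hs hzs
  by_cases e1 : v = u
  · refine key _ _ (T.adj_nx h) (by rw [T.nx_nx h, e1]) fun z hzs => ?_
    rw [T.nx_nx h]
    rcases hz z hzs with a | a | a <;> simp [a]
  by_cases e2 : v = w
  · refine key _ _ (T.symm (T.adj_nx' h)) (by rw [T.nx_nx' h, e2]) fun z hzs => ?_
    rw [T.nx_nx' h]
    rcases hz z hzs with a | a | a <;> simp [a]
  by_cases e3 : v = T.nx u w
  · exact key _ _ h e3 hz
  exact ⟨u, w, h, hs, e1, e2, e3⟩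

/-- Dehomogenisation turns linear independence into affine independence. -/
theorem fin_aff {ι : Type} (Z : ι → W) (h0 : ∀ v, 0 < Z v 0) (h : LinearIndependent ℝ Z) :
    AffineIndependent ℝ (fun v : ι =>
      (WithLp.toLp 2 fun i : Fin 4 => Z v i.succ / Z v 0 : EuclideanSpace ℝ (Fin 4))) := by
  rw [affineIndependent_iff]
  intro s c h1 h2 e he
  have h3 := linearIndependent_iff'.1 h s (fun v => c v / Z v 0) ?_ e he
  · exact (div_eq_zero_iff.1 h3).resolve_right (h0 e).ne'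
  funext j
  rw [Finset.sum_apply]
  refine Fin.cases ?_ (fun i => ?_) j
  · refine Eq.trans (Finset.sum_congr rfl fun v _ => ?_) h1
    simp [div_mul_cancel₀ _ (h0 v).ne']
  · have h4 := congrArg (fun q : EuclideanSpace ℝ (Fin 4) => q i) h2
    simp only [WithLp.ofLp_sum, Finset.sum_apply, WithLp.ofLp_smul, Pi.smul_apply,
      smul_eq_mul, WithLp.ofLp_zero, Pi.zero_apply] at h4
    refine Eq.trans (Finset.sum_congr rfl fun v _ => ?_) h4
    simp only [Pi.smul_apply, smul_eq_mul]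
    ring

theorem fin_mono {V : Type} (p : V → EuclideanSpace ℝ (Fin 4)) {s s' : Finset V} (a : s ⊆ s')
    (h : AffineIndependent ℝ (fun x : s' => p x)) : AffineIndependent ℝ (fun x : s => p x) := by
  have := h.comp_embedding (⟨fun x => ⟨x.1, a x.2⟩, fun x y h =>
    Subtype.ext (congrArg (fun z : s' => z.1) h)⟩ : s ↪ s')
  exact this

theorem final {V : Type} [Fintype V] [DecidableEq V] (T : Surf V) (hv : T.vs = univ) (hJ : J T) :
    ∃ p : V → EuclideanSpace ℝ (Fin 4),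
      (∀ s : Finset V, s.card ≤ 5 → AffineIndependent ℝ (fun x : s => p x)) ∧
      affineSpan ℝ (Set.range p) = ⊤ ∧
      ∀ s : Finset V, s.Nonempty → (∃ u w, T.adj u w ∧ s ⊆ {u, w, T.nx u w}) →
        ∃ (a : Fin 3 → ℝ) (c : ℝ), ∀ v,
          (v ∈ s → p v 3 = c + ∑ i : Fin 3, a i * p v i.castSucc) ∧
          (v ∉ s → c + ∑ i : Fin 3, a i * p v i.castSucc < p v 3) := by
  classical
  obtain ⟨X, F, P, H⟩ := hJ
  let t : V → ℝ := fun v => ((Fintype.equivFin V v : ℕ) : ℝ)
  have ht : Function.Injective t := fun a b h =>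
    (Fintype.equivFin V).injective (Fin.ext (Nat.cast_injective (R := ℝ) h))
  let Y : V → ℝ → W := fun v r => r • (fun j : Fin 5 => t v ^ (j : ℕ)) + X v
  have hY : ∀ v, Continuous (Y v) := fun v =>
    (continuous_id.smul continuous_const).add continuous_const
  have h0 : ∀ v, Y v 0 = X v := fun v => by simp [Y]
  have e1 : ∀ᶠ r in 𝓝[≠] (0 : ℝ), ∀ e : Fin 5 → V, Function.Injective e →
      LinearIndependent ℝ fun i => Y (e i) r := by
    refine eventually_all.2 fun e => ?_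
    by_cases he : Function.Injective e
    · refine (fin_det (Matrix.vandermonde (t ∘ e)) (Matrix.of fun i => X (e i))
        (Matrix.det_vandermonde_ne_zero_iff.2 (ht.comp he))).mono fun r hr _ => ?_
      exact Matrix.linearIndependent_rows_of_det_ne_zero hr
    · exact Eventually.of_forall fun r h => absurd h he
  have e2 : ∀ᶠ r in 𝓝 (0 : ℝ), ∀ v, 0 < Y v r 0 := by
    refine eventually_all.2 fun v => ?_
    have hc : ContinuousAt (fun r => Y v r 0) 0 :=
      ((continuous_apply 0).comp (hY v)).continuousAt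
    have hp : 0 < Y v 0 0 := by rw [h0]; exact H.one v (hv ▸ mem_univ v)
    exact hc.eventually (lt_mem_nhds hp)
  have e3 := eventually_all.2 fun u => eventually_all.2 fun w => fin_dart T hv H Y hY h0 u w
  obtain ⟨r, h1, h2, h3⟩ := (e1.and ((e2.and e3).filter_mono nhdsWithin_le_nhds)).exists
  choose G hG using h3
  have hV : 5 ≤ (univ : Finset V).card := by rw [card_univ]; exact fin_card T hv
  let p : V → EuclideanSpace ℝ (Fin 4) := fun v =>
    WithLp.toLp 2 fun i : Fin 4 => Y v r i.succ / Y v r 0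
  have h5 : ∀ s : Finset V, s.card = 5 → AffineIndependent ℝ (fun x : s => p x) := by
    intro s hs
    let q := s.equivFinOfCardEq hs
    have := h1 (fun i => q.symm i) (Subtype.val_injective.comp q.symm.injective)
    exact fin_aff (fun x : s => Y x r) (fun x => h2 x) ((linearIndependent_equiv q.symm).1 this)
  refine ⟨p, fun s hs => ?_, ?_, ?_⟩
  · obtain ⟨s', a, -, b⟩ := exists_subsuperset_card_eq (subset_univ s) hs hV
    exact fin_mono p a (h5 s' b)
  · obtain ⟨s', -, b⟩ := exists_subset_card_eq hV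
    have hc : Fintype.card s' = Module.finrank ℝ (EuclideanSpace ℝ (Fin 4)) + 1 := by
      rw [Fintype.card_coe, b, finrank_euclideanSpace_fin]
    have := (h5 s' b).affineSpan_eq_top_iff_card_eq_finrank_add_one.2 hc
    rw [eq_top_iff, ← this]
    refine affineSpan_mono ℝ ?_
    rintro _ ⟨x, rfl⟩
    exact ⟨x, rfl⟩
  · rintro s - ⟨u, w, huw, hs⟩
    let D : Finset (V × V) :=
      univ.filter fun d => T.adj d.1 d.2 ∧ s ⊆ {d.1, d.2, T.nx d.1 d.2}
    have hD : ∀ d, d ∈ D ↔ T.adj d.1 d.2 ∧ s ⊆ {d.1, d.2, T.nx d.1 d.2} := fun d => by simp only [D, mem_filter, mem_univ, true_and]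
    let K : W := ∑ d ∈ D, G d.1 d.2
    have hK : 0 < K 4 := by
      simp only [K, Finset.sum_apply]
      exact sum_pos (fun d hd => (hG _ _ ((hD d).1 hd).1).2.2) ⟨(u, w), (hD _).2 ⟨huw, hs⟩⟩
    have hzero : ∀ a b v, T.adj a b → (v = a ∨ v = b ∨ v = T.nx a b) → Y v r ⬝ᵥ G a b = 0 := by
      rintro a b v hab (rfl | rfl | rfl)
      · exact (hG _ _ hab).1.1
      · exact (hG _ _ hab).1.2.1
      · exact (hG _ _ hab).1.2.2
    have hform : ∀ v, p v 3 - (-(K 0 / K 4) + ∑ i : Fin 3, -(K i.castSucc.succ / K 4) *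
        p v i.castSucc) = (Y v r ⬝ᵥ K) / (Y v r 0 * K 4) := by
      intro v
      have a1 := (h2 v).ne'
      have a2 := hK.ne'
      simp only [p, dotProduct, Fin.sum_univ_three, Fin.sum_univ_five]
      change Y v r 4 / Y v r 0 - (-(K 0 / K 4) + (-(K 1 / K 4) * (Y v r 1 / Y v r 0) +
        -(K 2 / K 4) * (Y v r 2 / Y v r 0) + -(K 3 / K 4) * (Y v r 3 / Y v r 0))) = _
      field_simp
      ring
    refine ⟨fun i => -(K i.castSucc.succ / K 4), -(K 0 / K 4),
      fun v => ⟨fun hvs => ?_, fun hvs => ?_⟩⟩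
    · rw [← sub_eq_zero, hform, dotProduct_sum, sum_eq_zero, zero_div]
      intro d hd
      exact hzero _ _ v ((hD d).1 hd).1 (by simpa using ((hD d).1 hd).2 hvs)
    · rw [← sub_pos, hform, dotProduct_sum]
      refine div_pos (sum_pos' (fun d hd => ?_) ?_) (mul_pos (h2 v) hK)
      · by_cases hh : v = d.1 ∨ v = d.2 ∨ v = T.nx d.1 d.2
        · exact (hzero _ _ v ((hD d).1 hd).1 hh).ge
        · push Not at hh
          exact ((hG _ _ ((hD d).1 hd).1).2.1 v hh.1 hh.2.1 hh.2.2).le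
      · obtain ⟨a, b, hab, hs', n1, n2, n3⟩ := fin_miss T huw hs hvs
        exact ⟨(a, b), (hD _).2 ⟨hab, hs'⟩, (hG _ _ hab).2.1 v n1 n2 n3⟩

end Pool.Agent.MP_6209da_co
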